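import Pool.Agent.FIC.Defs

/-!
# Basic facts on the Berkovich affine line

* `ultra`: a multiplicative seminorm which extends a non-archimedean norm is non-archimedean:
  `ζ(g + h)^n = ζ((g + h)^n) ≤ ∑ ζ(binomial) ζ(g)^i ζ(h)^(n-i) ≤ (n + 1) max(ζ(g), ζ(h))^n` for all `n`
  (the binomial coefficients are constants of norm `≤ 1`).
* `del_le` etc.: `del ζ b = ζ((X - C a) + C (a - b))`, `ζ (C (a - b)) = ‖a - b‖` and
  `C (b - a) = (X - C a) - (X - C b)`.
* `val_eq_prod`: factor `g` over the algebraically closed field `K`.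
* topology: induced from `K[X] → ℝ`; `ζ ↦ (g ↦ ζ g)` is injective, so `BerkA K` is Hausdorff.
* `gp a r` is the sup norm on the disk `D(a, r)`: `g ↦ gaussNorm (norm) r (g.comp (X + C a))`
  (mathlib: `Polynomial.gaussNorm`, `gaussNorm_mul`, `gaussNorm_isAbsoluteValue`,
  `isNonarchimedean_gaussNorm`; the absolute value is `NormedField.toAbsoluteValue K` or similar).
* `exists_join`: if `del ζ a ≤ t` for some `a` then `max (del ζ b) t = max ‖a - b‖ t` for all `b`, so
  that `ξ = gp a t` works; otherwise `t < del ζ b` for all `b` and `ξ = ζ` works.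
-/

open Polynomial

noncomputable section

namespace Pool.Agent.FIC

variable {K : Type*} [NontriviallyNormedField K]

theorem val_nonneg (ζ : BerkA K) (g : K[X]) : 0 ≤ ζ.1 g := apply_nonneg ζ.1 g

theorem val_C (ζ : BerkA K) (c : K) : ζ.1 (C c) = ‖c‖ := ζ.2 c

theorem del_nonneg (ζ : BerkA K) (a : K) : 0 ≤ del ζ a := val_nonneg ζ _

theorem continuous_val (g : K[X]) : Continuous fun ζ : BerkA K => ζ.1 g :=
  (continuous_apply g).comp (continuous_induced_dom
    (f := fun (ζ : BerkA K) (g : K[X]) => ζ.1 g))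

theorem continuous_del (a : K) : Continuous fun ζ : BerkA K => del ζ a := continuous_val _

theorem BerkA.ext_val {ζ ξ : BerkA K} (h : ∀ g : K[X], ζ.1 g = ξ.1 g) : ζ = ξ :=
  Subtype.ext (DFunLike.ext _ _ h)

instance : T2Space (BerkA K) := by
  refine T2Space.of_injective_continuous (f := fun (ζ : BerkA K) (g : K[X]) => ζ.1 g) ?_
    continuous_induced_dom
  intro ζ ξ h
  exact BerkA.ext_val fun g => congrFun h g

theorem del_pt (x a : K) : del (pt x) a = ‖x - a‖ := by
  change ‖(X - C a : K[X]).eval x‖ = ‖x - a‖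
  simp

theorem val_pt (x : K) (g : K[X]) : (pt x : BerkA K).1 g = ‖g.eval x‖ := rfl

theorem pt_injective : Function.Injective (pt : K → BerkA K) := by
  intro x y h
  have h1 : del (pt x) y = del (pt y) y := by rw [h]
  rw [del_pt, del_pt, sub_self, norm_zero, norm_eq_zero, sub_eq_zero] at h1
  exact h1

section ultra

variable [IsUltrametricDist K]

omit [IsUltrametricDist K] in
theorem val_sum_le (ζ : BerkA K) {ι : Type*} (s : Finset ι) (u : ι → K[X]) :
    ζ.1 (∑ i ∈ s, u i) ≤ ∑ i ∈ s, ζ.1 (u i) := by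
  classical
  induction s using Finset.induction_on with
  | empty => simp
  | insert a s ha ih =>
    rw [Finset.sum_insert ha, Finset.sum_insert ha]
    exact (map_add_le_add ζ.1 _ _).trans (by gcongr)

theorem val_add_pow_le (ζ : BerkA K) (g h : K[X]) (n : ℕ) :
    ζ.1 (g + h) ^ n ≤ (n + 1) * max (ζ.1 g) (ζ.1 h) ^ n := by
  rw [← map_pow, add_pow]
  refine (val_sum_le ζ _ _).trans ?_
  have hM : 0 ≤ max (ζ.1 g) (ζ.1 h) := (val_nonneg ζ g).trans (le_max_left _ _)
  calc ∑ m ∈ Finset.range (n + 1), ζ.1 (g ^ m * h ^ (n - m) * (n.choose m : K[X]))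
      ≤ ∑ m ∈ Finset.range (n + 1), max (ζ.1 g) (ζ.1 h) ^ n := by
        refine Finset.sum_le_sum fun m hm => ?_
        rw [Finset.mem_range] at hm
        rw [map_mul, map_mul, map_pow, map_pow]
        have e : ((n.choose m : ℕ) : K[X]) = C ((n.choose m : ℕ) : K) := by simp
        rw [e, val_C]
        have h1 : ζ.1 g ^ m * ζ.1 h ^ (n - m) ≤ max (ζ.1 g) (ζ.1 h) ^ n := by
          calc ζ.1 g ^ m * ζ.1 h ^ (n - m) ≤
                max (ζ.1 g) (ζ.1 h) ^ m * max (ζ.1 g) (ζ.1 h) ^ (n - m) := by
                have h2 := val_nonneg ζ g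
                have h3 := val_nonneg ζ h
                gcongr
                · exact le_max_left _ _
                · exact le_max_right _ _
            _ = max (ζ.1 g) (ζ.1 h) ^ n := by
                rw [← pow_add]
                congr 1
                omega
        calc ζ.1 g ^ m * ζ.1 h ^ (n - m) * ‖((n.choose m : ℕ) : K)‖
            ≤ max (ζ.1 g) (ζ.1 h) ^ n * 1 := by
              gcongr
              exact IsUltrametricDist.norm_natCast_le_one K _
          _ = _ := mul_one _
    _ = (n + 1) * max (ζ.1 g) (ζ.1 h) ^ n := by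
        rw [Finset.sum_const, Finset.card_range, nsmul_eq_mul]
        push_cast
        ring

theorem ultra (ζ : BerkA K) (g h : K[X]) : ζ.1 (g + h) ≤ max (ζ.1 g) (ζ.1 h) := by
  by_contra hc
  rw [not_le] at hc
  set A := ζ.1 (g + h) with hA
  set M := max (ζ.1 g) (ζ.1 h) with hM
  have hM0 : 0 ≤ M := (val_nonneg ζ g).trans (le_max_left _ _)
  have hA0 : 0 < A := hM0.trans_lt hc
  have key : ∀ n : ℕ, A ^ n ≤ (n + 1) * M ^ n := val_add_pow_le ζ g h
  rcases hM0.eq_or_lt with h0 | h0
  · have := key 1
    rw [← h0] at this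
    simp only [pow_one, mul_zero] at this
    exact absurd this (not_le.2 hA0)
  · have h1 : 1 < A / M := (one_lt_div h0).2 hc
    have h2 : ∀ n : ℕ, (A / M) ^ n ≤ n + 1 := by
      intro n
      rw [div_pow, div_le_iff₀ (pow_pos h0 n)]
      exact key n
    have h3 := tendsto_pow_const_div_const_pow_of_one_lt 1 h1
    have h4 := tendsto_pow_const_div_const_pow_of_one_lt 0 h1
    have h5 := h3.add h4
    simp only [pow_one, pow_zero, add_zero] at h5
    have h6 := (h5.eventually (gt_mem_nhds (show (0 : ℝ) < 1 by norm_num))).exists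
    obtain ⟨n, hn⟩ := h6
    have h7 : 0 < (A / M) ^ n := pow_pos (by positivity) n
    rw [← add_div, div_lt_one h7] at hn
    exact absurd (h2 n) (not_le.2 hn)

theorem del_le (ζ : BerkA K) (a b : K) : del ζ b ≤ max (del ζ a) ‖a - b‖ := by
  have h := ultra ζ (X - C a) (C (a - b))
  rw [val_C, show (X - C a : K[X]) + C (a - b) = X - C b by rw [map_sub]; ring] at h
  exact h

theorem norm_sub_le_del (ζ : BerkA K) (a b : K) : ‖a - b‖ ≤ max (del ζ a) (del ζ b) := by
  have h := ultra ζ (-(X - C a)) (X - C b)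
  rw [map_neg_eq_map, show -(X - C a : K[X]) + (X - C b) = C (a - b) by rw [map_sub]; ring,
    val_C] at h
  exact h

theorem del_eq_of_lt {ζ : BerkA K} {a b : K} (h : del ζ a < ‖a - b‖) : del ζ b = ‖a - b‖ := by
  refine le_antisymm ((del_le ζ a b).trans (max_le h.le le_rfl)) ?_
  rcases le_max_iff.1 (norm_sub_le_del ζ a b) with h1 | h1
  · exact absurd h1 (not_le.2 h)
  · exact h1

theorem del_eq_of_lt' {ζ : BerkA K} {a b : K} (h : ‖a - b‖ < del ζ a) : del ζ b = del ζ a := by
  refine le_antisymm ((del_le ζ a b).trans (max_le le_rfl h.le)) ?_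
  rcases le_max_iff.1 (del_le ζ b a) with h1 | h1
  · exact h1
  · rw [norm_sub_rev] at h1
    exact absurd h1 (not_le.2 h)

variable [IsAlgClosed K]

omit [IsUltrametricDist K] in
theorem val_eq_prod (ζ : BerkA K) (g : K[X]) :
    ζ.1 g = ‖g.leadingCoeff‖ * (g.roots.map (del ζ)).prod := by
  conv_lhs => rw [(IsAlgClosed.splits g).eq_prod_roots]
  rw [map_mul, val_C, map_multiset_prod, Multiset.map_map]
  rfl

omit [IsUltrametricDist K] in
theorem BerkA.ext_del {ζ ξ : BerkA K} (h : ∀ a : K, del ζ a = del ξ a) : ζ = ξ := by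
  refine BerkA.ext_val fun g => ?_
  rw [val_eq_prod, val_eq_prod, show del ζ = del ξ from funext h]

theorem eq_pt_of_del_eq_zero {ζ : BerkA K} {a : K} (h : del ζ a = 0) : ζ = pt a := by
  refine BerkA.ext_del fun b => ?_
  rw [del_pt]
  by_cases hab : a = b
  · rw [← hab, h, sub_self, norm_zero]
  · refine del_eq_of_lt ?_
    rw [h, norm_pos_iff]
    exact sub_ne_zero.2 hab

/-- the norm of `K` as an absolute value -/
def abvK (K : Type*) [NontriviallyNormedField K] : AbsoluteValue K ℝ where
  toFun := norm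
  map_mul' := norm_mul
  nonneg' := norm_nonneg
  eq_zero' _ := norm_eq_zero
  add_le' := norm_add_le

/-- the point of the disk `D(a, r)`: the sup norm on the disk -/
theorem exists_gp (a : K) {r : ℝ} (hr : 0 < r) :
    ∃ ξ : BerkA K, ∀ b, del ξ b = max ‖a - b‖ r := by
  have hna : IsNonarchimedean (abvK K) := fun x y => IsUltrametricDist.norm_add_le_max x y
  have hadd := isNonarchimedean_gaussNorm (abvK K) hna hr.le
  have hmul := fun p q : K[X] => gaussNorm_mul hna hr p q
  let N : MulRingSeminorm K[X] :=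
    { toFun := fun g => (g.comp (X + C a)).gaussNorm (abvK K) r
      map_zero' := by simp
      add_le' := fun g h => by
        rw [add_comp]
        refine (hadd _ _).trans (max_le ?_ ?_)
        · exact le_add_of_nonneg_right (gaussNorm_nonneg _ _ hr.le)
        · exact le_add_of_nonneg_left (gaussNorm_nonneg _ _ hr.le)
      neg' := fun g => by
        have h1 : ((-1 : K[X])).gaussNorm (abvK K) r = 1 := by
          rw [show (-1 : K[X]) = C (-1) by simp, gaussNorm_C]
          change ‖(-1 : K)‖ = 1
          simp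
        rw [neg_comp, ← neg_one_mul, hmul, h1, one_mul]
      map_one' := by
        rw [one_comp, show (1 : K[X]) = C 1 by simp, gaussNorm_C, map_one]
      map_mul' := fun g h => by
        rw [mul_comp, hmul] }
  refine ⟨⟨N, fun c => ?_⟩, fun b => ?_⟩
  · change ((C c : K[X]).comp (X + C a)).gaussNorm (abvK K) r = ‖c‖
    rw [C_comp, gaussNorm_C]
    rfl
  · change ((X - C b : K[X]).comp (X + C a)).gaussNorm (abvK K) r = max ‖a - b‖ r
    have e : (X - C b : K[X]).comp (X + C a) = X + C (a - b) := by
      simp only [sub_comp, X_comp, C_comp, map_sub]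
      ring
    rw [e]
    have h1 : (X : K[X]).gaussNorm (abvK K) r = r := by
      rw [show (X : K[X]) = monomial 1 1 from rfl, gaussNorm_monomial, map_one]
      simp
    refine le_antisymm ?_ (max_le ?_ ?_)
    · refine (hadd _ _).trans ?_
      rw [h1, gaussNorm_C, max_comm]
      rfl
    · have h2 := le_gaussNorm (abvK K) (X + C (a - b)) hr.le 0
      simp only [coeff_add, coeff_X_zero, coeff_C_zero, zero_add, pow_zero, mul_one] at h2
      exact h2
    · have h2 := le_gaussNorm (abvK K) (X + C (a - b)) hr.le 1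
      simp only [coeff_add, coeff_X_one, coeff_C_succ, add_zero, map_one, pow_one, one_mul] at h2
      exact h2

/-- the point of the disk `D(a, r)` -/
def gp (a : K) (r : ℝ) : BerkA K :=
  open Classical in if hr : 0 < r then (exists_gp a hr).choose else pt a

theorem del_gp (a : K) {r : ℝ} (hr : 0 < r) (b : K) : del (gp a r) b = max ‖a - b‖ r := by
  rw [gp, dif_pos hr]
  exact (exists_gp a hr).choose_spec b

theorem exists_join (ζ : BerkA K) {t : ℝ} (ht : 0 ≤ t) :
    ∃ ξ : BerkA K, ∀ b, del ξ b = max (del ζ b) t := by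
  rcases ht.eq_or_lt with rfl | ht
  · exact ⟨ζ, fun b => (max_eq_left (del_nonneg ζ b)).symm⟩
  by_cases h : ∃ a, del ζ a ≤ t
  · obtain ⟨a, ha⟩ := h
    refine ⟨gp a t, fun b => ?_⟩
    rw [del_gp a ht]
    apply le_antisymm
    · refine max_le ?_ (le_max_right _ _)
      refine (norm_sub_le_del ζ a b).trans (max_le (ha.trans (le_max_right _ _))
        (le_max_left _ _))
    · refine max_le ?_ (le_max_right _ _)
      exact (del_le ζ a b).trans (max_le (ha.trans (le_max_right _ _)) (le_max_left _ _))
  · push Not at h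
    exact ⟨ζ, fun b => (max_eq_left (h b).le).symm⟩

end ultra

end Pool.Agent.FIC
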