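import Pool.Agent.FIC.BMS

/-!
# Disks on which a rational map scales distances

Let `f` have no pole on the open disk `D(x, s)` and `‖f z - f z'‖ = lam ‖z - z'‖` there.

* for `z ∈ D(x, s)`: `P - f(z) Q = (X - z) g` and `g` has no root in `D(x, s)`, `‖g z'‖ =
  lam ‖Q z'‖` (for `z' ≠ z` directly, for `z' = z` by continuity); so by `val_const`
  `del (f ζ) (f z) = lam * del ζ z` for `ζ ∈ odisc x s`.
* injectivity: `del ζ z` is determined for `z ∈ D(x, s)` by `f ζ` and equals `‖x - z‖` for other `z`.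
* surjectivity: let `ξ ∈ odisc (f x) (lam s)`; choose `t < s` with `del ξ (f x) < lam t`.  The image of
  the compact set `cdisc x t` is compact, hence closed in `BerkP K`, and contains all `pt τ` with
  `‖τ - f x‖ < lam t` (`RatOn.surj_open`); these are dense in `odisc (f x) (lam t)` (`dense_pt`).
* `count`: for `c = f z`, `z` is a simple root of `P - c Q` and the only one in `D(x, s)`.
-/

open Polynomial

noncomputable section

namespace Pool.Agent.FIC

variable {K : Type*} [NontriviallyNormedField K]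

/-- `f` has no pole on the open disk `D(x, s)` and multiplies distances by `lam` there -/
structure Scales (f : RatMap K) (x : K) (s lam : ℝ) : Prop where
  spos : 0 < s
  lpos : 0 < lam
  nopole : ∀ z, ‖z - x‖ < s → f.Q.eval z ≠ 0
  scale : ∀ z z', ‖z - x‖ < s → ‖z' - x‖ < s → ‖f.ev z - f.ev z'‖ = lam * ‖z - z'‖

variable [IsUltrametricDist K] [IsAlgClosed K]

theorem Scales.mono {f : RatMap K} {x x' : K} {s s' lam : ℝ} (h : Scales f x s lam) (hs : 0 < s')
    (hx : ‖x' - x‖ < s) (h' : s' ≤ s) : Scales f x' s' lam := by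
  have key : ∀ z, ‖z - x'‖ < s' → ‖z - x‖ < s := by
    intro z hz
    have h1 : z - x = (z - x') + (x' - x) := by ring
    rw [h1]
    exact (IsUltrametricDist.norm_add_le_max _ _).trans_lt (max_lt (hz.trans_le h') hx)
  exact ⟨hs, h.lpos, fun z hz => h.nopole z (key z hz),
    fun z z' hz hz' => h.scale z z' (key z hz) (key z' hz')⟩

theorem Scales.surj {f : RatMap K} {x : K} {s lam : ℝ} (h : Scales f x s lam) {τ : K}
    (hτ : ‖τ - f.ev x‖ < lam * s) : ∃ z, ‖z - x‖ < s ∧ f.ev z = τ :=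
  RatOn.surj_open h.lpos ⟨f.P, f.Q, fun z hz => ⟨h.nopole z hz, rfl⟩⟩ h.scale hτ

/-- `P - f(z) Q = (X - z) g` with `‖g z'‖ = lam ‖Q z'‖` on the disk -/
theorem Scales.factor {f : RatMap K} {x : K} {s lam : ℝ} (h : Scales f x s lam) {z : K}
    (hz : ‖z - x‖ < s) : ∃ g : K[X], f.P - C (f.ev z) * f.Q = (X - C z) * g ∧
      ∀ z', ‖z' - x‖ < s → ‖g.eval z'‖ = lam * ‖f.Q.eval z'‖ := by
  have hroot : (f.P - C (f.ev z) * f.Q).IsRoot z := by
    rw [IsRoot, eval_sub, eval_mul, eval_C, RatMap.ev, div_mul_cancel₀ _ (h.nopole z hz), sub_self]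
  obtain ⟨g, hg⟩ := dvd_iff_isRoot.2 hroot
  refine ⟨g, hg, ?_⟩
  have h1 : ∀ z', ‖z' - x‖ < s → z' ≠ z → ‖g.eval z'‖ = lam * ‖f.Q.eval z'‖ := by
    intro z' hz' hne
    have h2 := congrArg (fun p : K[X] => p.eval z') hg
    simp only [eval_sub, eval_mul, eval_C, eval_X] at h2
    have h3 : f.P.eval z' = f.ev z' * f.Q.eval z' := by
      rw [RatMap.ev, div_mul_cancel₀ _ (h.nopole z' hz')]
    rw [h3, ← sub_mul] at h2
    have h4 := congrArg norm h2
    rw [norm_mul, norm_mul, h.scale z' z hz' hz] at h4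
    have h5 : ‖z' - z‖ ≠ 0 := by
      rw [norm_ne_zero_iff]
      exact sub_ne_zero.2 hne
    apply mul_left_cancel₀ h5
    rw [← h4]
    ring
  intro z' hz'
  by_cases hne : z' = z
  · subst hne
    have h2 : Filter.Tendsto (fun w => ‖g.eval w‖) (nhdsWithin z' {z'}ᶜ) (nhds ‖g.eval z'‖) :=
      (g.continuous.norm.tendsto z').mono_left nhdsWithin_le_nhds
    have h3 : Filter.Tendsto (fun w => lam * ‖f.Q.eval w‖) (nhdsWithin z' {z'}ᶜ)
        (nhds (lam * ‖f.Q.eval z'‖)) :=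
      ((continuous_const.mul f.Q.continuous.norm).tendsto z').mono_left nhdsWithin_le_nhds
    have h4 : (fun w => ‖g.eval w‖) =ᶠ[nhdsWithin z' {z'}ᶜ] fun w => lam * ‖f.Q.eval w‖ := by
      have h5 : {w : K | ‖w - x‖ < s} ∈ nhds z' :=
        (isOpen_lt (by fun_prop) continuous_const : IsOpen {w : K | ‖w - x‖ < s}).mem_nhds hz'
      filter_upwards [mem_nhdsWithin_of_mem_nhds h5, self_mem_nhdsWithin] with w hw hw'
      exact h1 w hw hw'
    exact tendsto_nhds_unique h2 (h3.congr' h4.symm)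
  · exact h1 z' hz' hne

theorem Scales.map_eq {f : RatMap K} {x : K} {s lam : ℝ} (h : Scales f x s lam) {ζ : BerkA K}
    (hζ : del ζ x < s) : ∃ ξ : BerkA K, f.map (ζ : BerkP K) = (ξ : BerkP K) ∧
      (∀ z, ‖z - x‖ < s → del ξ (f.ev z) = lam * del ζ z) := by
  have hxx : ‖x - x‖ < s := by rw [sub_self, norm_zero]; exact h.spos
  have hQx : ζ.1 f.Q = ‖f.Q.eval x‖ := val_const h.nopole hζ
  have hQ : ζ.1 f.Q ≠ 0 := by
    rw [hQx, norm_ne_zero_iff]
    exact h.nopole x hxx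
  refine ⟨push f ζ hQ, map_coe_of_ne f hQ, ?_⟩
  intro z hz
  obtain ⟨g, hg, hgn⟩ := h.factor hz
  have hg0 : ∀ z', ‖z' - x‖ < s → g.eval z' ≠ 0 := by
    intro z' hz'
    rw [← norm_ne_zero_iff, hgn z' hz']
    exact mul_ne_zero h.lpos.ne' (norm_ne_zero_iff.2 (h.nopole z' hz'))
  rw [del_push, hg, map_mul, val_const hg0 hζ, hgn x hxx, hQx]
  have h1 : ‖f.Q.eval x‖ ≠ 0 := norm_ne_zero_iff.2 (h.nopole x hxx)
  change del ζ z * (lam * ‖f.Q.eval x‖) / ‖f.Q.eval x‖ = lam * del ζ z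
  field_simp

theorem Scales.injOn {f : RatMap K} {x : K} {s lam : ℝ} (h : Scales f x s lam) :
    Set.InjOn f.map ((fun ζ : BerkA K => (ζ : BerkP K)) '' odisc x s) := by
  rintro _ ⟨ζ, hζ, rfl⟩ _ ⟨ζ', hζ', rfl⟩ heq
  obtain ⟨ξ, h1, h2⟩ := h.map_eq hζ
  obtain ⟨ξ', h3, h4⟩ := h.map_eq hζ'
  simp only at heq
  rw [h1, h3] at heq
  have h5 : ξ = ξ' := OnePoint.coe_injective heq
  subst h5
  have h6 : ζ = ζ' := by
    apply BerkA.ext_del
    intro z
    by_cases hz : ‖z - x‖ < s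
    · have h7 := h2 z hz
      rw [h4 z hz] at h7
      exact (mul_left_cancel₀ h.lpos.ne' h7).symm
    · have h7 : s ≤ ‖x - z‖ := by
        rw [norm_sub_rev]
        exact not_lt.1 hz
      rw [del_eq_of_lt (lt_of_lt_of_le hζ h7), del_eq_of_lt (lt_of_lt_of_le hζ' h7)]
  rw [h6]

theorem Scales.image_odisc {f : RatMap K} {x : K} {s lam : ℝ} (h : Scales f x s lam) :
    f.map '' ((fun ζ : BerkA K => (ζ : BerkP K)) '' odisc x s) =
      (fun ζ : BerkA K => (ζ : BerkP K)) '' odisc (f.ev x) (lam * s) := by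
  have hxx : ‖x - x‖ < s := by rw [sub_self, norm_zero]; exact h.spos
  apply Set.Subset.antisymm
  · rintro _ ⟨_, ⟨ζ, hζ, rfl⟩, rfl⟩
    obtain ⟨ξ, h1, h2⟩ := h.map_eq hζ
    refine ⟨ξ, ?_, h1.symm⟩
    change del ξ (f.ev x) < lam * s
    rw [h2 x hxx]
    exact mul_lt_mul_of_pos_left hζ h.lpos
  · rintro _ ⟨ξ, hξ, rfl⟩
    change del ξ (f.ev x) < lam * s at hξ
    -- choose `t < s`
    have h1 : del ξ (f.ev x) / lam < s := by
      rw [div_lt_iff₀ h.lpos, mul_comm]
      exact hξ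
    obtain ⟨t, ht1, ht2⟩ := exists_between h1
    have ht0 : 0 < t := lt_of_le_of_lt (div_nonneg (del_nonneg _ _) h.lpos.le) ht1
    have hξt : del ξ (f.ev x) < lam * t := by
      rw [div_lt_iff₀ h.lpos, mul_comm] at ht1
      exact ht1
    have h' : Scales f x t lam := h.mono ht0 hxx ht2.le
    have hcomp : IsCompact (f.map '' ((fun ζ : BerkA K => (ζ : BerkP K)) '' cdisc x t)) :=
      ((isCompact_cdisc x t).image OnePoint.continuous_coe).image (continuous_map f)
    have hsub : (fun ζ : BerkA K => (ζ : BerkP K)) '' (odisc (f.ev x) (lam * t) ∩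
        Set.range (pt : K → BerkA K)) ⊆
        f.map '' ((fun ζ : BerkA K => (ζ : BerkP K)) '' cdisc x t) := by
      rintro _ ⟨_, ⟨hτ, τ, rfl⟩, rfl⟩
      change del (pt τ) (f.ev x) < lam * t at hτ
      rw [del_pt] at hτ
      obtain ⟨z, hz, hzτ⟩ := h'.surj hτ
      refine ⟨((pt z : BerkA K) : BerkP K), ⟨pt z, ?_, rfl⟩, ?_⟩
      · change del (pt z) x ≤ t
        rw [del_pt]
        exact hz.le
      · rw [map_pt f (h'.nopole z hz), hzτ]
    have hmem : ξ ∈ closure (odisc (f.ev x) (lam * t) ∩ Set.range (pt : K → BerkA K)) :=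
      dense_pt.open_subset_closure_inter (isOpen_odisc _ _) hξt
    have hmem2 : (ξ : BerkP K) ∈ closure ((fun ζ : BerkA K => (ζ : BerkP K)) ''
        (odisc (f.ev x) (lam * t) ∩ Set.range (pt : K → BerkA K))) :=
      image_closure_subset_closure_image OnePoint.continuous_coe ⟨ξ, hmem, rfl⟩
    have hmem3 := (closure_minimal hsub hcomp.isClosed) hmem2
    obtain ⟨_, ⟨ζ, hζ, rfl⟩, hζξ⟩ := hmem3
    refine ⟨(ζ : BerkP K), ⟨ζ, ?_, rfl⟩, hζξ⟩
    exact lt_of_le_of_lt hζ ht2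

theorem Scales.oneToOneOn {f : RatMap K} {x : K} {s lam : ℝ} (h : Scales f x s lam)
    {U : Set (BerkP K)} (hU : U ⊆ (fun ζ : BerkA K => (ζ : BerkP K)) '' odisc x s) :
    OneToOneOn f U := by
  classical
  have hxx : ‖x - x‖ < s := by rw [sub_self, norm_zero]; exact h.spos
  refine ⟨h.injOn.mono hU, ?_⟩
  intro c hc
  obtain ⟨ζ', hζ'U, hζ'c⟩ := hc
  obtain ⟨ζ, hζ, rfl⟩ := hU hζ'U
  obtain ⟨ξ, h1, h2⟩ := h.map_eq hζ
  simp only at hζ'c
  rw [h1] at hζ'c
  induction c using OnePoint.rec with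
  | infty => exact absurd hζ'c (OnePoint.coe_ne_infty ξ)
  | coe c =>
    have h3 : ξ = pt c := OnePoint.coe_injective hζ'c
    subst h3
    have h4 : ‖c - f.ev x‖ < lam * s := by
      rw [← del_pt, h2 x hxx]
      exact mul_lt_mul_of_pos_left hζ h.lpos
    obtain ⟨z, hz, hzc⟩ := h.surj h4
    have hzd : (pt z : BerkA K) ∈ odisc x s := by
      change del (pt z) x < s
      rw [del_pt]
      exact hz
    have h5 : ((pt z : BerkA K) : BerkP K) = (ζ : BerkP K) := by
      apply h.injOn ⟨pt z, hzd, rfl⟩ ⟨ζ, hζ, rfl⟩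
      rw [map_pt f (h.nopole z hz), hzc, h1]
    have hzU : ((pt z : BerkA K) : BerkP K) ∈ U := by
      rw [h5]
      exact hζ'U
    have hinf : (OnePoint.infty : BerkP K) ∉ U := by
      intro hh
      obtain ⟨ζ₁, -, h6⟩ := hU hh
      exact OnePoint.coe_ne_infty ζ₁ h6
    obtain ⟨g, hg, hgn⟩ := h.factor hz
    have hg0 : ∀ z', ‖z' - x‖ < s → g.eval z' ≠ 0 := by
      intro z' hz'
      rw [← norm_ne_zero_iff, hgn z' hz']
      exact mul_ne_zero h.lpos.ne' (norm_ne_zero_iff.2 (h.nopole z' hz'))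
    have hgne : g ≠ 0 := by
      rintro rfl
      exact hg0 x hxx eval_zero
    have hprod : (X - C z) * g ≠ 0 := mul_ne_zero (X_sub_C_ne_zero z) hgne
    change count f U ((c : K) : OnePoint K) = 1
    unfold count
    simp only [if_neg hinf, add_zero]
    rw [← hzc, hg, roots_mul hprod, roots_X_sub_C, Multiset.filter_add, Multiset.card_add,
      Multiset.filter_singleton, if_pos hzU, Multiset.card_singleton]
    have h7 : (g.roots.filter fun z => ((pt z : BerkA K) : BerkP K) ∈ U) = 0 := by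
      rw [Multiset.filter_eq_nil]
      intro w hw hwU
      obtain ⟨ζ₁, hζ₁, h8⟩ := hU hwU
      have h9 : ζ₁ = pt w := OnePoint.coe_injective h8
      subst h9
      change del (pt w) x < s at hζ₁
      rw [del_pt] at hζ₁
      exact hg0 w hζ₁ (isRoot_of_mem_roots hw)
    rw [h7, Multiset.card_zero]

end Pool.Agent.FIC
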