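import Pool.Agent.FIC.BD

/-!
# The flip: a simple pole whose neighbourhood is mapped onto a neighbourhood of `∞`

`Flips f w y s kap`: `w` is a simple pole, the only pole in the open disk `D(w, s)`, and on
`D(w, s) \ {w}`: `‖f z - y‖ = kap / ‖z - w‖`,
`‖f z - f z'‖ = kap ‖z - z'‖ / (‖z - w‖ ‖z' - w‖)`.

* classical surjectivity: `g = 1 / (f - y) = Q / (P - y Q)` has no pole on `D(w, s)`, `g w = 0` and
  scales distances by `1 / kap`; apply `RatOn.surj_open`.
* `Q = (X - w) Q₁`, `Q₁` without roots in `D(w, s)`; `P - y Q` has no root in `D(w, s)`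
  (`P(w) ≠ 0`), `‖P(w)‖ = kap ‖Q₁(w)‖` (limit `z → w`); so
  `del (f ζ) y = kap / del ζ w` for `ζ ∈ odisc w s`, `ζ ≠ pt w` (`val_const`).
* for `z ∈ D(w, s) \ {w}`: `P - f(z) Q = (X - z) g`, `g` without roots in `D(w, s)`,
  `‖g z'‖ / ‖Q₁ z'‖ = kap / ‖z - w‖`; so `del (f ζ) (f z) = kap del ζ z / (‖z - w‖ del ζ w)`.
* surjectivity as in `BD.lean` (the image of `cdisc w t`, `t < s`, is closed and contains all `pt τ`
  with `‖τ - y‖ > kap / t`).
-/

open Polynomial

noncomputable section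

namespace Pool.Agent.FIC

variable {K : Type*} [NontriviallyNormedField K]

/-- `w` is a flipping pole of `f` with centre of the image `y` -/
structure Flips (f : RatMap K) (w y : K) (s kap : ℝ) : Prop where
  spos : 0 < s
  kpos : 0 < kap
  pole : f.Q.eval w = 0
  simple : f.Q.derivative.eval w ≠ 0
  nopole : ∀ z, z ≠ w → ‖z - w‖ < s → f.Q.eval z ≠ 0
  dist : ∀ z, z ≠ w → ‖z - w‖ < s → ‖f.ev z - y‖ = kap / ‖z - w‖
  flip : ∀ z z', z ≠ w → z' ≠ w → ‖z - w‖ < s → ‖z' - w‖ < s →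
    ‖f.ev z - f.ev z'‖ = kap * ‖z - z'‖ / (‖z - w‖ * ‖z' - w‖)

/-- norms of polynomial values which are proportional off a finite set are proportional -/
theorem norm_eval_ext {g h : K[X]} {κ s : ℝ} {w : K} (S : Finset K)
    (hgh : ∀ z, z ∉ S → ‖z - w‖ < s → ‖g.eval z‖ = κ * ‖h.eval z‖) {z : K} (hz : ‖z - w‖ < s) :
    ‖g.eval z‖ = κ * ‖h.eval z‖ := by
  classical
  have h1 : Filter.Tendsto (fun z : K => ‖g.eval z‖) (nhdsWithin z {z}ᶜ) (nhds ‖g.eval z‖) :=
    (g.continuous.norm.tendsto z).mono_left nhdsWithin_le_nhds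
  have h2 : Filter.Tendsto (fun z : K => κ * ‖h.eval z‖) (nhdsWithin z {z}ᶜ)
      (nhds (κ * ‖h.eval z‖)) :=
    ((continuous_const.mul h.continuous.norm).tendsto z).mono_left nhdsWithin_le_nhds
  have h3 : ∀ᶠ z' in nhdsWithin z {z}ᶜ, ‖g.eval z'‖ = κ * ‖h.eval z'‖ := by
    have h4 : ∀ᶠ z' in nhds z, z' ∉ S.erase z := by
      have h5 : IsClosed ((S.erase z : Finset K) : Set K) := (Finset.finite_toSet _).isClosed
      exact h5.isOpen_compl.mem_nhds (by simp)
    have h5 : ∀ᶠ z' in nhds z, ‖z' - w‖ < s :=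
      (isOpen_lt (by fun_prop) continuous_const).mem_nhds hz
    filter_upwards [h4.filter_mono nhdsWithin_le_nhds, h5.filter_mono nhdsWithin_le_nhds,
      self_mem_nhdsWithin] with z' h6 h7 h8
    exact hgh z' (fun h9 => h6 (Finset.mem_erase.2 ⟨h8, h9⟩)) h7
  exact tendsto_nhds_unique (h1.congr' h3) h2

theorem Flips.exists_Q {f : RatMap K} {w y : K} {s kap : ℝ} (h : Flips f w y s kap) :
    ∃ Q₁ : K[X], f.Q = (X - C w) * Q₁ ∧ ∀ z, ‖z - w‖ < s → Q₁.eval z ≠ 0 := by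
  obtain ⟨Q₁, hQ₁⟩ := dvd_iff_isRoot.2 h.pole
  refine ⟨Q₁, hQ₁, ?_⟩
  intro z hz h0
  by_cases hzw : z = w
  · subst hzw
    apply h.simple
    rw [hQ₁, derivative_mul]
    simp [h0]
  · apply h.nopole z hzw hz
    rw [hQ₁, eval_mul, h0, mul_zero]

theorem ev_sub_eq {f : RatMap K} {z : K} (hz : f.Q.eval z ≠ 0) (c : K) :
    (f.P - C c * f.Q).eval z = f.Q.eval z * (f.ev z - c) := by
  rw [RatMap.ev]
  simp only [eval_sub, eval_mul, eval_C]
  field_simp

/-- the polynomial `P - y Q` on the disk -/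
theorem Flips.norm_y {f : RatMap K} {w y : K} {s kap : ℝ} (h : Flips f w y s kap) {Q₁ : K[X]}
    (hQ : f.Q = (X - C w) * Q₁) {z : K} (hz : ‖z - w‖ < s) :
    ‖(f.P - C y * f.Q).eval z‖ = kap * ‖Q₁.eval z‖ := by
  refine norm_eval_ext (w := w) (s := s) {w} ?_ hz
  intro z hzw hz
  rw [Finset.mem_singleton] at hzw
  have h1 : 0 < ‖z - w‖ := norm_pos_iff.2 (sub_ne_zero.2 hzw)
  rw [ev_sub_eq (h.nopole z hzw hz), norm_mul, h.dist z hzw hz, hQ, eval_mul, norm_mul]
  simp only [eval_sub, eval_X, eval_C]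
  field_simp

/-- the polynomial `P - f(z₀) Q` on the disk -/
theorem Flips.exists_g {f : RatMap K} {w y : K} {s kap : ℝ} (h : Flips f w y s kap) {Q₁ : K[X]}
    (hQ : f.Q = (X - C w) * Q₁) {z₀ : K} (hz₀ : z₀ ≠ w) (hz₀' : ‖z₀ - w‖ < s) :
    ∃ g : K[X], f.P - C (f.ev z₀) * f.Q = (X - C z₀) * g ∧
      ∀ z, ‖z - w‖ < s → ‖g.eval z‖ = kap / ‖z₀ - w‖ * ‖Q₁.eval z‖ := by
  classical
  have hroot : (f.P - C (f.ev z₀) * f.Q).eval z₀ = 0 := by
    rw [ev_sub_eq (h.nopole z₀ hz₀ hz₀'), sub_self, mul_zero]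
  obtain ⟨g, hg⟩ := dvd_iff_isRoot.2 hroot
  refine ⟨g, hg, ?_⟩
  intro z hz
  refine norm_eval_ext (w := w) (s := s) {w, z₀} ?_ hz
  intro z hzw hz
  rw [Finset.mem_insert, Finset.mem_singleton, not_or] at hzw
  have h1 : 0 < ‖z - w‖ := norm_pos_iff.2 (sub_ne_zero.2 hzw.1)
  have h2 : 0 < ‖z - z₀‖ := norm_pos_iff.2 (sub_ne_zero.2 hzw.2)
  have h3 : 0 < ‖z₀ - w‖ := norm_pos_iff.2 (sub_ne_zero.2 hz₀)
  have h4 : ‖(f.P - C (f.ev z₀) * f.Q).eval z‖ = ‖((X - C z₀) * g).eval z‖ := by rw [hg]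
  rw [ev_sub_eq (h.nopole z hzw.1 hz), norm_mul, h.flip z z₀ hzw.1 hz₀ hz hz₀', hQ, eval_mul,
    norm_mul, eval_mul, norm_mul] at h4
  simp only [eval_sub, eval_X, eval_C] at h4
  have h5 : ‖z - z₀‖ * ‖g.eval z‖ = ‖z - z₀‖ * (kap / ‖z₀ - w‖ * ‖Q₁.eval z‖) := by
    rw [← h4]; field_simp
  exact mul_left_cancel₀ h2.ne' h5

variable [IsUltrametricDist K] [IsAlgClosed K]

theorem Flips.surj {f : RatMap K} {w y : K} {s kap : ℝ} (h : Flips f w y s kap) {τ : K}
    (hτ : kap / s < ‖τ - y‖) : ∃ z, z ≠ w ∧ ‖z - w‖ < s ∧ f.ev z = τ := by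
  obtain ⟨Q₁, hQ, hQ₁⟩ := h.exists_Q
  have hR : ∀ z, ‖z - w‖ < s → (f.P - C y * f.Q).eval z ≠ 0 := by
    intro z hz h0
    have h1 := h.norm_y hQ hz
    rw [h0, norm_zero] at h1
    have h2 := mul_pos h.kpos (norm_pos_iff.2 (hQ₁ z hz))
    linarith
  have hkap := h.kpos
  have hs := h.spos
  have hτ0 : 0 < ‖τ - y‖ := lt_trans (div_pos hkap hs) hτ
  set g : K → K := fun z => f.Q.eval z / (f.P - C y * f.Q).eval z with hg
  have hgw : g w = 0 := by simp only [hg]; rw [h.pole, zero_div]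
  have hgz : ∀ z, z ≠ w → ‖z - w‖ < s → g z = (f.ev z - y)⁻¹ ∧ f.ev z - y ≠ 0 := by
    intro z hzw hz
    have h1 := h.nopole z hzw hz
    have h2 : f.ev z - y ≠ 0 := by
      intro h0
      apply hR z hz
      rw [ev_sub_eq h1, h0, mul_zero]
    refine ⟨?_, h2⟩
    simp only [hg]
    rw [ev_sub_eq h1]
    field_simp
  have hdist : ∀ z, z ≠ w → ‖z - w‖ < s → ‖g z‖ = kap⁻¹ * ‖z - w‖ := by
    intro z hzw hz
    rw [(hgz z hzw hz).1, norm_inv, h.dist z hzw hz]
    have : 0 < ‖z - w‖ := norm_pos_iff.2 (sub_ne_zero.2 hzw)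
    field_simp
  obtain ⟨z, hz, hgz'⟩ := RatOn.surj_open (g := g) (z₀ := w) (s := s) (lam := kap⁻¹)
    (inv_pos.2 hkap) ⟨f.Q, f.P - C y * f.Q, fun z hz => ⟨hR z hz, rfl⟩⟩ (by
      intro z z' hz hz'
      by_cases h1 : z = w
      · by_cases h2 : z' = w
        · rw [h1, h2]; simp
        · rw [h1, hgw, zero_sub, norm_neg, hdist z' h2 hz', norm_sub_rev]
      · by_cases h2 : z' = w
        · rw [h2, hgw, sub_zero, hdist z h1 hz]
        · obtain ⟨e1, e2⟩ := hgz z h1 hz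
          obtain ⟨e3, e4⟩ := hgz z' h2 hz'
          have e5 : g z - g z' = -(f.ev z - f.ev z') / ((f.ev z - y) * (f.ev z' - y)) := by
            rw [e1, e3]; field_simp; ring
          have hzp : 0 < ‖z - w‖ := norm_pos_iff.2 (sub_ne_zero.2 h1)
          have hzp' : 0 < ‖z' - w‖ := norm_pos_iff.2 (sub_ne_zero.2 h2)
          rw [e5, norm_div, norm_neg, norm_mul, h.flip z z' h1 h2 hz hz', h.dist z h1 hz,
            h.dist z' h2 hz']
          field_simp) (τ := (τ - y)⁻¹) (by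
      rw [hgw, sub_zero, norm_inv, inv_lt_comm₀ hτ0 (by positivity)]
      rw [mul_inv, inv_inv]
      exact hτ)
  have hτy : τ - y ≠ 0 := norm_pos_iff.1 hτ0
  have hzw : z ≠ w := by
    rintro rfl
    rw [hgw] at hgz'
    exact inv_ne_zero hτy hgz'.symm
  refine ⟨z, hzw, hz, ?_⟩
  rw [(hgz z hzw hz).1, inv_inj] at hgz'
  linear_combination hgz'

theorem Flips.map_eq {f : RatMap K} {w y : K} {s kap : ℝ} (h : Flips f w y s kap) {ζ : BerkA K}
    (hζ : del ζ w < s) (h0 : 0 < del ζ w) : ∃ ξ : BerkA K, f.map (ζ : BerkP K) = (ξ : BerkP K) ∧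
      del ξ y = kap / del ζ w ∧
      (∀ z, z ≠ w → ‖z - w‖ < s → del ξ (f.ev z) = kap * del ζ z / (‖z - w‖ * del ζ w)) := by
  obtain ⟨Q₁, hQ, hQ₁⟩ := h.exists_Q
  have hkap := h.kpos
  have hs := h.spos
  have hw : ‖w - w‖ < s := by simpa using hs
  have hQ₁w : 0 < ‖Q₁.eval w‖ := norm_pos_iff.2 (hQ₁ w hw)
  have hζQ : ζ.1 f.Q = del ζ w * ‖Q₁.eval w‖ := by
    rw [hQ, map_mul, val_const hQ₁ hζ]; rfl
  have hζQ0 : ζ.1 f.Q ≠ 0 := by rw [hζQ]; exact (mul_pos h0 hQ₁w).ne'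
  refine ⟨push f ζ hζQ0, map_coe_of_ne f hζQ0, ?_, ?_⟩
  · rw [del_push, hζQ, val_const (x := w) (s := s) ?_ hζ, h.norm_y hQ hw]
    · field_simp
    · intro z hz hz0
      have h1 := h.norm_y hQ hz
      rw [hz0, norm_zero] at h1
      have h2 := mul_pos hkap (norm_pos_iff.2 (hQ₁ z hz))
      linarith
  · intro z hzw hz
    obtain ⟨g, hg, hgn⟩ := h.exists_g hQ hzw hz
    have hzp : 0 < ‖z - w‖ := norm_pos_iff.2 (sub_ne_zero.2 hzw)
    rw [del_push, hζQ, hg, map_mul, val_const (x := w) (s := s) (g := g) ?_ hζ, hgn w hw]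
    · change del ζ z * _ / _ = _
      field_simp
    · intro z' hz' hz0
      have h1 := hgn z' hz'
      rw [hz0, norm_zero] at h1
      have h2 := mul_pos (div_pos hkap hzp) (norm_pos_iff.2 (hQ₁ z' hz'))
      linarith

theorem Flips.injOn {f : RatMap K} {w y : K} {s kap : ℝ} (h : Flips f w y s kap) :
    Set.InjOn f.map ((fun ζ : BerkA K => (ζ : BerkP K)) '' odisc w s) := by
  have hkap := h.kpos
  have key : ∀ ζ ∈ odisc w s, ∀ ζ' ∈ odisc w s, f.map ((ζ : BerkA K) : BerkP K) =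
      f.map ((ζ' : BerkA K) : BerkP K) → del ζ w = 0 → ζ' = ζ := by
    intro ζ hζ ζ' hζ' he h0
    have h1 : ζ = pt w := eq_pt_of_del_eq_zero h0
    rcases (del_nonneg ζ' w).eq_or_lt with h2 | h2
    · rw [h1]; exact eq_pt_of_del_eq_zero h2.symm
    · obtain ⟨ξ, hξ, -, -⟩ := h.map_eq hζ' h2
      rw [h1, map_pt_pole f h.pole, hξ] at he
      exact absurd he.symm (OnePoint.coe_ne_infty ξ)
  rintro _ ⟨ζ, hζ, rfl⟩ _ ⟨ζ', hζ', rfl⟩ he
  simp only at he ⊢
  rcases (del_nonneg ζ w).eq_or_lt with h1 | h1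
  · rw [key ζ hζ ζ' hζ' he h1.symm]
  rcases (del_nonneg ζ' w).eq_or_lt with h2 | h2
  · rw [key ζ' hζ' ζ hζ he.symm h2.symm]
  obtain ⟨ξ, hξ, hξy, hξz⟩ := h.map_eq hζ h1
  obtain ⟨ξ', hξ', hξy', hξz'⟩ := h.map_eq hζ' h2
  rw [hξ, hξ', OnePoint.coe_eq_coe] at he
  subst he
  have hw : del ζ w = del ζ' w := by
    rw [hξy] at hξy'
    have h3 : kap * del ζ' w = kap * del ζ w := by
      have h4 := (div_eq_div_iff h1.ne' h2.ne').1 hξy'
      exact h4
    exact (mul_left_cancel₀ hkap.ne' h3).symm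
  have hall : ζ = ζ' := by
    apply BerkA.ext_del
    intro a
    by_cases haw : a = w
    · rw [haw, hw]
    by_cases ha : ‖a - w‖ < s
    · have h3 := hξz a haw ha
      have h4 := hξz' a haw ha
      rw [h3, hw] at h4
      have hp : 0 < ‖a - w‖ * del ζ' w := mul_pos (norm_pos_iff.2 (sub_ne_zero.2 haw)) h2
      have h5 := (div_left_inj' hp.ne').1 h4
      exact mul_left_cancel₀ hkap.ne' h5
    · rw [not_lt, norm_sub_rev] at ha
      rw [del_eq_of_lt (lt_of_lt_of_le hζ ha), del_eq_of_lt (lt_of_lt_of_le hζ' ha)]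
  rw [hall]

/-- the image of the open disk around the pole is the complement of a closed disk -/
theorem Flips.image_odisc {f : RatMap K} {w y : K} {s kap : ℝ} (h : Flips f w y s kap) :
    f.map '' ((fun ζ : BerkA K => (ζ : BerkP K)) '' odisc w s) =
      ((fun ζ : BerkA K => (ζ : BerkP K)) '' cdisc y (kap / s))ᶜ := by
  have hkap := h.kpos
  have hs := h.spos
  apply Set.Subset.antisymm
  · rintro _ ⟨_, ⟨ζ, hζ, rfl⟩, rfl⟩
    rintro ⟨ξ', hξ', he⟩
    simp only at he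
    rcases (del_nonneg ζ w).eq_or_lt with h1 | h1
    · rw [eq_pt_of_del_eq_zero h1.symm, map_pt_pole f h.pole] at he
      exact OnePoint.coe_ne_infty _ he
    · obtain ⟨ξ, hξ, hξy, -⟩ := h.map_eq hζ h1
      rw [hξ, OnePoint.coe_eq_coe] at he
      subst he
      have h2 : del ξ' y ≤ kap / s := hξ'
      rw [hξy] at h2
      have h3 : kap / s < kap / del ζ w := div_lt_div_of_pos_left hkap h1 hζ
      linarith
  · intro η hη
    rcases em (η = OnePoint.infty) with h1 | h1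
    · rw [h1]
      refine ⟨_, ⟨pt w, ?_, rfl⟩, map_pt_pole f h.pole⟩
      change del (pt w) w < s
      rw [del_pt, sub_self, norm_zero]
      exact hs
    · obtain ⟨ξ, rfl⟩ := OnePoint.ne_infty_iff_exists.1 h1
      have hξ : kap / s < del ξ y := by
        by_contra hcon
        exact hη ⟨ξ, not_lt.1 hcon, rfl⟩
      -- a smaller radius
      have hd0 : 0 < del ξ y := lt_trans (div_pos hkap hs) hξ
      obtain ⟨t, ht1, ht2⟩ : ∃ t, kap / del ξ y < t ∧ t < s := by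
        apply exists_between
        rw [div_lt_iff₀ hd0, mul_comm]
        exact (div_lt_iff₀ hs).1 hξ
      have ht0 : 0 < t := lt_trans (div_pos hkap hd0) ht1
      have ht3 : kap / t < del ξ y := by
        rw [div_lt_iff₀ ht0]
        have := (div_lt_iff₀ hd0).1 ht1
        linarith
      have hcl : IsClosed (f.map '' ((fun ζ : BerkA K => (ζ : BerkP K)) '' cdisc w t)) := by
        apply IsCompact.isClosed
        apply IsCompact.image _ (continuous_map f)
        exact (isCompact_cdisc w t).image OnePoint.continuous_coe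
      have hmem : ((ξ : BerkA K) : BerkP K) ∈
          closure (f.map '' ((fun ζ : BerkA K => (ζ : BerkP K)) '' cdisc w t)) := by
        have hV : IsOpen {ξ' : BerkA K | kap / t < del ξ' y} :=
          isOpen_lt continuous_const (continuous_del y)
        have h2 : ξ ∈ closure ({ξ' : BerkA K | kap / t < del ξ' y} ∩ Set.range (pt : K → BerkA K)) :=
          dense_pt.open_subset_closure_inter hV ht3
        have h3 := image_closure_subset_closure_image (f := fun ζ : BerkA K => (ζ : BerkP K))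
          OnePoint.continuous_coe ⟨ξ, h2, rfl⟩
        refine closure_mono ?_ h3
        rintro _ ⟨_, ⟨hτ, ⟨τ, rfl⟩⟩, rfl⟩
        change kap / t < del (pt τ) y at hτ
        rw [del_pt] at hτ
        have h4 : kap / s < ‖τ - y‖ := lt_trans (div_lt_div_of_pos_left hkap ht0 ht2) hτ
        obtain ⟨z, hzw, hz, he⟩ := h.surj h4
        have hzp : 0 < ‖z - w‖ := norm_pos_iff.2 (sub_ne_zero.2 hzw)
        refine ⟨_, ⟨pt z, ?_, rfl⟩, ?_⟩
        · change del (pt z) w ≤ t
          rw [del_pt]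
          have h5 := h.dist z hzw hz
          rw [he] at h5
          rw [h5] at hτ
          by_contra hcon
          rw [not_le] at hcon
          have := div_lt_div_of_pos_left hkap ht0 hcon
          linarith
        · simp only
          rw [map_pt f (h.nopole z hzw hz), he]
      rw [hcl.closure_eq] at hmem
      refine Set.image_mono (Set.image_mono ?_) hmem
      intro ζ hζ
      exact lt_of_le_of_lt hζ ht2

theorem Flips.oneToOneOn {f : RatMap K} {w y : K} {s kap : ℝ} (h : Flips f w y s kap)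
    {U : Set (BerkP K)}
    (hU : U ⊆ (fun ζ : BerkA K => (ζ : BerkP K)) '' (odisc w s \ {pt w})) :
    OneToOneOn f U := by
  classical
  have hkap := h.kpos
  have hs := h.spos
  have hpos : ∀ ζ : BerkA K, ((ζ : BerkA K) : BerkP K) ∈ U → del ζ w < s ∧ 0 < del ζ w := by
    intro ζ hζ
    obtain ⟨ζ', ⟨h1, h2⟩, h3⟩ := hU hζ
    simp only [OnePoint.coe_eq_coe] at h3
    subst h3
    refine ⟨h1, lt_of_le_of_ne (del_nonneg _ _) ?_⟩
    intro h4
    exact h2 (eq_pt_of_del_eq_zero h4.symm)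
  have hinf : (OnePoint.infty : BerkP K) ∉ U := by
    intro h1
    obtain ⟨ζ', -, h3⟩ := hU h1
    exact OnePoint.coe_ne_infty _ h3
  refine ⟨h.injOn.mono (hU.trans (Set.image_mono Set.sdiff_subset)), ?_⟩
  intro c hc
  obtain ⟨η, hηU, hη⟩ := hc
  obtain ⟨ζ, -, rfl⟩ := hU hηU
  simp only at hηU hη
  obtain ⟨h1, h2⟩ := hpos ζ hηU
  obtain ⟨ξ, hξ, hξy, hξz⟩ := h.map_eq h1 h2
  rw [hξ] at hη
  rcases c with _ | c
  · exact absurd hη (OnePoint.coe_ne_infty _)
  · have hη' : ξ = pt c := OnePoint.coe_injective hη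
    subst hη'
    rw [del_pt] at hξy
    have h3 : kap / s < ‖c - y‖ := by
      rw [hξy]; exact div_lt_div_of_pos_left hkap h2 h1
    obtain ⟨z, hzw, hz, he⟩ := h.surj h3
    have hzp : 0 < ‖z - w‖ := norm_pos_iff.2 (sub_ne_zero.2 hzw)
    have h4 := hξz z hzw hz
    rw [he, del_pt, sub_self, norm_zero] at h4
    have h5 : del ζ z = 0 := by
      rcases div_eq_zero_iff.1 h4.symm with h6 | h6
      · rcases mul_eq_zero.1 h6 with h7 | h7
        · exact absurd h7 hkap.ne'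
        · exact h7
      · exact absurd h6 (mul_pos hzp h2).ne'
    have h6 : ζ = pt z := eq_pt_of_del_eq_zero h5
    obtain ⟨Q₁, hQ, hQ₁⟩ := h.exists_Q
    obtain ⟨g, hg, hgn⟩ := h.exists_g hQ hzw hz
    rw [he] at hg
    have hg0 : g ≠ 0 := by
      intro h7
      have h8 := hgn w (by simpa using hs)
      rw [h7, eval_zero, norm_zero] at h8
      have h9 := mul_pos (div_pos hkap hzp) (norm_pos_iff.2 (hQ₁ w (by simpa using hs)))
      linarith
    change (((f.P - C c * f.Q).roots.filter fun z => ((pt z : BerkA K) : BerkP K) ∈ U).card +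
      if OnePoint.infty ∈ U then f.degree - (f.P - C c * f.Q).natDegree else 0) = 1
    rw [if_neg hinf, add_zero, hg, roots_mul (mul_ne_zero (X_sub_C_ne_zero z) hg0), roots_X_sub_C,
      Multiset.filter_add, Multiset.card_add]
    have h7 : (g.roots.filter fun z => ((pt z : BerkA K) : BerkP K) ∈ U) = 0 := by
      rw [Multiset.filter_eq_nil]
      intro z' hz' hU'
      obtain ⟨h8, -⟩ := hpos _ hU'
      rw [del_pt] at h8
      have h9 := hgn z' h8
      rw [(mem_roots hg0).1 hz', norm_zero] at h9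
      have h10 := mul_pos (div_pos hkap hzp) (norm_pos_iff.2 (hQ₁ z' h8))
      linarith
    rw [h7, Multiset.card_zero, add_zero, Multiset.filter_singleton, if_pos (h6 ▸ hηU),
      Multiset.card_singleton]

end Pool.Agent.FIC
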