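import Pool.Agent.FIC.Defs

/-!
# Rational functions on disks: an intermediate value theorem

`ivt`: if `P/Q` has no pole on the closed disk `D(z₀, s)`, `z₁` is in that disk and
`‖τ - g(z₀)‖ ≤ ‖g(z₁) - g(z₀)‖`, `g = P/Q`, then `g` takes the value `τ` on the closed disk.

Proof.  `poly_noroot`: if `R : K[X]` has no root in `‖z - z₀‖ ≤ s`, then
`‖R(z) - R(z₀)‖ < ‖R(z₀)‖` for all `z` in the disk: write `R = C lc * ∏ (X - a_j)` over its roots
(`IsAlgClosed.splits`, `Polynomial.eq_prod_roots_of_splits`…), so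
`R(z) = R(z₀) ∏ (z - a_j)/(z₀ - a_j) = R(z₀) ∏ (1 + (z - z₀)/(z₀ - a_j))` with
`‖(z - z₀)/(z₀ - a_j)‖ < 1`, and a product of elements `1 + e_j`, `‖e_j‖ < 1`, is `1 + e`,
`‖e‖ < 1`.

`ivt`: suppose that `P - τ Q` has no root in the disk; put `m = ‖g(z₀) - τ‖`, `B = ‖Q(z₀)‖ > 0`;
then `‖(P - τQ)(z₀)‖ = B m`, so `m > 0`, and by `poly_noroot`
`‖(P - τQ)(z₁) - (P - τQ)(z₀)‖ < B m`, `‖Q(z₁) - Q(z₀)‖ < B` (so `‖Q(z₁)‖ = B`).  Now
`(P - g(z₀) Q)(z₁) = (P - g(z₀) Q)(z₁) - (P - g(z₀) Q)(z₀)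
  = [(P - τQ)(z₁) - (P - τQ)(z₀)] + (τ - g(z₀)) (Q(z₁) - Q(z₀))` has norm `< B m`, but its norm
is `B ‖g(z₁) - g(z₀)‖ ≥ B m`.
-/

open Polynomial

noncomputable section

namespace Pool.Agent.FIC

variable {K : Type*} [NontriviallyNormedField K] [IsUltrametricDist K]

theorem norm_add_lt' {x y : K} {r : ℝ} (hx : ‖x‖ < r) (hy : ‖y‖ < r) : ‖x + y‖ < r :=
  (IsUltrametricDist.norm_add_le_max x y).trans_lt (max_lt hx hy)

theorem norm_eq_of_sub_lt {x y : K} (h : ‖x - y‖ < ‖y‖) : ‖x‖ = ‖y‖ := by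
  apply le_antisymm
  · have := IsUltrametricDist.norm_add_le_max (x - y) y
    rw [sub_add_cancel] at this
    exact this.trans (max_le h.le le_rfl)
  · by_contra hc
    rw [not_le] at hc
    have := norm_add_lt' (x := x) (y := y - x) hc (by rwa [norm_sub_rev])
    rw [add_sub_cancel] at this
    exact lt_irrefl _ this

theorem prod_noroot {z z₀ : K} (S : Multiset K) (hS : ∀ a ∈ S, ‖z - z₀‖ < ‖z₀ - a‖) :
    ‖(S.map fun a => z - a).prod - (S.map fun a => z₀ - a).prod‖ <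
      ‖(S.map fun a => z₀ - a).prod‖ := by
  induction S using Multiset.induction_on with
  | empty => simp
  | cons a S ih =>
    have h1 := ih fun b hb => hS b (Multiset.mem_cons_of_mem hb)
    have h2 := hS a (Multiset.mem_cons_self a S)
    rw [Multiset.map_cons, Multiset.map_cons, Multiset.prod_cons, Multiset.prod_cons]
    set A := (S.map fun a => z - a).prod
    set B := (S.map fun a => z₀ - a).prod
    have hB : 0 < ‖B‖ := (norm_nonneg _).trans_lt h1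
    have ha : 0 < ‖z₀ - a‖ := (norm_nonneg _).trans_lt h2
    have hza : ‖z - a‖ = ‖z₀ - a‖ := by
      apply norm_eq_of_sub_lt
      rw [sub_sub_sub_cancel_right]
      exact h2
    have e : (z - a) * A - (z₀ - a) * B = (z - a) * (A - B) + (z - z₀) * B := by ring
    rw [e, norm_mul (z₀ - a) B]
    apply norm_add_lt'
    · rw [norm_mul, hza]
      exact mul_lt_mul_of_pos_left h1 ha
    · rw [norm_mul]
      exact mul_lt_mul_of_pos_right h2 hB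

theorem poly_noroot [IsAlgClosed K] {R : K[X]} {z₀ : K} {s : ℝ}
    (h : ∀ z, ‖z - z₀‖ ≤ s → R.eval z ≠ 0) {z : K} (hz : ‖z - z₀‖ ≤ s) :
    ‖R.eval z - R.eval z₀‖ < ‖R.eval z₀‖ := by
  have hs : 0 ≤ s := (norm_nonneg _).trans hz
  have h0 : R.eval z₀ ≠ 0 := h z₀ (by rw [sub_self, norm_zero]; exact hs)
  have hR : R ≠ 0 := by rintro rfl; exact h0 eval_zero
  have hspl := (IsAlgClosed.splits R).eq_prod_roots
  have hev : ∀ x : K, R.eval x = R.leadingCoeff * (R.roots.map fun a => x - a).prod := by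
    intro x
    conv_lhs => rw [hspl]
    rw [eval_mul, eval_C, eval_multiset_prod, Multiset.map_map]
    congr 3
    funext a
    simp
  have hroots : ∀ a ∈ R.roots, ‖z - z₀‖ < ‖z₀ - a‖ := by
    intro a ha
    rw [mem_roots hR, IsRoot.def] at ha
    by_contra hc
    rw [not_lt] at hc
    refine h a ?_ ha
    rw [norm_sub_rev]
    exact hc.trans hz
  have h1 := prod_noroot R.roots hroots
  rw [hev, hev, ← mul_sub, norm_mul, norm_mul]
  exact mul_lt_mul_of_pos_left h1 (norm_pos_iff.2 (leadingCoeff_ne_zero.2 hR))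

theorem poly_noroot_norm [IsAlgClosed K] {R : K[X]} {z₀ : K} {s : ℝ}
    (h : ∀ z, ‖z - z₀‖ ≤ s → R.eval z ≠ 0) {z : K} (hz : ‖z - z₀‖ ≤ s) :
    ‖R.eval z‖ = ‖R.eval z₀‖ := norm_eq_of_sub_lt (poly_noroot h hz)

theorem ivt [IsAlgClosed K] {P Q : K[X]} {z₀ z₁ τ : K}
    (hQ : ∀ z, ‖z - z₀‖ ≤ ‖z₁ - z₀‖ → Q.eval z ≠ 0)
    (hτ : ‖τ - P.eval z₀ / Q.eval z₀‖ ≤ ‖P.eval z₁ / Q.eval z₁ - P.eval z₀ / Q.eval z₀‖) :
    ∃ z, ‖z - z₀‖ ≤ ‖z₁ - z₀‖ ∧ P.eval z / Q.eval z = τ := by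
  by_contra hcon
  push Not at hcon
  set g₀ := P.eval z₀ / Q.eval z₀ with hg₀
  set g₁ := P.eval z₁ / Q.eval z₁ with hg₁
  have h00 : ‖z₀ - z₀‖ ≤ ‖z₁ - z₀‖ := by rw [sub_self, norm_zero]; exact norm_nonneg _
  have hQ0 := hQ z₀ h00
  have hQ1 := hQ z₁ le_rfl
  have hR : ∀ z, ‖z - z₀‖ ≤ ‖z₁ - z₀‖ → (P - C τ * Q).eval z ≠ 0 := by
    intro z hz h
    apply hcon z hz
    rw [eval_sub, eval_mul, eval_C, sub_eq_zero] at h
    rw [h, mul_div_assoc, div_self (hQ z hz), mul_one]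
  have h1 := poly_noroot hR (z := z₁) le_rfl
  have h2 := poly_noroot hQ (z := z₁) le_rfl
  have h3 : ‖Q.eval z₁‖ = ‖Q.eval z₀‖ := norm_eq_of_sub_lt h2
  simp only [eval_sub, eval_mul, eval_C] at h1
  have hP0 : P.eval z₀ = g₀ * Q.eval z₀ := by rw [hg₀, div_mul_cancel₀ _ hQ0]
  have hP1 : P.eval z₁ = g₁ * Q.eval z₁ := by rw [hg₁, div_mul_cancel₀ _ hQ1]
  have hB : 0 < ‖Q.eval z₀‖ := norm_pos_iff.2 hQ0
  have e0 : P.eval z₀ - τ * Q.eval z₀ = (g₀ - τ) * Q.eval z₀ := by rw [hP0]; ring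
  have hm : 0 < ‖τ - g₀‖ := by
    rw [norm_pos_iff, sub_ne_zero]
    intro h
    exact hcon z₀ h00 h.symm
  have h4 : ‖(P.eval z₁ - τ * Q.eval z₁) - (P.eval z₀ - τ * Q.eval z₀)‖ <
      ‖τ - g₀‖ * ‖Q.eval z₀‖ := by
    rw [e0, norm_mul (g₀ - τ), norm_sub_rev g₀ τ] at h1
    rwa [← e0] at h1
  have h5 : ‖(τ - g₀) * (Q.eval z₁ - Q.eval z₀)‖ < ‖τ - g₀‖ * ‖Q.eval z₀‖ := by
    rw [norm_mul]
    exact mul_lt_mul_of_pos_left h2 hm
  have h6 := norm_add_lt' h4 h5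
  have e1 : (P.eval z₁ - τ * Q.eval z₁) - (P.eval z₀ - τ * Q.eval z₀) +
      (τ - g₀) * (Q.eval z₁ - Q.eval z₀) = (g₁ - g₀) * Q.eval z₁ := by
    rw [hP0, hP1]; ring
  rw [e1, norm_mul, h3] at h6
  exact absurd (lt_of_mul_lt_mul_right h6 hB.le) (not_lt.2 hτ)

/-- `g` is given by a rational function without poles on the set `A` -/
def RatOn (A : Set K) (g : K → K) : Prop :=
  ∃ P Q : K[X], ∀ z ∈ A, Q.eval z ≠ 0 ∧ g z = P.eval z / Q.eval z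

omit [IsUltrametricDist K] in
theorem RatOn.mono {A B : Set K} {g : K → K} (h : RatOn B g) (hAB : A ⊆ B) : RatOn A g := by
  obtain ⟨P, Q, hPQ⟩ := h
  exact ⟨P, Q, fun z hz => hPQ z (hAB hz)⟩

omit [IsUltrametricDist K] in
theorem RatOn.congr {A : Set K} {g g' : K → K} (h : RatOn A g) (hg : ∀ z ∈ A, g' z = g z) :
    RatOn A g' := by
  obtain ⟨P, Q, hPQ⟩ := h
  exact ⟨P, Q, fun z hz => ⟨(hPQ z hz).1, by rw [hg z hz, (hPQ z hz).2]⟩⟩

omit [IsUltrametricDist K] in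
theorem RatOn.const (A : Set K) (c : K) : RatOn A fun _ => c :=
  ⟨C c, 1, fun z _ => ⟨by rw [eval_one]; exact one_ne_zero, by rw [eval_C, eval_one, div_one]⟩⟩

omit [IsUltrametricDist K] in
theorem RatOn.id (A : Set K) : RatOn A fun z => z :=
  ⟨X, 1, fun z _ => ⟨by rw [eval_one]; exact one_ne_zero, by rw [eval_X, eval_one, div_one]⟩⟩

omit [IsUltrametricDist K] in
theorem RatOn.add {A : Set K} {g h : K → K} (hg : RatOn A g) (hh : RatOn A h) :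
    RatOn A fun z => g z + h z := by
  obtain ⟨P, Q, hPQ⟩ := hg
  obtain ⟨P', Q', hPQ'⟩ := hh
  refine ⟨P * Q' + P' * Q, Q * Q', fun z hz => ?_⟩
  obtain ⟨h1, h2⟩ := hPQ z hz
  obtain ⟨h3, h4⟩ := hPQ' z hz
  rw [eval_mul, eval_add, eval_mul, eval_mul]
  refine ⟨mul_ne_zero h1 h3, ?_⟩
  beta_reduce
  rw [h2, h4]
  field_simp

omit [IsUltrametricDist K] in
theorem RatOn.sub {A : Set K} {g h : K → K} (hg : RatOn A g) (hh : RatOn A h) :
    RatOn A fun z => g z - h z := by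
  obtain ⟨P, Q, hPQ⟩ := hg
  obtain ⟨P', Q', hPQ'⟩ := hh
  refine ⟨P * Q' - P' * Q, Q * Q', fun z hz => ?_⟩
  obtain ⟨h1, h2⟩ := hPQ z hz
  obtain ⟨h3, h4⟩ := hPQ' z hz
  rw [eval_mul, eval_sub, eval_mul, eval_mul]
  refine ⟨mul_ne_zero h1 h3, ?_⟩
  beta_reduce
  rw [h2, h4]
  field_simp

omit [IsUltrametricDist K] in
theorem RatOn.mul {A : Set K} {g h : K → K} (hg : RatOn A g) (hh : RatOn A h) :
    RatOn A fun z => g z * h z := by
  obtain ⟨P, Q, hPQ⟩ := hg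
  obtain ⟨P', Q', hPQ'⟩ := hh
  refine ⟨P * P', Q * Q', fun z hz => ?_⟩
  obtain ⟨h1, h2⟩ := hPQ z hz
  obtain ⟨h3, h4⟩ := hPQ' z hz
  rw [eval_mul, eval_mul]
  refine ⟨mul_ne_zero h1 h3, ?_⟩
  beta_reduce
  rw [h2, h4, div_mul_div_comm]

omit [IsUltrametricDist K] in
theorem RatOn.inv {A : Set K} {g : K → K} (hg : RatOn A g) (h0 : ∀ z ∈ A, g z ≠ 0) :
    RatOn A fun z => (g z)⁻¹ := by
  obtain ⟨P, Q, hPQ⟩ := hg
  refine ⟨Q, P, fun z hz => ?_⟩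
  obtain ⟨h1, h2⟩ := hPQ z hz
  refine ⟨?_, by beta_reduce; rw [h2, inv_div]⟩
  intro h3
  apply h0 z hz
  rw [h2, h3, zero_div]

omit [IsUltrametricDist K] in
theorem RatOn.pow {A : Set K} {g : K → K} (hg : RatOn A g) (n : ℕ) :
    RatOn A fun z => g z ^ n := by
  induction n with
  | zero =>
    refine (RatOn.const A 1).congr fun z _ => ?_
    rw [pow_zero]
  | succ n ih =>
    refine (ih.mul hg).congr fun z _ => ?_
    rw [pow_succ]

omit [IsUltrametricDist K] in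
theorem RatOn.comp_poly {A : Set K} {g : K → K} (hg : RatOn A g) (P : K[X]) :
    RatOn A fun z => P.eval (g z) := by
  induction P using Polynomial.induction_on' with
  | add p q hp hq =>
    refine (hp.add hq).congr fun z _ => ?_
    rw [eval_add]
  | monomial n a =>
    refine ((RatOn.const A a).mul (hg.pow n)).congr fun z _ => ?_
    rw [eval_monomial]

omit [IsUltrametricDist K] in
/-- composition with a quotient of polynomials -/
theorem RatOn.comp_div {A : Set K} {g : K → K} (hg : RatOn A g) (P Q : K[X])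
    (h0 : ∀ z ∈ A, Q.eval (g z) ≠ 0) : RatOn A fun z => P.eval (g z) / Q.eval (g z) := by
  refine ((hg.comp_poly P).mul ((hg.comp_poly Q).inv h0)).congr fun z _ => ?_
  rw [div_eq_mul_inv]

/-- the intermediate value theorem for functions with `RatOn` -/
theorem RatOn.ivt [IsAlgClosed K] {A : Set K} {g : K → K} (hg : RatOn A g) {z₀ z₁ τ : K}
    (hA : ∀ z, ‖z - z₀‖ ≤ ‖z₁ - z₀‖ → z ∈ A) (hτ : ‖τ - g z₀‖ ≤ ‖g z₁ - g z₀‖) :
    ∃ z, ‖z - z₀‖ ≤ ‖z₁ - z₀‖ ∧ g z = τ := by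
  obtain ⟨P, Q, hPQ⟩ := hg
  have h00 : ‖z₀ - z₀‖ ≤ ‖z₁ - z₀‖ := by rw [sub_self, norm_zero]; exact norm_nonneg _
  rw [(hPQ z₀ (hA _ h00)).2, (hPQ z₁ (hA _ le_rfl)).2] at hτ
  obtain ⟨z, h1, h2⟩ := Pool.Agent.FIC.ivt (fun z hz => (hPQ z (hA z hz)).1) hτ
  exact ⟨z, h1, by rw [(hPQ z (hA z h1)).2, h2]⟩

omit [IsUltrametricDist K] in
/-- the value group is dense -/
theorem exists_norm_between [IsAlgClosed K] {a b : ℝ} (ha : 0 < a) (hab : a < b) :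
    ∃ x : K, a < ‖x‖ ∧ ‖x‖ < b := by
  obtain ⟨c, hc⟩ := NormedField.exists_one_lt_norm K
  have hba : 1 < b / a := (one_lt_div ha).2 hab
  obtain ⟨n, hn⟩ := pow_unbounded_of_one_lt ‖c‖ hba
  have hn0 : n ≠ 0 := by
    rintro rfl
    rw [pow_zero] at hn
    exact lt_asymm hc hn
  obtain ⟨x, hx⟩ := IsAlgClosed.exists_pow_nat_eq c (Nat.pos_of_ne_zero hn0)
  have hx1 : 1 < ‖x‖ := by
    by_contra hle
    rw [not_lt] at hle
    have := pow_le_one₀ (n := n) (norm_nonneg x) hle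
    rw [← norm_pow, hx] at this
    exact absurd hc (not_lt.2 this)
  have hx2 : ‖x‖ < b / a := by
    rw [← hx, norm_pow] at hn
    exact lt_of_pow_lt_pow_left₀ n (zero_le_one.trans hba.le) hn
  obtain ⟨m, hm1, hm2⟩ := exists_mem_Ico_zpow ha hx1
  refine ⟨x ^ (m + 1), ?_, ?_⟩
  · rw [norm_zpow]
    exact hm2
  · rw [norm_zpow, zpow_add_one₀ (zero_lt_one.trans hx1).ne']
    calc ‖x‖ ^ m * ‖x‖ ≤ a * ‖x‖ := mul_le_mul_of_nonneg_right hm1 (norm_nonneg _)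
      _ < a * (b / a) := mul_lt_mul_of_pos_left hx2 ha
      _ = b := mul_div_cancel₀ b ha.ne'

/-- a `RatOn` function which scales distances is onto a disk (open disks) -/
theorem RatOn.surj_open [IsAlgClosed K] {g : K → K} {z₀ : K} {s lam : ℝ} (hlam : 0 < lam)
    (hg : RatOn {z | ‖z - z₀‖ < s} g)
    (hs : ∀ z z', ‖z - z₀‖ < s → ‖z' - z₀‖ < s → ‖g z - g z'‖ = lam * ‖z - z'‖)
    {τ : K} (hτ : ‖τ - g z₀‖ < lam * s) : ∃ z, ‖z - z₀‖ < s ∧ g z = τ := by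
  have hs0 : 0 < s := by
    have := (norm_nonneg _).trans_lt hτ
    exact (mul_pos_iff_of_pos_left hlam).1 this
  have h00 : ‖z₀ - z₀‖ < s := by rw [sub_self, norm_zero]; exact hs0
  by_cases h0 : τ = g z₀
  · exact ⟨z₀, h00, h0.symm⟩
  have h1 : 0 < ‖τ - g z₀‖ / lam := div_pos (norm_pos_iff.2 (sub_ne_zero.2 h0)) hlam
  have h2 : ‖τ - g z₀‖ / lam < s := by
    rw [div_lt_iff₀ hlam, mul_comm]
    exact hτ
  obtain ⟨x, hx1, hx2⟩ := exists_norm_between (K := K) h1 h2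
  have h3 : ‖(z₀ + x) - z₀‖ = ‖x‖ := by rw [add_sub_cancel_left]
  have h6 : ∀ z, ‖z - z₀‖ ≤ ‖(z₀ + x) - z₀‖ → z ∈ {z | ‖z - z₀‖ < s} := by
    intro z hz
    rw [h3] at hz
    exact hz.trans_lt hx2
  have h7 : ‖τ - g z₀‖ ≤ ‖g (z₀ + x) - g z₀‖ := by
    rw [hs _ _ (by rw [h3]; exact hx2) h00, h3]
    rw [div_lt_iff₀ hlam, mul_comm] at hx1
    exact hx1.le
  obtain ⟨z, h4, h5⟩ := hg.ivt h6 h7
  exact ⟨z, h6 z h4, h5⟩

/-- a `RatOn` function which scales distances is onto a disk (closed disks with radius in the value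
group) -/
theorem RatOn.surj_closed [IsAlgClosed K] {g : K → K} {z₀ z₁ : K} {lam : ℝ}
    (hg : RatOn {z | ‖z - z₀‖ ≤ ‖z₁ - z₀‖} g)
    (hs : ‖g z₁ - g z₀‖ = lam * ‖z₁ - z₀‖)
    {τ : K} (hτ : ‖τ - g z₀‖ ≤ lam * ‖z₁ - z₀‖) : ∃ z, ‖z - z₀‖ ≤ ‖z₁ - z₀‖ ∧ g z = τ := by
  obtain ⟨z, h1, h2⟩ := hg.ivt (z₀ := z₀) (z₁ := z₁) (τ := τ) (fun z hz => hz) (by rw [hs]; exact hτ)
  exact ⟨z, h1, h2⟩

end Pool.Agent.FIC
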