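import Pool.Agent.FIC.BT
import Pool.Agent.FIC.IVT

/-!
# The action of a rational map on the Berkovich line: basic lemmas

* `del_push`: `homog P Q 1 (X - C a) = P - C a * Q`.
* `map_pt`: `(pt x).1 Q = ‖Q x‖`; `homog P Q m g` evaluated at `x` is `Q(x)^m g(P(x)/Q(x))`.
* `val_const`: `val_eq_prod` and, for a root `a` of `g`, `s ≤ ‖x - a‖`, so `del ζ a = ‖x - a‖`
  (`del_eq_of_lt`).
-/

open Polynomial

noncomputable section

namespace Pool.Agent.FIC

variable {K : Type*} [NontriviallyNormedField K]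

/-- the value of a rational map at a point of `K` which is not a pole -/
def RatMap.ev (f : RatMap K) (z : K) : K := f.P.eval z / f.Q.eval z

/-- `n`-th iterate of the classical evaluation -/
def RatMap.it (f : RatMap K) (n : ℕ) (z : K) : K := f.ev^[n] z

theorem RatMap.it_succ (f : RatMap K) (n : ℕ) (z : K) : f.it (n + 1) z = f.ev (f.it n z) :=
  Function.iterate_succ_apply' _ _ _

theorem RatMap.it_zero (f : RatMap K) (z : K) : f.it 0 z = z := rfl

theorem RatMap.it_add (f : RatMap K) (m n : ℕ) (z : K) : f.it (m + n) z = f.it m (f.it n z) :=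
  Function.iterate_add_apply _ _ _ _

theorem P_eval_ne_zero {f : RatMap K} {w : K} (h : f.Q.eval w = 0) : f.P.eval w ≠ 0 := by
  intro hP
  obtain ⟨a, b, hab⟩ := f.coprime
  have h1 := congrArg (eval w) hab
  simp only [eval_add, eval_mul, hP, h, mul_zero, add_zero, eval_one] at h1
  exact zero_ne_one h1

theorem del_push (f : RatMap K) (ζ : BerkA K) (hQ : ζ.1 f.Q ≠ 0) (a : K) :
    del (push f ζ hQ) a = ζ.1 (f.P - C a * f.Q) / ζ.1 f.Q := by
  change pushVal f ζ (X - C a) = _
  rw [pushVal_eq f ζ hQ (X - C a) 1 (natDegree_X_sub_C_le a), pow_one]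
  have : homog f.P f.Q 1 (X - C a) = f.P - C a * f.Q := by
    unfold homog
    rw [Finset.sum_range_succ, Finset.sum_range_succ, Finset.sum_range_zero]
    simp only [coeff_sub, coeff_X_zero, coeff_X_one, coeff_C_zero, coeff_C_succ, zero_sub, sub_zero,
      map_neg, map_one, pow_zero, pow_one, Nat.sub_zero, Nat.sub_self, one_mul, mul_one, zero_add]
    ring
  rw [this]

theorem push_pt (f : RatMap K) {x : K} (hx : f.Q.eval x ≠ 0) (hQ : (pt x : BerkA K).1 f.Q ≠ 0) :
    push f (pt x) hQ = pt (f.ev x) := by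
  refine Subtype.ext (MulRingSeminorm.ext fun g => ?_)
  change pushVal f (pt x) g = ‖g.eval (f.ev x)‖
  rw [pushVal, val_pt, val_pt, ← norm_pow, ← norm_div]
  congr 1
  rw [div_eq_iff (pow_ne_zero _ hx)]
  unfold homog
  rw [eval_finsetSum, eval_eq_sum_range, Finset.sum_mul]
  refine Finset.sum_congr rfl fun i hi => ?_
  rw [Finset.mem_range] at hi
  rw [eval_mul, eval_mul, eval_C, eval_pow, eval_pow, RatMap.ev, div_pow]
  obtain ⟨j, hj⟩ : ∃ j, g.natDegree = i + j := ⟨g.natDegree - i, by omega⟩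
  rw [hj, Nat.add_sub_cancel_left, pow_add]
  field_simp

theorem map_coe_of_ne (f : RatMap K) {ζ : BerkA K} (hQ : ζ.1 f.Q ≠ 0) :
    f.map (ζ : BerkP K) = ((push f ζ hQ : BerkA K) : BerkP K) := by
  change (if h : ζ.1 f.Q = 0 then OnePoint.infty else ((push f ζ h : BerkA K) : BerkP K)) = _
  rw [dif_neg hQ]

theorem map_coe_of_eq (f : RatMap K) {ζ : BerkA K} (hQ : ζ.1 f.Q = 0) :
    f.map (ζ : BerkP K) = OnePoint.infty := by
  change (if h : ζ.1 f.Q = 0 then OnePoint.infty else ((push f ζ h : BerkA K) : BerkP K)) = _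
  rw [dif_pos hQ]

theorem map_pt (f : RatMap K) {x : K} (hx : f.Q.eval x ≠ 0) :
    f.map ((pt x : BerkA K) : BerkP K) = ((pt (f.ev x) : BerkA K) : BerkP K) := by
  have hQ : (pt x : BerkA K).1 f.Q ≠ 0 := by
    rw [val_pt]; exact norm_ne_zero_iff.2 hx
  rw [map_coe_of_ne f hQ, push_pt f hx hQ]

theorem map_pt_pole (f : RatMap K) {x : K} (hx : f.Q.eval x = 0) :
    f.map ((pt x : BerkA K) : BerkP K) = OnePoint.infty :=
  map_coe_of_eq f (by rw [val_pt, hx, norm_zero])

variable [IsUltrametricDist K] [IsAlgClosed K]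

/-- the seminorm of a polynomial without roots on an open disk is constant on the Berkovich disk -/
theorem val_const {g : K[X]} {x : K} {s : ℝ} (h : ∀ z, ‖z - x‖ < s → g.eval z ≠ 0) {ζ : BerkA K}
    (hζ : del ζ x < s) : ζ.1 g = ‖g.eval x‖ := by
  have h1 := val_eq_prod ζ g
  have h2 := val_eq_prod (pt x) g
  rw [val_pt] at h2
  rw [h1, h2]
  congr 2
  refine Multiset.map_congr rfl fun a ha => ?_
  rw [del_pt]
  have hroot : g.eval a = 0 := (mem_roots'.1 ha).2
  have hxa : s ≤ ‖x - a‖ := by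
    by_contra hlt
    rw [not_le, norm_sub_rev] at hlt
    exact h a hlt hroot
  exact del_eq_of_lt (lt_of_lt_of_le hζ hxa)

end Pool.Agent.FIC
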