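import Pool.Agent.FIC.BM

/-!
# Rational maps are continuous on the Berkovich projective line

Away from the poles (`{ζ | ζ Q ≠ 0}` is open) `ζ ↦ push f ζ` is continuous because all
`ζ ↦ ζ(homog P Q m g) / ζ(Q)^m` are.  At a pole `ζ₀`, `ζ₀ Q = 0`, i.e. `ζ₀ = pt w` with
`Q(w) = 0 ≠ P(w)` (`val_eq_prod`, `eq_pt_of_del_eq_zero`): neighbourhoods of `∞` contain
`{ζ | s < del ζ 0}` (`mem_nhds_infty`), and `del (push f ζ) 0 = ζ P / ζ Q` (`del_push`) is large near
`ζ₀`.  At `∞` (`f(∞) = τ` or `∞`): for `t = del ζ 0` larger than the norms of all the roots of `h`,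
`ζ h = ‖lc h‖ t^(deg h)` (`val_eq_prod`, `del_eq_of_lt'`); apply this to `Q`, `P` and to `P - a Q` (it
suffices to control `del (push f ζ) a` for the finitely many `a` of a neighbourhood,
`isInducing_del`): if `deg Q = deg f` (nonzero coefficient), `τ = P_d / Q_d`, then for `a ≠ τ`
`ζ (P - a Q) / ζ Q → ‖P_d - a Q_d‖ / ‖Q_d‖ = ‖τ - a‖`, and for `a = τ` it tends to `0`; if
`Q_d = 0` then `ζ P / ζ Q → ∞`.
-/

open Polynomial Filter Topology

noncomputable section

namespace Pool.Agent.FIC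

section aux

variable {K : Type*} [NontriviallyNormedField K]

/-- the filter of the points of the Berkovich affine line which tend to infinity -/
def atInf : Filter (BerkA K) := comap (fun ζ => del ζ 0) atTop

theorem tendsto_del_atInf : Tendsto (fun ζ : BerkA K => del ζ 0) atInf atTop := tendsto_comap

theorem val_X (ζ : BerkA K) : ζ.1 X = del ζ 0 := by
  rw [del, map_zero, sub_zero]

theorem bmc_val_sum_le (ζ : BerkA K) (s : Finset ℕ) (u : ℕ → K[X]) :
    ζ.1 (∑ i ∈ s, u i) ≤ ∑ i ∈ s, ζ.1 (u i) := by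
  induction s using Finset.induction_on with
  | empty => simp
  | insert a s ha ih =>
    rw [Finset.sum_insert ha, Finset.sum_insert ha]
    exact (map_add_le_add ζ.1 _ _).trans (by gcongr)

/-- the values of a polynomial near infinity -/
theorem abs_val_sub_le (d : ℕ) (h : K[X]) (hd : h.natDegree ≤ d) (ζ : BerkA K)
    (hζ : 1 ≤ del ζ 0) :
    |ζ.1 h / del ζ 0 ^ d - ‖h.coeff d‖| ≤ (∑ i ∈ Finset.range d, ‖h.coeff i‖) / del ζ 0 := by
  have ht : 0 < del ζ 0 := by linarith
  have hX : ∀ (c : K) (i : ℕ), ζ.1 (C c * X ^ i) = ‖c‖ * del ζ 0 ^ i := by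
    intro c i
    rw [map_mul, map_pow, val_X, val_C]
  have e : h = ∑ i ∈ Finset.range d, C (h.coeff i) * X ^ i + C (h.coeff d) * X ^ d := by
    conv_lhs => rw [h.as_sum_range_C_mul_X_pow' (n := d + 1) (by omega)]
    rw [Finset.sum_range_succ]
  set low : K[X] := ∑ i ∈ Finset.range d, C (h.coeff i) * X ^ i with hlow
  have h1 : ζ.1 low * del ζ 0 ≤ (∑ i ∈ Finset.range d, ‖h.coeff i‖) * del ζ 0 ^ d := by
    have h2 : ζ.1 low ≤ ∑ i ∈ Finset.range d, ‖h.coeff i‖ * del ζ 0 ^ i := by
      refine (bmc_val_sum_le ζ _ _).trans (le_of_eq ?_)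
      exact Finset.sum_congr rfl fun i _ => hX _ _
    refine (mul_le_mul_of_nonneg_right h2 ht.le).trans ?_
    rw [Finset.sum_mul, Finset.sum_mul]
    refine Finset.sum_le_sum fun i hi => ?_
    rw [Finset.mem_range] at hi
    rw [mul_assoc, ← pow_succ]
    exact mul_le_mul_of_nonneg_left (pow_le_pow_right₀ hζ (by omega)) (norm_nonneg _)
  have h3 : |ζ.1 h - ‖h.coeff d‖ * del ζ 0 ^ d| ≤ ζ.1 low := by
    have h4 : ζ.1 (C (h.coeff d) * X ^ d) = ‖h.coeff d‖ * del ζ 0 ^ d := hX _ _
    rw [← h4]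
    refine (abs_sub_map_le_sub ζ.1 _ _).trans (le_of_eq ?_)
    congr 1
    nth_rewrite 1 [e]
    ring
  have hpos : 0 < del ζ 0 ^ d := pow_pos ht _
  have h5 : ζ.1 h / del ζ 0 ^ d - ‖h.coeff d‖ = (ζ.1 h - ‖h.coeff d‖ * del ζ 0 ^ d) / del ζ 0 ^ d := by
    field_simp
  rw [h5, abs_div, abs_of_pos hpos, div_le_div_iff₀ hpos ht]
  calc |ζ.1 h - ‖h.coeff d‖ * del ζ 0 ^ d| * del ζ 0 ≤ ζ.1 low * del ζ 0 := by gcongr
    _ ≤ _ := h1

theorem tendsto_val_atInf (d : ℕ) (h : K[X]) (hd : h.natDegree ≤ d) :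
    Tendsto (fun ζ : BerkA K => ζ.1 h / del ζ 0 ^ d) atInf (𝓝 ‖h.coeff d‖) := by
  rw [tendsto_iff_dist_tendsto_zero]
  have h1 : Tendsto (fun ζ : BerkA K => (∑ i ∈ Finset.range d, ‖h.coeff i‖) / del ζ 0) atInf
      (𝓝 0) := tendsto_del_atInf.const_div_atTop _
  refine squeeze_zero' (Eventually.of_forall fun _ => dist_nonneg) ?_ h1
  have h2 : ∀ᶠ ζ : BerkA K in atInf, 1 ≤ del ζ 0 := tendsto_del_atInf.eventually_ge_atTop 1
  filter_upwards [h2] with ζ hζ
  rw [Real.dist_eq]
  exact abs_val_sub_le d h hd ζ hζ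

theorem val_PQ_ne (f : RatMap K) (ζ : BerkA K) (h : ζ.1 f.Q = 0) : ζ.1 f.P ≠ 0 := by
  intro h'
  obtain ⟨u, v, huv⟩ := f.coprime
  have h1 : ζ.1 (1 : K[X]) ≤ 0 := by
    rw [← huv]
    refine (map_add_le_add ζ.1 _ _).trans ?_
    rw [map_mul, map_mul, h, h']
    simp
  rw [map_one] at h1
  linarith

end aux

variable {K : Type*} [NontriviallyNormedField K] [IsUltrametricDist K] [IsAlgClosed K]

/-- the rational map tends to infinity where the denominator is small compared to the numerator -/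
theorem tendsto_map_infty (f : RatMap K) (F : Filter (BerkA K)) (c : BerkA K → ℝ) (p : ℝ)
    (hp : 0 < p) (hc : ∀ᶠ ζ in F, 0 < c ζ) (h1 : Tendsto (fun ζ => ζ.1 f.P / c ζ) F (𝓝 p))
    (h2 : Tendsto (fun ζ => ζ.1 f.Q / c ζ) F (𝓝 0)) :
    Tendsto (fun ζ : BerkA K => f.map (ζ : BerkP K)) F (𝓝 (OnePoint.infty : BerkP K)) := by
  rw [tendsto_nhds]
  intro V hV hmem
  obtain ⟨s, hs⟩ := mem_nhds_infty hV hmem
  have h3 : ∀ᶠ ζ in F, p / 2 < ζ.1 f.P / c ζ := h1.eventually (lt_mem_nhds (by linarith))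
  have h4 : ∀ᶠ ζ in F, ζ.1 f.Q / c ζ < p / 2 / (|s| + 1) :=
    h2.eventually (gt_mem_nhds (by positivity))
  filter_upwards [hc, h3, h4] with ζ a1 a2 a3
  by_cases hQ : ζ.1 f.Q = 0
  · change f.map (ζ : BerkP K) ∈ V
    rw [map_coe_of_eq f hQ]
    exact hmem
  · change f.map (ζ : BerkP K) ∈ V
    rw [map_coe_of_ne f hQ]
    apply hs
    rw [del_push, map_zero, zero_mul, sub_zero]
    have hQ' : 0 < ζ.1 f.Q := lt_of_le_of_ne (val_nonneg ζ _) (Ne.symm hQ)
    rw [lt_div_iff₀ a1] at a2
    rw [div_lt_iff₀ a1, div_mul_eq_mul_div, lt_div_iff₀ (by positivity)] at a3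
    have h5 : ζ.1 f.Q * (|s| + 1) < ζ.1 f.P := a3.trans a2
    calc s ≤ |s| := le_abs_self s
      _ < |s| + 1 := by linarith
      _ < ζ.1 f.P / ζ.1 f.Q := by
        rw [lt_div_iff₀ hQ']
        linarith

theorem coclosedCompact_le_atInf : coclosedCompact (BerkA K) ≤ atInf := by
  intro U hU
  obtain ⟨W, hW, hWU⟩ := hU
  obtain ⟨R, hR⟩ := mem_atTop_sets.1 hW
  refine mem_of_superset
    ((isCompact_cdisc (0 : K) R).compl_mem_coclosedCompact_of_isClosed (isClosed_cdisc 0 R)) ?_
  intro ζ hζ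
  have hζ' : ¬ del ζ 0 ≤ R := hζ
  exact hWU (hR _ (not_le.1 hζ').le)

omit [IsUltrametricDist K] [IsAlgClosed K] in
theorem continuousOn_map (f : RatMap K) :
    ContinuousOn (fun ζ : BerkA K => f.map (ζ : BerkP K)) {ζ | ζ.1 f.Q ≠ 0} := by
  rw [continuousOn_iff_continuous_domRestrict]
  have e : ({ζ : BerkA K | ζ.1 f.Q ≠ 0}.domRestrict fun ζ : BerkA K => f.map (ζ : BerkP K)) =
      fun ζ => ((push f ζ.1 ζ.2 : BerkA K) : BerkP K) := by
    funext ζ
    exact map_coe_of_ne f ζ.2
  rw [e]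
  refine OnePoint.continuous_coe.comp ?_
  rw [continuous_induced_rng]
  refine continuous_pi fun g => ?_
  change Continuous fun ζ : {ζ : BerkA K | ζ.1 f.Q ≠ 0} => pushVal f ζ.1 g
  unfold pushVal
  refine Continuous.div ((continuous_val _).comp continuous_subtype_val)
    (((continuous_val _).comp continuous_subtype_val).pow _) fun ζ => pow_ne_zero _ ζ.2

omit [IsUltrametricDist K] [IsAlgClosed K] in
theorem coeff_P_ne_zero (f : RatMap K) (h : f.Q.coeff f.degree = 0) : f.P.coeff f.degree ≠ 0 := by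
  intro h'
  have hQ : f.Q.natDegree ≤ f.degree := le_max_right _ _
  have hP : f.P.natDegree ≤ f.degree := le_max_left _ _
  have key : ∀ g : K[X], g.natDegree = f.degree → g.coeff f.degree = 0 → g = 0 := by
    intro g e e'
    rw [← e] at e'
    exact leadingCoeff_eq_zero.1 e'
  have hunit : ∀ g : K[X], IsCoprime g 0 → g.natDegree = 0 := by
    intro g hg
    exact natDegree_eq_zero_of_isUnit (isCoprime_zero_right.1 hg)
  rcases max_choice f.P.natDegree f.Q.natDegree with e | e
  · have hP0 := key f.P e.symm h'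
    have hd : f.degree = 0 := by
      rw [RatMap.degree, e, hP0, natDegree_zero]
    have hQ0 : f.Q = 0 := key f.Q (by omega) h
    have := f.coprime
    rw [hP0, hQ0] at this
    exact not_isCoprime_zero_zero this
  · have hQ0 := key f.Q e.symm h
    have hd : f.degree = 0 := by
      rw [RatMap.degree, e, hQ0, natDegree_zero]
    have hP0 : f.P = 0 := key f.P (by omega) h'
    have := f.coprime
    rw [hP0, hQ0] at this
    exact not_isCoprime_zero_zero this

theorem continuous_map (f : RatMap K) : Continuous f.map := by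
  classical
  rw [continuous_iff_continuousAt]
  intro x
  induction x using OnePoint.rec with
  | infty =>
    rw [OnePoint.continuousAt_infty']
    refine Tendsto.mono_left ?_ coclosedCompact_le_atInf
    have hP : f.P.natDegree ≤ f.degree := le_max_left _ _
    have hQ : f.Q.natDegree ≤ f.degree := le_max_right _ _
    have hpos : ∀ᶠ ζ : BerkA K in atInf, 0 < del ζ 0 ^ f.degree := by
      filter_upwards [tendsto_del_atInf.eventually_gt_atTop 0] with ζ hζ
      exact pow_pos hζ _
    by_cases hq : f.Q.coeff f.degree = 0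
    · have e : f.map (OnePoint.infty : BerkP K) = OnePoint.infty := by
        change (if f.Q.coeff f.degree = 0 then (OnePoint.infty : BerkP K) else _) = _
        rw [if_pos hq]
      rw [e]
      refine tendsto_map_infty f atInf (fun ζ => del ζ 0 ^ f.degree) ‖f.P.coeff f.degree‖
        (norm_pos_iff.2 (coeff_P_ne_zero f hq)) hpos (tendsto_val_atInf _ _ hP) ?_
      have := tendsto_val_atInf _ _ hQ
      rwa [hq, norm_zero] at this
    · have e : f.map (OnePoint.infty : BerkP K) =
          ((pt (f.P.coeff f.degree / f.Q.coeff f.degree) : BerkA K) : BerkP K) := by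
        change (if f.Q.coeff f.degree = 0 then (OnePoint.infty : BerkP K) else _) = _
        rw [if_neg hq]
      rw [e]
      set G : BerkA K → BerkA K := fun ζ => if h : ζ.1 f.Q = 0 then pt 0 else push f ζ h with hG
      have hq' : 0 < ‖f.Q.coeff f.degree‖ := norm_pos_iff.2 hq
      have hne : ∀ᶠ ζ : BerkA K in atInf, ζ.1 f.Q ≠ 0 := by
        filter_upwards [(tendsto_val_atInf _ _ hQ).eventually (lt_mem_nhds hq')] with ζ hζ h0
        rw [h0, zero_div] at hζ
        exact lt_irrefl _ hζ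
      have hGt : Tendsto G atInf (𝓝 (pt (f.P.coeff f.degree / f.Q.coeff f.degree))) := by
        rw [isInducing_del.tendsto_nhds_iff, tendsto_pi_nhds]
        intro a
        change Tendsto (fun ζ => del (G ζ) a) atInf (𝓝 (del (pt _) a))
        rw [del_pt]
        have h1 : Tendsto (fun ζ : BerkA K => (ζ.1 (f.P - C a * f.Q) / del ζ 0 ^ f.degree) /
            (ζ.1 f.Q / del ζ 0 ^ f.degree)) atInf
            (𝓝 (‖(f.P - C a * f.Q).coeff f.degree‖ / ‖f.Q.coeff f.degree‖)) := by
          refine (tendsto_val_atInf _ _ ?_).div (tendsto_val_atInf _ _ hQ) hq'.ne'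
          refine (natDegree_sub_le _ _).trans (max_le hP ?_)
          exact (natDegree_C_mul_le _ _).trans hQ
        have e2 : ‖(f.P - C a * f.Q).coeff f.degree‖ / ‖f.Q.coeff f.degree‖ =
            ‖f.P.coeff f.degree / f.Q.coeff f.degree - a‖ := by
          rw [← norm_div, coeff_sub, coeff_C_mul]
          congr 1
          field_simp
        rw [e2] at h1
        refine h1.congr' ?_
        filter_upwards [hne, hpos] with ζ a1 a2
        rw [div_div_div_cancel_right₀ a2.ne', hG]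
        simp only [dif_neg a1]
        rw [del_push]
      have h2 := (OnePoint.continuous_coe.tendsto _).comp hGt
      refine h2.congr' ?_
      filter_upwards [hne] with ζ hζ
      simp only [Function.comp, hG, dif_neg hζ]
      exact (map_coe_of_ne f hζ).symm
  | coe ζ₀ =>
    rw [OnePoint.continuousAt_coe]
    by_cases hQ : ζ₀.1 f.Q = 0
    · have e : f.map (ζ₀ : BerkP K) = OnePoint.infty := map_coe_of_eq f hQ
      change Tendsto (fun ζ : BerkA K => f.map (ζ : BerkP K)) (𝓝 ζ₀) (𝓝 (f.map (ζ₀ : BerkP K)))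
      rw [e]
      refine tendsto_map_infty f (𝓝 ζ₀) (fun _ => 1) (ζ₀.1 f.P)
        (lt_of_le_of_ne (val_nonneg ζ₀ _) (Ne.symm (val_PQ_ne f ζ₀ hQ)))
        (Eventually.of_forall fun _ => one_pos) ?_ ?_
      · simp only [div_one]
        exact (continuous_val f.P).tendsto ζ₀
      · simp only [div_one]
        have := (continuous_val f.Q).tendsto ζ₀
        rwa [hQ] at this
    · exact (continuousOn_map f).continuousAt
        (((isOpen_ne.preimage (continuous_val f.Q))).mem_nhds hQ)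

theorem continuous_iter (f : RatMap K) (n : ℕ) : Continuous (f.map^[n]) :=
  (continuous_map f).iterate n

end Pool.Agent.FIC
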