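import Pool.Agent.FIC.BMC

/-!
# Rational maps of degree at least one are surjective on the Berkovich projective line

The image of `f.map` is compact (`BerkP K` is compact, `continuous_map`), hence closed; it contains
all `pt τ`, since `P(z) = τ Q(z)` has a solution `z` in `P¹(K)` (if `P - τ Q` is a nonzero constant
then its degree is less than `deg f`, so that `Q.coeff f.degree ≠ 0` and `f(∞) = τ`), and these points
are dense in `BerkA K` (`dense_pt`), hence in `BerkP K` (`BerkA K` is not compact, or show directly that
`∞` is in the image: `Q` has a root or `Q.coeff f.degree = 0`).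
-/

open Polynomial

noncomputable section

namespace Pool.Agent.FIC

variable {K : Type*} [NontriviallyNormedField K] [IsUltrametricDist K] [IsAlgClosed K]

open Classical in
omit [IsUltrametricDist K] [IsAlgClosed K] in
theorem bms_map_infty (f : RatMap K) : f.map OnePoint.infty = if f.Q.coeff f.degree = 0 then
    OnePoint.infty else ((pt (f.P.coeff f.degree / f.Q.coeff f.degree) : BerkA K) : BerkP K) := rfl

theorem bms_infty_mem_range (f : RatMap K) (hd : 1 ≤ f.degree) :
    (OnePoint.infty : BerkP K) ∈ Set.range f.map := by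
  by_cases h : ∃ z, f.Q.eval z = 0
  · obtain ⟨z, hz⟩ := h
    exact ⟨_, map_pt_pole f hz⟩
  · refine ⟨OnePoint.infty, ?_⟩
    rw [bms_map_infty, if_pos]
    have hdeg : f.Q.degree = 0 := by
      by_contra hne
      obtain ⟨z, hz⟩ := IsAlgClosed.exists_root f.Q hne
      exact h ⟨z, hz⟩
    have hnat : f.Q.natDegree = 0 := natDegree_eq_of_degree_eq_some hdeg
    exact coeff_eq_zero_of_natDegree_lt (by omega)

theorem bms_pt_mem_range (f : RatMap K) (hd : 1 ≤ f.degree) (τ : K) :
    ((pt τ : BerkA K) : BerkP K) ∈ Set.range f.map := by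
  by_cases h : ∃ z, (f.P - C τ * f.Q).eval z = 0
  · obtain ⟨z, hz⟩ := h
    rw [eval_sub, eval_mul, eval_C, sub_eq_zero] at hz
    have hQ : f.Q.eval z ≠ 0 := by
      intro hQ
      refine P_eval_ne_zero hQ ?_
      rw [hz, hQ, mul_zero]
    refine ⟨_, (map_pt f hQ).trans ?_⟩
    rw [RatMap.ev, hz, mul_div_cancel_right₀ _ hQ]
  · have hdeg : (f.P - C τ * f.Q).degree = 0 := by
      by_contra hne
      obtain ⟨z, hz⟩ := IsAlgClosed.exists_root _ hne
      exact h ⟨z, hz⟩
    have hnat : (f.P - C τ * f.Q).natDegree = 0 := natDegree_eq_of_degree_eq_some hdeg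
    have hcoeff : f.P.coeff f.degree - τ * f.Q.coeff f.degree = 0 := by
      have := coeff_eq_zero_of_natDegree_lt (p := f.P - C τ * f.Q) (n := f.degree) (by omega)
      rwa [coeff_sub, coeff_C_mul] at this
    have hQd : f.Q.coeff f.degree ≠ 0 := by
      intro hQd
      have hPd : f.P.coeff f.degree = 0 := by rw [hQd, mul_zero, sub_zero] at hcoeff; exact hcoeff
      rcases max_choice f.P.natDegree f.Q.natDegree with hm | hm
      · have h1 : f.degree = f.P.natDegree := hm
        rw [h1, coeff_natDegree, leadingCoeff_eq_zero] at hPd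
        rw [hPd, natDegree_zero] at h1
        omega
      · have h1 : f.degree = f.Q.natDegree := hm
        rw [h1, coeff_natDegree, leadingCoeff_eq_zero] at hQd
        rw [hQd, natDegree_zero] at h1
        omega
    refine ⟨OnePoint.infty, ?_⟩
    rw [bms_map_infty, if_neg hQd]
    congr 2
    rw [div_eq_iff hQd]
    exact sub_eq_zero.1 hcoeff

theorem surjective_map (f : RatMap K) (hd : 1 ≤ f.degree) : Function.Surjective f.map := by
  have hclosed : IsClosed (Set.range f.map) := (isCompact_range (continuous_map f)).isClosed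
  intro ζ
  induction ζ using OnePoint.rec with
  | infty => exact bms_infty_mem_range f hd
  | coe ζ =>
    have h1 : ζ ∈ closure (Set.range (pt : K → BerkA K)) := dense_pt ζ
    have h2 : (ζ : BerkP K) ∈ closure ((fun ξ : BerkA K => (ξ : BerkP K)) '' Set.range (pt : K → BerkA K)) :=
      image_closure_subset_closure_image OnePoint.continuous_coe (Set.mem_image_of_mem _ h1)
    refine closure_minimal ?_ hclosed h2
    rintro _ ⟨_, ⟨τ, rfl⟩, rfl⟩
    exact bms_pt_mem_range f hd τ

theorem surjective_iter (f : RatMap K) (hd : 1 ≤ f.degree) (n : ℕ) :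
    Function.Surjective (f.map^[n]) := (surjective_map f hd).iterate n

end Pool.Agent.FIC
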