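import Pool.Agent.FIC.BA
import Pool.Agent.FIC.IVT

/-!
# Topology of the Berkovich line

* `isCompact_cdisc`: `cdisc a s` is homeomorphic (by `ζ ↦ (g ↦ ζ g)`) to a closed subset of the
  compact product `∏_g [0, M g]`, `M g` a bound for `ζ g` on `cdisc a s` (`val_eq_prod`:
  `ζ g ≤ ‖lc g‖ ∏ max(s, ‖a - root‖)`); closed: the conditions defining a multiplicative seminorm
  which extends the norm, and `del ζ a ≤ s`, are closed.
* local compactness: every `ζ` lies in the open set `odisc a s ⊆ cdisc a s` for `s > del ζ a`.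
* `dense_pt`: let `U` be open, `ζ ∈ U`.  By `val_eq_prod` and the definition of the topology there are
  finitely many `a_1, …, a_k ∈ K` and `ε > 0` such that `|del ξ a_i - del ζ a_i| < ε` for all `i`
  implies `ξ ∈ U` (the topology is also induced by `ζ ↦ (a ↦ del ζ a)`, `isInducing_del`).  Let `a_1`
  have the smallest `s = del ζ a_i`; choose `x` with `s < ‖x - a_1‖ < s + δ` (the norm has dense image,
  `exists_norm_between`).  If `‖a_i - a_1‖ > s`, then `del ζ a_i = ‖a_i - a_1‖`, and
  `‖x - a_i‖ = ‖a_i - a_1‖` for small `δ`.  If `‖a_i - a_1‖ ≤ s` then `del ζ a_i = s` and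
  `‖x - a_i‖ = ‖x - a_1‖`.
-/

open Polynomial

noncomputable section

namespace Pool.Agent.FIC

variable {K : Type*} [NontriviallyNormedField K] [IsUltrametricDist K]

/-- closed Berkovich disks in the affine line -/
def cdisc (a : K) (s : ℝ) : Set (BerkA K) := {ζ | del ζ a ≤ s}

/-- open Berkovich disks in the affine line -/
def odisc (a : K) (s : ℝ) : Set (BerkA K) := {ζ | del ζ a < s}

theorem isOpen_odisc (a : K) (s : ℝ) : IsOpen (odisc a s) :=
  isOpen_lt (continuous_del a) continuous_const

theorem isClosed_cdisc (a : K) (s : ℝ) : IsClosed (cdisc a s) :=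
  isClosed_le (continuous_del a) continuous_const

theorem odisc_eq {a b : K} {s : ℝ} (h : ‖a - b‖ < s) : odisc a s = odisc b s := by
  ext ζ
  constructor
  · intro hζ
    exact (del_le ζ a b).trans_lt (max_lt hζ h)
  · intro hζ
    exact (del_le ζ b a).trans_lt (max_lt hζ (by rw [norm_sub_rev]; exact h))

theorem cdisc_eq {a b : K} {s : ℝ} (h : ‖a - b‖ ≤ s) : cdisc a s = cdisc b s := by
  ext ζ
  constructor
  · intro hζ
    exact (del_le ζ a b).trans (max_le hζ h)
  · intro hζ
    exact (del_le ζ b a).trans (max_le hζ (by rw [norm_sub_rev]; exact h))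

omit [IsUltrametricDist K] in
/-- the values of a polynomial are bounded on closed disks -/
theorem exists_bound (a : K) (s : ℝ) (g : K[X]) : ∃ M : ℝ, ∀ ζ ∈ cdisc a s, ζ.1 g ≤ M := by
  have hX : ∀ ζ ∈ cdisc a s, ζ.1 X ≤ s + ‖a‖ := by
    intro ζ hζ
    have h1 : (X : K[X]) = (X - C a) + C a := by ring
    rw [h1]
    refine (map_add_le_add ζ.1 _ _).trans ?_
    rw [val_C]
    exact add_le_add_left hζ _
  induction g using Polynomial.induction_on' with
  | add p q hp hq =>
    obtain ⟨M, hM⟩ := hp
    obtain ⟨M', hM'⟩ := hq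
    exact ⟨M + M', fun ζ hζ => (map_add_le_add ζ.1 _ _).trans (add_le_add (hM ζ hζ) (hM' ζ hζ))⟩
  | monomial n c =>
    refine ⟨‖c‖ * (s + ‖a‖) ^ n, fun ζ hζ => ?_⟩
    rw [← C_mul_X_pow_eq_monomial, map_mul, map_pow, val_C]
    exact mul_le_mul_of_nonneg_left (pow_le_pow_left₀ (val_nonneg ζ _) (hX ζ hζ) n)
      (norm_nonneg _)

omit [IsUltrametricDist K] in
theorem isInducing_val : Topology.IsInducing (fun (ζ : BerkA K) (g : K[X]) => ζ.1 g) := ⟨rfl⟩

omit [IsUltrametricDist K] in
theorem isCompact_cdisc' (a : K) (s : ℝ) : IsCompact (cdisc a s) := by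
  rw [isInducing_val.isCompact_iff]
  choose M hM using exists_bound a s
  have hcomp : IsCompact (Set.univ.pi fun g : K[X] => Set.Icc (0 : ℝ) (M g)) :=
    isCompact_univ_pi fun g => isCompact_Icc
  have himage : (fun (ζ : BerkA K) (g : K[X]) => ζ.1 g) '' cdisc a s =
      {f : K[X] → ℝ | (∀ g h, f (g + h) ≤ f g + f h) ∧ (∀ g h, f (g * h) = f g * f h) ∧
        (∀ c : K, f (C c) = ‖c‖) ∧ (∀ g, f (-g) = f g) ∧ f (X - C a) ≤ s} := by
    ext f
    constructor
    · rintro ⟨ζ, hζ, rfl⟩
      exact ⟨fun g h => map_add_le_add ζ.1 g h, fun g h => map_mul ζ.1 g h, fun c => val_C ζ c,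
        fun g => map_neg_eq_map ζ.1 g, hζ⟩
    · rintro ⟨h1, h2, h3, h4, h5⟩
      refine ⟨⟨{ toFun := f
                 map_zero' := by
                   have := h3 0
                   rwa [map_zero, norm_zero] at this
                 add_le' := h1
                 neg' := h4
                 map_one' := by
                   have := h3 1
                   rwa [map_one, norm_one] at this
                 map_mul' := h2 }, h3⟩, h5, rfl⟩
  rw [himage]
  refine hcomp.of_isClosed_subset ?_ ?_
  · have e : {f : K[X] → ℝ | (∀ g h, f (g + h) ≤ f g + f h) ∧ (∀ g h, f (g * h) = f g * f h) ∧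
        (∀ c : K, f (C c) = ‖c‖) ∧ (∀ g, f (-g) = f g) ∧ f (X - C a) ≤ s} =
        (⋂ g, ⋂ h, {f : K[X] → ℝ | f (g + h) ≤ f g + f h}) ∩
        ((⋂ g, ⋂ h, {f : K[X] → ℝ | f (g * h) = f g * f h}) ∩
        ((⋂ c : K, {f : K[X] → ℝ | f (C c) = ‖c‖}) ∩
        ((⋂ g, {f : K[X] → ℝ | f (-g) = f g}) ∩ {f : K[X] → ℝ | f (X - C a) ≤ s}))) := by
      ext f
      simp only [Set.mem_inter_iff, Set.mem_iInter, Set.mem_ofPred_eq]
    rw [e]
    refine IsClosed.inter (isClosed_iInter fun g => isClosed_iInter fun h => ?_)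
      (IsClosed.inter (isClosed_iInter fun g => isClosed_iInter fun h => ?_)
      (IsClosed.inter (isClosed_iInter fun c => ?_) (IsClosed.inter (isClosed_iInter fun g => ?_)
        ?_)))
    · exact isClosed_le (continuous_apply _) ((continuous_apply g).add (continuous_apply h))
    · exact isClosed_eq (continuous_apply _) ((continuous_apply g).mul (continuous_apply h))
    · exact isClosed_eq (continuous_apply _) continuous_const
    · exact isClosed_eq (continuous_apply _) (continuous_apply _)
    · exact isClosed_le (continuous_apply _) continuous_const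
  · rw [← himage]
    rintro _ ⟨ζ, hζ, rfl⟩ g _
    exact ⟨val_nonneg ζ g, hM g ζ hζ⟩

omit [IsUltrametricDist K] in
theorem exists_compact_nhds (ζ : BerkA K) : ∃ s : Set (BerkA K), IsCompact s ∧ s ∈ nhds ζ := by
  refine ⟨cdisc 0 (del ζ 0 + 1), isCompact_cdisc' _ _, ?_⟩
  have h1 : IsOpen {ξ : BerkA K | del ξ 0 < del ζ 0 + 1} :=
    isOpen_lt (continuous_del 0) continuous_const
  refine Filter.mem_of_superset (h1.mem_nhds ?_) ?_
  · change del ζ 0 < del ζ 0 + 1
    linarith
  · intro ξ hξ
    have hξ' : del ξ 0 < del ζ 0 + 1 := hξ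
    exact hξ'.le

variable [IsAlgClosed K]

theorem isCompact_cdisc (a : K) (s : ℝ) : IsCompact (cdisc a s) := isCompact_cdisc' a s

instance : WeaklyLocallyCompactSpace (BerkA K) := ⟨exists_compact_nhds⟩

instance : T2Space (BerkP K) := inferInstance

/-- the topology of the Berkovich affine line is induced by the functions `del · a` -/
theorem isInducing_del : Topology.IsInducing (fun (ζ : BerkA K) (a : K) => del ζ a) := by
  have hcont : Continuous (fun (ζ : BerkA K) (a : K) => del ζ a) :=
    continuous_pi fun a => continuous_del a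
  refine ⟨le_antisymm hcont.le_induced ?_⟩
  -- the values of all polynomials are continuous for the induced topology
  have h1 : ∀ g : K[X], @Continuous (BerkA K) ℝ
      (TopologicalSpace.induced (fun (ζ : BerkA K) (a : K) => del ζ a) inferInstance) _
      (fun ζ => ζ.1 g) := by
    intro g
    let _ : TopologicalSpace (BerkA K) :=
      TopologicalSpace.induced (fun (ζ : BerkA K) (a : K) => del ζ a) inferInstance
    have hind : Continuous (fun (ζ : BerkA K) (a : K) => del ζ a) := continuous_induced_dom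
    have hdel : ∀ a : K, Continuous fun ζ : BerkA K => del ζ a := fun a =>
      (continuous_apply a).comp hind
    have h2 : (fun ζ : BerkA K => ζ.1 g) =
        fun ζ => ‖g.leadingCoeff‖ * (g.roots.map (del ζ)).prod := by
      funext ζ; exact val_eq_prod ζ g
    rw [h2]
    refine continuous_const.mul ?_
    generalize g.roots = m
    induction m using Multiset.induction_on with
    | empty => simpa using continuous_const
    | cons a m ih =>
      simp only [Multiset.map_cons, Multiset.prod_cons]
      exact (hdel a).mul ih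
  have h2 : @Continuous (BerkA K) (K[X] → ℝ)
      (TopologicalSpace.induced (fun (ζ : BerkA K) (a : K) => del ζ a) inferInstance) _
      (fun ζ g => ζ.1 g) :=
    @continuous_pi (BerkA K) K[X] (fun _ => ℝ) (TopologicalSpace.induced _ inferInstance) _ _ h1
  exact continuous_iff_le_induced.1 h2

theorem dense_pt : Dense (Set.range (pt : K → BerkA K)) := by
  intro ζ
  rw [mem_closure_iff]
  intro U hU hζ
  obtain ⟨V, hV, rfl⟩ := isInducing_del.isOpen_iff.1 hU
  obtain ⟨I, u, hu, hIV⟩ := isOpen_pi_iff.1 hV _ hζ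
  -- it is enough to find `x` with `‖x - a‖ ∈ u a` for `a ∈ I`
  suffices h : ∃ x : K, ∀ a ∈ I, ‖x - a‖ ∈ u a by
    obtain ⟨x, hx⟩ := h
    refine ⟨pt x, ?_, x, rfl⟩
    apply hIV
    intro a ha
    change del (pt x) a ∈ u a
    rw [del_pt]
    exact hx a ha
  rcases I.eq_empty_or_nonempty with hI | hI
  · subst hI
    exact ⟨0, fun a ha => absurd ha (Finset.notMem_empty a)⟩
  obtain ⟨a₁, ha₁, hmin⟩ := Finset.exists_min_image I (del ζ) hI
  set s := del ζ a₁ with hs
  have hs0 : 0 ≤ s := del_nonneg ζ a₁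
  have hev : ∀ a ∈ I, ∀ᶠ r in nhdsWithin s (Set.Ioi s), ∀ x : K, ‖x - a₁‖ = r → ‖x - a‖ ∈ u a := by
    intro a ha
    by_cases h1 : s < ‖a₁ - a‖
    · have h2 : del ζ a = ‖a₁ - a‖ := del_eq_of_lt h1
      have h3 : ∀ᶠ r in nhdsWithin s (Set.Ioi s), r < ‖a₁ - a‖ :=
        nhdsWithin_le_nhds (Iio_mem_nhds h1)
      filter_upwards [h3] with r hr x hx
      have h4 : ‖x - a‖ = ‖a₁ - a‖ := by
        have h5 : x - a = (x - a₁) + (a₁ - a) := by ring
        rw [h5, IsUltrametricDist.norm_add_eq_max_of_norm_ne_norm (by rw [hx]; exact hr.ne), hx]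
        exact max_eq_right hr.le
      rw [h4, ← h2]
      exact (hu a ha).2
    · push Not at h1
      have h2 : del ζ a = s := by
        apply le_antisymm
        · exact (del_le ζ a₁ a).trans (max_le le_rfl h1)
        · exact hmin a ha
      have h3 : ∀ᶠ r in nhdsWithin s (Set.Ioi s), r ∈ u a := by
        apply nhdsWithin_le_nhds
        have h4 := (hu a ha).2
        change del ζ a ∈ u a at h4
        rw [h2] at h4
        exact (hu a ha).1.mem_nhds h4
      filter_upwards [h3, self_mem_nhdsWithin] with r hr hrs x hx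
      have hrs' : s < r := hrs
      have h4 : ‖x - a‖ = r := by
        have h5 : x - a = (x - a₁) + (a₁ - a) := by ring
        rw [h5, IsUltrametricDist.norm_add_eq_max_of_norm_ne_norm
          (by rw [hx]; exact (h1.trans_lt hrs').ne'), hx]
        exact max_eq_left (h1.trans hrs'.le)
      rw [h4]
      exact hr
  have hall := (Filter.eventually_all_finset I).2 hev
  obtain ⟨r₁, hr₁, hr₁'⟩ := mem_nhdsGT_iff_exists_Ioo_subset.1 hall
  have hr₁s : s < r₁ := hr₁
  obtain ⟨y, hy1, hy2⟩ := exists_norm_between (K := K) (a := (s + r₁) / 2) (b := r₁)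
    (by linarith) (by linarith)
  refine ⟨y + a₁, fun a ha => ?_⟩
  exact hr₁' ⟨by linarith, hy2⟩ a ha (y + a₁) (by rw [add_sub_cancel_right])

/-- a neighbourhood of `∞` contains the complement of a disk -/
theorem mem_nhds_infty {V : Set (BerkP K)} (hV : IsOpen V) (h : OnePoint.infty ∈ V) :
    ∃ s : ℝ, ∀ ζ : BerkA K, s < del ζ 0 → (ζ : BerkP K) ∈ V := by
  have h1 := ((OnePoint.isOpen_iff_of_mem h).1 hV).2
  obtain ⟨s, hs⟩ := h1.bddAbove_image (f := fun ζ => del ζ 0) (continuous_del 0).continuousOn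
  refine ⟨s, fun ζ hζ => ?_⟩
  by_contra hcon
  have h2 : del ζ 0 ≤ s := hs ⟨ζ, hcon, rfl⟩
  linarith

end Pool.Agent.FIC
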