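import Pool.Agent.FIC.BF

/-!
# Open annuli, their boundary points; neighbourhoods of the points `gp a r`

`ann y s r = {ζ | s < del ζ y < r}`.

* `isConnected_ann`: path connected.  For `ζ` in the annulus put `q = del ζ y`; for `0 ≤ t ≤ q` let
  `ζ_t` be the point with `del ζ_t b = max (del ζ b) t` (`exists_join`); `t ↦ ζ_t` is continuous
  (`isInducing_del`), `ζ_0 = ζ`, `ζ_q = gp y q` (because `max (del ζ b) q = max ‖y - b‖ q`,
  `del_le`, `norm_sub_le_del`) and `del ζ_t y = q`.  The points `gp y t`, `s < t < r`, form an arc.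
* `closure_ann`: if `ζ` is in the closure then `s ≤ del ζ y ≤ r` and `ζ ≠ ∞` (`cdisc y r` is compact).
  If `del ζ y = r` and `ζ ≠ gp y r` there is `a` with `del ζ a ≠ max ‖y - a‖ r`, so `‖y - a‖ ≤ r`
  and `del ζ a < r`, hence `‖y - a‖ = r`; all `ξ` with `del ξ a < r` have `del ξ y = r` and are not
  in the annulus.  If `del ζ y = s` and `ζ ≠ gp y s`, there is `a` with `‖y - a‖ ≤ s`,
  `del ζ a < s`; all `ξ` with `del ξ a < s` have `del ξ y ≤ s`.  (If `s = 0`, nothing to do: assume
  `0 < s`.)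
* `nhds_gp`: an open set `V` containing `gp y r` contains, for all `x` in the closed disk `D(y, r)`
  outside finitely many residue classes, the whole open disk `odisc x r`: by `isInducing_del` `V`
  contains all `ξ` with `|del ξ b - del (gp y r) b| < ε` for `b` in a finite set; take for `S` the
  `b` with `‖b - y‖ ≤ r`.  If `‖x - y‖ ≤ r`, `‖x - b‖ ≥ r` for all `b ∈ S`, and `del ξ x < r` then
  `del ξ b = ‖x - b‖ = r` for `b ∈ S`, and `del ξ b = ‖y - b‖` for the other `b`.
-/

open Polynomial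

noncomputable section

namespace Pool.Agent.FIC

variable {K : Type*} [NontriviallyNormedField K]

/-- open Berkovich annuli -/
def ann (y : K) (s r : ℝ) : Set (BerkP K) := (fun ζ : BerkA K => (ζ : BerkP K)) ''
  {ζ : BerkA K | s < del ζ y ∧ del ζ y < r}

variable [IsUltrametricDist K] [IsAlgClosed K]

theorem isOpen_ann (y : K) (s r : ℝ) : IsOpen (ann y s r) := by
  unfold ann
  rw [OnePoint.isOpen_image_coe]
  exact (isOpen_lt continuous_const (continuous_del y)).inter
    (isOpen_lt (continuous_del y) continuous_const)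

theorem ann_eq_of_le {y y' : K} {s r : ℝ} (h : ‖y - y'‖ ≤ s) : ann y s r = ann y' s r := by
  have key : ∀ {a b : K}, ‖a - b‖ ≤ s → ∀ ζ : BerkA K, s < del ζ a ∧ del ζ a < r →
      s < del ζ b ∧ del ζ b < r := by
    intro a b hab ζ hζ
    have := del_eq_of_lt' (ζ := ζ) (a := a) (b := b) (lt_of_le_of_lt hab hζ.1)
    rw [this]
    exact hζ
  unfold ann
  congr 1
  ext ζ
  exact ⟨key h ζ, key (by rw [norm_sub_rev]; exact h) ζ⟩

theorem continuousOn_gp' (y : K) : ContinuousOn (fun t : ℝ => (gp y t : BerkA K)) (Set.Ioi 0) := by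
  rw [isInducing_del.continuousOn_iff, continuousOn_pi]
  intro b
  have h1 : ContinuousOn (fun t : ℝ => max ‖y - b‖ t) (Set.Ioi 0) :=
    (continuous_const.max continuous_id).continuousOn
  refine h1.congr ?_
  intro t ht
  exact del_gp y ht b

theorem continuous_gp (y : K) {s r : ℝ} (hs : 0 < s) :
    ContinuousOn (fun t : ℝ => ((gp y t : BerkA K) : BerkP K)) (Set.Ioi 0) :=
  OnePoint.continuous_coe.comp_continuousOn (continuousOn_gp' y)

/-- the arc from `ζ` to the Gauss point `gp y (del ζ y)` -/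
theorem exists_arc (ζ : BerkA K) (y : K) (hq : 0 < del ζ y) :
    ∃ T : Set (BerkA K), IsPreconnected T ∧ ζ ∈ T ∧ gp y (del ζ y) ∈ T ∧
      ∀ ξ ∈ T, del ξ y = del ζ y := by
  classical
  have hj : ∀ t : ℝ, ∃ ξ : BerkA K, 0 ≤ t → ∀ b, del ξ b = max (del ζ b) t := by
    intro t
    by_cases ht : 0 ≤ t
    · obtain ⟨ξ, hξ⟩ := exists_join ζ ht
      exact ⟨ξ, fun _ => hξ⟩
    · exact ⟨ζ, fun h => absurd h ht⟩
  choose J hJ using hj
  have hc : ContinuousOn J (Set.Icc 0 (del ζ y)) := by
    rw [isInducing_del.continuousOn_iff, continuousOn_pi]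
    intro b
    have h1 : ContinuousOn (fun t : ℝ => max (del ζ b) t) (Set.Icc 0 (del ζ y)) :=
      (continuous_const.max continuous_id).continuousOn
    refine h1.congr ?_
    intro t ht
    exact hJ t ht.1 b
  refine ⟨J '' Set.Icc 0 (del ζ y), isPreconnected_Icc.image _ hc, ?_, ?_, ?_⟩
  · refine ⟨0, ⟨le_rfl, hq.le⟩, ?_⟩
    apply BerkA.ext_del
    intro a
    rw [hJ 0 le_rfl, max_eq_left (del_nonneg ζ a)]
  · refine ⟨del ζ y, ⟨hq.le, le_rfl⟩, ?_⟩
    apply BerkA.ext_del
    intro a
    rw [hJ _ hq.le, del_gp y hq a]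
    apply le_antisymm
    · refine max_le ?_ (le_max_right _ _)
      have := del_le ζ y a
      rwa [max_comm] at this
    · refine max_le ?_ (le_max_right _ _)
      have := norm_sub_le_del ζ y a
      rwa [max_comm] at this
  · rintro ξ ⟨t, ht, rfl⟩
    rw [hJ t ht.1, max_eq_left ht.2]

theorem isConnected_ann (y : K) {s r : ℝ} (hs : 0 < s) (hr : s < r) : IsConnected (ann y s r) := by
  set A : Set (BerkA K) := {ζ : BerkA K | s < del ζ y ∧ del ζ y < r} with hA
  have hgp : ∀ t, s < t → t < r → gp y t ∈ A := by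
    intro t h1 h2
    have h0 : 0 < t := hs.trans h1
    have : del (gp y t) y = t := by
      rw [del_gp y h0 y, sub_self, norm_zero, max_eq_right h0.le]
    rw [hA]
    constructor
    · rw [this]; exact h1
    · rw [this]; exact h2
  have hpre : IsPreconnected A := by
    apply isPreconnected_of_forall (gp y ((s + r) / 2))
    intro ζ hζ
    have hq : 0 < del ζ y := hs.trans hζ.1
    obtain ⟨T, hT, h1, h2, h3⟩ := exists_arc ζ y hq
    have hG : IsPreconnected ((fun t : ℝ => (gp y t : BerkA K)) '' Set.Ioo s r) := by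
      apply isPreconnected_Ioo.image
      exact (continuousOn_gp' y).mono fun t ht => hs.trans ht.1
    refine ⟨T ∪ (fun t : ℝ => (gp y t : BerkA K)) '' Set.Ioo s r, ?_, ?_, ?_, ?_⟩
    · rintro ξ (hξ | ⟨t, ht, rfl⟩)
      · change s < del ξ y ∧ del ξ y < r
        rw [h3 ξ hξ]; exact hζ
      · exact hgp t ht.1 ht.2
    · exact Or.inr ⟨(s + r) / 2, ⟨by linarith, by linarith⟩, rfl⟩
    · exact Or.inl h1
    · exact hT.union (gp y (del ζ y)) h2 ⟨del ζ y, ⟨hζ.1, hζ.2⟩, rfl⟩ hG
  refine ⟨⟨_, gp y ((s + r) / 2), hgp _ (by linarith) (by linarith), rfl⟩, ?_⟩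
  exact hpre.image _ OnePoint.continuous_coe.continuousOn

theorem closure_ann (y : K) {s r : ℝ} (hs : 0 < s) (hr : s < r) : closure (ann y s r) ⊆
    ann y s r ∪ {((gp y s : BerkA K) : BerkP K), ((gp y r : BerkA K) : BerkP K)} := by
  intro z hz
  set B : Set (BerkP K) := (fun ζ : BerkA K => (ζ : BerkP K)) ''
    {ζ : BerkA K | s ≤ del ζ y ∧ del ζ y ≤ r} with hB
  have hcpt : IsCompact {ζ : BerkA K | s ≤ del ζ y ∧ del ζ y ≤ r} := by
    have h1 : IsCompact (cdisc y r ∩ {ζ : BerkA K | s ≤ del ζ y}) :=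
      (isCompact_cdisc y r).inter_right (isClosed_le continuous_const (continuous_del y))
    convert h1 using 1
    ext ζ
    exact and_comm
  have hBc : IsClosed B := (hcpt.image OnePoint.continuous_coe).isClosed
  have hsub : ann y s r ⊆ B := by
    rintro _ ⟨ζ, hζ, rfl⟩
    exact ⟨ζ, ⟨hζ.1.le, hζ.2.le⟩, rfl⟩
  obtain ⟨ζ, ⟨h1, h2⟩, rfl⟩ := closure_minimal hsub hBc hz
  change ((ζ : BerkA K) : BerkP K) ∈ closure (ann y s r) at hz
  change ((ζ : BerkA K) : BerkP K) ∈ _
  -- an open disk around `ζ` which does not meet the annulus is impossible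
  have hmeet : ∀ a : K, ∀ t : ℝ, del ζ a < t → ∃ ξ : BerkA K, del ξ a < t ∧ s < del ξ y ∧
      del ξ y < r := by
    intro a t hat
    have ho : IsOpen ((fun ζ : BerkA K => (ζ : BerkP K)) '' odisc a t) := by
      rw [OnePoint.isOpen_image_coe]; exact isOpen_odisc a t
    obtain ⟨w, ⟨ξ, hξ, rfl⟩, ⟨ξ', hξ', he⟩⟩ := mem_closure_iff.1 hz _ ho ⟨ζ, hat, rfl⟩
    have : ξ' = ξ := OnePoint.coe_injective he
    subst this
    exact ⟨ξ', hξ, hξ'⟩
  rcases h1.lt_or_eq with h1' | h1'
  · rcases h2.lt_or_eq with h2' | h2'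
    · exact Or.inl ⟨ζ, ⟨h1', h2'⟩, rfl⟩
    · right; right
      by_contra hne
      have hr0 : 0 < r := hs.trans hr
      have : ∃ a, del ζ a ≠ max ‖y - a‖ r := by
        by_contra hcon
        push Not at hcon
        apply hne
        have : ζ = gp y r := BerkA.ext_del fun a => by rw [hcon a, del_gp y hr0 a]
        rw [this]; rfl
      obtain ⟨a, ha⟩ := this
      have hle : del ζ a ≤ max ‖y - a‖ r := by
        have := del_le ζ y a
        rwa [h2', max_comm] at this
      have hlt := lt_of_le_of_ne hle ha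
      have hya : ‖y - a‖ ≤ r := by
        by_contra hcon
        push Not at hcon
        have := del_eq_of_lt (ζ := ζ) (a := y) (b := a) (by rw [h2']; exact hcon)
        rw [this] at ha
        exact ha (max_eq_left hcon.le).symm
      rw [max_eq_right hya] at hlt
      have hya' : r ≤ ‖a - y‖ := by
        have := del_le ζ a y
        rw [h2'] at this
        rcases le_max_iff.1 this with h | h
        · exact absurd hlt (not_lt.2 h)
        · exact h
      obtain ⟨ξ, hξ1, -, hξ3⟩ := hmeet a r hlt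
      have := del_eq_of_lt (ζ := ξ) (a := a) (b := y) (lt_of_lt_of_le hξ1 hya')
      rw [this] at hξ3
      exact absurd hξ3 (not_lt.2 hya')
  · right; left
    by_contra hne
    have : ∃ a, del ζ a ≠ max ‖y - a‖ s := by
      by_contra hcon
      push Not at hcon
      apply hne
      have : ζ = gp y s := BerkA.ext_del fun a => by rw [hcon a, del_gp y hs a]
      rw [this]
    obtain ⟨a, ha⟩ := this
    have hle : del ζ a ≤ max ‖y - a‖ s := by
      have := del_le ζ y a
      rwa [← h1', max_comm] at this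
    have hlt := lt_of_le_of_ne hle ha
    have hya : ‖y - a‖ ≤ s := by
      by_contra hcon
      push Not at hcon
      have := del_eq_of_lt (ζ := ζ) (a := y) (b := a) (by rw [← h1']; exact hcon)
      rw [this] at ha
      exact ha (max_eq_left hcon.le).symm
    rw [max_eq_right hya] at hlt
    obtain ⟨ξ, hξ1, hξ2, -⟩ := hmeet a s hlt
    have := del_le ξ a y
    rw [norm_sub_rev] at this
    exact absurd hξ2 (not_lt.2 (this.trans (max_le hξ1.le hya)))

theorem nhds_gp (y : K) {r : ℝ} (hr : 0 < r) {V : Set (BerkP K)} (hV : IsOpen V)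
    (h : ((gp y r : BerkA K) : BerkP K) ∈ V) : ∃ S : Finset K, ∀ x, ‖x - y‖ ≤ r →
      (∀ b ∈ S, r ≤ ‖x - b‖) → (fun ζ : BerkA K => (ζ : BerkP K)) '' odisc x r ⊆ V := by
  classical
  have hV' : IsOpen ((fun ζ : BerkA K => (ζ : BerkP K)) ⁻¹' V) :=
    hV.preimage OnePoint.continuous_coe
  obtain ⟨W, hW, hWV⟩ := isInducing_del.isOpen_iff.1 hV'
  have hmem : (fun a => del (gp y r) a) ∈ W := by
    have : gp y r ∈ (fun (ζ : BerkA K) (a : K) => del ζ a) ⁻¹' W := by rw [hWV]; exact h
    exact this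
  obtain ⟨I, u, hu, hIW⟩ := isOpen_pi_iff.1 hW _ hmem
  refine ⟨I.filter fun b => ‖b - y‖ ≤ r, ?_⟩
  intro x hx hS
  rintro _ ⟨ξ, hξ, rfl⟩
  change del ξ x < r at hξ
  have hξW : ξ ∈ (fun (ζ : BerkA K) (a : K) => del ζ a) ⁻¹' W := by
    apply hIW
    intro b hb
    have hval : del ξ b = del (gp y r) b := by
      rw [del_gp y hr b]
      by_cases hby : ‖b - y‖ ≤ r
      · have h1 : r ≤ ‖x - b‖ := hS b (Finset.mem_filter.2 ⟨hb, hby⟩)
        have h2 : ‖x - b‖ ≤ r := by
          have : x - b = (x - y) + (y - b) := by ring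
          rw [this]
          refine (IsUltrametricDist.norm_add_le_max _ _).trans (max_le hx ?_)
          rw [norm_sub_rev]; exact hby
        rw [del_eq_of_lt (lt_of_lt_of_le hξ h1), norm_sub_rev y b, max_eq_right hby]
        exact le_antisymm h2 h1
      · push Not at hby
        have h1 : ‖x - b‖ = ‖y - b‖ := by
          have hh : ‖x - y‖ < ‖y - b‖ := by
            rw [norm_sub_rev y b]; exact lt_of_le_of_lt hx hby
          have : x - b = (x - y) + (y - b) := by ring
          rw [this]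
          rw [IsUltrametricDist.norm_add_eq_max_of_norm_ne_norm hh.ne, max_eq_right hh.le]
        have h2 : r < ‖y - b‖ := by rw [norm_sub_rev]; exact hby
        rw [del_eq_of_lt (lt_trans hξ (by rw [h1]; exact h2)), h1, max_eq_left h2.le]
    change del ξ b ∈ u b
    rw [hval]
    exact (hu b hb).2
  rw [hWV] at hξW
  exact hξW

end Pool.Agent.FIC
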