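import Pool.Agent.FIC.BU

/-!
# Open annuli: further lemmas

* `ann_not_disk`: the complement of a closed disk `V` contains `∞` or, if `V` contains `∞`, it is
  `{ζ | del ζ a < t}`; if it is the annulus, it contains `gp y q` for `s < q < r`, so `‖y - a‖ < t`,
  hence `pt y` is in the disk, but it is not in the annulus.
* `ann_injective`: `gp y q` is in the annulus if and only if `s < q < r`.
* `infinite_compl`: there are infinitely many `gp 0 t` with `t > M`.
* `Scales.image_ann`: `Scales.map_eq`, `Scales.image_odisc`; `Flips.image_ann`: `Flips.map_eq`,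
  `Flips.image_odisc`.
-/

open Polynomial

noncomputable section

namespace Pool.Agent.FIC

variable {K : Type*} [NontriviallyNormedField K] [IsUltrametricDist K] [IsAlgClosed K]

omit [IsUltrametricDist K] [IsAlgClosed K] in
private theorem coe_mem_ann {y : K} {s r : ℝ} {ξ : BerkA K} :
    ((ξ : BerkA K) : BerkP K) ∈ ann y s r ↔ s < del ξ y ∧ del ξ y < r := by
  constructor
  · rintro ⟨ζ, hζ, h⟩
    have : ζ = ξ := OnePoint.coe_injective h
    rw [← this]; exact hζ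
  · intro h
    exact ⟨ξ, h, rfl⟩

private theorem del_gp_self (y : K) {q : ℝ} (hq : 0 < q) : del (gp y q) y = q := by
  rw [del_gp y hq, sub_self, norm_zero, max_eq_right hq.le]

/-- an annulus is not the complement of one closed disk -/
theorem ann_not_disk (y : K) {s r : K} (hs : s ≠ 0) (hr : ‖s‖ < ‖r‖) :
    ¬ IsDisk (ann y ‖s‖ ‖r‖) := by
  rintro ⟨V, ⟨a, t, ht, hV | hV⟩, hU⟩
  · have h1 : (OnePoint.infty : BerkP K) ∈ ann y ‖s‖ ‖r‖ := by
      rw [hU, hV]
      rintro ⟨ξ, h, _⟩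
      exact OnePoint.infty_ne_coe ξ h
    obtain ⟨ξ, _, h⟩ := h1
    exact OnePoint.coe_ne_infty ξ h
  · have key : ∀ ξ : BerkA K, ((ξ : BerkA K) : BerkP K) ∈ ann y ‖s‖ ‖r‖ ↔ del ξ a < ‖t‖ := by
      intro ξ
      rw [hU, hV, Set.mem_compl_iff, Set.mem_ofPred_eq]
      constructor
      · intro h
        by_contra hc
        apply h
        intro ξ' h'
        have : ξ = ξ' := OnePoint.coe_injective h'
        rw [← this]; exact not_lt.1 hc
      · intro h h'
        exact absurd h (not_lt.2 (h' ξ rfl))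
    obtain ⟨q, hq1, hq2⟩ := exists_between hr
    have hq : 0 < q := (norm_nonneg s).trans_lt hq1
    have h1 : del (gp y q) a < ‖t‖ := by
      rw [← key, coe_mem_ann, del_gp_self y hq]
      exact ⟨hq1, hq2⟩
    rw [del_gp y hq] at h1
    have h2 : ((pt y : BerkA K) : BerkP K) ∈ ann y ‖s‖ ‖r‖ := by
      rw [key, del_pt]
      exact (le_max_left _ _).trans_lt h1
    rw [coe_mem_ann, del_pt, sub_self, norm_zero] at h2
    exact absurd h2.1 (not_lt.2 (norm_nonneg s))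

theorem ann_injective {y : K} {s r s' r' : ℝ} (hs : 0 < s) (hr : s < r) (hs' : 0 < s')
    (hr' : s' < r') (h : ann y s r = ann y s' r') : s = s' ∧ r = r' := by
  have key : ∀ q : ℝ, 0 < q → ((s < q ∧ q < r) ↔ (s' < q ∧ q < r')) := by
    intro q hq
    have h1 : ((gp y q : BerkA K) : BerkP K) ∈ ann y s r ↔
        ((gp y q : BerkA K) : BerkP K) ∈ ann y s' r' := by rw [h]
    rwa [coe_mem_ann, coe_mem_ann, del_gp_self y hq] at h1
  constructor
  · apply le_antisymm
    · by_contra hc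
      push Not at hc
      obtain ⟨q, hq1, hq2⟩ := exists_between (lt_min hc hr')
      obtain ⟨hq3, hq4⟩ := lt_min_iff.1 hq2
      exact absurd ((key q (hs'.trans hq1)).2 ⟨hq1, hq4⟩).1 (not_lt.2 hq3.le)
    · by_contra hc
      push Not at hc
      obtain ⟨q, hq1, hq2⟩ := exists_between (lt_min hc hr)
      obtain ⟨hq3, hq4⟩ := lt_min_iff.1 hq2
      exact absurd ((key q (hs.trans hq1)).1 ⟨hq1, hq4⟩).1 (not_lt.2 hq3.le)
  · apply le_antisymm
    · by_contra hc
      push Not at hc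
      obtain ⟨q, hq1, hq2⟩ := exists_between (max_lt hc hr)
      obtain ⟨hq3, hq4⟩ := max_lt_iff.1 hq1
      exact absurd ((key q (hs.trans hq4)).1 ⟨hq4, hq2⟩).2 (not_lt.2 hq3.le)
    · by_contra hc
      push Not at hc
      obtain ⟨q, hq1, hq2⟩ := exists_between (max_lt hc hr')
      obtain ⟨hq3, hq4⟩ := max_lt_iff.1 hq1
      exact absurd ((key q (hs'.trans hq4)).2 ⟨hq4, hq2⟩).2 (not_lt.2 hq3.le)

/-- the complement of a bounded set is infinite -/
theorem infinite_compl {W : Set (BerkP K)} {M : ℝ}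
    (h : ∀ ζ : BerkA K, M < del ζ 0 → (ζ : BerkP K) ∉ W) : Wᶜ.Infinite := by
  have hpos : ∀ n : ℕ, 0 < max M 0 + 1 + (n : ℝ) := fun n => by
    have h1 : (0 : ℝ) ≤ n := Nat.cast_nonneg n
    have h2 : 0 ≤ max M 0 := le_max_right _ _
    linarith
  refine Set.infinite_of_injective_forall_mem
    (f := fun n : ℕ => ((gp (0 : K) (max M 0 + 1 + (n : ℝ)) : BerkA K) : BerkP K)) ?_ ?_
  · intro m n hmn
    have h1 : gp (0 : K) (max M 0 + 1 + (m : ℝ)) = gp (0 : K) (max M 0 + 1 + (n : ℝ)) :=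
      OnePoint.coe_injective hmn
    have h2 : del (gp (0 : K) (max M 0 + 1 + (m : ℝ))) (0 : K) =
        del (gp (0 : K) (max M 0 + 1 + (n : ℝ))) (0 : K) := by rw [h1]
    rw [del_gp_self _ (hpos m), del_gp_self _ (hpos n)] at h2
    exact_mod_cast add_left_cancel h2
  · intro n
    apply h
    rw [del_gp_self _ (hpos n)]
    have h1 : (0 : ℝ) ≤ n := Nat.cast_nonneg n
    have h2 : M ≤ max M 0 := le_max_left _ _
    linarith

theorem Scales.image_ann {f : RatMap K} {x : K} {s lam : ℝ} (h : Scales f x s lam) {q r : ℝ}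
    (hr : r ≤ s) (hq : 0 < q) : f.map '' ann x q r = ann (f.ev x) (lam * q) (lam * r) := by
  have hx : ‖x - x‖ < s := by rw [sub_self, norm_zero]; exact h.spos
  ext ζ
  constructor
  · rintro ⟨_, ⟨ζ, ⟨h1, h2⟩, rfl⟩, rfl⟩
    obtain ⟨ξ, h3, h4⟩ := h.map_eq (h2.trans_le hr)
    rw [h3, coe_mem_ann, h4 x hx]
    exact ⟨mul_lt_mul_of_pos_left h1 h.lpos, mul_lt_mul_of_pos_left h2 h.lpos⟩
  · rintro ⟨ξ, ⟨h1, h2⟩, rfl⟩
    have h3 : ((ξ : BerkA K) : BerkP K) ∈ f.map '' ((fun ζ : BerkA K => (ζ : BerkP K)) '' odisc x s) := by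
      rw [h.image_odisc]
      exact ⟨ξ, h2.trans_le (mul_le_mul_of_nonneg_left hr h.lpos.le), rfl⟩
    obtain ⟨_, ⟨ζ, hζ, rfl⟩, h4⟩ := h3
    obtain ⟨ξ', h5, h6⟩ := h.map_eq (show del ζ x < s from hζ)
    have h7 : ξ' = ξ := OnePoint.coe_injective (h5.symm.trans h4)
    rw [← h7, h6 x hx] at h1 h2
    exact ⟨_, ⟨ζ, ⟨lt_of_mul_lt_mul_left h1 h.lpos.le, lt_of_mul_lt_mul_left h2 h.lpos.le⟩, rfl⟩, h4⟩

theorem Flips.image_ann {f : RatMap K} {w y : K} {s kap : ℝ} (h : Flips f w y s kap) {q r : ℝ}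
    (hr : r ≤ s) (hq : 0 < q) (hqr : q < r) : f.map '' ann w q r = ann y (kap / r) (kap / q) := by
  have hr0 : 0 < r := hq.trans hqr
  ext ζ
  constructor
  · rintro ⟨_, ⟨ζ, ⟨h1, h2⟩, rfl⟩, rfl⟩
    have h0 : 0 < del ζ w := hq.trans h1
    obtain ⟨ξ, h3, h4, _⟩ := h.map_eq (h2.trans_le hr) h0
    rw [h3, coe_mem_ann, h4]
    exact ⟨div_lt_div_of_pos_left h.kpos h0 h2, div_lt_div_of_pos_left h.kpos hq h1⟩
  · rintro ⟨ξ, ⟨h1, h2⟩, rfl⟩
    have h3 : ((ξ : BerkA K) : BerkP K) ∈ f.map '' ((fun ζ : BerkA K => (ζ : BerkP K)) '' odisc w s) := by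
      rw [h.image_odisc]
      rintro ⟨ξ', h3, h4⟩
      have h5 : ξ' = ξ := OnePoint.coe_injective h4
      rw [h5] at h3
      have h6 : kap / s ≤ kap / r := div_le_div_of_nonneg_left h.kpos.le hr0 hr
      exact absurd (lt_of_le_of_lt h6 h1) (not_lt.2 h3)
    obtain ⟨_, ⟨ζ, hζ, rfl⟩, h4⟩ := h3
    have h0 : 0 < del ζ w := by
      refine lt_of_le_of_ne (del_nonneg _ _) fun h0 => ?_
      have h5 : ζ = pt w := eq_pt_of_del_eq_zero h0.symm
      simp only at h4
      rw [h5, map_pt_pole f h.pole] at h4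
      exact OnePoint.infty_ne_coe ξ h4
    obtain ⟨ξ', h5, h6, _⟩ := h.map_eq (show del ζ w < s from hζ) h0
    have h7 : ξ' = ξ := OnePoint.coe_injective (h5.symm.trans h4)
    rw [← h7, h6] at h1 h2
    refine ⟨_, ⟨ζ, ⟨?_, ?_⟩, rfl⟩, h4⟩
    · by_contra hc
      push Not at hc
      exact absurd h2 (not_lt.2 (div_le_div_of_nonneg_left h.kpos.le h0 hc))
    · by_contra hc
      push Not at hc
      exact absurd h1 (not_lt.2 (div_le_div_of_nonneg_left h.kpos.le hr0 hc))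

end Pool.Agent.FIC
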