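import Pool.Agent.FIC.BV

/-!
# A criterion for non-disk indifferent components

`FlipData f y w n R ρ`: classical data.  `R 0 > ρ > 0`; the orbit of the closed disk `D(y, R 0)` meets
no pole at the times `< n`, every open disk of radius `R 0` in it is scaled by `R i / R 0` by `fⁱ`,
`i ≤ n`; `f^n` maps the closed disk `D(y, R 0)` into the closed disk `D(w, R n)`,
`‖f^n y - w‖ = R n ρ / R 0`; `w` is a flipping pole with image centre `y`, `kap = R n ρ`, also on the
sphere `‖z - w‖ = R n`.  `dirs`: the residue classes of `D(y, R 0)` which are mapped by `G = f^(n+1)`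
onto the complement of the closed disk `D(y, ρ)` have infinitely many iterated preimages under `G²`.

`component`: `ann y ρ (R 0)` is an indifferent component which is not a disk.

Proof.  Put `Θ = R n`, `r = R 0`, `G = f^(n+1)`.
1. By `Scales.image_ann` `f.map^[i] '' ann y ρ r = ann (f^i y) (R i ρ / r) (R i)` for `i ≤ n`; as
   `‖f^n y - w‖ = Θ ρ / r`, for `i = n` this is `ann w (Θ ρ / r) Θ` (`ann_eq_of_le`), and
   `Flips.image_ann` gives `f.map^[n+1] '' U = U`.  One-to-one: `Scales.oneToOneOn`,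
   `Flips.oneToOneOn`.
2. `U ⊆ fatou f`: the images of `U` are the sets of 1., all bounded (`infinite_compl`).
3. `gp y r ∉ fatou f`: let `V` be an open neighbourhood, `W = ⋃ f^j(V)`, forward invariant.  `nhds_gp`
   gives `S`; `dirs S` gives `x₀, …, x_j`.  For a step `x → x'`: `f^n (odisc x r) = odisc (f^n x) Θ`,
   `‖f^n x - w‖ = Θ`; `f` scales `D(f^n x, Θ)` by `kap / Θ²` (`flip`), so
   `G (odisc x r) = odisc x₁ ρ`, `x₁ = G x`, `‖x₁ - y‖ = ρ`; `f^n` scales `D(x₁, ρ)` by `Θ / r`, and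
   `‖f^n x₁ - w‖ = Θ ρ / r`, `f` scales `D(f^n x₁, Θ ρ / r)` by `kap / (Θ ρ / r)²`, so
   `G² (odisc x r) = odisc x' r`.  Hence `odisc x_j r ⊆ W` (in `BerkP K`), and
   `f^n (odisc x_j r) = odisc w Θ`, so by `Flips.image_odisc` the complement of `cdisc y ρ` lies in
   `W`.  `G` maps `cdisc y ρ` to points with `∞` or `del · y ≥ r`; `G` is surjective, so `odisc y r`
   lies in `G (compl of cdisc y ρ) ⊆ W`.  So `W` is everything.
4. `gp y ρ ∉ fatou f`: `f.map^[n+1] (gp y r) = gp y ρ` (continuity: `gp y t`, `t → r`, `t < r`, is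
   mapped to `gp y (ρ r / t)`), and `f ζ ∈ fatou f → ζ ∈ fatou f`.
5. Let `C` be the component of `ζ ∈ U`.  `U` is connected, so `U ⊆ C`; `C` is preconnected, `U` is open
   and `closure U ∩ C ⊆ U` by `closure_ann`, 3., 4.; so `C ⊆ U`
   (`IsPreconnected.subset_of_closure_inter_subset`).
-/

open Polynomial

noncomputable section

namespace Pool.Agent.FIC

variable {K : Type*} [NontriviallyNormedField K]

/-- one step in the residue classes of the closed disk: `x' = G² x` -/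
def DirStep (f : RatMap K) (w : K) (n : ℕ) (Θ β : ℝ) (x x' : K) : Prop :=
  ‖f.it n x - w‖ = Θ ∧ ‖f.it n (f.it (n + 1) x) - w‖ = Θ * β ∧ x' = f.it (n + 1) (f.it (n + 1) x)

/-- classical data of a swapped annulus -/
structure FlipData (f : RatMap K) (y w : K) (n : ℕ) (R : ℕ → ℝ) (ρ : ℝ) : Prop where
  Rpos : ∀ i ≤ n, 0 < R i
  ρpos : 0 < ρ
  lt : ρ < R 0
  rval : ∃ s : K, ‖s‖ = R 0
  ρval : ∃ s : K, ‖s‖ = ρ
  nopole : ∀ x, ‖x - y‖ ≤ R 0 → ∀ i < n, f.Q.eval (f.it i x) ≠ 0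
  scale : ∀ x x', ‖x - y‖ ≤ R 0 → ‖x' - x‖ < R 0 → ∀ i ≤ n,
    ‖f.it i x' - f.it i x‖ = R i / R 0 * ‖x' - x‖
  close : ∀ x, ‖x - y‖ ≤ R 0 → ‖f.it n x - w‖ ≤ R n
  center : ‖f.it n y - w‖ = R n * (ρ / R 0)
  pole : f.Q.eval w = 0
  simple : f.Q.derivative.eval w ≠ 0
  nopole' : ∀ z, z ≠ w → ‖z - w‖ ≤ R n → f.Q.eval z ≠ 0
  dist : ∀ z, z ≠ w → ‖z - w‖ ≤ R n → ‖f.ev z - y‖ = R n * ρ / ‖z - w‖
  flip : ∀ z z', z ≠ w → z' ≠ w → ‖z - w‖ ≤ R n → ‖z' - w‖ ≤ R n →
    ‖f.ev z - f.ev z'‖ = R n * ρ * ‖z - z'‖ / (‖z - w‖ * ‖z' - w‖)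
  dirs : ∀ S : Finset K, ∃ (j : ℕ) (x : ℕ → K), (∀ i ≤ j, ‖x i - y‖ ≤ R 0) ∧
    (∀ b ∈ S, R 0 ≤ ‖x 0 - b‖) ∧ (∀ i < j, DirStep f w n (R n) (ρ / R 0) (x i) (x (i + 1))) ∧
    ‖f.it n (x j) - w‖ < R n

variable [IsUltrametricDist K] [IsAlgClosed K]

/-- Let `U` be an open neighbourhood of `f ζ`, `W = ⋃ fⁿ(U)`, `E = Wᶜ` infinite.  `V = f⁻¹(U)` is an
open neighbourhood of `ζ` and `⋃ fⁿ(V) ⊆ f⁻¹(W)`, whose complement `f⁻¹(E)` is infinite because `f` is
surjective. -/
theorem mem_fatou_of_map {f : RatMap K} {ζ : BerkP K} (hd : 1 ≤ f.degree)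
    (h : f.map ζ ∈ fatou f) : ζ ∈ fatou f := by
  obtain ⟨U, hU, hζ, hinf⟩ := h
  refine ⟨f.map ⁻¹' U, hU.preimage (continuous_map f), hζ, ?_⟩
  have hsub : f.map ⁻¹' ((⋃ n : ℕ, f.map^[n] '' U)ᶜ) ⊆
      (⋃ n : ℕ, f.map^[n] '' (f.map ⁻¹' U))ᶜ := by
    intro z hz hz'
    apply hz
    rw [Set.mem_iUnion] at hz'
    obtain ⟨n, x, hx, rfl⟩ := hz'
    rw [Set.mem_iUnion]
    refine ⟨n, f.map x, hx, ?_⟩
    rw [← Function.iterate_succ_apply, Function.iterate_succ_apply']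
  refine Set.Infinite.mono hsub ?_
  refine Set.Infinite.of_image f.map ?_
  rw [Set.image_preimage_eq _ (surjective_map f hd)]
  exact hinf

/-- By induction on `i`: `f^i` maps `D(x, R 0)` onto `D(f^i x, R i)` (`Scales.surj`), so `f` scales
distances on `D(f^i x, R i)` by `R (i+1) / R i`. -/
theorem FlipData.bxScalesAux {f : RatMap K} {y w : K} {n : ℕ} {R : ℕ → ℝ} {ρ : ℝ}
    (F : FlipData f y w n R ρ) {x : K} (hx : ‖x - y‖ ≤ R 0) (i : ℕ) (hi : i < n)
    (hs : ∀ z, ‖z - f.it i x‖ < R i → ∃ x', ‖x' - x‖ < R 0 ∧ f.it i x' = z) :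
    Scales f (f.it i x) (R i) (R (i + 1) / R i) := by
  have h0 : 0 < R 0 := F.Rpos 0 (Nat.zero_le _)
  have h1 : 0 < R i := F.Rpos i hi.le
  have h2 : 0 < R (i + 1) := F.Rpos (i + 1) hi
  have hin : ∀ x', ‖x' - x‖ < R 0 → ‖x' - y‖ ≤ R 0 := by
    intro x' hx'
    have : x' - y = (x' - x) + (x - y) := by ring
    rw [this]
    exact (IsUltrametricDist.norm_add_le_max _ _).trans (max_le hx'.le hx)
  refine ⟨h1, div_pos h2 h1, ?_, ?_⟩
  · intro z hz
    obtain ⟨x', hx', rfl⟩ := hs z hz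
    exact F.nopole x' (hin x' hx') i hi
  · intro z z' hz hz'
    obtain ⟨x1, hx1, rfl⟩ := hs z hz
    obtain ⟨x2, hx2, rfl⟩ := hs z' hz'
    have h12 : ‖x1 - x2‖ < R 0 := by
      have : x1 - x2 = (x1 - x) + (x - x2) := by ring
      rw [this]
      refine (IsUltrametricDist.norm_add_le_max _ _).trans_lt (max_lt hx1 ?_)
      rw [norm_sub_rev]
      exact hx2
    rw [← RatMap.it_succ, ← RatMap.it_succ, F.scale x2 x1 (hin x2 hx2) h12 (i + 1) hi,
      F.scale x2 x1 (hin x2 hx2) h12 i hi.le]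
    field_simp

theorem FlipData.bxSurjIt {f : RatMap K} {y w : K} {n : ℕ} {R : ℕ → ℝ} {ρ : ℝ}
    (F : FlipData f y w n R ρ) {x : K} (hx : ‖x - y‖ ≤ R 0) (i : ℕ) (hi : i ≤ n) :
    ∀ z, ‖z - f.it i x‖ < R i → ∃ x', ‖x' - x‖ < R 0 ∧ f.it i x' = z := by
  induction i with
  | zero =>
    intro z hz
    rw [RatMap.it_zero] at hz
    exact ⟨z, hz, RatMap.it_zero f z⟩
  | succ i ih =>
    intro z hz
    have hi' : i < n := hi
    have hsc := F.bxScalesAux hx i hi' (ih hi'.le)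
    have h1 : 0 < R i := F.Rpos i hi'.le
    have hz' : ‖z - f.ev (f.it i x)‖ < R (i + 1) / R i * R i := by
      rw [div_mul_cancel₀ _ h1.ne', ← RatMap.it_succ]
      exact hz
    obtain ⟨z1, hz1, hz2⟩ := hsc.surj hz'
    obtain ⟨x', hx', hx2⟩ := ih hi'.le z1 hz1
    refine ⟨x', hx', ?_⟩
    rw [RatMap.it_succ, hx2, hz2]

/-- By induction on `i`: `f^i` maps `D(x, R 0)` onto `D(f^i x, R i)` (`Scales.surj`), so `f` scales
distances on `D(f^i x, R i)` by `R (i+1) / R i`. -/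
theorem FlipData.scales {f : RatMap K} {y w : K} {n : ℕ} {R : ℕ → ℝ} {ρ : ℝ}
    (F : FlipData f y w n R ρ) {x : K} (hx : ‖x - y‖ ≤ R 0) (i : ℕ) (hi : i < n) :
    Scales f (f.it i x) (R i) (R (i + 1) / R i) :=
  F.bxScalesAux hx i hi (F.bxSurjIt hx i hi.le)

theorem FlipData.flips {f : RatMap K} {y w : K} {n : ℕ} {R : ℕ → ℝ} {ρ : ℝ}
    (F : FlipData f y w n R ρ) : Flips f w y (R n) (R n * ρ) :=
  ⟨F.Rpos n le_rfl, mul_pos (F.Rpos n le_rfl) F.ρpos, F.pole, F.simple,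
    fun z hz h => F.nopole' z hz h.le, fun z hz h => F.dist z hz h.le,
    fun z z' hz hz' h h' => F.flip z z' hz hz' h.le h'.le⟩

/-- the iterates on open disks contained in the closed disk `D(y, R 0)` -/
theorem FlipData.iter_odisc {f : RatMap K} {y w : K} {n : ℕ} {R : ℕ → ℝ} {ρ : ℝ}
    (F : FlipData f y w n R ρ) {x : K} (hx : ‖x - y‖ ≤ R 0) {s : ℝ} (h0 : 0 < s) (hs : s ≤ R 0)
    (i : ℕ) (hi : i ≤ n) :
    f.map^[i] '' ((fun ζ : BerkA K => (ζ : BerkP K)) '' odisc x s) =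
      (fun ζ : BerkA K => (ζ : BerkP K)) '' odisc (f.it i x) (R i / R 0 * s) := by
  have hR0 : 0 < R 0 := F.Rpos 0 (Nat.zero_le _)
  induction i with
  | zero =>
    rw [RatMap.it_zero, div_self hR0.ne', one_mul, Function.iterate_zero, Set.image_id]
  | succ i ih =>
    have hi' : i < n := hi
    have h1 : 0 < R i := F.Rpos i hi'.le
    rw [Function.iterate_succ', Set.image_comp, ih hi'.le]
    have hsc := F.scales hx i hi'
    have hpos : 0 < R i / R 0 * s := mul_pos (div_pos h1 hR0) h0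
    have hle : R i / R 0 * s ≤ R i := by
      calc R i / R 0 * s ≤ R i / R 0 * R 0 :=
            mul_le_mul_of_nonneg_left hs (div_pos h1 hR0).le
        _ = R i := div_mul_cancel₀ _ hR0.ne'
    have hself : ‖f.it i x - f.it i x‖ < R i := by simpa using h1
    have hm := hsc.mono hpos hself hle
    rw [hm.image_odisc, ← RatMap.it_succ]
    congr 2
    field_simp

theorem FlipData.image {f : RatMap K} {y w : K} {n : ℕ} {R : ℕ → ℝ} {ρ : ℝ}
    (F : FlipData f y w n R ρ) (i : ℕ) (hi : i ≤ n) :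
    f.map^[i] '' ann y ρ (R 0) = ann (f.it i y) (R i * (ρ / R 0)) (R i) := by
  have hR0 : 0 < R 0 := F.Rpos 0 (Nat.zero_le _)
  have hρ := F.ρpos
  induction i with
  | zero =>
    rw [RatMap.it_zero, mul_div_cancel₀ _ hR0.ne', Function.iterate_zero, Set.image_id]
  | succ i ih =>
    have hi' : i < n := hi
    have h1 : 0 < R i := F.Rpos i hi'.le
    rw [Function.iterate_succ', Set.image_comp, ih hi'.le]
    have hx : ‖y - y‖ ≤ R 0 := by simpa using hR0.le
    have hsc := F.scales hx i hi'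
    rw [hsc.image_ann le_rfl (mul_pos h1 (div_pos hρ hR0)), ← RatMap.it_succ]
    congr 1
    · field_simp
    · field_simp

theorem FlipData.bxImageN {f : RatMap K} {y w : K} {n : ℕ} {R : ℕ → ℝ} {ρ : ℝ}
    (F : FlipData f y w n R ρ) :
    f.map^[n] '' ann y ρ (R 0) = ann w (R n * (ρ / R 0)) (R n) := by
  rw [F.image n le_rfl]
  exact ann_eq_of_le F.center.le

theorem FlipData.image_period {f : RatMap K} {y w : K} {n : ℕ} {R : ℕ → ℝ} {ρ : ℝ}
    (F : FlipData f y w n R ρ) : f.map^[n + 1] '' ann y ρ (R 0) = ann y ρ (R 0) := by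
  have hR0 : 0 < R 0 := F.Rpos 0 (Nat.zero_le _)
  have hRn : 0 < R n := F.Rpos n le_rfl
  have hρ := F.ρpos
  have hlt := F.lt
  rw [Function.iterate_succ', Set.image_comp, F.bxImageN]
  have hq : R n * (ρ / R 0) < R n := by
    have : ρ / R 0 < 1 := (div_lt_one hR0).2 hlt
    calc R n * (ρ / R 0) < R n * 1 := mul_lt_mul_of_pos_left this hRn
      _ = R n := mul_one _
  rw [F.flips.image_ann le_rfl (mul_pos hRn (div_pos hρ hR0)) hq]
  congr 1
  · field_simp
  · field_simp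

theorem bxCoeInjective : Function.Injective (fun ζ : BerkA K => (ζ : BerkP K)) :=
  OnePoint.coe_injective

theorem FlipData.oneToOne {f : RatMap K} {y w : K} {n : ℕ} {R : ℕ → ℝ} {ρ : ℝ}
    (F : FlipData f y w n R ρ) (i : ℕ) (hi : i < n + 1) :
    OneToOneOn f (f.map^[i] '' ann y ρ (R 0)) := by
  have hR0 : 0 < R 0 := F.Rpos 0 (Nat.zero_le _)
  have hRn : 0 < R n := F.Rpos n le_rfl
  have hρ := F.ρpos
  rcases Nat.lt_or_ge i n with h | h
  · have hx : ‖y - y‖ ≤ R 0 := by simpa using hR0.le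
    refine (F.scales hx i h).oneToOneOn ?_
    rw [F.image i h.le]
    rintro _ ⟨ζ, hζ, rfl⟩
    exact ⟨ζ, hζ.2, rfl⟩
  · have hin : i = n := by omega
    subst hin
    refine F.flips.oneToOneOn ?_
    rw [F.bxImageN]
    rintro _ ⟨ζ, hζ, rfl⟩
    refine ⟨ζ, ⟨hζ.2, ?_⟩, rfl⟩
    intro hw
    rw [Set.mem_singleton_iff] at hw
    have h1 := hζ.1
    rw [hw, del_pt, sub_self, norm_zero] at h1
    exact absurd h1 (not_lt.2 (mul_pos hRn (div_pos hρ hR0)).le)

theorem FlipData.subset_fatou {f : RatMap K} {y w : K} {n : ℕ} {R : ℕ → ℝ} {ρ : ℝ}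
    (F : FlipData f y w n R ρ) : ann y ρ (R 0) ⊆ fatou f := by
  intro ζ hζ
  refine ⟨ann y ρ (R 0), isOpen_ann _ _ _, hζ, ?_⟩
  -- the period
  have hper : ∀ q : ℕ, f.map^[(n + 1) * q] '' ann y ρ (R 0) = ann y ρ (R 0) := by
    intro q
    induction q with
    | zero => rw [Nat.mul_zero, Function.iterate_zero, Set.image_id]
    | succ q ih =>
      rw [Nat.mul_succ, Function.iterate_add, Set.image_comp, F.image_period, ih]
  have himg : ∀ m : ℕ, f.map^[m] '' ann y ρ (R 0) =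
      f.map^[m % (n + 1)] '' ann y ρ (R 0) := by
    intro m
    have hm : m = m % (n + 1) + (n + 1) * (m / (n + 1)) := (Nat.mod_add_div m (n + 1)).symm
    conv_lhs => rw [hm]
    rw [Function.iterate_add, Set.image_comp, hper]
  refine infinite_compl (M := ∑ i ∈ Finset.range (n + 1), (R i + ‖f.it i y‖)) ?_
  intro ξ hξ hmem
  rw [Set.mem_iUnion] at hmem
  obtain ⟨m, hm⟩ := hmem
  rw [himg m] at hm
  have hlt : m % (n + 1) < n + 1 := Nat.mod_lt _ (Nat.succ_pos _)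
  set i := m % (n + 1) with hi
  rw [F.image i (by omega)] at hm
  obtain ⟨ξ', hξ', he⟩ := hm
  have he' : ξ' = ξ := bxCoeInjective he
  subst he'
  have h1 : del ξ' 0 ≤ max (del ξ' (f.it i y)) ‖f.it i y - 0‖ := del_le _ _ _
  rw [sub_zero] at h1
  have h2 : R i + ‖f.it i y‖ ≤ ∑ i ∈ Finset.range (n + 1), (R i + ‖f.it i y‖) := by
    refine Finset.single_le_sum (f := fun i => R i + ‖f.it i y‖) ?_ (Finset.mem_range.2 hlt)
    intro j hj
    rw [Finset.mem_range] at hj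
    exact add_nonneg (F.Rpos j (by omega)).le (norm_nonneg _)
  have h3 : max (del ξ' (f.it i y)) ‖f.it i y‖ ≤ R i + ‖f.it i y‖ := by
    refine max_le ?_ ?_
    · have := norm_nonneg (f.it i y)
      have := hξ'.2
      linarith
    · have := (F.Rpos i (by omega)).le
      linarith
  linarith

theorem Scales.bxMapGp {f : RatMap K} {x : K} {s lam : ℝ} (h : Scales f x s lam) {t : ℝ}
    (ht : 0 < t) (hts : t < s) :
    f.map ((gp x t : BerkA K) : BerkP K) = ((gp (f.ev x) (lam * t) : BerkA K) : BerkP K) := by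
  have hs := h.spos
  have hl := h.lpos
  have hd : del (gp x t : BerkA K) x < s := by
    rw [del_gp x ht, sub_self, norm_zero, max_eq_right ht.le]
    exact hts
  obtain ⟨ξ, hξ, hdel⟩ := h.map_eq hd
  rw [hξ]
  congr 1
  refine BerkA.ext_del fun b => ?_
  have hlt : 0 < lam * t := mul_pos hl ht
  have hxx : ‖x - x‖ < s := by simpa using hs
  have hcen : del ξ (f.ev x) = lam * t := by
    rw [hdel x hxx, del_gp x ht, sub_self, norm_zero, max_eq_right ht.le]
  rw [del_gp _ hlt]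
  rcases lt_or_ge ‖b - f.ev x‖ (lam * s) with hb | hb
  · obtain ⟨z, hz, rfl⟩ := h.surj hb
    rw [hdel z hz, del_gp x ht, h.scale x z hxx hz, mul_max_of_nonneg _ _ hl.le]
  · have h1 : del ξ (f.ev x) < ‖f.ev x - b‖ := by
      rw [hcen, norm_sub_rev]
      exact (mul_lt_mul_of_pos_left hts hl).trans_le hb
    rw [del_eq_of_lt h1, max_eq_left]
    rw [hcen] at h1
    exact h1.le

theorem Flips.bxMapGp {f : RatMap K} {w y : K} {s kap : ℝ} (h : Flips f w y s kap) {t : ℝ}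
    (ht : 0 < t) (hts : t < s) :
    f.map ((gp w t : BerkA K) : BerkP K) = ((gp y (kap / t) : BerkA K) : BerkP K) := by
  have hs := h.spos
  have hk := h.kpos
  have hdw : del (gp w t : BerkA K) w = t := by
    rw [del_gp w ht, sub_self, norm_zero, max_eq_right ht.le]
  obtain ⟨ξ, hξ, hy, hdel⟩ := h.map_eq (ζ := gp w t) (by rw [hdw]; exact hts)
    (by rw [hdw]; exact ht)
  rw [hξ]
  congr 1
  refine BerkA.ext_del fun b => ?_
  rw [hdw] at hy
  have hkt : 0 < kap / t := div_pos hk ht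
  rw [del_gp _ hkt]
  rcases lt_or_ge (kap / s) ‖b - y‖ with hb | hb
  · obtain ⟨z, hzw, hz, rfl⟩ := h.surj hb
    have hzpos : 0 < ‖z - w‖ := norm_pos_iff.2 (sub_ne_zero.2 hzw)
    rw [hdel z hzw hz, hdw, del_gp w ht, norm_sub_rev y, h.dist z hzw hz, norm_sub_rev w z]
    rcases le_total ‖z - w‖ t with hc | hc
    · rw [max_eq_right hc, max_eq_left]
      · field_simp
      · exact div_le_div_of_nonneg_left hk.le hzpos hc
    · rw [max_eq_left hc, max_eq_right]
      · field_simp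
      · exact div_le_div_of_nonneg_left hk.le ht hc
  · have h2 : kap / s < kap / t := div_lt_div_of_pos_left hk ht hts
    have h1 : ‖y - b‖ < del ξ y := by
      rw [hy, norm_sub_rev]
      exact hb.trans_lt h2
    rw [del_eq_of_lt' h1, hy, max_eq_right]
    rw [hy] at h1
    exact h1.le

theorem FlipData.bxMapGp {f : RatMap K} {y w : K} {n : ℕ} {R : ℕ → ℝ} {ρ : ℝ}
    (F : FlipData f y w n R ρ) {t : ℝ} (ht : 0 < t) (htR : t < R 0) (i : ℕ) (hi : i ≤ n) :
    f.map^[i] ((gp y t : BerkA K) : BerkP K) =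
      ((gp (f.it i y) (R i / R 0 * t) : BerkA K) : BerkP K) := by
  have hR0 : 0 < R 0 := F.Rpos 0 (Nat.zero_le _)
  induction i with
  | zero => rw [RatMap.it_zero, div_self hR0.ne', one_mul, Function.iterate_zero, id]
  | succ i ih =>
    have hi' : i < n := hi
    have h1 : 0 < R i := F.Rpos i hi'.le
    have hx : ‖y - y‖ ≤ R 0 := by simpa using hR0.le
    rw [Function.iterate_succ_apply', ih hi'.le]
    have hlt : R i / R 0 * t < R i := by
      calc R i / R 0 * t < R i / R 0 * R 0 := mul_lt_mul_of_pos_left htR (div_pos h1 hR0)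
        _ = R i := div_mul_cancel₀ _ hR0.ne'
    rw [(F.scales hx i hi').bxMapGp (mul_pos (div_pos h1 hR0) ht) hlt, ← RatMap.it_succ]
    congr 2
    field_simp

theorem bxGpEqOfLe {a b : K} {r : ℝ} (hr : 0 < r) (h : ‖a - b‖ ≤ r) :
    (gp a r : BerkA K) = gp b r := by
  refine BerkA.ext_del fun c => ?_
  rw [del_gp a hr, del_gp b hr]
  have h1 : ‖a - c‖ ≤ max ‖b - c‖ r := by
    have : a - c = (a - b) + (b - c) := by ring
    rw [this]
    refine (IsUltrametricDist.norm_add_le_max _ _).trans (max_le ?_ (le_max_left _ _))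
    exact h.trans (le_max_right _ _)
  have h2 : ‖b - c‖ ≤ max ‖a - c‖ r := by
    have : b - c = (b - a) + (a - c) := by ring
    rw [this]
    refine (IsUltrametricDist.norm_add_le_max _ _).trans (max_le ?_ (le_max_left _ _))
    rw [norm_sub_rev]
    exact h.trans (le_max_right _ _)
  exact le_antisymm (max_le h1 (le_max_right _ _)) (max_le h2 (le_max_right _ _))

theorem FlipData.bxMapGpPeriod {f : RatMap K} {y w : K} {n : ℕ} {R : ℕ → ℝ} {ρ : ℝ}
    (F : FlipData f y w n R ρ) {t : ℝ} (ht : ρ < t) (htR : t < R 0) :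
    f.map^[n + 1] ((gp y t : BerkA K) : BerkP K) = ((gp y (ρ * R 0 / t) : BerkA K) : BerkP K) := by
  have hR0 : 0 < R 0 := F.Rpos 0 (Nat.zero_le _)
  have hRn : 0 < R n := F.Rpos n le_rfl
  have hρ := F.ρpos
  have ht0 : 0 < t := hρ.trans ht
  rw [Function.iterate_succ_apply', F.bxMapGp ht0 htR n le_rfl]
  have hpos : 0 < R n / R 0 * t := mul_pos (div_pos hRn hR0) ht0
  have hlt : R n / R 0 * t < R n := by
    calc R n / R 0 * t < R n / R 0 * R 0 := mul_lt_mul_of_pos_left htR (div_pos hRn hR0)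
      _ = R n := div_mul_cancel₀ _ hR0.ne'
  have hle : ‖f.it n y - w‖ ≤ R n / R 0 * t := by
    rw [F.center]
    have : R n * (ρ / R 0) = R n / R 0 * ρ := by ring
    rw [this]
    exact mul_le_mul_of_nonneg_left ht.le (div_pos hRn hR0).le
  rw [bxGpEqOfLe hpos hle, F.flips.bxMapGp hpos hlt]
  congr 2
  field_simp

theorem FlipData.map_outer {f : RatMap K} {y w : K} {n : ℕ} {R : ℕ → ℝ} {ρ : ℝ}
    (F : FlipData f y w n R ρ) : f.map^[n + 1] ((gp y (R 0) : BerkA K) : BerkP K) =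
      ((gp y ρ : BerkA K) : BerkP K) := by
  have hR0 : 0 < R 0 := F.Rpos 0 (Nat.zero_le _)
  have hρ := F.ρpos
  have hlt := F.lt
  have hc := continuous_gp (K := K) y (s := 1) (r := 1) one_pos
  have hc0 : Filter.Tendsto (fun t : ℝ => ((gp y t : BerkA K) : BerkP K))
      (nhdsWithin (R 0) (Set.Iio (R 0))) (nhds ((gp y (R 0) : BerkA K) : BerkP K)) :=
    ((hc.continuousAt (Ioi_mem_nhds hR0)).tendsto).mono_left nhdsWithin_le_nhds
  have h1 : Filter.Tendsto (fun t : ℝ => f.map^[n + 1] ((gp y t : BerkA K) : BerkP K))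
      (nhdsWithin (R 0) (Set.Iio (R 0)))
      (nhds (f.map^[n + 1] ((gp y (R 0) : BerkA K) : BerkP K))) :=
    ((continuous_iter f (n + 1)).tendsto _).comp hc0
  have h2 : Filter.Tendsto (fun t : ℝ => ((gp y (ρ * R 0 / t) : BerkA K) : BerkP K))
      (nhdsWithin (R 0) (Set.Iio (R 0))) (nhds ((gp y ρ : BerkA K) : BerkP K)) := by
    have h3 : Filter.Tendsto (fun t : ℝ => ρ * R 0 / t) (nhds (R 0)) (nhds ρ) := by
      have h4 : ContinuousAt (fun t : ℝ => ρ * R 0 / t) (R 0) :=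
        continuousAt_const.div continuousAt_id hR0.ne'
      have h5 := h4.tendsto
      rwa [mul_div_cancel_right₀ _ hR0.ne'] at h5
    exact ((hc.continuousAt (Ioi_mem_nhds hρ)).tendsto).comp (h3.mono_left nhdsWithin_le_nhds)
  have h6 : (fun t : ℝ => f.map^[n + 1] ((gp y t : BerkA K) : BerkP K)) =ᶠ[
      nhdsWithin (R 0) (Set.Iio (R 0))] fun t : ℝ => ((gp y (ρ * R 0 / t) : BerkA K) : BerkP K) := by
    have h7 : Set.Ioo ρ (R 0) ∈ nhdsWithin (R 0) (Set.Iio (R 0)) := Ioo_mem_nhdsLT hlt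
    filter_upwards [h7] with t ht
    exact F.bxMapGpPeriod ht.1 ht.2
  exact tendsto_nhds_unique (h1.congr' h6) h2

end Pool.Agent.FIC
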