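import Pool.Agent.FIC.BX

/-!
# The outer boundary point is in the Julia set

Use `FlipData.iter_odisc`, `FlipData.scales`, `FlipData.flips`.

`gp y r ∉ fatou f`: let `V` be an open neighbourhood, `W = ⋃ f^j(V)`, forward invariant.  `nhds_gp`
gives `S`; `dirs S` gives `x₀, …, x_j`.  For a step `x → x'`: `f^n (odisc x r) = odisc (f^n x) Θ`,
`‖f^n x - w‖ = Θ`; `f` scales `D(f^n x, Θ)` by `kap / Θ²` (`flip`), so
`G (odisc x r) = odisc x₁ ρ`, `x₁ = G x`, `‖x₁ - y‖ = ρ`; `f^n` scales `D(x₁, ρ)` by `Θ / r`, and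
`‖f^n x₁ - w‖ = Θ ρ / r`, `f` scales `D(f^n x₁, Θ ρ / r)` by `kap / (Θ ρ / r)²`, so
`G² (odisc x r) = odisc x' r`.  Hence `odisc x_j r ⊆ W` (in `BerkP K`), and
`f^n (odisc x_j r) = odisc w Θ`, so by `Flips.image_odisc` the complement of `cdisc y ρ` lies in
`W`.  `G` maps `cdisc y ρ` to points with `∞` or `del · y ≥ r`; `G` is surjective, so `odisc y r`
lies in `G (compl of cdisc y ρ) ⊆ W`.  So `W` is everything.
-/

open Polynomial

noncomputable section

namespace Pool.Agent.FIC

variable {K : Type*} [NontriviallyNormedField K] [IsUltrametricDist K] [IsAlgClosed K]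

/-- the open disk in the projective line -/
def odP (a : K) (s : ℝ) : Set (BerkP K) := (fun ζ : BerkA K => (ζ : BerkP K)) '' odisc a s

/-- the points near a point at distance `t` of `w` have distance `t` of `w` -/
theorem norm_eq_of_near {z x w : K} {t : ℝ} (hx : ‖x - w‖ = t) (hz : ‖z - x‖ < t) :
    ‖z - w‖ = t := by
  have h1 : z - w = (z - x) + (x - w) := by ring
  rw [h1, IsUltrametricDist.norm_add_eq_max_of_norm_ne_norm (by rw [hx]; exact hz.ne), hx]
  exact max_eq_right hz.le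

theorem FlipData.scales_pole {f : RatMap K} {y w : K} {n : ℕ} {R : ℕ → ℝ} {ρ : ℝ}
    (F : FlipData f y w n R ρ) {x : K} {t : ℝ} (ht : 0 < t) (htn : t ≤ R n)
    (hx : ‖x - w‖ = t) : Scales f x t (R n * ρ / (t * t)) where
  spos := ht
  lpos := div_pos (mul_pos (F.Rpos n le_rfl) F.ρpos) (mul_pos ht ht)
  nopole := fun z hz => by
    have h1 := norm_eq_of_near hx hz
    refine F.nopole' z ?_ (h1.le.trans htn)
    rintro rfl
    rw [sub_self, norm_zero] at h1
    exact ht.ne h1
  scale := fun z z' hz hz' => by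
    have h1 := norm_eq_of_near hx hz
    have h2 := norm_eq_of_near hx hz'
    have h3 : z ≠ w := by
      rintro rfl
      rw [sub_self, norm_zero] at h1
      exact ht.ne h1
    have h4 : z' ≠ w := by
      rintro rfl
      rw [sub_self, norm_zero] at h2
      exact ht.ne h2
    rw [F.flip z z' h3 h4 (h1.le.trans htn) (h2.le.trans htn), h1, h2]
    ring

theorem FlipData.flips' {f : RatMap K} {y w : K} {n : ℕ} {R : ℕ → ℝ} {ρ : ℝ}
    (F : FlipData f y w n R ρ) {s : ℝ} (hs : 0 < s) (hsn : s ≤ R n) :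
    Flips f w y s (R n * ρ) where
  spos := hs
  kpos := mul_pos (F.Rpos n le_rfl) F.ρpos
  pole := F.pole
  simple := F.simple
  nopole := fun z h1 h2 => F.nopole' z h1 (h2.le.trans hsn)
  dist := fun z h1 h2 => F.dist z h1 (h2.le.trans hsn)
  flip := fun z z' h1 h2 h3 h4 => F.flip z z' h1 h2 (h3.le.trans hsn) (h4.le.trans hsn)

/-- one step of the residue classes -/
theorem FlipData.image_step {f : RatMap K} {y w : K} {n : ℕ} {R : ℕ → ℝ} {ρ : ℝ}
    (F : FlipData f y w n R ρ) {x x' : K} (hx : ‖x - y‖ ≤ R 0)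
    (h : DirStep f w n (R n) (ρ / R 0) x x') :
    f.map '' (f.map^[n] '' (f.map '' (f.map^[n] '' odP x (R 0)))) = odP x' (R 0) := by
  obtain ⟨h1, h2, h3⟩ := h
  have hr := F.Rpos 0 (Nat.zero_le _)
  have hΘ := F.Rpos n le_rfl
  have hρ := F.ρpos
  have e1 : f.map^[n] '' odP x (R 0) = odP (f.it n x) (R n) := by
    have := F.iter_odisc hx hr le_rfl n le_rfl
    rw [div_mul_cancel₀ _ hr.ne'] at this
    exact this
  have e2 : f.map '' odP (f.it n x) (R n) = odP (f.it (n + 1) x) ρ := by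
    have := (F.scales_pole hΘ le_rfl h1).image_odisc
    rw [RatMap.it_succ]
    rw [show R n * ρ / (R n * R n) * R n = ρ by field_simp] at this
    exact this
  have h4 : ‖f.it (n + 1) x - y‖ = ρ := by
    have h5 : f.it n x ≠ w := by
      intro h
      rw [h, sub_self, norm_zero] at h1
      exact hΘ.ne h1
    rw [RatMap.it_succ, F.dist _ h5 h1.le, h1]
    field_simp
  have e3 : f.map^[n] '' odP (f.it (n + 1) x) ρ =
      odP (f.it n (f.it (n + 1) x)) (R n * (ρ / R 0)) := by
    have := F.iter_odisc (x := f.it (n + 1) x) (h4.le.trans F.lt.le) hρ F.lt.le n le_rfl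
    rw [show R n / R 0 * ρ = R n * (ρ / R 0) by ring] at this
    exact this
  have h6 : 0 < R n * (ρ / R 0) := mul_pos hΘ (div_pos hρ hr)
  have h7 : R n * (ρ / R 0) ≤ R n := by
    have : ρ / R 0 ≤ 1 := (div_le_one hr).2 F.lt.le
    nlinarith
  have e4 : f.map '' odP (f.it n (f.it (n + 1) x)) (R n * (ρ / R 0)) = odP x' (R 0) := by
    have := (F.scales_pole h6 h7 h2).image_odisc
    rw [h3, RatMap.it_succ f n (f.it (n + 1) x)]
    rw [show R n * ρ / (R n * (ρ / R 0) * (R n * (ρ / R 0))) * (R n * (ρ / R 0)) = R 0 by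
      field_simp] at this
    exact this
  rw [e1, e2, e3, e4]

theorem FlipData.outer_notMem {f : RatMap K} {y w : K} {n : ℕ} {R : ℕ → ℝ} {ρ : ℝ}
    (hd : 1 ≤ f.degree) (F : FlipData f y w n R ρ) :
    ((gp y (R 0) : BerkA K) : BerkP K) ∉ fatou f := by
  rintro ⟨V, hV, hmem, hinf⟩
  have hr := F.Rpos 0 (Nat.zero_le _)
  have hΘ := F.Rpos n le_rfl
  have hρ := F.ρpos
  set W : Set (BerkP K) := ⋃ n : ℕ, f.map^[n] '' V with hW
  -- forward invariance
  have hfwd : ∀ A : Set (BerkP K), A ⊆ W → f.map '' A ⊆ W := by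
    rintro A hA _ ⟨ζ, hζ, rfl⟩
    obtain ⟨m, ξ, hξ, hm⟩ := Set.mem_iUnion.1 (hA hζ)
    rw [hW, Set.mem_iUnion]
    exact ⟨m + 1, ξ, hξ, by rw [Function.iterate_succ_apply', hm]⟩
  have hfwd' : ∀ (m : ℕ) (A : Set (BerkP K)), A ⊆ W → f.map^[m] '' A ⊆ W := by
    intro m
    induction m with
    | zero => intro A hA; simpa using hA
    | succ m ih =>
      intro A hA
      have : f.map^[m + 1] '' A = f.map '' (f.map^[m] '' A) := by
        rw [Set.image_image]
        refine Set.image_congr fun ζ _ => ?_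
        rw [Function.iterate_succ_apply']
      rw [this]
      exact hfwd _ (ih A hA)
  obtain ⟨S, hS⟩ := nhds_gp y hr hV hmem
  obtain ⟨j, x, hx1, hx2, hx3, hx4⟩ := F.dirs S
  have hVW : V ⊆ W := fun ζ hζ => Set.mem_iUnion.2 ⟨0, ζ, hζ, rfl⟩
  have h0 : odP (x 0) (R 0) ⊆ W := (hS (x 0) (hx1 0 (Nat.zero_le _)) hx2).trans hVW
  have hall : ∀ i, i ≤ j → odP (x i) (R 0) ⊆ W := by
    intro i
    induction i with
    | zero => exact fun _ => h0
    | succ i ih =>
      intro hi
      rw [← F.image_step (hx1 i (by omega)) (hx3 i (by omega))]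
      exact hfwd _ (hfwd' n _ (hfwd _ (hfwd' n _ (ih (by omega)))))
  have hw : odP w (R n) ⊆ W := by
    have e1 : f.map^[n] '' odP (x j) (R 0) = odP (f.it n (x j)) (R n) := by
      have := F.iter_odisc (hx1 j le_rfl) hr le_rfl n le_rfl
      rw [div_mul_cancel₀ _ hr.ne'] at this
      exact this
    have e2 : odP (f.it n (x j)) (R n) = odP w (R n) := by
      unfold odP
      rw [odisc_eq hx4]
    rw [← e2, ← e1]
    exact hfwd' n _ (hall j le_rfl)
  have hcompl : ((fun ζ : BerkA K => (ζ : BerkP K)) '' cdisc y ρ)ᶜ ⊆ W := by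
    have h1 := (F.flips' hΘ le_rfl).image_odisc
    rw [show R n * ρ / R n = ρ by field_simp] at h1
    rw [← h1]
    exact hfwd _ hw
  have hin : odP y (R 0) ⊆ W := by
    rintro _ ⟨η, hη, rfl⟩
    obtain ⟨ζ, hζ⟩ := surjective_iter f hd (n + 1) (η : BerkP K)
    by_cases hζc : ζ ∈ (fun ζ : BerkA K => (ζ : BerkP K)) '' cdisc y ρ
    · exfalso
      obtain ⟨ζ', hζ', rfl⟩ := hζc
      have hη' : del η y < R 0 := hη
      have hη0 := del_nonneg η y
      -- choose the radius `s`
      obtain ⟨s, hs1, hs2, hs3⟩ : ∃ s, ρ < s ∧ s ≤ R 0 ∧ del η y ≤ ρ * R 0 / s := by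
        by_cases h0 : del η y = 0
        · exact ⟨R 0, F.lt, le_rfl, by rw [h0]; positivity⟩
        · have hpos : 0 < del η y := lt_of_le_of_ne hη0 (Ne.symm h0)
          refine ⟨min (R 0) (ρ * R 0 / del η y), lt_min F.lt ?_, min_le_left _ _, ?_⟩
          · rw [lt_div_iff₀ hpos]
            exact mul_lt_mul_of_pos_left hη' hρ
          · have hm : 0 < min (R 0) (ρ * R 0 / del η y) :=
              lt_min hr (div_pos (mul_pos hρ hr) hpos)
            rw [le_div_iff₀ hm]
            calc del η y * min (R 0) (ρ * R 0 / del η y) ≤ del η y * (ρ * R 0 / del η y) :=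
                  mul_le_mul_of_nonneg_left (min_le_right _ _) hη0
              _ = ρ * R 0 := by field_simp
      have hs0 : 0 < s := hρ.trans hs1
      have h1 : ((ζ' : BerkA K) : BerkP K) ∈ odP y s := ⟨ζ', lt_of_le_of_lt hζ' hs1, rfl⟩
      have h2 : f.map^[n] ((ζ' : BerkA K) : BerkP K) ∈ odP w (R n / R 0 * s) := by
        have h3 := F.iter_odisc (x := y) (by rw [sub_self, norm_zero]; exact hr.le) hs0 hs2 n le_rfl
        have h4 : f.map^[n] ((ζ' : BerkA K) : BerkP K) ∈ odP (f.it n y) (R n / R 0 * s) := by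
          unfold odP
          rw [← h3]
          exact ⟨_, h1, rfl⟩
        have h5 : ‖f.it n y - w‖ < R n / R 0 * s := by
          rw [F.center]
          calc R n * (ρ / R 0) = R n / R 0 * ρ := by ring
            _ < R n / R 0 * s := mul_lt_mul_of_pos_left hs1 (div_pos hΘ hr)
        unfold odP at h4 ⊢
        rwa [odisc_eq h5] at h4
      have h6 : 0 < R n / R 0 * s := mul_pos (div_pos hΘ hr) hs0
      have h7 : R n / R 0 * s ≤ R n := by
        calc R n / R 0 * s ≤ R n / R 0 * R 0 :=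
              mul_le_mul_of_nonneg_left hs2 (div_pos hΘ hr).le
          _ = R n := div_mul_cancel₀ _ hr.ne'
      have h8 := (F.flips' h6 h7).image_odisc
      have h9 : ((η : BerkA K) : BerkP K) ∈
          ((fun ζ : BerkA K => (ζ : BerkP K)) '' cdisc y (R n * ρ / (R n / R 0 * s)))ᶜ := by
        rw [← h8, ← hζ, Function.iterate_succ_apply']
        exact ⟨_, h2, rfl⟩
      apply h9
      refine ⟨η, ?_, rfl⟩
      change del η y ≤ R n * ρ / (R n / R 0 * s)
      rw [show R n * ρ / (R n / R 0 * s) = ρ * R 0 / s by field_simp]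
      exact hs3
    · have h1 : ({ζ} : Set (BerkP K)) ⊆ W := by
        rw [Set.singleton_subset_iff]
        exact hcompl hζc
      have h2 := hfwd' (n + 1) _ h1
      rw [Set.image_singleton, hζ] at h2
      exact h2 rfl
  have huniv : W = Set.univ := by
    rw [Set.eq_univ_iff_forall]
    intro ζ
    by_cases hζ : ζ ∈ (fun ζ : BerkA K => (ζ : BerkP K)) '' cdisc y ρ
    · obtain ⟨ζ', hζ', rfl⟩ := hζ
      exact hin ⟨ζ', lt_of_le_of_lt hζ' F.lt, rfl⟩
    · exact hcompl hζ
  rw [huniv, Set.compl_univ] at hinf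
  exact hinf Set.finite_empty

end Pool.Agent.FIC
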