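import Pool.Agent.FIC.BY

/-!
# The components and their cycles

`component`: `gp y ρ ∉ fatou f`, because `f.map^[n+1] (gp y r) = gp y ρ` (`map_outer`); more
precisely: the Fatou set is also forward invariant?  We use only: `f.map^[n+1] (gp y ρ) = gp y r`
(continuity, as in `map_outer`: `gp y t`, `t → ρ`, `t > ρ`, is mapped to `gp y (ρ r / t)`), and
`gp y ρ ∈ fatou f` would give `gp y r = f.map^[n+1] (gp y ρ) ∈ fatou f` if rational maps are open.
To avoid openness: use `mem_fatou_of_map` in the contrapositive direction, i.e.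
`f ζ ∈ fatou f → ζ ∈ fatou f`; `f.map^[n+1] (gp y r) = gp y ρ`, so if `gp y ρ` were in the Fatou set
then `gp y r` would be.

Let `C` be the component of `ζ ∈ U = ann y ρ (R 0)`.  `U` is connected, so `U ⊆ C`; `C` is
preconnected, `U` is open and `closure U ∩ C ⊆ U` by `closure_ann` and the two boundary points not
being in the Fatou set; so `C ⊆ U` (`IsPreconnected.subset_of_closure_inter_subset`).

`infinite_cycles`: the sets `U k = ann y (ρ k) (R k 0)` are pairwise different (`ann_injective`), and
each cycle `cycleOf f (U k)` is finite (`image_period`), so a finite set of cycles would contain only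
finitely many sets.
-/

open Polynomial

noncomputable section

namespace Pool.Agent.FIC

variable {K : Type*} [NontriviallyNormedField K] [IsUltrametricDist K] [IsAlgClosed K]

/-- `f^m ζ ∈ fatou f` implies `ζ ∈ fatou f` -/
theorem mem_fatou_of_iterate {f : RatMap K} (hd : 1 ≤ f.degree) (m : ℕ) :
    ∀ ζ : BerkP K, f.map^[m] ζ ∈ fatou f → ζ ∈ fatou f := by
  induction m with
  | zero => intro ζ h; simpa using h
  | succ m ih =>
    intro ζ h
    rw [Function.iterate_succ_apply] at h
    exact mem_fatou_of_map hd (ih _ h)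

theorem FlipData.inner_notMem {f : RatMap K} {y w : K} {n : ℕ} {R : ℕ → ℝ} {ρ : ℝ}
    (hd : 1 ≤ f.degree) (F : FlipData f y w n R ρ) :
    ((gp y ρ : BerkA K) : BerkP K) ∉ fatou f := by
  intro h
  rw [← F.map_outer] at h
  exact F.outer_notMem hd (mem_fatou_of_iterate hd _ _ h)

theorem FlipData.component {f : RatMap K} {y w : K} {n : ℕ} {R : ℕ → ℝ} {ρ : ℝ}
    (hd : 1 ≤ f.degree) (F : FlipData f y w n R ρ) :
    IsIndifferent f (ann y ρ (R 0)) ∧ ¬ IsDisk (ann y ρ (R 0)) := by
  refine ⟨⟨?_, n + 1, Nat.le_add_left 1 n, F.image_period, fun i hi => F.oneToOne i hi⟩, ?_⟩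
  · have hconn := isConnected_ann y F.ρpos F.lt
    obtain ⟨ζ, hζ⟩ := hconn.nonempty
    have hsub := F.subset_fatou
    refine ⟨ζ, hsub hζ, Set.Subset.antisymm ?_ ?_⟩
    · exact hconn.isPreconnected.subset_connectedComponentIn hζ hsub
    · have hpre : IsPreconnected (connectedComponentIn (fatou f) ζ) :=
        isPreconnected_connectedComponentIn
      refine hpre.subset_of_closure_inter_subset (isOpen_ann y ρ (R 0))
        ⟨ζ, mem_connectedComponentIn (hsub hζ), hζ⟩ ?_
      rintro ξ ⟨hξ, hξC⟩
      have hξf : ξ ∈ fatou f := connectedComponentIn_subset _ _ hξC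
      rcases closure_ann y F.ρpos F.lt hξ with h | h | h
      · exact h
      · exact absurd (h ▸ hξf) (F.inner_notMem hd)
      · exact absurd (h ▸ hξf) (F.outer_notMem hd)
  · obtain ⟨s, hs⟩ := F.ρval
    obtain ⟨r, hr⟩ := F.rval
    have h0 : s ≠ 0 := by
      rintro rfl
      rw [norm_zero] at hs
      exact absurd F.ρpos (by rw [← hs]; exact lt_irrefl _)
    have hlt : ‖s‖ < ‖r‖ := by
      rw [hs, hr]
      exact F.lt
    have := ann_not_disk y h0 hlt
    rwa [hs, hr] at this

/-- the cycle is finite -/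
theorem FlipData.finite_cycle {f : RatMap K} {y w : K} {n : ℕ} {R : ℕ → ℝ} {ρ : ℝ}
    (F : FlipData f y w n R ρ) : (cycleOf f (ann y ρ (R 0))).Finite := by
  set U := ann y ρ (R 0) with hU
  have hq : ∀ q : ℕ, f.map^[(n + 1) * q] '' U = U := by
    intro q
    induction q with
    | zero => simp
    | succ q ih =>
      rw [Nat.mul_succ, Function.iterate_add, Set.image_comp, F.image_period, ih]
  refine ((Set.finite_lt_nat (n + 1)).image (fun i => f.map^[i] '' U)).subset ?_
  rintro _ ⟨m, rfl⟩
  refine ⟨m % (n + 1), Nat.mod_lt _ (Nat.succ_pos n), ?_⟩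
  change f.map^[m % (n + 1)] '' U = f.map^[m] '' U
  conv_rhs => rw [← Nat.mod_add_div m (n + 1), Function.iterate_add, Set.image_comp, hq]

/-- infinitely many swapped annuli give infinitely many cycles -/
theorem infinite_cycles {f : RatMap K} (hd : 1 ≤ f.degree) {y w : K} {n : ℕ → ℕ}
    {R : ℕ → ℕ → ℝ} {ρ : ℕ → ℝ} (F : ∀ k, FlipData f y w (n k) (R k) (ρ k))
    (hR : StrictAnti fun k => R k 0) : (nonDiskCycles f).Infinite := by
  intro hfin
  have hsub : Set.range (fun k => cycleOf f (ann y (ρ k) (R k 0))) ⊆ nonDiskCycles f := by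
    rintro _ ⟨k, rfl⟩
    obtain ⟨h1, h2⟩ := (F k).component hd
    exact ⟨_, h1, h2, rfl⟩
  have hfin2 := hfin.subset hsub
  have hfin3 : (⋃₀ Set.range (fun k => cycleOf f (ann y (ρ k) (R k 0)))).Finite := by
    refine hfin2.sUnion ?_
    rintro _ ⟨k, rfl⟩
    exact (F k).finite_cycle
  have hinj : Function.Injective (fun k => ann y (ρ k) (R k 0)) := by
    intro k k' h
    have := (ann_injective (F k).ρpos (F k).lt (F k').ρpos (F k').lt h).2
    exact hR.injective this
  refine Set.infinite_range_of_injective hinj (hfin3.subset ?_)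
  rintro _ ⟨k, rfl⟩
  exact ⟨_, ⟨k, rfl⟩, 0, by simp⟩

end Pool.Agent.FIC
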