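import Pool.Agent.FIC.Runs

/-!
# Backward steps (BX, BC, BT of the paper proof)

`‖b‖ ≤ rad 5` always.  `RatOn` of `g b` on zones: `ratOn_orb` with `n = 1` (or `RatOn.comp_div`).

* `back_X`: `RatOn.ivt` for `g b` with `z₀ = 0`, `z₁ = α`: `‖g b α - g b 0‖ = 1` (`X_eq`),
  `‖g b 0‖ ≤ rad 5`.  If `‖τ‖ = 1` then `‖g b z - g b 0‖ = 1`, so `‖z‖ = ‖α‖` by `X_eq`.
* `back_C`: `RatOn.ivt` with `z₀ = d`, `z₁ = d + h`, `‖h‖ = rad (1/p)`: `‖g b z₁ - g b d‖ = 1`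
  (`C_rad_eq` with `k = ie - 1/p`, `ie + 1 - p k = 0`), `‖g b d - d‖ ≤ rad 5`.  If `‖τ - d‖ = 1`, then
  `‖g b z - g b d‖ = 1`, so not `‖z - d‖ < rad (1/p)` (`C_rad_lt`).  If `‖τ - d‖ < 1` then
  `‖g b z - g b d‖ < 1`, so `‖z - d‖ ≠ rad (1/p)` (`C_rad_eq`).
* `back_T`: choose `h` with `h ^ N = α ^ (N + 1) / (τ - t)`, `‖h‖ = rad e`, `e = 1 + (1 - e') / N`,
  `e` is in the zone range; `g b` multiplies distances by `rad (gain (T e))` on the open disk
  `D(t + h, rad e)` (`Run.scal_same` or `step_lt` with `E` slightly larger than `e`: for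
  `D = ‖z' - z‖ < rad e` choose `E : ℚ` with `e < E`, `D < rad E`, by density), so
  `RatOn.surj_open` applies: `‖τ - g b (t + h)‖ ≤ rad 5 < rad (e + gain) = rad e'`.
* `forw_T`: `zT`, `‖α ^ (N+1) / (z - t) ^ N‖ = rad (N + 1 - N e) ≥ rad (1 + 1/N) > rad 5`.
-/

open Polynomial

noncomputable section

namespace Pool.Agent.FIC

variable {K : Type*} [NontriviallyNormedField K] [IsUltrametricDist K]

namespace Sys

variable (S : Sys K)

omit [IsUltrametricDist K] in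
/-- `rad 5 < rad e` for `e < 5` -/
theorem back_rad5_lt {e : ℚ} (he : e < 5) : S.rad 5 < S.rad e := S.rad_lt.2 he

omit [IsUltrametricDist K] in
theorem back_pow5 : ‖S.α‖ ^ 5 = S.rad 5 := (S.rad_ofNat 5).symm

omit [IsUltrametricDist K] in
theorem back_N_pos : (0 : ℚ) < S.N := lt_of_lt_of_le (by norm_num) S.nine_le_N

omit [IsUltrametricDist K] in
theorem back_inv_N_le : 1 / (S.N : ℚ) ≤ 1 / 9 :=
  one_div_le_one_div_of_le (by norm_num) S.nine_le_N

theorem back_sub_le_max (x y : K) : ‖x - y‖ ≤ max ‖x‖ ‖y‖ := by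
  rw [sub_eq_add_neg, ← norm_neg y]
  exact IsUltrametricDist.norm_add_le_max _ _

omit [IsUltrametricDist K] in
/-- the map on points without pole -/
theorem back_sub_g {b z z' : K} (h : S.F.Q.eval z ≠ 0) (h' : S.F.Q.eval z' ≠ 0) :
    S.g b z' - S.g b z = S.F.ev z' - S.F.ev z := by
  rw [S.g_eq b h, S.g_eq b h']
  ring

omit [IsUltrametricDist K] in
/-- `g b` is rational on sets without poles -/
theorem back_ratOn (b : K) {A : Set K} (h : ∀ z ∈ A, S.F.Q.eval z ≠ 0) : RatOn A (S.g b) := by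
  have h1 := (RatOn.id A).comp_div (S.F.shift b).P (S.F.shift b).Q (fun z hz => h z hz)
  exact h1

/-- the image of a point of the zone `T e` -/
theorem back_T_val {b z : K} {e : ℚ} (hb : ‖b‖ ≤ S.rad 5) (h : S.zone (.T e) z) :
    ‖S.g b z - (S.t + S.α ^ (S.N + 1) / (z - S.t) ^ S.N)‖ ≤ S.rad 5 := by
  obtain ⟨h1, h2, h3⟩ := h
  have hN : (S.N : ℚ) = 4 * S.p + 1 := S.N_cast
  rw [hN] at h2 h3
  have h4 := S.zT z (by rw [h1]; exact S.rad_le.2 h3) (by rw [h1]; exact S.rad_le.2 h2)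
  rw [S.g_eq b h4.1]
  have h5 : S.F.ev z + b - (S.t + S.α ^ (S.N + 1) / (z - S.t) ^ S.N) =
      (S.F.ev z - (S.t + S.α ^ (4 * S.p + 2) / (z - S.t) ^ (4 * S.p + 1))) + b := by
    have : S.N + 1 = 4 * S.p + 2 := by unfold N; ring
    rw [this]
    unfold N
    ring
  rw [h5]
  refine (IsUltrametricDist.norm_add_le_max _ _).trans (max_le ?_ hb)
  rw [← S.back_pow5]
  exact h4.2

omit [IsUltrametricDist K] in
/-- the size of the main term -/
theorem back_T_norm {h : K} {e : ℚ} (hh : ‖h‖ = S.rad e) :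
    ‖S.α ^ (S.N + 1) / h ^ S.N‖ = S.rad (S.N + 1 - S.N * e) := by
  rw [norm_div, norm_pow, norm_pow, hh, S.rad_sub, S.rad_nat_mul, S.norm_α, ← S.rad_nat_mul]
  congr 2
  push_cast
  ring

/-- in the zone `T e`: the image has distance `rad (N + 1 - N e)` to `t` -/
theorem forw_T {b z : K} {e : ℚ} (hb : ‖b‖ ≤ S.rad 5) (h : S.zone (.T e) z) :
    ‖S.g b z - S.t‖ = S.rad (S.N + 1 - S.N * e) := by
  have h1 := S.back_T_val hb h
  have h2 := S.back_T_norm h.1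
  rw [← h2]
  refine norm_eq_of_sub_lt ?_
  rw [h2]
  have h3 : S.g b z - S.t - S.α ^ (S.N + 1) / (z - S.t) ^ S.N =
    S.g b z - (S.t + S.α ^ (S.N + 1) / (z - S.t) ^ S.N) := by ring
  rw [h3]
  refine lt_of_le_of_lt h1 (S.back_rad5_lt ?_)
  have h4 := h.2.1
  have h5 := S.back_N_pos
  have h6 := S.back_inv_N_le
  have h7 : (S.N : ℚ) * (1 - 1 / (S.N : ℚ) ^ 2) ≤ S.N * e := mul_le_mul_of_nonneg_left h4 h5.le
  have h8 : (S.N : ℚ) * (1 - 1 / (S.N : ℚ) ^ 2) = S.N - 1 / S.N := by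
    field_simp
  linarith

variable [IsAlgClosed K]

theorem back_X {b τ : K} (hb : ‖b‖ ≤ S.rad 5) (hτ : ‖τ‖ ≤ 1) :
    ∃ z, ‖z‖ ≤ S.rad 1 ∧ S.g b z = τ ∧ (‖τ‖ = 1 → ‖z‖ = S.rad 1) := by
  have h0 : S.zone .X 0 := by
    change ‖(0 : K)‖ ≤ S.rad 1
    rw [norm_zero]
    exact (S.rad_pos 1).le
  have h1 : S.zone .X S.α := S.norm_α.le
  have hp0 := S.zone_nopole h0
  have hp1 := S.zone_nopole h1
  have hd : ‖S.g b S.α - S.g b 0‖ = 1 := by
    rw [S.back_sub_g hp0 hp1, S.X_eq h0 h1, sub_zero, div_self (S.a_pos.ne')]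
  have hg0 : ‖S.g b 0‖ ≤ S.rad 5 := by
    rw [S.g_eq b hp0]
    refine (IsUltrametricDist.norm_add_le_max _ _).trans (max_le ?_ hb)
    rw [← S.back_pow5]
    exact S.zX0
  have h5 : S.rad 5 < 1 := S.rad_lt_one.2 (by norm_num)
  have hle : ‖τ - S.g b 0‖ ≤ ‖S.g b S.α - S.g b 0‖ := by
    rw [hd]
    refine (back_sub_le_max _ _).trans (max_le hτ (hg0.trans h5.le))
  have hR : RatOn {z | ‖z‖ ≤ S.rad 1} (S.g b) :=
    S.back_ratOn b fun z hz => S.zone_nopole (s := .X) hz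
  obtain ⟨z, hz, hzτ⟩ := hR.ivt (z₀ := 0) (z₁ := S.α) (τ := τ)
    (fun z hz => by
      rw [sub_zero, sub_zero, S.norm_α] at hz
      exact hz) hle
  rw [sub_zero, sub_zero, S.norm_α] at hz
  refine ⟨z, hz, hzτ, fun h => ?_⟩
  have hz' : S.zone .X z := hz
  have h6 : ‖S.g b z - S.g b 0‖ = 1 := by
    rw [hzτ, ← h]
    refine norm_eq_of_sub_lt ?_
    rw [sub_sub_cancel_left, norm_neg, h]
    exact hg0.trans_lt h5
  rw [S.back_sub_g hp0 (S.zone_nopole hz'), S.X_eq h0 hz', sub_zero,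
    div_eq_one_iff_eq S.a_pos.ne'] at h6
  rw [h6, S.norm_α]

theorem back_C {b τ : K} (hb : ‖b‖ ≤ S.rad 5) (hτ : ‖τ - S.d‖ ≤ 1) :
    ∃ z, ‖z - S.d‖ ≤ S.rad (1 / S.p) ∧ S.g b z = τ ∧
      (‖τ - S.d‖ = 1 → ‖z - S.d‖ = S.rad (1 / S.p)) ∧
      (‖τ - S.d‖ < 1 → ‖z - S.d‖ < S.rad (1 / S.p)) := by
  obtain ⟨h, hh⟩ := S.exists_rad (1 / S.p)
  have h0 : S.zone .C S.d := by
    change ‖S.d - S.d‖ ≤ S.rad (1 / S.p)
    rw [sub_self, norm_zero]
    exact (S.rad_pos _).le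
  have hdd : S.d + h - S.d = h := by ring
  have h1 : S.zone .C (S.d + h) := by
    change ‖S.d + h - S.d‖ ≤ S.rad (1 / S.p)
    rw [hdd, hh]
  have hp0 := S.zone_nopole h0
  have hp1 := S.zone_nopole h1
  have hk : 0 < S.ie - 1 / (S.p : ℚ) := by
    have := S.inv_p_lt
    have := S.inv_lt_ie
    linarith
  have hp : (0 : ℚ) < S.p := lt_of_lt_of_le (by norm_num) S.two_le_p
  have he : S.ie + 1 - (S.p : ℚ) * (S.ie - 1 / (S.p : ℚ)) = 0 := by
    have := S.p_mul_ie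
    rw [mul_sub, this, mul_one_div_cancel hp.ne']
    ring
  have he' : S.ie - (S.ie - 1 / (S.p : ℚ)) = 1 / (S.p : ℚ) := by ring
  have hd : ‖S.g b (S.d + h) - S.g b S.d‖ = 1 := by
    rw [S.back_sub_g hp0 hp1, S.C_rad_eq hk h0 h1 (by rw [hdd, hh, he']), he, S.rad_zero]
  have hg0 : ‖S.g b S.d - S.d‖ ≤ S.rad 5 := by
    rw [S.g_eq b hp0]
    have : S.F.ev S.d + b - S.d = (S.F.ev S.d - S.d) + b := by ring
    rw [this]
    refine (IsUltrametricDist.norm_add_le_max _ _).trans (max_le ?_ hb)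
    rw [← S.back_pow5]
    exact S.zC0
  have h5 : S.rad 5 < 1 := S.rad_lt_one.2 (by norm_num)
  have hsub : ∀ y : K, y - S.g b S.d = (y - S.d) - (S.g b S.d - S.d) := fun y => by ring
  have hle : ‖τ - S.g b S.d‖ ≤ ‖S.g b (S.d + h) - S.g b S.d‖ := by
    rw [hd, hsub]
    refine (back_sub_le_max _ _).trans (max_le hτ (hg0.trans h5.le))
  have hR : RatOn {z | ‖z - S.d‖ ≤ S.rad (1 / S.p)} (S.g b) :=
    S.back_ratOn b fun z hz => S.zone_nopole (s := .C) hz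
  obtain ⟨z, hz, hzτ⟩ := hR.ivt (z₀ := S.d) (z₁ := S.d + h) (τ := τ)
    (fun z hz => by
      rw [hdd, hh] at hz
      exact hz) hle
  rw [hdd, hh] at hz
  have hz' : S.zone .C z := hz
  have hpz := S.zone_nopole hz'
  refine ⟨z, hz, hzτ, fun hτ1 => ?_, fun hτ1 => ?_⟩
  · refine le_antisymm hz (not_lt.1 fun hlt => ?_)
    have h6 : ‖S.g b z - S.g b S.d‖ = 1 := by
      rw [hzτ, ← hτ1]
      refine norm_eq_of_sub_lt ?_
      rw [hsub, sub_sub_cancel_left, norm_neg, hτ1]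
      exact hg0.trans_lt h5
    have h7 := S.C_rad_lt hk h0 hz' (by rw [he']; exact hlt)
    rw [he, S.rad_zero, ← S.back_sub_g (b := b) hp0 hpz, h6] at h7
    exact lt_irrefl _ h7
  · refine lt_of_le_of_ne hz fun heq => ?_
    have h6 : ‖S.g b z - S.g b S.d‖ < 1 := by
      rw [hzτ, hsub]
      exact lt_of_le_of_lt (back_sub_le_max _ _) (max_lt hτ1 (hg0.trans_lt h5))
    have h7 := S.C_rad_eq hk h0 hz' (by rw [he']; exact heq)
    rw [he, S.rad_zero, ← S.back_sub_g (b := b) hp0 hpz] at h7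
    exact absurd h7 h6.ne

omit [IsUltrametricDist K] [IsAlgClosed K] in
/-- density of the radii -/
theorem back_dense {D : ℝ} {e : ℚ} (hD : 0 < D) (h : D < S.rad e) :
    ∃ E : ℚ, e < E ∧ D < S.rad E := by
  have ha := S.a_pos
  have hl : Real.log ‖S.α‖ < 0 := Real.log_neg ha S.α1
  have h1 : Real.log D < (e : ℝ) * Real.log ‖S.α‖ := by
    rw [← Real.log_rpow ha]
    exact Real.log_lt_log hD h
  have h2 : (e : ℝ) < Real.log D / Real.log ‖S.α‖ := by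
    rw [lt_div_iff_of_neg hl]
    exact h1
  obtain ⟨E, hE1, hE2⟩ := exists_rat_btwn h2
  refine ⟨E, by exact_mod_cast hE1, ?_⟩
  have h3 : Real.log D < (E : ℝ) * Real.log ‖S.α‖ := by
    rwa [lt_div_iff_of_neg hl] at hE2
  rw [← Real.log_rpow ha] at h3
  exact (Real.log_lt_log_iff hD (Real.rpow_pos_of_pos ha _)).1 h3

omit [IsAlgClosed K] in
/-- distances in the zone `T e` -/
theorem back_T_scal {b z z' : K} {e : ℚ} (h : S.zone (.T e) z) (h' : ‖z' - z‖ < S.rad e) :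
    ‖S.g b z' - S.g b z‖ = S.rad (S.gain (.T e)) * ‖z' - z‖ := by
  rcases eq_or_ne z' z with rfl | hne
  · rw [sub_self, sub_self, norm_zero, mul_zero]
  have hD : 0 < ‖z' - z‖ := norm_pos_iff.2 (sub_ne_zero.2 hne)
  obtain ⟨E, hE1, hE2⟩ := S.back_dense hD h'
  have hok : S.ok (.T e) E := hE1
  have hz' := S.zone_congr h hok hE2.le
  have h1 := S.step_lt h hok hD hE2 le_rfl
  have h2 : ‖S.slope (.T e) z * (z' - z)‖ = S.rad (S.gain (.T e)) * ‖z' - z‖ := by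
    rw [norm_mul, S.norm_slope h]
  rw [S.back_sub_g (S.zone_nopole h) (S.zone_nopole hz'), ← h2]
  refine norm_eq_of_sub_lt ?_
  rw [h2]
  exact h1

theorem back_T {b τ : K} {e' : ℚ} (hb : ‖b‖ ≤ S.rad 5)
    (he' : e' = 0 ∨ (1 - 1 / (S.N : ℚ) ^ 2 ≤ e' ∧ e' ≤ 1 + 1 / S.N))
    (hτ : ‖τ - S.t‖ = S.rad e') :
    ∃ z, ‖z - S.t‖ = S.rad (1 + (1 - e') / S.N) ∧ S.g b z = τ := by
  have hN := S.back_N_pos
  have hN9 := S.nine_le_N
  have hiN := S.back_inv_N_le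
  have hiN0 : 0 < 1 / (S.N : ℚ) := by positivity
  set e : ℚ := 1 + (1 - e') / S.N with he
  have hNe : (S.N : ℚ) * e = S.N + 1 - e' := by
    rw [he]
    field_simp
    ring
  have hsq : 1 / (S.N : ℚ) ^ 2 = 1 / S.N * (1 / S.N) := by
    field_simp
  have hsq0 : 0 < 1 / (S.N : ℚ) ^ 2 := by positivity
  have hsq1 : 1 / (S.N : ℚ) ^ 2 ≤ 1 / S.N := by
    rw [hsq]
    nlinarith
  have hr1 : 1 - 1 / (S.N : ℚ) ^ 2 ≤ e := by
    have : e = 1 + (1 - e') * (1 / S.N) := by rw [he]; ring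
    rw [this]
    rcases he' with h | ⟨_, h⟩
    · rw [h]; nlinarith
    · rw [hsq]; nlinarith
  have hr2 : e ≤ 1 + 1 / S.N := by
    have : e = 1 + (1 - e') * (1 / S.N) := by rw [he]; ring
    rw [this]
    rcases he' with h | ⟨h, _⟩
    · rw [h]; nlinarith
    · nlinarith
  have he5 : e' < 5 := by
    rcases he' with h | ⟨_, h⟩
    · rw [h]; norm_num
    · linarith
  have hτ0 : τ - S.t ≠ 0 := by
    rw [← norm_pos_iff, hτ]
    exact S.rad_pos _
  have hNpos : 0 < S.N := by exact_mod_cast hN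
  obtain ⟨h, hh⟩ := IsAlgClosed.exists_pow_nat_eq (S.α ^ (S.N + 1) / (τ - S.t)) hNpos
  have hhn : ‖h‖ = S.rad e := by
    have h1 : ‖h‖ ^ S.N = S.rad e ^ S.N := by
      rw [← norm_pow, hh, ← S.rad_nat_mul, hNe, norm_div, norm_pow, hτ, S.norm_α,
        ← S.rad_nat_mul, ← S.rad_sub]
      congr 1
      push_cast
      ring
    exact (pow_left_inj₀ (norm_nonneg h) (S.rad_pos _).le hNpos.ne').1 h1
  have hh0 : h ≠ 0 := by
    rw [← norm_pos_iff, hhn]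
    exact S.rad_pos _
  have htt : S.t + h - S.t = h := by ring
  have hz0 : S.zone (.T e) (S.t + h) := ⟨by rw [htt, hhn], hr1, hr2⟩
  have hzone : ∀ z, ‖z - (S.t + h)‖ < S.rad e → S.zone (.T e) z := by
    intro z hz
    refine ⟨?_, hr1, hr2⟩
    rw [← hhn]
    refine norm_eq_of_sub_lt ?_
    rw [hhn]
    have : z - S.t - h = z - (S.t + h) := by ring
    rw [this]
    exact hz
  have hR : RatOn {z | ‖z - (S.t + h)‖ < S.rad e} (S.g b) :=
    S.back_ratOn b fun z hz => S.zone_nopole (hzone z hz)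
  have hs : ∀ z z', ‖z - (S.t + h)‖ < S.rad e → ‖z' - (S.t + h)‖ < S.rad e →
      ‖S.g b z - S.g b z'‖ = S.rad (S.gain (.T e)) * ‖z - z'‖ := by
    intro z z' hz hz'
    refine S.back_T_scal (hzone z' hz') ?_
    have : z - z' = (z - (S.t + h)) - (z' - (S.t + h)) := by ring
    rw [this]
    exact lt_of_le_of_lt (back_sub_le_max _ _) (max_lt hz hz')
  have hτ' : ‖τ - S.g b (S.t + h)‖ < S.rad (S.gain (.T e)) * S.rad e := by
    have h1 : S.rad (S.gain (.T e)) * S.rad e = S.rad e' := by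
      rw [← S.rad_add]
      congr 1
      change (S.N + 1) * (1 - e) + e = e'
      linarith
    rw [h1]
    have h2 := S.back_T_val hb hz0
    have h3 : S.α ^ (S.N + 1) / (S.t + h - S.t) ^ S.N = τ - S.t := by
      rw [htt, hh]
      rw [div_div_cancel₀ (pow_ne_zero _ S.α0)]
    rw [h3, add_sub_cancel, norm_sub_rev] at h2
    exact lt_of_le_of_lt h2 (S.back_rad5_lt he5)
  obtain ⟨z, h1, h2⟩ := hR.surj_open (S.rad_pos _) hs hτ'
  exact ⟨z, (hzone z h1).1, h2⟩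

end Sys

end Pool.Agent.FIC
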