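import Pool.Agent.FIC.StB

/-!
# The choice of the numbers of the next stage

`B = x - mu - 2 ta > 0`.  Choose `i'` even with `sig = 1 / N ^ (i'+1) < B`, `A = B - sig > 0`.  Choose `i`
odd with `1 / N ^ (i+1) < A / 2`, and `k + 1` the largest integer with `(k + 1) / N ^ (i+1) < A`; then
`(k + 1) / N ^ (i + 1) ≥ A - 1 / N ^ (i+1) > A / 2`.  `M'`: `tau_small`; `m` large.
-/

open Polynomial

noncomputable section

namespace Pool.Agent.FIC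

variable {K : Type*} [NontriviallyNormedField K]

namespace Sys

variable (S : Sys K)

theorem one_lt_N_choose : (1 : ℚ) < S.N := by
  have h2 : 2 ≤ S.p := S.hp.two_le
  have h : 1 < S.N := by
    unfold Sys.N
    omega
  exact_mod_cast h

/-- the powers of `N` are unbounded, with exponents of the form `2 j + c + 1` -/
theorem exists_pow_choose (c : ℕ) {B : ℚ} (hB : 0 < B) :
    ∃ j : ℕ, 1 / (S.N : ℚ) ^ (2 * j + c + 1) < B := by
  obtain ⟨j, hj⟩ := pow_unbounded_of_one_lt (1 / B) S.one_lt_N_choose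
  refine ⟨j, ?_⟩
  have hN : (0 : ℚ) < S.N := lt_trans one_pos S.one_lt_N_choose
  have h1 : (S.N : ℚ) ^ j ≤ (S.N : ℚ) ^ (2 * j + c + 1) :=
    pow_le_pow_right₀ S.one_lt_N_choose.le (by omega)
  have h2 : 1 / B < (S.N : ℚ) ^ (2 * j + c + 1) := lt_of_lt_of_le hj h1
  rw [div_lt_iff₀ (by positivity)]
  rw [div_lt_iff₀ hB] at h2
  linarith

/-- numbers `(k + 1) / N ^ (i + 1)`, `i` odd, in the interval `(A / 2, A)` -/
theorem exists_ik {A : ℚ} (hA : 0 < A) : ∃ i k : ℕ, Odd i ∧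
    A / 2 < ((k : ℚ) + 1) / (S.N : ℚ) ^ (i + 1) ∧ ((k : ℚ) + 1) / (S.N : ℚ) ^ (i + 1) < A := by
  obtain ⟨j, hj⟩ := S.exists_pow_choose 1 (half_pos hA)
  have hN : (0 : ℚ) < S.N := lt_trans one_pos S.one_lt_N_choose
  set D : ℚ := (S.N : ℚ) ^ (2 * j + 1 + 1) with hD
  have hDpos : 0 < D := by positivity
  rw [div_lt_iff₀ hDpos] at hj
  have hAD : 2 < A * D := by linarith
  have hc1 : A * D ≤ (⌈A * D⌉₊ : ℚ) := Nat.le_ceil _
  have hc2 : (⌈A * D⌉₊ : ℚ) < A * D + 1 := Nat.ceil_lt_add_one (by positivity)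
  have hge : 2 ≤ ⌈A * D⌉₊ := by
    have : (2 : ℚ) < (⌈A * D⌉₊ : ℚ) := lt_of_lt_of_le hAD hc1
    have h' : (2 : ℕ) < ⌈A * D⌉₊ := by exact_mod_cast this
    omega
  obtain ⟨k, hk⟩ := Nat.exists_eq_add_of_le hge
  have hk' : (⌈A * D⌉₊ : ℚ) = 2 + k := by rw [hk]; push_cast; ring
  rw [hk'] at hc1 hc2
  refine ⟨2 * j + 1, k, ⟨j, rfl⟩, ?_, ?_⟩
  · rw [lt_div_iff₀ hDpos]
    linarith
  · rw [div_lt_iff₀ hDpos]
    linarith

/-- the numbers of the next stage: `i', i, k, M', m` and `A` -/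
structure State.Numbers {S : Sys K} (st : S.State) (i' i k M' m : ℕ) (A : ℚ) : Prop where
  even : Even i'
  odd : Odd i
  hM : 1 ≤ M'
  hm : 4 ≤ m
  hA : A = st.x - st.mu - 2 * st.ta - 1 / (S.N : ℚ) ^ (i' + 1)
  posA : 0 < A
  lt : A / 2 < ((k : ℚ) + 1) / (S.N : ℚ) ^ (i + 1)
  lt' : ((k : ℚ) + 1) / (S.N : ℚ) ^ (i + 1) < A
  t1 : 2 * S.tau M' ≤ 1 / (S.N : ℚ) ^ (i' + 1)
  t2 : 2 * S.tau M' < 2 * (((k : ℚ) + 1) / (S.N : ℚ) ^ (i + 1)) - A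
  t3 : 2 * S.tau M' < S.ie
  m1 : st.s ≤ S.ie + m
  m2 : st.s + 2 * st.mu + 2 * st.ta < S.ie + m + 1

theorem State.exists_numbers {S : Sys K} (st : S.State) :
    ∃ i' i k M' m A, st.Numbers i' i k M' m A := by
  have hB : 0 < st.x - st.mu - 2 * st.ta := by
    have h : 2 * st.ta < st.x - st.mu := st.hτ
    linarith
  have hN : (0 : ℚ) < S.N := lt_trans one_pos S.one_lt_N_choose
  obtain ⟨j, hj⟩ := S.exists_pow_choose 0 hB
  rw [add_zero] at hj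
  have hA : 0 < st.x - st.mu - 2 * st.ta - 1 / (S.N : ℚ) ^ (2 * j + 1) := by linarith
  obtain ⟨i, k, hi, h1, h2⟩ := S.exists_ik hA
  have hp : (2 : ℚ) ≤ S.p := by exact_mod_cast S.hp.two_le
  have hie : 0 < S.ie := by
    unfold Sys.ie
    exact div_pos two_pos (by linarith)
  have d1 : (0 : ℚ) < 1 / (S.N : ℚ) ^ (2 * j + 1) / 2 := by positivity
  have d2 : 0 < (2 * (((k : ℚ) + 1) / (S.N : ℚ) ^ (i + 1)) -
      (st.x - st.mu - 2 * st.ta - 1 / (S.N : ℚ) ^ (2 * j + 1))) / 2 := by linarith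
  have d3 : 0 < S.ie / 2 := by linarith
  obtain ⟨M1, hM1⟩ := S.tau_small d1
  obtain ⟨M2, hM2⟩ := S.tau_small d2
  obtain ⟨M3, hM3⟩ := S.tau_small d3
  obtain ⟨m1, hm1⟩ := exists_nat_gt (st.s + 2 * st.mu + 2 * st.ta)
  obtain ⟨m2, hm2⟩ := exists_nat_gt st.s
  refine ⟨2 * j, i, k, M1 + M2 + M3 + 1, m1 + m2 + 4,
    st.x - st.mu - 2 * st.ta - 1 / (S.N : ℚ) ^ (2 * j + 1), ?_⟩
  have e1 := hM1 (M1 + M2 + M3 + 1) (by omega)
  have e2 := hM2 (M1 + M2 + M3 + 1) (by omega)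
  have e3 := hM3 (M1 + M2 + M3 + 1) (by omega)
  have hm1' : (0 : ℚ) ≤ m1 := Nat.cast_nonneg _
  have hm2' : (0 : ℚ) ≤ m2 := Nat.cast_nonneg _
  refine ⟨⟨j, by ring⟩, hi, by omega, by omega, rfl, hA, h1, h2, ?_, ?_, ?_, ?_, ?_⟩
  · linarith
  · linarith
  · linarith
  · push_cast
    linarith
  · push_cast
    linarith

end Sys

end Pool.Agent.FIC
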