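import Pool.Agent.FIC.Runs

/-!
# Contact runs

* `CRun.tube`: induction on `M`; one pair of steps `C`, `X`: `zone_congr`/`step_le` with
  `E = ie`, `E = ie + 1`; `‖z' - d‖ = ‖z - d‖` because `‖z' - z‖ ≤ rad ie < rad (1/p)`.
* `CRun.contact`: `Y = g b X`, `Y' = g b' X'`: `C_contact` gives
  `‖Y' - Y - α ι₀ A u‖ < rad (ie + 1)` (the term `b' - b` is `< rad (ie + 1)`); the step `X`
  (`step_lt` or `zX`): `‖g b' Y' - g b Y - ι₀ A u‖ < rad ie` (`‖b' - b‖ < rad (ie + 1) < rad ie`);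
  `‖A u‖ ≤ 1`.  Induction on `M`, generalising `z X X' u` (`Function.iterate_succ_apply`).
-/

open Polynomial

noncomputable section

namespace Pool.Agent.FIC

variable {K : Type*} [NontriviallyNormedField K] [IsUltrametricDist K]

theorem CXL_length (M : ℕ) : (CXL M).length = 2 * M := by
  induction M with
  | zero => rfl
  | succ M ih =>
    change ((CXL M).length + 1 + 1) = _
    rw [ih]
    ring

theorem KL_length (M : ℕ) : (KL M).length = 2 * M + 1 := by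
  induction M with
  | zero => rfl
  | succ M ih =>
    change ((KL M).length + 1 + 1) = _
    rw [ih]
    ring

theorem KL_eq (M : ℕ) : KL M = CXL M ++ [Step.C] := by
  induction M with
  | zero => rfl
  | succ M ih =>
    change Step.C :: Step.X :: KL M = Step.C :: Step.X :: (CXL M ++ [Step.C])
    rw [ih]

namespace Sys

variable (S : Sys K)

theorem CXL_gains (M : ℕ) : S.gains (CXL M) = 0 := by
  induction M with
  | zero => rfl
  | succ M ih =>
    change S.gains (Step.C :: Step.X :: CXL M) = _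
    rw [gains_cons, gains_cons, ih]
    change (1 : ℚ) + (-1 + 0) = 0
    ring

theorem KL_gains (M : ℕ) : S.gains (KL M) = 1 := by
  rw [KL_eq, gains_append, CXL_gains, gains_cons, gains_nil]
  change (0 : ℚ) + (1 + 0) = 1
  ring

theorem CXL_glow (M : ℕ) : S.GLow 1 (CXL M) := by
  induction M with
  | zero => trivial
  | succ M ih =>
    refine ⟨le_refl (1 : ℚ), ?_, ?_⟩
    · change (-1 : ℚ) ≤ 1 - 1
      norm_num
    · change S.GLow ((1 : ℚ) - 1 - -1) (CXL M)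
      have : (1 : ℚ) - 1 - -1 = 1 := by ring
      rw [this]
      exact ih

theorem KL_glow (M : ℕ) : S.GLow 1 (KL M) := by
  rw [KL_eq, glow_append]
  refine ⟨S.CXL_glow M, ?_, trivial⟩
  rw [CXL_gains]
  change (1 : ℚ) ≤ 1 - 0
  norm_num

/-- the slope of the contact list is `α` -/
theorem KL_slp (b z : K) (M : ℕ) : S.slp b z (KL M) = S.α := by
  induction M generalizing z with
  | zero =>
    change S.α * 1 = S.α
    ring
  | succ M ih =>
    change S.α * (S.α⁻¹ * S.slp b (S.g b (S.g b z)) (KL M)) = S.α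
    rw [ih]
    have := S.α0
    field_simp

theorem CRun.run {S : Sys K} {b z : K} {M : ℕ} (h : S.CRun b z M) {E : ℚ} (hE : S.ie ≤ E) :
    S.Run b z E (KL M) := by
  induction M generalizing z with
  | zero => exact ⟨le_of_eq h, hE, trivial⟩
  | succ M ih =>
    obtain ⟨h1, h2, h3⟩ := h
    refine ⟨h1.le, hE, h2, ?_, ?_⟩
    · change (1 : ℚ) ≤ E + 1
      have := S.ie_pos
      linarith
    · change S.Run b (S.g b (S.g b z)) (E + 1 + -1) (KL M)
      have : E + 1 + -1 = E := by ring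
      rw [this]
      exact ih h3

theorem CRun.last {S : Sys K} {b z : K} {M : ℕ} (h : S.CRun b z M) :
    ‖S.orb b z (2 * M) - S.d‖ = S.rad (1 / S.p) := by
  induction M generalizing z with
  | zero => exact h
  | succ M ih =>
    obtain ⟨h1, h2, h3⟩ := h
    have e : S.orb b z (2 * (M + 1)) = S.orb b (S.g b (S.g b z)) (2 * M) := rfl
    rw [e]
    exact ih h3

/-- the distance to `d` is constant on discs of radius `rad ie` -/
theorem contact_dist {z z' : K} (h : ‖z - S.d‖ = S.rad (1 / S.p)) (hz : ‖z' - z‖ ≤ S.rad S.ie) :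
    ‖z' - S.d‖ = S.rad (1 / S.p) := by
  have h1 : S.rad S.ie < S.rad (1 / S.p) := S.rad_lt.2 (S.inv_p_lt.trans S.inv_lt_ie)
  have h2 : z' - S.d = (z' - z) + (z - S.d) := by ring
  rw [h2, IsUltrametricDist.norm_add_eq_max_of_norm_ne_norm
    (by rw [h]; exact (hz.trans_lt h1).ne), h]
  exact max_eq_right (hz.trans_lt h1).le

/-- one pair of steps `C`, `X` -/
theorem contact_pair {b b' z z' : K} (h : ‖z - S.d‖ = S.rad (1 / S.p)) (h' : ‖S.g b z‖ ≤ S.rad 1)
    (hb : ‖b' - b‖ ≤ S.rad (S.ie + 1)) (hz : ‖z' - z‖ ≤ S.rad S.ie) :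
    ‖S.g b' z'‖ ≤ S.rad 1 ∧ ‖S.g b' (S.g b' z') - S.g b (S.g b z)‖ ≤ S.rad S.ie := by
  have hC : S.zone .C z := h.le
  have hC' : S.zone .C z' := (S.contact_dist h hz).le
  have h1 : ‖S.g b' z' - S.g b z‖ ≤ S.rad (S.ie + 1) := by
    rw [S.g_sub_g (S.zone_nopole hC) (S.zone_nopole hC')]
    refine (IsUltrametricDist.norm_add_le_max _ _).trans (max_le ?_ hb)
    exact S.step_le (s := .C) hC (le_refl S.ie) hz
  have hX : S.zone .X (S.g b z) := h'
  have hX' : S.zone .X (S.g b' z') := by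
    have e : S.g b' z' = (S.g b' z' - S.g b z) + S.g b z := by ring
    change ‖S.g b' z'‖ ≤ S.rad 1
    rw [e]
    refine (IsUltrametricDist.norm_add_le_max _ _).trans (max_le (h1.trans ?_) h')
    rw [S.rad_le]
    have := S.ie_pos
    linarith
  refine ⟨hX', ?_⟩
  rw [S.g_sub_g (S.zone_nopole hX) (S.zone_nopole hX')]
  refine (IsUltrametricDist.norm_add_le_max _ _).trans (max_le ?_ (hb.trans ?_))
  · have h2 : ‖S.F.ev (S.g b' z') - S.F.ev (S.g b z)‖ ≤ S.rad (S.ie + 1 + S.gain .X) := by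
      refine S.step_le (s := .X) hX ?_ h1
      change (1 : ℚ) ≤ S.ie + 1
      have := S.ie_pos
      linarith
    have e : S.ie + 1 + S.gain .X = S.ie := by
      change S.ie + 1 + -1 = S.ie
      ring
    rwa [e] at h2
  · rw [S.rad_le]
    linarith

theorem CRun.tube {S : Sys K} {b z : K} {M : ℕ} (h : S.CRun b z M) {b' z' : K}
    (hb : ‖b' - b‖ ≤ S.rad (S.ie + 1)) (hz : ‖z' - z‖ ≤ S.rad S.ie) : S.CRun b' z' M := by
  induction M generalizing z z' with
  | zero => exact S.contact_dist h hz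
  | succ M ih =>
    obtain ⟨h1, h2, h3⟩ := h
    obtain ⟨h4, h5⟩ := S.contact_pair h1 h2 hb hz
    exact ⟨S.contact_dist h1 hz, h4, ih h3 h5⟩

theorem norm_A_le {u : K} (hu : ‖u‖ ≤ 1) : ‖S.A u‖ ≤ 1 := by
  unfold A
  refine (IsUltrametricDist.norm_add_le_max _ _).trans (max_le ?_ hu)
  rw [norm_pow]
  exact pow_le_one₀ (norm_nonneg _) hu

theorem norm_iterate_A_le {u : K} (hu : ‖u‖ ≤ 1) (n : ℕ) : ‖S.A^[n] u‖ ≤ 1 := by
  induction n with
  | zero => exact hu
  | succ n ih =>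
    rw [Function.iterate_succ_apply']
    exact S.norm_A_le ih

/-- the step `C` with contact -/
theorem contact_C {b b' X X' u : K} (h : ‖X - S.d‖ = S.rad (1 / S.p))
    (h' : ‖X' - S.d‖ = S.rad (1 / S.p)) (hb : ‖b' - b‖ < S.rad (S.ie + 1)) (hu : ‖u‖ ≤ 1)
    (hd : ‖X' - X - S.ι₀ * u‖ < S.rad S.ie) :
    ‖S.g b' X' - S.g b X - S.α * S.ι₀ * S.A u‖ < S.rad (S.ie + 1) := by
  have hC : S.zone .C X := h.le
  have hC' : S.zone .C X' := h'.le
  rw [S.g_sub_g (S.zone_nopole hC) (S.zone_nopole hC')]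
  have e : S.F.ev X' - S.F.ev X + (b' - b) - S.α * S.ι₀ * S.A u =
      (S.F.ev X' - S.F.ev X - S.α * S.ι₀ * S.A u) + (b' - b) := by ring
  rw [e]
  exact (IsUltrametricDist.norm_add_le_max _ _).trans_lt
    (max_lt (S.C_contact hC hC' hu hd) hb)

/-- the step `X` with contact -/
theorem contact_X {b b' Y Y' v : K} (h : ‖Y‖ ≤ S.rad 1) (h' : ‖Y'‖ ≤ S.rad 1)
    (hb : ‖b' - b‖ < S.rad (S.ie + 1)) (hv : ‖v‖ ≤ 1)
    (hd : ‖Y' - Y - S.α * S.ι₀ * v‖ < S.rad (S.ie + 1)) :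
    ‖S.g b' Y' - S.g b Y - S.ι₀ * v‖ < S.rad S.ie := by
  have hX : S.zone .X Y := h
  have hX' : S.zone .X Y' := h'
  rw [S.g_sub_g (S.zone_nopole hX) (S.zone_nopole hX')]
  have hlt : S.rad (S.ie + 1) < S.rad S.ie := by
    rw [S.rad_lt]
    linarith
  have h1 : ‖Y' - Y‖ ≤ S.rad (S.ie + 1) := by
    have e : Y' - Y = (Y' - Y - S.α * S.ι₀ * v) + S.α * S.ι₀ * v := by ring
    rw [e]
    refine (IsUltrametricDist.norm_add_le_max _ _).trans (max_le hd.le ?_)
    rw [norm_mul, norm_mul, S.norm_ι, ← S.rad_one, mul_comm (S.rad 1), ← S.rad_add]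
    exact mul_le_of_le_one_right (S.rad_pos _).le hv
  have ha : ‖S.α‖ ≤ 1 := S.α1.le
  have h2 : ‖S.F.ev Y' - S.F.ev Y - (Y' - Y) / S.α‖ ≤ ‖S.α‖ ^ 5 * ‖Y' - Y‖ := by
    refine (S.zX Y' Y ?_ ?_).2
    · rw [← S.rad_one]
      exact h'
    · rw [← S.rad_one]
      exact h
  have h3 : ‖S.F.ev Y' - S.F.ev Y - (Y' - Y) / S.α‖ < S.rad S.ie := by
    refine (h2.trans ?_).trans_lt hlt
    calc ‖S.α‖ ^ 5 * ‖Y' - Y‖ ≤ 1 * ‖Y' - Y‖ :=
          mul_le_mul_of_nonneg_right (pow_le_one₀ (norm_nonneg _) ha) (norm_nonneg _)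
      _ = ‖Y' - Y‖ := one_mul _
      _ ≤ _ := h1
  have h4 : ‖(Y' - Y - S.α * S.ι₀ * v) / S.α‖ < S.rad S.ie := by
    rw [norm_div, div_lt_iff₀ S.a_pos, ← S.rad_one, ← S.rad_add]
    exact hd
  have e : S.F.ev Y' - S.F.ev Y + (b' - b) - S.ι₀ * v =
      (S.F.ev Y' - S.F.ev Y - (Y' - Y) / S.α) + ((Y' - Y - S.α * S.ι₀ * v) / S.α + (b' - b)) := by
    have := S.α0
    field_simp
    ring
  rw [e]
  refine (IsUltrametricDist.norm_add_le_max _ _).trans_lt (max_lt h3 ?_)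
  exact (IsUltrametricDist.norm_add_le_max _ _).trans_lt (max_lt h4 (hb.trans hlt))

theorem CRun.contact {S : Sys K} {b₀ z : K} {M : ℕ} (h : S.CRun b₀ z M) {b b' X X' u : K}
    (hb : ‖b - b₀‖ < S.rad (S.ie + 1)) (hb' : ‖b' - b₀‖ < S.rad (S.ie + 1))
    (hX : ‖X - z‖ ≤ S.rad S.ie) (hX' : ‖X' - z‖ ≤ S.rad S.ie) (hu : ‖u‖ ≤ 1)
    (hd : ‖X' - X - S.ι₀ * u‖ < S.rad S.ie) :
    ‖S.orb b' X' (2 * M + 1) - S.orb b X (2 * M + 1) - S.α * S.ι₀ * S.A^[M + 1] u‖ <
      S.rad (S.ie + 1) := by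
  have hbb : ‖b' - b‖ < S.rad (S.ie + 1) := by
    have e : b' - b = (b' - b₀) + (-(b - b₀)) := by ring
    rw [e]
    exact (IsUltrametricDist.norm_add_le_max _ _).trans_lt (max_lt hb' (by rwa [norm_neg]))
  induction M generalizing z X X' u with
  | zero => exact S.contact_C (S.contact_dist h hX) (S.contact_dist h hX') hbb hu hd
  | succ M ih =>
    obtain ⟨h1, h2, h3⟩ := h
    obtain ⟨h4, h5⟩ := S.contact_pair h1 h2 hb.le hX
    obtain ⟨h4', h5'⟩ := S.contact_pair h1 h2 hb'.le hX'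
    have h6 := S.contact_C (S.contact_dist h1 hX) (S.contact_dist h1 hX') hbb hu hd
    have h7 := S.contact_X h4 h4' hbb (S.norm_A_le hu) h6
    have h8 := ih h3 h5 h5' (S.norm_A_le hu) h7
    have e1 : S.orb b' X' (2 * (M + 1) + 1) = S.orb b' (S.g b' (S.g b' X')) (2 * M + 1) := rfl
    have e2 : S.orb b X (2 * (M + 1) + 1) = S.orb b (S.g b (S.g b X)) (2 * M + 1) := rfl
    have e3 : S.A^[M + 1 + 1] u = S.A^[M + 1] (S.A u) := rfl
    rw [e1, e2, e3]
    exact h8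

end Sys

end Pool.Agent.FIC
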