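import Pool.Agent.FIC.Contact

/-!
# Counting residue classes

`P = p ^ (M+1) ≥ 4`.  `AA = A^[M+1]` is the evaluation of a monic polynomial of degree `P` whose
derivative is a product of factors `1 + p a^(p-1)`, so `≡ 1`: for `‖u‖ ≤ 1`, `‖u'‖ ≤ 1`,
`‖AA u - AA u'‖ = ‖u - u'‖` if `‖u - u'‖ < 1` (`A u - A u' = (u - u') + ((u ^ p - u' ^ p))` and
`‖u ^ p - u' ^ p‖ ≤ max (‖u - u'‖ ^ p) (‖p‖ ‖u - u'‖) < ‖u - u'‖` for `0 < ‖u - u'‖ < 1`).
* `roots_AA`: for `‖X‖ ≤ 1` there is a finite set of `P` elements `u`, `‖u‖ ≤ 1`, `AA u = X`, pairwise at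
  distance `1`: the polynomial `AA(U) - X` splits; all roots have norm `≤ 1` (monic with integral
  coefficients; or: `‖u‖ > 1` implies `‖A u‖ = ‖u‖ ^ p > 1`); it is separable since two different roots
  are not at distance `< 1` (`AA u - AA u' = 0`), and a multiple root is impossible since the
  derivative has norm `1` at `u`.  Alternatively by induction on `M`: the `p` roots of `A u = X`
  (`U ^ p + U - X`, derivative `p U^(p-1) + 1` of norm `1`), then for each root `X'` the roots of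
  `A^[M] u = X'`.
* `count_classes`: suppose the conclusion fails for `T`: every good `u` is at distance `< 1` to an element
  of `T`, so a finite set of good elements with pairwise distances `1` has at most `T.card` elements.
  Let `G` be such a set of maximal cardinality; then `P ≤ G.card` (roots of `AA u = 0`).  For
  `u' ∈ G` with `‖u'‖ = 1` and `‖1 - v u'‖ = 1` all solutions of `AA u = u' / (1 - v u')` are good by
  `h2`; solutions for different `u'` are at distance `1` (their values `AA u` are: `u' / (1 - v u')`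
  and `u'' / (1 - v u'')` have difference `(u' - u'') / ((1 - v u') (1 - v u''))`), and at distance
  `1` to the solutions of `AA u = 0`.  At most two elements of `G` are excluded (`‖u'‖ < 1`: at most
  one; `‖1 - v u'‖ < 1`: at most one).  So `P (G.card - 2) + P ≤ G.card`, contradiction with
  `G.card ≥ P ≥ 4`.
-/

open Polynomial

noncomputable section

namespace Pool.Agent.FIC

variable {K : Type*} [NontriviallyNormedField K] [IsUltrametricDist K]

namespace Sys

variable (S : Sys K)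

private theorem sub_le_one {u u' : K} (hu : ‖u‖ ≤ 1) (hu' : ‖u'‖ ≤ 1) : ‖u - u'‖ ≤ 1 := by
  have h := IsUltrametricDist.norm_add_le_max u (-u')
  rw [← sub_eq_add_neg, norm_neg] at h
  exact h.trans (max_le hu hu')

private theorem norm_A_le' {u : K} (hu : ‖u‖ ≤ 1) : ‖S.A u‖ ≤ 1 := by
  unfold A
  refine (IsUltrametricDist.norm_add_le_max _ _).trans (max_le ?_ hu)
  rw [norm_pow]
  exact pow_le_one₀ (norm_nonneg _) hu

private theorem norm_pow_sub {u u' : K} (hu' : ‖u'‖ ≤ 1) (h : ‖u - u'‖ < 1)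
    (h0 : u ≠ u') : ‖u ^ S.p - u' ^ S.p‖ < ‖u - u'‖ := by
  have hd : 0 < ‖u - u'‖ := norm_pos_iff.2 (sub_ne_zero.2 h0)
  have e := add_pow_prime_eq S.hp (u - u') u'
  rw [sub_add_cancel] at e
  rw [e]
  have e2 : ∀ s : K, (u - u') ^ S.p + u' ^ S.p + (S.p : K) * (u - u') * u' * s - u' ^ S.p =
    (u - u') ^ S.p + (S.p : K) * (u - u') * u' * s := fun s => by ring
  rw [e2]
  refine lt_of_le_of_lt (IsUltrametricDist.norm_add_le_max _ _) (max_lt ?_ ?_)
  · rw [norm_pow]
    exact pow_lt_self_of_lt_one₀ hd h S.hp.one_lt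
  · have hs : ‖∑ k ∈ Finset.Ioo 0 S.p, (u - u') ^ (k - 1) * u' ^ (S.p - k - 1) *
        ((S.p.choose k / S.p : ℕ) : K)‖ ≤ 1 := by
      refine IsUltrametricDist.norm_sum_le_of_forall_le_of_nonneg zero_le_one fun k _ => ?_
      rw [norm_mul, norm_mul, norm_pow, norm_pow]
      have h1 : ‖u - u'‖ ^ (k - 1) ≤ 1 := pow_le_one₀ (norm_nonneg _) h.le
      have h2 : ‖u'‖ ^ (S.p - k - 1) ≤ 1 := pow_le_one₀ (norm_nonneg _) hu'
      have h3 := IsUltrametricDist.norm_natCast_le_one K (S.p.choose k / S.p)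
      exact mul_le_one₀ (mul_le_one₀ h1 (by positivity) h2) (norm_nonneg _) h3
    rw [norm_mul, norm_mul, norm_mul]
    have hp := S.norm_p_lt
    calc ‖(S.p : K)‖ * ‖u - u'‖ * ‖u'‖ * _ ≤ ‖(S.p : K)‖ * ‖u - u'‖ * 1 * 1 := by gcongr
      _ = ‖(S.p : K)‖ * ‖u - u'‖ := by ring
      _ < 1 * ‖u - u'‖ := mul_lt_mul_of_pos_right hp hd
      _ = ‖u - u'‖ := one_mul _

private theorem A_dist1 {u u' : K} (hu' : ‖u'‖ ≤ 1) (h : ‖u - u'‖ < 1) :
    ‖S.A u - S.A u'‖ = ‖u - u'‖ := by
  by_cases h0 : u = u'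
  · rw [h0]; simp
  have h1 := S.norm_pow_sub hu' h h0
  have e : S.A u - S.A u' = (u ^ S.p - u' ^ S.p) + (u - u') := by unfold A; ring
  rw [e, IsUltrametricDist.norm_add_eq_max_of_norm_ne_norm h1.ne, max_eq_right h1.le]

theorem A_dist {u u' : K} (hu : ‖u‖ ≤ 1) (hu' : ‖u'‖ ≤ 1) (h : ‖u - u'‖ < 1) (n : ℕ) :
    ‖S.A^[n] u - S.A^[n] u'‖ = ‖u - u'‖ := by
  induction n generalizing u u' with
  | zero => rfl
  | succ n ih =>
    rw [Function.iterate_succ_apply, Function.iterate_succ_apply]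
    have h1 := S.A_dist1 hu' h
    rw [ih (S.norm_A_le' hu) (S.norm_A_le' hu') (h1 ▸ h), h1]

private theorem lift (f : K → K)
    (hf : ∀ u u', ‖u‖ ≤ 1 → ‖u'‖ ≤ 1 → ‖u - u'‖ < 1 → ‖f u - f u'‖ = ‖u - u'‖) (m : ℕ)
    (h : ∀ X : K, ‖X‖ ≤ 1 → ∃ R : Finset K, R.card = m ∧ (∀ u ∈ R, ‖u‖ ≤ 1 ∧ f u = X) ∧
      ∀ u ∈ R, ∀ u' ∈ R, u ≠ u' → ‖u - u'‖ = 1)
    (T : Finset K) (hT : ∀ X ∈ T, ‖X‖ ≤ 1) (hT2 : ∀ X ∈ T, ∀ X' ∈ T, X ≠ X' → ‖X - X'‖ = 1) :
    ∃ R : Finset K, R.card = m * T.card ∧ (∀ u ∈ R, ‖u‖ ≤ 1 ∧ f u ∈ T) ∧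
      ∀ u ∈ R, ∀ u' ∈ R, u ≠ u' → ‖u - u'‖ = 1 := by
  classical
  choose! R h1 h2 h3 using h
  refine ⟨T.biUnion R, ?_, ?_, ?_⟩
  · rw [Finset.card_biUnion, Finset.sum_congr rfl fun X hX => h1 X (hT X hX), Finset.sum_const,
      smul_eq_mul, mul_comm]
    intro X hX X' hX' hne
    rw [Function.onFun, Finset.disjoint_left]
    intro u hu hu'
    exact hne ((h2 X (hT X hX) u hu).2.symm.trans (h2 X' (hT X' hX') u hu').2)
  · intro u hu
    obtain ⟨X, hX, hu⟩ := Finset.mem_biUnion.1 hu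
    obtain ⟨h4, h5⟩ := h2 X (hT X hX) u hu
    exact ⟨h4, h5 ▸ hX⟩
  · intro u hu u' hu' hne
    obtain ⟨X, hX, hu⟩ := Finset.mem_biUnion.1 hu
    obtain ⟨X', hX', hu'⟩ := Finset.mem_biUnion.1 hu'
    by_cases he : X = X'
    · subst he
      exact h3 X (hT X hX) u hu u' hu' hne
    · obtain ⟨a1, a2⟩ := h2 X (hT X hX) u hu
      obtain ⟨b1, b2⟩ := h2 X' (hT X' hX') u' hu'
      refine le_antisymm (sub_le_one a1 b1) (not_lt.1 fun hlt => ?_)
      have h6 := hf u u' a1 b1 hlt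
      rw [a2, b2, hT2 X hX X' hX' he] at h6
      exact hlt.ne h6.symm

variable [IsAlgClosed K]

private theorem roots_A {X : K} (hX : ‖X‖ ≤ 1) : ∃ R : Finset K, R.card = S.p ∧
    (∀ u ∈ R, ‖u‖ ≤ 1 ∧ S.A u = X) ∧ ∀ u ∈ R, ∀ u' ∈ R, u ≠ u' → ‖u - u'‖ = 1 := by
  classical
  set P : K[X] := Polynomial.X ^ S.p + (Polynomial.X - C X) with hP
  have hp2 : 1 < S.p := S.hp.one_lt
  have hdeg : P.natDegree = S.p := by
    rw [hP, Polynomial.natDegree_add_eq_left_of_natDegree_lt]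
    · exact Polynomial.natDegree_X_pow _
    · rw [Polynomial.natDegree_X_pow, Polynomial.natDegree_X_sub_C]
      exact hp2
  have hP0 : P ≠ 0 := by
    intro h
    rw [h] at hdeg
    simp at hdeg
    omega
  have hroot : ∀ u, P.IsRoot u ↔ S.A u = X := by
    intro u
    rw [hP, Polynomial.IsRoot.def]
    simp only [eval_add, eval_pow, eval_X, eval_sub, eval_C]
    unfold A
    constructor
    · intro h; linear_combination h
    · intro h; linear_combination h
  have hnorm : ∀ u, S.A u = X → ‖u‖ ≤ 1 := by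
    intro u hu
    by_contra hlt
    push Not at hlt
    have h1 : ‖u‖ < ‖u ^ S.p‖ := by
      rw [norm_pow]
      calc ‖u‖ = ‖u‖ ^ 1 := (pow_one _).symm
        _ < ‖u‖ ^ S.p := pow_lt_pow_right₀ hlt hp2
    have h2 := IsUltrametricDist.norm_add_eq_max_of_norm_ne_norm h1.ne'
    rw [max_eq_left h1.le] at h2
    have h3 : ‖u ^ S.p + u‖ ≤ 1 := by
      have : u ^ S.p + u = X := hu
      rw [this]; exact hX
    rw [h2] at h3
    linarith
  have hnd : P.roots.Nodup := by
    rw [Multiset.nodup_iff_count_le_one]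
    intro u
    rw [Polynomial.count_roots]
    by_contra hlt
    push Not at hlt
    obtain ⟨h1, h2⟩ := (Polynomial.one_lt_rootMultiplicity_iff_isRoot hP0).1 hlt
    have hu := hnorm u ((hroot u).1 h1)
    rw [hP, Polynomial.IsRoot.def] at h2
    simp only [derivative_add, derivative_X_pow, derivative_sub, derivative_X, derivative_C,
      sub_zero, eval_add, eval_mul, eval_pow, eval_X, eval_one, map_natCast, eval_natCast] at h2
    have h3 : ‖(S.p : K) * u ^ (S.p - 1)‖ = 1 := by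
      rw [eq_neg_of_add_eq_zero_left h2, norm_neg, norm_one]
    rw [norm_mul, norm_pow] at h3
    have h4 : ‖u‖ ^ (S.p - 1) ≤ 1 := pow_le_one₀ (norm_nonneg _) hu
    have h5 := S.norm_p_lt
    have h6 : ‖(S.p : K)‖ * ‖u‖ ^ (S.p - 1) ≤ ‖(S.p : K)‖ * 1 :=
      mul_le_mul_of_nonneg_left h4 (norm_nonneg _)
    linarith
  refine ⟨P.roots.toFinset, ?_, ?_, ?_⟩
  · rw [Multiset.toFinset_card_of_nodup hnd, IsAlgClosed.card_roots_eq_natDegree, hdeg]
  · intro u hu
    rw [Multiset.mem_toFinset, Polynomial.mem_roots hP0, hroot] at hu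
    exact ⟨hnorm u hu, hu⟩
  · intro u hu u' hu' hne
    rw [Multiset.mem_toFinset, Polynomial.mem_roots hP0, hroot] at hu hu'
    have a1 := hnorm u hu
    have b1 := hnorm u' hu'
    refine le_antisymm (sub_le_one a1 b1) (not_lt.1 fun hlt => ?_)
    have h6 := S.A_dist1 b1 hlt
    rw [hu, hu', sub_self, norm_zero] at h6
    exact hne (sub_eq_zero.1 (norm_eq_zero.1 h6.symm))

theorem roots_AA {X : K} (hX : ‖X‖ ≤ 1) (n : ℕ) : ∃ R : Finset K, R.card = S.p ^ n ∧
    (∀ u ∈ R, ‖u‖ ≤ 1 ∧ S.A^[n] u = X) ∧ ∀ u ∈ R, ∀ u' ∈ R, u ≠ u' → ‖u - u'‖ = 1 := by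
  induction n with
  | zero =>
    refine ⟨{X}, by simp, ?_, ?_⟩
    · intro u hu
      rw [Finset.mem_singleton] at hu
      subst hu
      exact ⟨hX, rfl⟩
    · intro u hu u' hu' hne
      rw [Finset.mem_singleton] at hu hu'
      exact absurd (hu.trans hu'.symm) hne
  | succ n ih =>
    obtain ⟨R, h1, h2, h3⟩ := ih
    obtain ⟨R', g1, g2, g3⟩ := lift S.A (fun u u' _ hu' h => S.A_dist1 hu' h) S.p
      (fun X hX => S.roots_A hX) R (fun u hu => (h2 u hu).1) h3
    refine ⟨R', ?_, ?_, g3⟩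
    · rw [g1, h1, pow_succ, mul_comm]
    · intro u hu
      obtain ⟨a, b⟩ := g2 u hu
      refine ⟨a, ?_⟩
      rw [Function.iterate_succ_apply]
      exact (h2 _ b).2

omit [IsUltrametricDist K] [IsAlgClosed K] in
private theorem four_le_P {M : ℕ} (hM : 1 ≤ M) : 4 ≤ S.p ^ (M + 1) := by
  calc 4 = 2 ^ 2 := by norm_num
    _ ≤ S.p ^ 2 := Nat.pow_le_pow_left S.hp.two_le 2
    _ ≤ S.p ^ (M + 1) := Nat.pow_le_pow_right S.hp.pos (by omega)

private theorem grow {M : ℕ} (hM : 1 ≤ M) {v : K} (hv : ‖v‖ = 1) (Good : K → Prop)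
    (h1 : ∀ u, ‖u‖ ≤ 1 → ‖S.A^[M + 1] u‖ < 1 → Good u)
    (h2 : ∀ u u', ‖u‖ ≤ 1 → ‖u'‖ ≤ 1 → ‖S.A^[M + 1] u‖ = 1 → ‖1 + v * S.A^[M + 1] u‖ = 1 →
      u' = S.A^[M + 1] u / (1 + v * S.A^[M + 1] u) → Good u' → Good u) (n : ℕ) :
    ∃ G : Finset K, n + 4 ≤ G.card ∧ (∀ u ∈ G, ‖u‖ ≤ 1 ∧ Good u) ∧
      ∀ u ∈ G, ∀ u' ∈ G, u ≠ u' → ‖u - u'‖ = 1 := by
  classical
  have hP := S.four_le_P hM
  induction n with
  | zero =>
    obtain ⟨R, r1, r2, r3⟩ := S.roots_AA (X := (0 : K)) (by simp) (M + 1)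
    refine ⟨R, by omega, ?_, r3⟩
    intro u hu
    obtain ⟨a, b⟩ := r2 u hu
    exact ⟨a, h1 u a (by rw [b]; simp)⟩
  | succ n ih =>
    obtain ⟨G, g1, g2, g3⟩ := ih
    -- the elements which can be continued
    set G₁ := G.filter fun u => ‖u‖ = 1 ∧ ‖1 - v * u‖ = 1 with hG₁
    have v0 : v ≠ 0 := norm_pos_iff.1 (by rw [hv]; exact one_pos)
    have hcard : G.card ≤ G₁.card + 2 := by
      have hA : (G.filter fun u => ‖u‖ < 1).card ≤ 1 := by
        rw [Finset.card_le_one]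
        intro u hu u' hu'
        rw [Finset.mem_filter] at hu hu'
        by_contra hne
        have := g3 u hu.1 u' hu'.1 hne
        have h := IsUltrametricDist.norm_add_le_max u (-u')
        rw [← sub_eq_add_neg, norm_neg, this] at h
        exact absurd h (not_le.2 (max_lt hu.2 hu'.2))
      have hB : (G.filter fun u => ‖1 - v * u‖ < 1).card ≤ 1 := by
        rw [Finset.card_le_one]
        intro u hu u' hu'
        rw [Finset.mem_filter] at hu hu'
        by_contra hne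
        have h3 := g3 u hu.1 u' hu'.1 hne
        have h := IsUltrametricDist.norm_add_le_max (1 - v * u') (-(1 - v * u))
        have e : 1 - v * u' + -(1 - v * u) = v * (u - u') := by ring
        rw [e, norm_neg, norm_mul, hv, one_mul, h3] at h
        exact absurd h (not_le.2 (max_lt hu'.2 hu.2))
      have hsub : G ⊆ G₁ ∪ ((G.filter fun u => ‖u‖ < 1) ∪ (G.filter fun u => ‖1 - v * u‖ < 1)) := by
        intro u hu
        have hu1 := (g2 u hu).1
        rw [Finset.mem_union, Finset.mem_union, hG₁, Finset.mem_filter, Finset.mem_filter,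
          Finset.mem_filter]
        by_cases c1 : ‖u‖ < 1
        · exact Or.inr (Or.inl ⟨hu, c1⟩)
        by_cases c2 : ‖1 - v * u‖ < 1
        · exact Or.inr (Or.inr ⟨hu, c2⟩)
        refine Or.inl ⟨hu, le_antisymm hu1 (not_lt.1 c1), le_antisymm ?_ (not_lt.1 c2)⟩
        refine sub_le_one (by simp) ?_
        rw [norm_mul, hv, one_mul]; exact hu1
      have h5 := Finset.card_le_card hsub
      have h6 := Finset.card_union_le G₁
        ((G.filter fun u => ‖u‖ < 1) ∪ (G.filter fun u => ‖1 - v * u‖ < 1))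
      have h7 := Finset.card_union_le (G.filter fun u => ‖u‖ < 1)
        (G.filter fun u => ‖1 - v * u‖ < 1)
      omega
    set φ : K → K := fun u => u / (1 - v * u) with hφ
    have hφdist : ∀ u ∈ G₁, ∀ u' ∈ G₁, u ≠ u' → ‖φ u - φ u'‖ = 1 := by
      intro u hu u' hu' hne
      rw [hG₁, Finset.mem_filter] at hu hu'
      have a0 : 1 - v * u ≠ 0 := norm_pos_iff.1 (by rw [hu.2.2]; exact one_pos)
      have b0 : 1 - v * u' ≠ 0 := norm_pos_iff.1 (by rw [hu'.2.2]; exact one_pos)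
      have e : φ u - φ u' = (u - u') / ((1 - v * u) * (1 - v * u')) := by
        rw [hφ]
        simp only
        rw [div_sub_div _ _ a0 b0]
        congr 1
        ring
      rw [e, norm_div, norm_mul, hu.2.2, hu'.2.2, g3 u hu.1 u' hu'.1 hne]
      norm_num
    have hφnorm : ∀ u ∈ G₁, ‖φ u‖ = 1 := by
      intro u hu
      rw [hG₁, Finset.mem_filter] at hu
      rw [hφ]
      simp only
      rw [norm_div, hu.2.1, hu.2.2, div_one]
    have hφinj : Set.InjOn φ (G₁ : Set K) := by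
      intro u hu u' hu' he
      by_contra hne
      have := hφdist u hu u' hu' hne
      rw [he, sub_self, norm_zero] at this
      exact zero_ne_one this
    have h0 : (0 : K) ∉ G₁.image φ := by
      intro h
      obtain ⟨u, hu, he⟩ := Finset.mem_image.1 h
      have := hφnorm u hu
      rw [he, norm_zero] at this
      exact zero_ne_one this
    obtain ⟨R, r1, r2, r3⟩ := lift (S.A^[M + 1])
      (fun u u' hu hu' h => S.A_dist hu hu' h (M + 1)) (S.p ^ (M + 1))
      (fun X hX => S.roots_AA hX (M + 1)) (insert 0 (G₁.image φ)) (by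
        intro X hX
        rcases Finset.mem_insert.1 hX with rfl | hX
        · simp
        · obtain ⟨u, hu, rfl⟩ := Finset.mem_image.1 hX
          exact (hφnorm u hu).le) (by
        intro X hX X' hX' hne
        rcases Finset.mem_insert.1 hX with rfl | hX
        · rcases Finset.mem_insert.1 hX' with rfl | hX'
          · exact absurd rfl hne
          · obtain ⟨u, hu, rfl⟩ := Finset.mem_image.1 hX'
            rw [zero_sub, norm_neg]
            exact hφnorm u hu
        · obtain ⟨u, hu, rfl⟩ := Finset.mem_image.1 hX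
          rcases Finset.mem_insert.1 hX' with rfl | hX'
          · rw [sub_zero]
            exact hφnorm u hu
          · obtain ⟨u', hu', rfl⟩ := Finset.mem_image.1 hX'
            exact hφdist u hu u' hu' fun h => hne (by rw [h]))
    refine ⟨R, ?_, ?_, r3⟩
    · rw [r1, Finset.card_insert_of_notMem h0, Finset.card_image_of_injOn hφinj]
      have : 4 * (G₁.card + 1) ≤ S.p ^ (M + 1) * (G₁.card + 1) := Nat.mul_le_mul_right _ hP
      omega
    · intro u hu
      obtain ⟨a, b⟩ := r2 u hu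
      refine ⟨a, ?_⟩
      rcases Finset.mem_insert.1 b with b | b
      · exact h1 u a (by rw [b]; simp)
      · obtain ⟨u', hu', he⟩ := Finset.mem_image.1 b
        have hn := hφnorm u' hu'
        rw [hG₁, Finset.mem_filter] at hu'
        have b0 : 1 - v * u' ≠ 0 := norm_pos_iff.1 (by rw [hu'.2.2]; exact one_pos)
        have e1 : 1 + v * φ u' = 1 / (1 - v * u') := by
          rw [hφ]
          simp only
          rw [eq_div_iff b0, add_mul, one_mul, mul_assoc, div_mul_cancel₀ _ b0]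
          ring
        have e2 : u' = φ u' / (1 + v * φ u') := by
          rw [e1, hφ]
          simp only
          rw [div_div_div_cancel_right₀ b0, div_one]
        refine h2 u u' a (g2 u' hu'.1).1 ?_ ?_ ?_ (g2 u' hu'.1).2
        · rw [← he]; exact hn
        · rw [← he, e1, norm_div, hu'.2.2]; simp
        · rw [← he]; exact e2

theorem count_classes {M : ℕ} (hM : 1 ≤ M) {v : K} (hv : ‖v‖ = 1) (Good : K → Prop)
    (h1 : ∀ u, ‖u‖ ≤ 1 → ‖S.A^[M + 1] u‖ < 1 → Good u)
    (h2 : ∀ u u', ‖u‖ ≤ 1 → ‖u'‖ ≤ 1 → ‖S.A^[M + 1] u‖ = 1 → ‖1 + v * S.A^[M + 1] u‖ = 1 →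
      u' = S.A^[M + 1] u / (1 + v * S.A^[M + 1] u) → Good u' → Good u) (T : Finset K) :
    ∃ u, ‖u‖ ≤ 1 ∧ Good u ∧ ∀ b ∈ T, 1 ≤ ‖u - b‖ := by
  classical
  by_contra hno
  push Not at hno
  obtain ⟨G, g1, g2, g3⟩ := S.grow hM hv Good h1 h2 T.card
  have hmap : ∀ u ∈ G, ∃ b ∈ T, ‖u - b‖ < 1 := fun u hu => hno u (g2 u hu).1 (g2 u hu).2
  choose! β b1 b2 using hmap
  have hinj : Set.InjOn β (G : Set K) := by
    intro u hu u' hu' he
    by_contra hne
    have h3 := g3 u hu u' hu' hne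
    have h := IsUltrametricDist.norm_add_le_max (u - β u) (-(u' - β u'))
    have e : u - β u + -(u' - β u') = u - u' := by rw [he]; ring
    rw [e, norm_neg, h3] at h
    exact absurd h (not_le.2 (max_lt (b2 u hu) (b2 u' hu')))
  have hc := Finset.card_le_card_of_injOn β (fun u hu => b1 u hu) hinj
  omega

end Sys

end Pool.Agent.FIC
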