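import Pool.Agent.FIC.Contact

/-!
# The deep pass: distances `≥ ι` in the zones `C`, `X`

`rad (ie - k)`, `k ≥ 0`, at `C` becomes `rad (ie + 1 - p k)`, at `X` `rad (ie - p k)`.

* `deep_le`: induction on `M` (generalising `z z' k`): `z'` is in the zone `C` because
  `‖z' - z‖ ≤ rad (ie - k) ≤ rad (1/p)` (`p ^ M k ≤ ie - 1/p` and `k ≤ p ^ M k`); `C_rad_le`;
  `‖b' - b‖ < rad (ie + 1) ≤ rad (ie + 1 - p k)`; `g b' z'` is in the zone `X` because
  `rad (ie + 1 - p k) ≤ rad (1 + 1/p) ≤ rad 1` (here `M ≥ 1`, `p k ≤ p ^ M k ≤ ie - 1/p`); `X_eq`.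
* `deep_eq`: same with `C_rad_eq`, `X_eq`; `deep_lt` with `C_rad_lt`.
* `deep_inv`: if the distance at the end is `rad (ie - p ^ M k)`, `k > 0`, and it is at most
  `rad (ie - k)` in the beginning then it is equal to `rad (ie - k)` in the beginning (`deep_lt`).
* `cs_le`, `cs_eq`: `rad (1/(p-1))` at `C` becomes `rad (1/(p-1))`: `C_rad_le` with
  `k = ie - 1/(p-1)`: `ie + 1 - p k = 1/(p-1)`.  Note `1/(p-1) ≥ 1/p`.
-/

open Polynomial

noncomputable section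

namespace Pool.Agent.FIC

variable {K : Type*} [NontriviallyNormedField K] [IsUltrametricDist K]

namespace DeepX

lemma add_eq {x y : K} (h : ‖y‖ < ‖x‖) : ‖x + y‖ = ‖x‖ := by
  rw [IsUltrametricDist.norm_add_eq_max_of_norm_ne_norm h.ne', max_eq_left h.le]

lemma add_le {x y : K} {D : ℝ} (hx : ‖x‖ ≤ D) (hy : ‖y‖ ≤ D) : ‖x + y‖ ≤ D :=
  (IsUltrametricDist.norm_add_le_max x y).trans (max_le hx hy)

lemma add_lt {x y : K} {D : ℝ} (hx : ‖x‖ < D) (hy : ‖y‖ < D) : ‖x + y‖ < D :=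
  (IsUltrametricDist.norm_add_le_max x y).trans_lt (max_lt hx hy)

lemma zone_near {x y u : K} {D : ℝ} (hx : ‖x - u‖ ≤ D) (hy : ‖y - x‖ ≤ D) : ‖y - u‖ ≤ D := by
  have : y - u = (y - x) + (x - u) := by ring
  rw [this]
  exact add_le hy hx

end DeepX

namespace Sys

variable (S : Sys K)

omit [IsUltrametricDist K] in
lemma run_CX {b z : K} {L : List Step} : S.Run b z S.ie (Step.C :: Step.X :: L) ↔
    S.zone .C z ∧ S.zone .X (S.g b z) ∧ S.Run b (S.g b (S.g b z)) S.ie L := by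
  have e : S.ie + S.gain .C + S.gain .X = S.ie := by simp [gain]
  have h1 : S.ok .C S.ie := le_refl S.ie
  have h2 : S.ok .X (S.ie + S.gain .C) := by
    change (1 : ℚ) ≤ S.ie + 1
    have := S.ie_pos
    linarith
  change (S.zone .C z ∧ S.ok .C S.ie ∧ S.zone .X (S.g b z) ∧ S.ok .X (S.ie + S.gain .C) ∧
    S.Run b (S.g b (S.g b z)) (S.ie + S.gain .C + S.gain .X) L) ↔ _
  rw [e]
  tauto

lemma g_diff {b b' z z' : K} (h : S.F.Q.eval z ≠ 0) (h' : S.F.Q.eval z' ≠ 0) :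
    S.g b' z' - S.g b z = (S.F.ev z' - S.F.ev z) + (b' - b) := by
  rw [S.g_eq b h, S.g_eq b' h']; ring

omit [IsUltrametricDist K] in
lemma orb_two (b z : K) (M : ℕ) : S.orb b z (2 * (M + 1)) = S.orb b (S.g b (S.g b z)) (2 * M) := by
  have : 2 * (M + 1) = 2 * M + 1 + 1 := by ring
  rw [this, orb_succ', orb_succ']

lemma le_pow_mul {M : ℕ} {k : ℚ} (hk : 0 ≤ k) : k ≤ (S.p : ℚ) ^ M * k := by
  have h := one_le_pow₀ (n := M) (by linarith [S.two_le_p] : (1 : ℚ) ≤ S.p)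
  nlinarith

/-- one pair of steps, upper bound -/
lemma pair_le {b b' z z' : K} {k : ℚ} (hk : 0 ≤ k) (hkp : (S.p : ℚ) * k ≤ S.ie - 1 / S.p)
    (h1 : S.zone .C z) (h2 : S.zone .X (S.g b z)) (hb : ‖b' - b‖ < S.rad (S.ie + 1))
    (hz : ‖z' - z‖ ≤ S.rad (S.ie - k)) :
    S.zone .C z' ∧ S.zone .X (S.g b' z') ∧
      ‖S.g b' (S.g b' z') - S.g b (S.g b z)‖ ≤ S.rad (S.ie - S.p * k) := by
  have hp := S.two_le_p
  have hpk : k ≤ (S.p : ℚ) * k := by nlinarith
  have hip := S.inv_p_pos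
  have z1 : S.zone .C z' := by
    refine DeepX.zone_near h1 (hz.trans (S.rad_le.2 ?_))
    linarith
  have e1 := S.C_rad_le hk h1 z1 hz
  have e2 : ‖S.g b' z' - S.g b z‖ ≤ S.rad (S.ie + 1 - S.p * k) := by
    rw [S.g_diff (S.zone_nopole h1) (S.zone_nopole z1)]
    exact DeepX.add_le e1 (hb.le.trans (S.rad_le.2 (by nlinarith)))
  have z2 : S.zone .X (S.g b' z') := by
    have h2' : ‖S.g b z - 0‖ ≤ S.rad 1 := by rw [sub_zero]; exact h2
    have := DeepX.zone_near h2' (e2.trans (S.rad_le.2 (by linarith)))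
    rw [sub_zero] at this
    exact this
  refine ⟨z1, z2, ?_⟩
  rw [S.g_diff (S.zone_nopole h2) (S.zone_nopole z2)]
  refine DeepX.add_le ?_ (hb.le.trans (S.rad_le.2 (by nlinarith)))
  rw [S.X_eq h2 z2, S.norm_α, div_le_iff₀ (S.rad_pos 1), ← S.rad_add]
  refine e2.trans (le_of_eq ?_)
  congr 1
  ring

lemma pair_lt {b b' z z' : K} {k : ℚ} (hk : 0 < k)
    (h1 : S.zone .C z) (h2 : S.zone .X (S.g b z)) (z1 : S.zone .C z') (z2 : S.zone .X (S.g b' z'))
    (hb : ‖b' - b‖ < S.rad (S.ie + 1)) (hz : ‖z' - z‖ < S.rad (S.ie - k)) :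
    ‖S.g b' (S.g b' z') - S.g b (S.g b z)‖ < S.rad (S.ie - S.p * k) := by
  have hp := S.two_le_p
  have hpk : k ≤ (S.p : ℚ) * k := by nlinarith
  have e1 := S.C_rad_lt hk h1 z1 hz
  have e2 : ‖S.g b' z' - S.g b z‖ < S.rad (S.ie + 1 - S.p * k) := by
    rw [S.g_diff (S.zone_nopole h1) (S.zone_nopole z1)]
    exact DeepX.add_lt e1 (hb.trans_le (S.rad_le.2 (by nlinarith)))
  rw [S.g_diff (S.zone_nopole h2) (S.zone_nopole z2)]
  refine DeepX.add_lt ?_ (hb.trans_le (S.rad_le.2 (by nlinarith)))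
  rw [S.X_eq h2 z2, S.norm_α, div_lt_iff₀ (S.rad_pos 1), ← S.rad_add]
  refine e2.trans_eq ?_
  congr 1
  ring

lemma pair_eq {b b' z z' : K} {k : ℚ} (hk : 0 < k)
    (h1 : S.zone .C z) (h2 : S.zone .X (S.g b z)) (z1 : S.zone .C z') (z2 : S.zone .X (S.g b' z'))
    (hb : ‖b' - b‖ < S.rad (S.ie + 1)) (hz : ‖z' - z‖ = S.rad (S.ie - k)) :
    ‖S.g b' (S.g b' z') - S.g b (S.g b z)‖ = S.rad (S.ie - S.p * k) := by
  have hp := S.two_le_p
  have hpk : k ≤ (S.p : ℚ) * k := by nlinarith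
  have e1 := S.C_rad_eq hk h1 z1 hz
  have e2 : ‖S.g b' z' - S.g b z‖ = S.rad (S.ie + 1 - S.p * k) := by
    rw [S.g_diff (S.zone_nopole h1) (S.zone_nopole z1), DeepX.add_eq, e1]
    rw [e1]
    exact hb.trans_le (S.rad_le.2 (by nlinarith))
  have e3 : ‖S.F.ev (S.g b' z') - S.F.ev (S.g b z)‖ = S.rad (S.ie - S.p * k) := by
    rw [S.X_eq h2 z2, S.norm_α, div_eq_iff (S.rad_pos 1).ne', ← S.rad_add, e2]
    congr 1
    ring
  rw [S.g_diff (S.zone_nopole h2) (S.zone_nopole z2), DeepX.add_eq, e3]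
  rw [e3]
  exact hb.trans_le (S.rad_le.2 (by nlinarith))

theorem deep_le {b b' z z' : K} {M : ℕ} {k : ℚ} (hk : 0 ≤ k)
    (hkM : (S.p : ℚ) ^ M * k ≤ S.ie - 1 / S.p) (h : S.Run b z S.ie (CXL M))
    (hb : ‖b' - b‖ < S.rad (S.ie + 1)) (hz : ‖z' - z‖ ≤ S.rad (S.ie - k)) :
    S.Run b' z' S.ie (CXL M) ∧
      ‖S.orb b' z' (2 * M) - S.orb b z (2 * M)‖ ≤ S.rad (S.ie - (S.p : ℚ) ^ M * k) := by
  induction M generalizing z z' k with
  | zero =>
    refine ⟨trivial, ?_⟩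
    simpa [orb_zero] using hz
  | succ M ih =>
    obtain ⟨h1, h2, h3⟩ := S.run_CX.1 h
    have hp := S.two_le_p
    have hpk0 : 0 ≤ (S.p : ℚ) * k := by positivity
    have e0 : (S.p : ℚ) ^ (M + 1) * k = (S.p : ℚ) ^ M * (S.p * k) := by rw [pow_succ]; ring
    have hle := S.le_pow_mul (M := M) hpk0
    rw [e0] at hkM ⊢
    obtain ⟨z1, z2, e3⟩ := S.pair_le hk (hle.trans hkM) h1 h2 hb hz
    obtain ⟨r1, r2⟩ := ih hpk0 hkM h3 e3
    refine ⟨S.run_CX.2 ⟨z1, z2, r1⟩, ?_⟩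
    rw [S.orb_two, S.orb_two]
    exact r2

theorem deep_lt {b b' z z' : K} {M : ℕ} {k : ℚ} (hk : 0 < k)
    (h : S.Run b z S.ie (CXL M)) (h' : S.Run b' z' S.ie (CXL M))
    (hb : ‖b' - b‖ < S.rad (S.ie + 1)) (hz : ‖z' - z‖ < S.rad (S.ie - k)) :
    ‖S.orb b' z' (2 * M) - S.orb b z (2 * M)‖ < S.rad (S.ie - (S.p : ℚ) ^ M * k) := by
  induction M generalizing z z' k with
  | zero => simpa [orb_zero] using hz
  | succ M ih =>
    obtain ⟨h1, h2, h3⟩ := S.run_CX.1 h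
    obtain ⟨z1, z2, h3'⟩ := S.run_CX.1 h'
    have hp := S.two_le_p
    have hpk0 : 0 < (S.p : ℚ) * k := by positivity
    have e0 : (S.p : ℚ) ^ (M + 1) * k = (S.p : ℚ) ^ M * (S.p * k) := by rw [pow_succ]; ring
    rw [e0, S.orb_two, S.orb_two]
    exact ih hpk0 h3 h3' (S.pair_lt hk h1 h2 z1 z2 hb hz)

theorem deep_eq {b b' z z' : K} {M : ℕ} {k : ℚ} (hk : 0 < k)
    (h : S.Run b z S.ie (CXL M)) (h' : S.Run b' z' S.ie (CXL M))
    (hb : ‖b' - b‖ < S.rad (S.ie + 1)) (hz : ‖z' - z‖ = S.rad (S.ie - k)) :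
    ‖S.orb b' z' (2 * M) - S.orb b z (2 * M)‖ = S.rad (S.ie - (S.p : ℚ) ^ M * k) := by
  induction M generalizing z z' k with
  | zero => simpa [orb_zero] using hz
  | succ M ih =>
    obtain ⟨h1, h2, h3⟩ := S.run_CX.1 h
    obtain ⟨z1, z2, h3'⟩ := S.run_CX.1 h'
    have hp := S.two_le_p
    have hpk0 : 0 < (S.p : ℚ) * k := by positivity
    have e0 : (S.p : ℚ) ^ (M + 1) * k = (S.p : ℚ) ^ M * (S.p * k) := by rw [pow_succ]; ring
    rw [e0, S.orb_two, S.orb_two]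
    exact ih hpk0 h3 h3' (S.pair_eq hk h1 h2 z1 z2 hb hz)

theorem deep_inv {b z z' : K} {M : ℕ} {k : ℚ} (hk : 0 < k)
    (h : S.Run b z S.ie (CXL M)) (h' : S.Run b z' S.ie (CXL M))
    (hz : ‖z' - z‖ ≤ S.rad (S.ie - k))
    (hM : ‖S.orb b z' (2 * M) - S.orb b z (2 * M)‖ = S.rad (S.ie - (S.p : ℚ) ^ M * k)) :
    ‖z' - z‖ = S.rad (S.ie - k) := by
  refine le_antisymm hz (le_of_not_gt fun hlt => ?_)
  have := S.deep_lt hk h h' (by rw [sub_self, norm_zero]; exact S.rad_pos _) hlt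
  rw [hM] at this
  exact lt_irrefl _ this

omit [IsUltrametricDist K] in
/-- runs along `C ^ l` -/
lemma run_rep {b z : K} {l : ℕ} {E : ℚ} (hE : S.ie ≤ E) :
    S.Run b z E (List.replicate l Step.C) ↔ ∀ i < l, S.zone .C (S.orb b z i) := by
  induction l generalizing z E with
  | zero => simp [Run]
  | succ l ih =>
    have e : S.Run b z E (List.replicate (l + 1) Step.C) ↔ S.zone .C z ∧ S.ok .C E ∧
      S.Run b (S.g b z) (E + S.gain .C) (List.replicate l Step.C) := Iff.rfl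
    have hE' : S.ie ≤ E + S.gain .C := by
      change S.ie ≤ E + 1
      linarith
    rw [e, ih hE']
    constructor
    · rintro ⟨h1, _, h3⟩ i hi
      cases i with
      | zero => exact h1
      | succ i => rw [orb_succ']; exact h3 i (by omega)
    · intro h
      exact ⟨h 0 (by omega), hE, fun i hi => by rw [← orb_succ']; exact h (i + 1) (by omega)⟩

lemma k0_eq : S.ie - 1 / ((S.p : ℚ) - 1) = 1 / ((S.p : ℚ) - 1) := by
  rw [ie]; ring

lemma k0_next : S.ie + 1 - S.p * (S.ie - 1 / ((S.p : ℚ) - 1)) = 1 / ((S.p : ℚ) - 1) := by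
  have hp := S.two_le_p
  have h : (S.p : ℚ) - 1 ≠ 0 := by linarith
  rw [ie]
  field_simp
  ring

lemma k0_pos : 0 < S.ie - 1 / ((S.p : ℚ) - 1) := by linarith [S.inv_lt_ie]

theorem cs_le {b b' z z' : K} {l : ℕ} (h : S.Run b z S.ie (List.replicate l Step.C))
    (hb : ‖b' - b‖ < S.rad (S.ie + 1)) (hz : ‖z' - z‖ ≤ S.rad (1 / ((S.p : ℚ) - 1))) :
    S.Run b' z' S.ie (List.replicate l Step.C) ∧
      ‖S.orb b' z' l - S.orb b z l‖ ≤ S.rad (1 / ((S.p : ℚ) - 1)) := by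
  rw [S.run_rep le_rfl] at h ⊢
  have key : ∀ i, i ≤ l → ‖S.orb b' z' i - S.orb b z i‖ ≤ S.rad (1 / ((S.p : ℚ) - 1)) := by
    intro i
    induction i with
    | zero => intro _; exact hz
    | succ i ih =>
      intro hi
      have h1 := ih (by omega)
      have h2 := h i (by omega)
      have h3 : S.zone .C (S.orb b' z' i) :=
        DeepX.zone_near h2 (h1.trans (S.rad_le.2 S.inv_p_lt.le))
      have h4 := S.C_rad_le S.k0_pos.le h2 h3 (by rw [sub_sub_cancel]; exact h1)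
      rw [S.k0_next] at h4
      rw [orb_succ, orb_succ, S.g_diff (S.zone_nopole h2) (S.zone_nopole h3)]
      refine DeepX.add_le h4 (hb.le.trans (S.rad_le.2 ?_))
      linarith [S.inv_lt_ie]
  refine ⟨fun i hi => ?_, key l le_rfl⟩
  exact DeepX.zone_near (h i hi) ((key i hi.le).trans (S.rad_le.2 S.inv_p_lt.le))

theorem cs_eq {b b' z z' : K} {l : ℕ} (h : S.Run b z S.ie (List.replicate l Step.C))
    (h' : S.Run b' z' S.ie (List.replicate l Step.C))
    (hb : ‖b' - b‖ < S.rad (S.ie + 1)) (hz : ‖z' - z‖ = S.rad (1 / ((S.p : ℚ) - 1))) :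
    ‖S.orb b' z' l - S.orb b z l‖ = S.rad (1 / ((S.p : ℚ) - 1)) := by
  rw [S.run_rep le_rfl] at h h'
  have key : ∀ i, i ≤ l → ‖S.orb b' z' i - S.orb b z i‖ = S.rad (1 / ((S.p : ℚ) - 1)) := by
    intro i
    induction i with
    | zero => intro _; exact hz
    | succ i ih =>
      intro hi
      have h1 := ih (by omega)
      have h2 := h i (by omega)
      have h3 := h' i (by omega)
      have h4 := S.C_rad_eq S.k0_pos h2 h3 (by rw [sub_sub_cancel]; exact h1)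
      rw [S.k0_next] at h4
      rw [orb_succ, orb_succ, S.g_diff (S.zone_nopole h2) (S.zone_nopole h3), DeepX.add_eq, h4]
      rw [h4]
      refine hb.trans_le (S.rad_le.2 ?_)
      linarith [S.inv_lt_ie]
  exact key l le_rfl

/-- Small distances along `C^l`: at each step the difference is multiplied by `a` and `b' - b` is
added.  `‖b' - b‖ ≤ D₀`, `D₀ ≤ rad ie`, `‖z' - z‖ ≤ rad ie`. -/
theorem cs_small {b b' z z' : K} {l : ℕ} {D : ℝ} (h : S.Run b z S.ie (List.replicate l Step.C))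
    (hD : D ≤ S.rad S.ie) (hz : ‖z' - z‖ ≤ D) (hb : ‖b' - b‖ ≤ S.rad (S.ie + 1)) :
    ‖S.orb b' z' l - S.orb b z l‖ ≤ max (S.rad l * D) ‖b' - b‖ := by
  rw [S.run_rep le_rfl] at h
  have hD0 : 0 ≤ D := (norm_nonneg _).trans hz
  have hip : 1 / (S.p : ℚ) ≤ S.ie := (S.inv_p_lt.trans S.inv_lt_ie).le
  have hα := S.a_pos
  have key : ∀ i, i ≤ l → ‖S.orb b' z' i - S.orb b z i‖ ≤ max (S.rad i * D) ‖b' - b‖ := by
    intro i
    induction i with
    | zero =>
      intro _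
      rw [Nat.cast_zero, S.rad_zero, one_mul]
      exact hz.trans (le_max_left _ _)
    | succ i ih =>
      intro hi
      have h1 := ih (by omega)
      have h2 := h i (by omega)
      have hri : S.rad i ≤ 1 := S.rad_le_one.2 (Nat.cast_nonneg i)
      have hle : ‖S.orb b' z' i - S.orb b z i‖ ≤ S.rad S.ie := by
        refine h1.trans (max_le ?_ (hb.trans (S.rad_le.2 (by linarith))))
        calc S.rad i * D ≤ 1 * D := mul_le_mul_of_nonneg_right hri hD0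
          _ ≤ S.rad S.ie := by rw [one_mul]; exact hD
      have h3 : S.zone .C (S.orb b' z' i) :=
        DeepX.zone_near h2 (hle.trans (S.rad_le.2 hip))
      set δ := ‖S.orb b' z' i - S.orb b z i‖ with hδ
      have hδ0 : 0 ≤ δ := norm_nonneg _
      have h4 := S.C_le h2 h3
      rw [← hδ] at h4
      have h5 : δ ^ S.p / ‖S.α‖ ≤ ‖S.α‖ * δ := by
        rw [div_le_iff₀ hα]
        have h6 : δ ^ (S.p - 1) ≤ ‖S.α‖ ^ 2 := by
          have h7 : δ ^ (S.p - 1) ≤ S.rad S.ie ^ (S.p - 1) := pow_le_pow_left₀ hδ0 hle _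
          have h8 : S.rad S.ie ^ (S.p - 1) = ‖S.α‖ ^ 2 := by
            rw [← S.norm_ι, ← norm_pow, S.hι, norm_pow]
          rwa [h8] at h7
        have h9 : S.p = (S.p - 1) + 1 := by have := S.hp.two_le; omega
        calc δ ^ S.p = δ ^ (S.p - 1) * δ := by rw [← pow_succ, ← h9]
          _ ≤ ‖S.α‖ ^ 2 * δ := mul_le_mul_of_nonneg_right h6 hδ0
          _ = ‖S.α‖ * δ * ‖S.α‖ := by ring
      have h10 : ‖S.F.ev (S.orb b' z' i) - S.F.ev (S.orb b z i)‖ ≤
          max (S.rad ((i + 1 : ℕ) : ℚ) * D) ‖b' - b‖ := by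
        refine (h4.trans (max_le h5 le_rfl)).trans ?_
        refine (mul_le_mul_of_nonneg_left h1 hα.le).trans ?_
        rw [mul_max_of_nonneg _ _ hα.le]
        refine max_le_max (le_of_eq ?_) ?_
        · rw [S.norm_α, ← mul_assoc, ← S.rad_add]
          congr 2
          push_cast
          ring
        · exact mul_le_of_le_one_left (norm_nonneg _) S.α1.le
      rw [orb_succ, orb_succ, S.g_diff (S.zone_nopole h2) (S.zone_nopole h3)]
      exact DeepX.add_le h10 (le_max_right _ _)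
  exact key l le_rfl

end Sys

end Pool.Agent.FIC
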