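import Mathlib

/-!
# The Berkovich projective line and Fatou components of rational maps

`K` is an algebraically closed field, complete for a nontrivial non-archimedean absolute value.

* `BerkA K`: the Berkovich affine line, i.e. the multiplicative seminorms on `K[z]` which extend the
  absolute value of `K`, with the topology of pointwise convergence;
* `BerkP K`: the Berkovich projective line, the one point compactification of `BerkA K`;
* `RatMap K`: rational maps `P/Q` (with `P, Q` coprime), `RatMap.map` their action on `BerkP K`;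
* `fatou f`: the Berkovich Fatou set; its connected components; indifferent components; disks.
-/

open Polynomial

noncomputable section

namespace Pool.Agent.FIC

variable (K : Type*) [NontriviallyNormedField K]

/-- the Berkovich affine line: multiplicative seminorms on `K[z]` extending the norm of `K` -/
def BerkA : Type _ := {N : MulRingSeminorm K[X] // ∀ c : K, N (C c) = ‖c‖}

/-- the topology of pointwise convergence -/
instance : TopologicalSpace (BerkA K) :=
  TopologicalSpace.induced (fun (ζ : BerkA K) (g : K[X]) => ζ.1 g) inferInstance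

/-- the Berkovich projective line (`OnePoint.infty` is the point at infinity) -/
abbrev BerkP : Type _ := OnePoint (BerkA K)

variable {K}

/-- the point of type I given by `x : K`: the seminorm `g ↦ ‖g(x)‖` -/
def pt (x : K) : BerkA K :=
  ⟨{ toFun := fun g => ‖g.eval x‖
     map_zero' := by simp
     add_le' := fun g h => by rw [eval_add]; exact norm_add_le _ _
     neg' := fun g => by rw [eval_neg, norm_neg]
     map_one' := by simp
     map_mul' := fun g h => by rw [eval_mul, norm_mul] }, fun c => by
      change ‖(C c : K[X]).eval x‖ = ‖c‖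
      rw [eval_C]⟩

/-- the points of `P¹(K)` as points of the Berkovich projective line -/
def toP : OnePoint K → BerkP K
  | OnePoint.some x => ((pt x : BerkA K) : BerkP K)
  | OnePoint.infty => OnePoint.infty

/-- the distance of `ζ` to `a`: the value of the seminorm `ζ` at `z - a` -/
def del (ζ : BerkA K) (a : K) : ℝ := ζ.1 (X - C a)

variable (K) in
/-- a rational map `P/Q`, with `P` and `Q` coprime -/
structure RatMap where
  /-- the numerator -/
  P : K[X]
  /-- the denominator -/
  Q : K[X]
  coprime : IsCoprime P Q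

/-- the degree of a rational map -/
def RatMap.degree (f : RatMap K) : ℕ := max f.P.natDegree f.Q.natDegree

/-- the homogenisation `∑ᵢ gᵢ Pⁱ Q^(m-i)` of `g` evaluated at `(P, Q)` -/
def homog (P Q : K[X]) (m : ℕ) (g : K[X]) : K[X] :=
  ∑ i ∈ Finset.range (m + 1), C (g.coeff i) * P ^ i * Q ^ (m - i)

/-- the value of the image seminorm `f(ζ)` at `g`: `ζ(g ∘ f) = ζ(∑ᵢ gᵢ Pⁱ Q^(m-i)) / ζ(Q)^m` with
`m = deg g` -/
def pushVal (f : RatMap K) (ζ : BerkA K) (g : K[X]) : ℝ :=
  ζ.1 (homog f.P f.Q g.natDegree g) / ζ.1 f.Q ^ g.natDegree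

theorem homog_succ (P Q : K[X]) (m : ℕ) (g : K[X]) (h : g.natDegree ≤ m) :
    homog P Q (m + 1) g = homog P Q m g * Q := by
  unfold homog
  rw [Finset.sum_range_succ, coeff_eq_zero_of_natDegree_lt (by omega), map_zero, zero_mul, zero_mul,
    add_zero, Finset.sum_mul]
  refine Finset.sum_congr rfl fun i hi => ?_
  rw [Finset.mem_range] at hi
  have : m + 1 - i = (m - i) + 1 := by omega
  rw [this, pow_succ]
  ring

theorem homog_add_nat (P Q : K[X]) (m k : ℕ) (g : K[X]) (h : g.natDegree ≤ m) :
    homog P Q (m + k) g = homog P Q m g * Q ^ k := by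
  induction k with
  | zero => simp
  | succ k ih =>
    rw [← add_assoc, homog_succ P Q (m + k) g (by omega), ih, pow_succ]
    ring

theorem homog_add (P Q : K[X]) (m : ℕ) (g h : K[X]) :
    homog P Q m (g + h) = homog P Q m g + homog P Q m h := by
  unfold homog
  rw [← Finset.sum_add_distrib]
  refine Finset.sum_congr rfl fun i _ => ?_
  rw [coeff_add, map_add]
  ring

theorem pushVal_eq (f : RatMap K) (ζ : BerkA K) (hQ : ζ.1 f.Q ≠ 0) (g : K[X]) (m : ℕ)
    (h : g.natDegree ≤ m) : pushVal f ζ g = ζ.1 (homog f.P f.Q m g) / ζ.1 f.Q ^ m := by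
  obtain ⟨k, rfl⟩ := Nat.exists_eq_add_of_le h
  rw [homog_add_nat _ _ _ _ _ le_rfl, pushVal, map_mul, map_pow, pow_add]
  rw [mul_div_mul_right _ _ (pow_ne_zero _ hQ)]

/-- `homog` is multiplicative -/
theorem homog_mul (P Q : K[X]) (m k : ℕ) (g h : K[X]) (hg : g.natDegree ≤ m)
    (hh : h.natDegree ≤ k) : homog P Q (m + k) (g * h) = homog P Q m g * homog P Q k h := by
  have key : ∀ i j : ℕ, i ≤ m → j ≤ k → homog P Q (m + k) (monomial i (g.coeff i) *
      monomial j (h.coeff j)) =
      (C (g.coeff i) * P ^ i * Q ^ (m - i)) * (C (h.coeff j) * P ^ j * Q ^ (k - j)) := by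
    intro i j hi hj
    unfold homog
    rw [monomial_mul_monomial, Finset.sum_eq_single (i + j)]
    · rw [coeff_monomial, if_pos rfl, map_mul]
      have : m + k - (i + j) = (m - i) + (k - j) := by omega
      rw [this, pow_add, pow_add]
      ring
    · intro l _ hl
      rw [coeff_monomial, if_neg (Ne.symm hl), map_zero, zero_mul, zero_mul]
    · intro hl
      exact absurd (Finset.mem_range.2 (by omega)) hl
  have hsum : ∀ (s : Finset ℕ) (u : ℕ → K[X]), homog P Q (m + k) (∑ i ∈ s, u i) =
      ∑ i ∈ s, homog P Q (m + k) (u i) := by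
    intro s u
    induction s using Finset.induction_on with
    | empty => simp [homog]
    | insert a s ha ih => rw [Finset.sum_insert ha, Finset.sum_insert ha, homog_add, ih]
  conv_lhs => rw [g.as_sum_range' (m + 1) (by omega), h.as_sum_range' (k + 1) (by omega),
    Finset.sum_mul_sum]
  rw [hsum]
  rw [show homog P Q m g * homog P Q k h = ∑ i ∈ Finset.range (m + 1),
    ∑ j ∈ Finset.range (k + 1), (C (g.coeff i) * P ^ i * Q ^ (m - i)) *
      (C (h.coeff j) * P ^ j * Q ^ (k - j)) by unfold homog; rw [Finset.sum_mul_sum]]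
  refine Finset.sum_congr rfl fun i hi => ?_
  rw [hsum]
  refine Finset.sum_congr rfl fun j hj => ?_
  rw [Finset.mem_range] at hi hj
  exact key i j (by omega) (by omega)

/-- the image of a point of the Berkovich affine line which is not a pole of `f` -/
def push (f : RatMap K) (ζ : BerkA K) (hQ : ζ.1 f.Q ≠ 0) : BerkA K :=
  ⟨{ toFun := pushVal f ζ
     map_zero' := by
      rw [pushVal]
      simp [homog]
     add_le' := fun g h => by
      have h1 := pushVal_eq f ζ hQ (g + h) (max g.natDegree h.natDegree) (natDegree_add_le _ _)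
      have h2 := pushVal_eq f ζ hQ g (max g.natDegree h.natDegree) (le_max_left _ _)
      have h3 := pushVal_eq f ζ hQ h (max g.natDegree h.natDegree) (le_max_right _ _)
      rw [h1, h2, h3, homog_add, ← add_div]
      exact div_le_div_of_nonneg_right (map_add_le_add ζ.1 _ _)
        (pow_nonneg (apply_nonneg ζ.1 _) _)
     neg' := fun g => by
      rw [pushVal, pushVal, natDegree_neg]
      have : homog f.P f.Q g.natDegree (-g) = - homog f.P f.Q g.natDegree g := by
        unfold homog
        rw [← Finset.sum_neg_distrib]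
        refine Finset.sum_congr rfl fun i _ => ?_
        rw [coeff_neg, map_neg]
        ring
      rw [this, map_neg_eq_map]
     map_one' := by
      rw [pushVal]
      simp [homog, map_one ζ.1]
     map_mul' := fun g h => by
      rw [pushVal_eq f ζ hQ (g * h) (g.natDegree + h.natDegree) natDegree_mul_le,
        homog_mul _ _ _ _ _ _ le_rfl le_rfl, map_mul, pow_add, mul_div_mul_comm]
      rfl }, fun c => by
      change pushVal f ζ (C c) = ‖c‖
      rw [pushVal, natDegree_C]
      simp [homog, ζ.2 c]⟩

open Classical in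
/-- the action of a rational map on the Berkovich projective line -/
def RatMap.map (f : RatMap K) : BerkP K → BerkP K
  | OnePoint.some ζ => if h : ζ.1 f.Q = 0 then OnePoint.infty else ((push f ζ h : BerkA K) : BerkP K)
  | OnePoint.infty => if f.Q.coeff f.degree = 0 then OnePoint.infty else
      ((pt (f.P.coeff f.degree / f.Q.coeff f.degree) : BerkA K) : BerkP K)

/-- the Berkovich Fatou set: the points which have a neighbourhood `U` such that the complement of
`⋃ₙ fⁿ(U)` is infinite -/
def fatou (f : RatMap K) : Set (BerkP K) :=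
  {ζ | ∃ U : Set (BerkP K), IsOpen U ∧ ζ ∈ U ∧ (⋃ n : ℕ, f.map^[n] '' U)ᶜ.Infinite}

/-- `U` is a connected component of the Fatou set -/
def IsFatouComponent (f : RatMap K) (U : Set (BerkP K)) : Prop :=
  ∃ ζ ∈ fatou f, U = connectedComponentIn (fatou f) ζ

open Classical in
/-- the number of solutions of `f(z) = c` in `U`, counted with multiplicity (`c ∈ P¹(K)`) -/
def count (f : RatMap K) (U : Set (BerkP K)) : OnePoint K → ℕ
  | OnePoint.some c => ((f.P - C c * f.Q).roots.filter fun z => ((pt z : BerkA K) : BerkP K) ∈ U).card +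
      if OnePoint.infty ∈ U then f.degree - (f.P - C c * f.Q).natDegree else 0
  | OnePoint.infty => (f.Q.roots.filter fun z => ((pt z : BerkA K) : BerkP K) ∈ U).card +
      if OnePoint.infty ∈ U then f.degree - f.Q.natDegree else 0

/-- `f` is one-to-one on `U`, counted with multiplicity -/
def OneToOneOn (f : RatMap K) (U : Set (BerkP K)) : Prop :=
  Set.InjOn f.map U ∧ ∀ c : OnePoint K, toP c ∈ f.map '' U → count f U c = 1

/-- `U` is an indifferent (periodic) component of the Fatou set: `fⁿ(U) = U` for some `n ≥ 1` and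
`fⁿ` is one-to-one on `U`, counted with multiplicity -/
def IsIndifferent (f : RatMap K) (U : Set (BerkP K)) : Prop :=
  IsFatouComponent f U ∧ ∃ n : ℕ, 1 ≤ n ∧ f.map^[n] '' U = U ∧
    ∀ i < n, OneToOneOn f (f.map^[i] '' U)

/-- rational closed Berkovich disks in the projective line -/
def IsRatClosedDisk (V : Set (BerkP K)) : Prop :=
  ∃ a s : K, s ≠ 0 ∧ (V = {ζ | ∃ ξ : BerkA K, ζ = (ξ : BerkP K) ∧ del ξ a ≤ ‖s‖} ∨
    V = {ζ | ∀ ξ : BerkA K, ζ = (ξ : BerkP K) → ‖s‖ ≤ del ξ a})

/-- `U` is a disk: the complement of one rational closed Berkovich disk -/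
def IsDisk (U : Set (BerkP K)) : Prop := ∃ V : Set (BerkP K), IsRatClosedDisk V ∧ U = Vᶜ

/-- the cycle of a (periodic) component -/
def cycleOf (f : RatMap K) (U : Set (BerkP K)) : Set (Set (BerkP K)) :=
  Set.range fun n : ℕ => f.map^[n] '' U

/-- the set of the cycles of indifferent Fatou components of `f` which are not disks -/
def nonDiskCycles (f : RatMap K) : Set (Set (Set (BerkP K))) :=
  {C | ∃ U, IsIndifferent f U ∧ ¬ IsDisk U ∧ C = cycleOf f U}

end Pool.Agent.FIC
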