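import Pool.Agent.FIC.Pass
import Pool.Agent.FIC.CountCl

/-!
# The directions at the outer boundary point

`Good u`: for every `x` with `‖x - b‖ ≤ rad E₀` and `‖cu b x - u‖ < 1` there are `j` and a chain
`xs : ℕ → K`, `xs 0 = x`, `‖xs i - b‖ ≤ rad E₀` for `i ≤ j`, `DirStep (xs i) (xs (i+1))` for `i < j`,
`‖orb b (xs j) n - w‖ < rad (ie + x)`.
* `h1` of `count_classes`: `j = 0`; `A_dist`: `‖A^[M+1] (cu b x)‖ < 1`; `pass1`, `norm_Lam`.
* `h2`: `step2` (`A_dist` transfers the hypotheses from `u` to `cu b x`); the point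
  `x' = orb b (orb b x (n+1)) (n+1)` satisfies `‖cu b x' - u'‖ < 1`; prepend `x` to the chain of `x'`.
* `dirs`: `count_classes` for the finite set of the `cu b β`, `β ∈ T`; `x = b + ι₀ u / l₀`, `cu b x = u`;
  `‖x - β‖ = rad E₀ ‖u - cu b β‖` (`norm_cu` for differences).
-/

open Polynomial

noncomputable section

namespace Pool.Agent.FIC

variable {K : Type*} [NontriviallyNormedField K] [IsUltrametricDist K] [IsAlgClosed K]

namespace DirsX

omit [IsAlgClosed K] in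
lemma add_eq {x y : K} (h : ‖y‖ < ‖x‖) : ‖x + y‖ = ‖x‖ := by
  rw [IsUltrametricDist.norm_add_eq_max_of_norm_ne_norm h.ne', max_eq_left h.le]

omit [IsAlgClosed K] in
lemma add_lt {x y : K} {D : ℝ} (hx : ‖x‖ < D) (hy : ‖y‖ < D) : ‖x + y‖ < D :=
  (IsUltrametricDist.norm_add_le_max x y).trans_lt (max_lt hx hy)

end DirsX

namespace Sys.State

variable {S : Sys K} (st : S.State)

/-- the good residue classes -/
def GoodDir (b u : K) : Prop := ∀ x : K, ‖x - b‖ ≤ S.rad st.E₀ → ‖st.cu b x - u‖ < 1 →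
  ∃ (j : ℕ) (xs : ℕ → K), xs 0 = x ∧ (∀ i ≤ j, ‖xs i - b‖ ≤ S.rad st.E₀) ∧
    (∀ i < j, DirStep (S.F.shift b) S.w st.n (S.rad (S.ie + st.x)) (S.rad st.mu) (xs i)
      (xs (i + 1))) ∧
    ‖S.orb b (xs j) st.n - S.w‖ < S.rad (S.ie + st.x)

omit [IsAlgClosed K] in
lemma norm_cu_le {b x : K} (hb : ‖b - st.b₀‖ < S.rad st.s) (hx : ‖x - b‖ ≤ S.rad st.E₀) :
    ‖st.cu b x‖ ≤ 1 := by
  rw [st.norm_cu hb, S.rad_neg]
  have h := S.rad_pos st.E₀
  calc (S.rad st.E₀)⁻¹ * ‖x - b‖ ≤ (S.rad st.E₀)⁻¹ * S.rad st.E₀ :=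
        mul_le_mul_of_nonneg_left hx (inv_nonneg.2 h.le)
    _ = 1 := inv_mul_cancel₀ h.ne'

omit [IsAlgClosed K] in
lemma good_h1 {b : K} (hb : ‖b - st.b₀‖ < S.rad st.s)
    (hw : ‖S.orb b b st.n - S.w‖ = S.rad (S.gam - st.E₀)) {u : K} (hu : ‖u‖ ≤ 1)
    (h : ‖S.A^[st.M + 1] u‖ < 1) : st.GoodDir b u := by
  intro x hx hxu
  refine ⟨0, fun _ => x, rfl, fun _ _ => hx, fun i hi => absurd hi (Nat.not_lt_zero i), ?_⟩
  have h1 := S.A_dist (st.norm_cu_le hb hx) hu hxu (st.M + 1)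
  have h2 : ‖S.A^[st.M + 1] (st.cu b x)‖ < 1 := by
    have e : S.A^[st.M + 1] (st.cu b x) =
        (S.A^[st.M + 1] (st.cu b x) - S.A^[st.M + 1] u) + S.A^[st.M + 1] u := by ring
    rw [e]
    exact DirsX.add_lt (by rw [h1]; exact hxu) h
  have h3 := st.pass1 hb hw hx
  have h4 : ‖st.Lam b * S.A^[st.M + 1] (st.cu b x)‖ < S.rad (S.ie + st.x) := by
    rw [norm_mul, st.norm_Lam hb]
    calc S.rad (S.ie + st.x) * ‖S.A^[st.M + 1] (st.cu b x)‖ < S.rad (S.ie + st.x) * 1 :=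
          mul_lt_mul_of_pos_left h2 (S.rad_pos _)
      _ = _ := mul_one _
  have e : S.orb b x st.n - S.w = (S.orb b x st.n - S.w -
      st.Lam b * S.A^[st.M + 1] (st.cu b x)) + st.Lam b * S.A^[st.M + 1] (st.cu b x) := by ring
  change ‖S.orb b x st.n - S.w‖ < _
  rw [e]
  exact DirsX.add_lt h3 h4

omit [IsAlgClosed K] in
lemma good_h2 {b : K} (hb : ‖b - st.b₀‖ < S.rad st.s)
    (hw : ‖S.orb b b st.n - S.w‖ = S.rad (S.gam - st.E₀)) {u u' : K} (hu : ‖u‖ ≤ 1)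
    (h1 : ‖S.A^[st.M + 1] u‖ = 1) (h2 : ‖1 + st.vv b * S.A^[st.M + 1] u‖ = 1)
    (hu' : u' = S.A^[st.M + 1] u / (1 + st.vv b * S.A^[st.M + 1] u))
    (hG : st.GoodDir b u') : st.GoodDir b u := by
  intro x hx hxu
  have hd := S.A_dist (st.norm_cu_le hb hx) hu hxu (st.M + 1)
  have hs := @step2 K _ S st _ b hb hw x hx
  set a := S.A^[st.M + 1] (st.cu b x) with ha
  set a₀ := S.A^[st.M + 1] u with ha₀
  have hv := st.norm_vv hb hw
  have hd' : ‖a - a₀‖ < 1 := by rw [hd]; exact hxu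
  have k1 : ‖a‖ = 1 := by
    have e : a = a₀ + (a - a₀) := by ring
    rw [e, DirsX.add_eq (by rw [h1]; exact hd'), h1]
  have k2 : ‖1 + st.vv b * a‖ = 1 := by
    have e : 1 + st.vv b * a = (1 + st.vv b * a₀) + st.vv b * (a - a₀) := by ring
    rw [e, DirsX.add_eq (by rw [h2, norm_mul, hv, one_mul]; exact hd'), h2]
  obtain ⟨s1, s2, s3⟩ := hs k1 k2
  set x' := S.orb b (S.orb b x (st.n + 1)) (st.n + 1) with hx'
  have n1 : 1 + st.vv b * a ≠ 0 := by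
    intro h; rw [h, norm_zero] at k2; exact zero_ne_one k2
  have n2 : 1 + st.vv b * a₀ ≠ 0 := by
    intro h; rw [h, norm_zero] at h2; exact zero_ne_one h2
  have hdiff : ‖a / (1 + st.vv b * a) - u'‖ < 1 := by
    have e : a / (1 + st.vv b * a) - u' = (a - a₀) / ((1 + st.vv b * a) * (1 + st.vv b * a₀)) := by
      rw [hu', div_sub_div _ _ n1 n2]
      congr 1
      ring
    rw [e, norm_div, norm_mul, k2, h2, mul_one, div_one]
    exact hd'
  have hxu' : ‖st.cu b x' - u'‖ < 1 := by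
    have e : st.cu b x' - u' = (st.cu b x' - a / (1 + st.vv b * a)) +
        (a / (1 + st.vv b * a) - u') := by ring
    rw [e]
    exact DirsX.add_lt s3 hdiff
  obtain ⟨j, xs, g0, g1, g2, g3⟩ := hG x' s2 hxu'
  refine ⟨j + 1, fun i => Nat.casesOn i x xs, rfl, ?_, ?_, g3⟩
  · intro i hi
    cases i with
    | zero => exact hx
    | succ i => exact g1 i (Nat.le_of_succ_le_succ hi)
  · intro i hi
    cases i with
    | zero =>
      change DirStep _ _ _ _ _ x (xs 0)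
      rw [g0]
      exact s1
    | succ i => exact g2 i (Nat.lt_of_succ_lt_succ hi)

omit [IsAlgClosed K] in
lemma cu_sub {b : K} (hb : ‖b - st.b₀‖ < S.rad st.s) (x y : K) :
    ‖st.cu b x - st.cu b y‖ = S.rad (-st.E₀) * ‖x - y‖ := by
  have e : st.cu b x - st.cu b y = st.cu b (b + (x - y)) := by
    unfold cu
    ring
  rw [e, st.norm_cu hb]
  congr 2
  ring

theorem dirs {b : K} (hb : ‖b - st.b₀‖ < S.rad st.s)
    (hw : ‖S.orb b b st.n - S.w‖ = S.rad (S.gam - st.E₀)) (T : Finset K) :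
    ∃ (j : ℕ) (x : ℕ → K), (∀ i ≤ j, ‖x i - b‖ ≤ S.rad st.E₀) ∧
    (∀ β ∈ T, S.rad st.E₀ ≤ ‖x 0 - β‖) ∧
    (∀ i < j, DirStep (S.F.shift b) S.w st.n (S.rad (S.ie + st.x)) (S.rad st.mu) (x i)
      (x (i + 1))) ∧
    ‖S.orb b (x j) st.n - S.w‖ < S.rad (S.ie + st.x) := by
  classical
  obtain ⟨u, hu, hG, hT⟩ := S.count_classes st.hM (st.norm_vv hb hw) (st.GoodDir b)
    (fun u hu h => st.good_h1 hb hw hu h)
    (fun u u' hu _ h1 h2 hu' hG => st.good_h2 hb hw hu h1 h2 hu' hG) (T.image (st.cu b))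
  have hl : st.l₀ b ≠ 0 := by
    rw [← norm_pos_iff, st.norm_l₀ hb]
    exact S.rad_pos _
  have hι := S.ι_ne
  have hcu : st.cu b (b + S.ι₀ * u / st.l₀ b) = u := by
    unfold cu
    field_simp
    ring
  set x := b + S.ι₀ * u / st.l₀ b with hx
  have hxb : ‖x - b‖ ≤ S.rad st.E₀ := by
    have h1 := st.norm_cu (x := x) hb
    rw [hcu, S.rad_neg] at h1
    rw [h1] at hu
    rw [inv_mul_le_iff₀ (S.rad_pos _), mul_one] at hu
    exact hu
  obtain ⟨j, xs, g0, g1, g2, g3⟩ := hG x hxb (by rw [hcu, sub_self, norm_zero]; exact one_pos)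
  refine ⟨j, xs, g1, ?_, g2, g3⟩
  intro β hβ
  rw [g0]
  have h1 := hT (st.cu b β) (Finset.mem_image_of_mem _ hβ)
  rw [← hcu, st.cu_sub hb, S.rad_neg, le_inv_mul_iff₀ (S.rad_pos _), mul_one] at h1
  exact h1

end Sys.State

end Pool.Agent.FIC
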