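import Pool.Agent.FIC.Dirs

/-!
# From a state to `FlipData`

`R i = rad (E₀ + gains (L.take i))`, `R 0 = rad E₀`, `R n = rad (ie + x)` (`gains_L`), `ρ = rad (gam - ie -
x)`, `ρ / R 0 = rad mu`, `R n * ρ = rad gam = ‖c‖`.
* `nopole`: `tube` (`‖x - b₀‖ ≤ rad E₀`), `Run.nopole`, `it_eq`.
* `scale`: `Run.scal_same` for `Run b x E₀ (L.take i)` (`tube`, `Run.take`).
* `close`: `near_w`.  `center`: `hw`, `gam - E₀ = ie + x + mu`.
* `pole`, `simple`: fields of `S`.  `nopole'`: `S.zW`, `rad (ie + x) ≤ ‖ι₀‖`.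
* `dist`: `zW`: `‖F z - c / (z - w)‖ ≤ a ^ 10 < rad (gam - ie) ≤ ‖c / (z - w)‖`, `g_eq`.
* `flip`: `zW'`: `‖c / (z - w) - c / (z' - w)‖ = ‖c‖ ‖z - z'‖ / (‖z - w‖ ‖z' - w‖) ≥
  rad (gam - 2 ie) ‖z - z'‖`, the error is `≤ a ^ 10 ‖z - z'‖`.
* `dirs`: `Sys.State.dirs`.
-/

open Polynomial

noncomputable section

namespace Pool.Agent.FIC

variable {K : Type*} [NontriviallyNormedField K] [IsUltrametricDist K] [IsAlgClosed K]

namespace Sys.State

variable {S : Sys K} (st : S.State)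

omit [IsAlgClosed K] in
theorem exp_R0 : S.rad (st.E₀ + S.gains (st.L.take 0)) = S.rad st.E₀ := by
  rw [List.take_zero, S.gains_nil, add_zero]

omit [IsAlgClosed K] in
theorem exp_Rn : S.rad (st.E₀ + S.gains (st.L.take st.n)) = S.rad (S.ie + st.x) := by
  rw [← st.length_L, List.take_length, st.gains_L]
  congr 1
  ring

omit [IsUltrametricDist K] [IsAlgClosed K] in
theorem exp_prod : S.rad (S.ie + st.x) * S.rad (S.gam - S.ie - st.x) = ‖S.c‖ := by
  rw [← S.rad_add, S.norm_c]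
  congr 1
  ring

omit [IsUltrametricDist K] [IsAlgClosed K] in
theorem exp_quot : S.rad (S.gam - S.ie - st.x) / S.rad st.E₀ = S.rad st.mu := by
  rw [← S.rad_sub]
  rfl

omit [IsAlgClosed K] in
theorem exp_near {b x : K} (hb : ‖b - st.b₀‖ < S.rad st.s) (hx : ‖x - b‖ ≤ S.rad st.E₀) :
    ‖x - st.b₀‖ ≤ S.rad st.E₀ := by
  have e : x - st.b₀ = (x - b) + (b - st.b₀) := by ring
  rw [e]
  exact steps_add_le hx (st.self_le hb)

omit [IsUltrametricDist K] [IsAlgClosed K] in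
theorem exp_le_ι {z : K} (hz : ‖z - S.w‖ ≤ S.rad (S.ie + st.x)) : ‖z - S.w‖ ≤ ‖S.ι₀‖ := by
  refine hz.trans ?_
  rw [S.norm_ι, S.rad_le]
  have := st.pass_x_pos
  linarith

theorem flipData {b : K} (hb : ‖b - st.b₀‖ < S.rad st.s)
    (hw : ‖S.orb b b st.n - S.w‖ = S.rad (S.gam - st.E₀)) :
    FlipData (S.F.shift b) b S.w st.n (fun i => S.rad (st.E₀ + S.gains (st.L.take i)))
      (S.rad (S.gam - S.ie - st.x)) where
  Rpos i _ := S.rad_pos _
  ρpos := S.rad_pos _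
  lt := by
    show _ < S.rad (st.E₀ + S.gains (st.L.take 0))
    rw [exp_R0, S.rad_lt]
    have := st.mu_pos
    unfold mu at this
    linarith
  rval := S.exists_rad _
  ρval := S.exists_rad _
  nopole x hx i hi := by
    have hx' : ‖x - b‖ ≤ S.rad st.E₀ := by rw [← exp_R0]; exact hx
    exact (st.tube hb (st.exp_near hb hx')).1.nopole (hi.trans_eq st.length_L.symm)
  scale x x' hx hx' i hi := by
    have h1 : ‖x - b‖ ≤ S.rad st.E₀ := by rw [← exp_R0]; exact hx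
    have h2 : ‖x' - x‖ < S.rad st.E₀ := by rw [← exp_R0]; exact hx'
    have h3 := ((st.tube hb (st.exp_near hb h1)).1.take i).scal_same h2
    have h4 : (st.L.take i).length = i := by
      rw [List.length_take, st.length_L]
      exact min_eq_left hi
    rw [h4] at h3
    show ‖S.orb b x' i - S.orb b x i‖ = S.rad (st.E₀ + S.gains (st.L.take i)) /
      S.rad (st.E₀ + S.gains (st.L.take 0)) * ‖x' - x‖
    rw [h3, exp_R0, ← S.rad_sub]
    congr 2
    ring
  close x hx := by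
    have h1 : ‖x - b‖ ≤ S.rad st.E₀ := by rw [← exp_R0]; exact hx
    show ‖S.orb b x st.n - S.w‖ ≤ S.rad (st.E₀ + S.gains (st.L.take st.n))
    rw [exp_Rn]
    exact st.near_w hb (st.exp_near hb h1)
  center := by
    show ‖S.orb b b st.n - S.w‖ = S.rad (st.E₀ + S.gains (st.L.take st.n)) *
      (S.rad (S.gam - S.ie - st.x) / S.rad (st.E₀ + S.gains (st.L.take 0)))
    rw [hw, exp_Rn, exp_R0, exp_quot, ← S.rad_add, st.pass_gam]
  pole := S.pole
  simple := S.simple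
  nopole' z hz hz' := by
    have h1 : ‖z - S.w‖ ≤ S.rad (S.ie + st.x) := by rw [← exp_Rn]; exact hz'
    exact (S.zW z hz (st.exp_le_ι h1)).1
  dist z hz hz' := by
    have h1 : ‖z - S.w‖ ≤ S.rad (S.ie + st.x) := by rw [← exp_Rn]; exact hz'
    obtain ⟨h2, h3⟩ := S.zW z hz (st.exp_le_ι h1)
    have hpos : 0 < ‖z - S.w‖ := norm_pos_iff.2 (sub_ne_zero.2 hz)
    show ‖S.g b z - b‖ = S.rad (st.E₀ + S.gains (st.L.take st.n)) * S.rad (S.gam - S.ie - st.x) /
      ‖z - S.w‖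
    rw [exp_Rn, exp_prod, ← norm_div, S.g_eq b h2, add_sub_cancel_right]
    refine norm_eq_of_sub_lt (h3.trans_lt ?_)
    rw [S.steps_rad_ofNat 10, norm_div, S.norm_c, lt_div_iff₀ hpos]
    calc S.rad 10 * ‖z - S.w‖ ≤ S.rad 10 * S.rad S.ie :=
          mul_le_mul_of_nonneg_left ((st.exp_le_ι h1).trans_eq S.norm_ι) (S.rad_pos _).le
      _ = S.rad (10 + S.ie) := (S.rad_add _ _).symm
      _ < S.rad S.gam := S.rad_lt.2 (by have := S.steps_gam_sub (le_refl S.ie); linarith)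
  flip z z' hz hz' h h' := by
    have h1 : ‖z - S.w‖ ≤ S.rad (S.ie + st.x) := by rw [← exp_Rn]; exact h
    have h1' : ‖z' - S.w‖ ≤ S.rad (S.ie + st.x) := by rw [← exp_Rn]; exact h'
    have h2 := (S.zW z hz (st.exp_le_ι h1)).1
    have h2' := (S.zW z' hz' (st.exp_le_ι h1')).1
    have h3 := S.zW' z z' hz (st.exp_le_ι h1) hz' (st.exp_le_ι h1')
    have hpos : 0 < ‖z - S.w‖ := norm_pos_iff.2 (sub_ne_zero.2 hz)
    have hpos' : 0 < ‖z' - S.w‖ := norm_pos_iff.2 (sub_ne_zero.2 hz')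
    show ‖S.g b z - S.g b z'‖ = S.rad (st.E₀ + S.gains (st.L.take st.n)) *
      S.rad (S.gam - S.ie - st.x) * ‖z - z'‖ / (‖z - S.w‖ * ‖z' - S.w‖)
    rw [exp_Rn, exp_prod, S.g_eq b h2, S.g_eq b h2', add_sub_add_right_eq_sub]
    have hz0 : z - S.w ≠ 0 := sub_ne_zero.2 hz
    have hz0' : z' - S.w ≠ 0 := sub_ne_zero.2 hz'
    have hmain : ‖S.c / (z - S.w) - S.c / (z' - S.w)‖ =
        ‖S.c‖ * ‖z - z'‖ / (‖z - S.w‖ * ‖z' - S.w‖) := by
      have e : S.c / (z - S.w) - S.c / (z' - S.w) =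
          -(S.c * (z - z')) / ((z - S.w) * (z' - S.w)) := by
        field_simp
        ring
      rw [e, norm_div, norm_neg, norm_mul, norm_mul]
    by_cases hzz : z = z'
    · subst hzz
      simp
    · have hd : 0 < ‖z - z'‖ := norm_pos_iff.2 (sub_ne_zero.2 hzz)
      rw [← hmain]
      refine norm_eq_of_sub_lt (h3.trans_lt ?_)
      rw [hmain, S.steps_rad_ofNat 10, lt_div_iff₀ (mul_pos hpos hpos'), S.norm_c]
      have hι := (st.exp_le_ι h1).trans_eq S.norm_ι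
      have hι' := (st.exp_le_ι h1').trans_eq S.norm_ι
      have hlt : S.rad 10 * (‖z - S.w‖ * ‖z' - S.w‖) < S.rad S.gam := by
        calc S.rad 10 * (‖z - S.w‖ * ‖z' - S.w‖) ≤ S.rad 10 * (S.rad S.ie * S.rad S.ie) :=
              mul_le_mul_of_nonneg_left (mul_le_mul hι hι' (norm_nonneg _) (S.rad_pos _).le)
                (S.rad_pos _).le
          _ = S.rad (10 + (S.ie + S.ie)) := by rw [S.rad_add, S.rad_add]
          _ < S.rad S.gam := S.rad_lt.2 (by unfold gam; linarith)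
      calc S.rad 10 * ‖z - z'‖ * (‖z - S.w‖ * ‖z' - S.w‖) =
            S.rad 10 * (‖z - S.w‖ * ‖z' - S.w‖) * ‖z - z'‖ := by ring
        _ < S.rad S.gam * ‖z - z'‖ := mul_lt_mul_of_pos_right hlt hd
  dirs T := by
    obtain ⟨j, x, h1, h2, h3, h4⟩ := st.dirs hb hw T
    refine ⟨j, x, ?_, ?_, ?_, ?_⟩
    · intro i hi
      show ‖x i - b‖ ≤ S.rad (st.E₀ + S.gains (st.L.take 0))
      rw [exp_R0]
      exact h1 i hi
    · intro β hβ
      show S.rad (st.E₀ + S.gains (st.L.take 0)) ≤ _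
      rw [exp_R0]
      exact h2 β hβ
    · intro i hi
      show DirStep (S.F.shift b) S.w st.n (S.rad (st.E₀ + S.gains (st.L.take st.n)))
        (S.rad (S.gam - S.ie - st.x) / S.rad (st.E₀ + S.gains (st.L.take 0))) (x i) (x (i + 1))
      rw [exp_Rn, exp_R0, exp_quot]
      exact h3 i hi
    · show ‖S.orb b (x j) st.n - S.w‖ < S.rad (st.E₀ + S.gains (st.L.take st.n))
      rw [exp_Rn]
      exact h4

end Sys.State

end Pool.Agent.FIC
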