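import Pool.Agent.FIC.Tail
import Pool.Agent.FIC.Choose

/-!
# The initial state

`Lp = X^5`, `s = E₀ = ie + 5`; `exists_ik` with `A = 1/4`: `x = (k+1)/N^(i+1)` in `(1/8, 1/4)`,
`mu = 1/4 - x` (`gam - ie - (ie + 5) = 1/4`), so `x - mu = 2x - 1/4 > 0`; `M ≥ 1` with
`2 tau M < x - mu`, `2 tau M < ie` (`tau_small`).  `exists_path` with `b = 0`: `z`.
`x5_scal`: for `‖b‖, ‖b'‖ ≤ rad 5`, `i ≤ 5`: `‖orb b b i‖ ≤ rad (5 - i)` and
`‖orb b b i - orb b' b' i‖ = rad (-i) ‖b - b'‖` (induction on `i`, `X_eq`, `‖F 0‖ ≤ a^5`); so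
(`RatOn.surj_closed`, `z₀ = 0`, `z₁ = α ^ 5`, `lam = rad (-5)`; `‖z - orb 0 0 5‖ ≤ 1` since `‖z‖ = 1`,
`‖orb 0 0 5‖ ≤ 1`) there is `b₀`, `‖b₀‖ ≤ rad 5`, `orb b₀ b₀ 5 = z`.
`tail_ok` with `b = 0`, `b' = b₀`, `z' = z`: `‖b₀‖ ≤ rad 5 < rad (ie + 2)` as `ie ≤ 2`.
`runp`: zones from `‖orb b₀ b₀ i‖ ≤ rad (5 - i)`, exponents `ie + 5 - 2 tau M - i ≥ 1`, `i ≤ 4`.
`low`: `GLow 0`: partial gains `-1, …, -5`, then `≤ -5 + 3/2` (`KLQ_glow`).
`scal`: `b ≠ b'`, `‖b - b₀‖, ‖b' - b₀‖ < rad (ie + 5)`: `Run b' b' (ie + 5) L` (`Run.tube` from `b₀`),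
`GLow (-1) L`, `Run.scal` with `D = ‖b - b'‖`, `g₀ = -1`; `gains L = ie + x - (ie + 5)`.
-/

open Polynomial

noncomputable section

namespace Pool.Agent.FIC

variable {K : Type*} [NontriviallyNormedField K] [IsUltrametricDist K]

namespace Sys

variable (S : Sys K)

theorem x5_le {b : K} (hb : ‖b‖ ≤ S.rad 5) {i : ℕ} (hi : i ≤ 5) :
    ‖S.orb b b i‖ ≤ S.rad (5 - i) := by
  induction i with
  | zero =>
    rw [Nat.cast_zero, sub_zero]
    exact hb
  | succ i ih =>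
    have h1 := ih (by omega)
    have hi' : (i : ℚ) ≤ 4 := by
      have : i ≤ 4 := by omega
      exact_mod_cast this
    have hi0 : (0 : ℚ) ≤ i := Nat.cast_nonneg i
    have hz : S.zone .X (S.orb b b i) := h1.trans (S.rad_le.2 (by linarith))
    have h0 : S.zone .X 0 := by
      change ‖(0 : K)‖ ≤ S.rad 1
      rw [norm_zero]
      exact (S.rad_pos 1).le
    rw [orb_succ, S.g_eq b (S.zone_nopole hz)]
    have e : S.F.ev (S.orb b b i) + b =
        (S.F.ev (S.orb b b i) - S.F.ev 0) + (S.F.ev 0 + b) := by ring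
    rw [e]
    refine (IsUltrametricDist.norm_add_le_max _ _).trans (max_le ?_ ?_)
    · rw [S.X_eq h0 hz, sub_zero, S.norm_α]
      have : (5 : ℚ) - ((i + 1 : ℕ) : ℚ) = (5 - i) - 1 := by push_cast; ring
      rw [this, S.rad_sub]
      exact div_le_div_of_nonneg_right h1 (S.rad_pos 1).le
    · have h5 : S.rad 5 ≤ S.rad (5 - ((i + 1 : ℕ) : ℚ)) := S.rad_le.2 (by push_cast; linarith)
      refine (IsUltrametricDist.norm_add_le_max _ _).trans (max_le ?_ (hb.trans h5))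
      refine le_trans ?_ h5
      rw [← S.back_pow5]
      exact S.zX0

/-- the points are in the zone `X` -/
theorem x5_zone {b : K} (hb : ‖b‖ ≤ S.rad 5) {i : ℕ} (hi : i < 5) : S.zone .X (S.orb b b i) := by
  refine (S.x5_le hb hi.le).trans (S.rad_le.2 ?_)
  have : (i : ℚ) + 1 ≤ 5 := by exact_mod_cast hi
  linarith

theorem x5_scal {b b' : K} (hb : ‖b‖ ≤ S.rad 5) (hb' : ‖b'‖ ≤ S.rad 5) {i : ℕ} (hi : i ≤ 5) :
    ‖S.orb b b i - S.orb b' b' i‖ = S.rad (-i) * ‖b - b'‖ := by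
  rcases eq_or_ne b b' with rfl | hne
  · rw [sub_self, sub_self, norm_zero, mul_zero]
  have hpos : 0 < ‖b - b'‖ := norm_pos_iff.2 (sub_ne_zero.2 hne)
  induction i with
  | zero =>
    rw [Nat.cast_zero, neg_zero, S.rad_zero, one_mul]
    rfl
  | succ i ih =>
    have h1 := ih (by omega)
    have hz := S.x5_zone hb (i := i) (by omega)
    have hz' := S.x5_zone hb' (i := i) (by omega)
    have hi0 : (0 : ℚ) ≤ i := Nat.cast_nonneg i
    rw [orb_succ, orb_succ, S.g_eq b (S.zone_nopole hz), S.g_eq b' (S.zone_nopole hz')]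
    have e : S.F.ev (S.orb b b i) + b - (S.F.ev (S.orb b' b' i) + b') =
        (S.F.ev (S.orb b b i) - S.F.ev (S.orb b' b' i)) + (b - b') := by ring
    have h2 : ‖S.F.ev (S.orb b b i) - S.F.ev (S.orb b' b' i)‖ =
        S.rad (-((i + 1 : ℕ) : ℚ)) * ‖b - b'‖ := by
      rw [S.X_eq hz' hz, h1, S.norm_α]
      have : -((i + 1 : ℕ) : ℚ) = -(i : ℚ) - 1 := by push_cast; ring
      rw [this, S.rad_sub]
      ring
    have h3 : ‖b - b'‖ < ‖S.F.ev (S.orb b b i) - S.F.ev (S.orb b' b' i)‖ := by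
      rw [h2]
      have : 1 < S.rad (-((i + 1 : ℕ) : ℚ)) := by
        rw [← S.rad_zero, S.rad_lt]
        push_cast
        linarith
      exact lt_mul_of_one_lt_left hpos this
    rw [e, ← h2]
    refine norm_eq_of_sub_lt ?_
    rw [add_sub_cancel_left]
    exact h3

theorem exists_b5 [IsAlgClosed K] {z : K} (hz : ‖z‖ ≤ 1) :
    ∃ b, ‖b‖ ≤ S.rad 5 ∧ S.orb b b 5 = z := by
  have hα : ‖S.α ^ 5 - 0‖ = S.rad 5 := by
    rw [sub_zero, norm_pow, S.back_pow5]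
  have h00 : ‖(0 : K)‖ ≤ S.rad 5 := by
    rw [norm_zero]
    exact (S.rad_pos 5).le
  have hα' : ‖S.α ^ 5‖ ≤ S.rad 5 := by
    rw [← sub_zero (S.α ^ 5), hα]
  have hR : RatOn {b | ‖b - 0‖ ≤ ‖S.α ^ 5 - 0‖} fun b => S.orb b b 5 := by
    refine S.ratOn_orb (RatOn.id _) (RatOn.id _) 5 ?_
    intro b hb i hi
    have hb' : ‖b‖ ≤ S.rad 5 := by
      have h : ‖b - 0‖ ≤ ‖S.α ^ 5 - 0‖ := hb
      rwa [sub_zero, hα] at h
    exact S.zone_nopole (S.x5_zone hb' hi)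
  have hs : ‖S.orb (S.α ^ 5) (S.α ^ 5) 5 - S.orb 0 0 5‖ = S.rad (-(5 : ℕ)) * ‖S.α ^ 5 - 0‖ :=
    S.x5_scal hα' h00 le_rfl
  have h0 : ‖S.orb 0 0 5‖ ≤ 1 := by
    have := S.x5_le h00 (i := 5) le_rfl
    rwa [show (5 : ℚ) - ((5 : ℕ) : ℚ) = 0 by norm_num, S.rad_zero] at this
  have hτ : ‖z - S.orb 0 0 5‖ ≤ S.rad (-(5 : ℕ)) * ‖S.α ^ 5 - 0‖ := by
    rw [hα, ← S.rad_add, show -((5 : ℕ) : ℚ) + 5 = 0 by norm_num, S.rad_zero]
    exact (back_sub_le_max _ _).trans (max_le hz h0)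
  obtain ⟨b, h1, h2⟩ := hR.surj_closed (z₀ := 0) (z₁ := S.α ^ 5) hs hτ
  rw [sub_zero, hα] at h1
  exact ⟨b, h1, h2⟩

theorem initial_glow {L : List Step} (h : S.GLow (3 / 2) L) :
    S.GLow (-1) ([Step.X, .X, .X, .X, .X] ++ L) := by
  have hX : S.gain .X = -1 := rfl
  refine ⟨?_, ?_, ?_, ?_, ?_, h.mono ?_⟩ <;> norm_num [hX]

theorem initial_gains : S.gains [Step.X, .X, .X, .X, .X] = -5 := by
  have hX : S.gain .X = -1 := rfl
  simp only [gains_cons, gains_nil, hX]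
  norm_num

theorem initial_runp {b : K} {E : ℚ} (hb : ‖b‖ ≤ S.rad 5) (hE : 5 ≤ E) :
    S.Run b b E [Step.X, .X, .X, .X, .X] := by
  have hX : S.gain .X = -1 := rfl
  refine ⟨S.x5_zone hb (i := 0) (by norm_num), ?_, S.x5_zone hb (i := 1) (by norm_num), ?_,
    S.x5_zone hb (i := 2) (by norm_num), ?_, S.x5_zone hb (i := 3) (by norm_num), ?_,
    S.x5_zone hb (i := 4) (by norm_num), ?_, trivial⟩
  all_goals
    change (1 : ℚ) ≤ _
    try rw [hX]
    linarith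

theorem exists_state [IsAlgClosed K] : Nonempty S.State := by
  have hie := S.ie_pos
  have hie2 := S.ie_le
  obtain ⟨i, k, hi, hx1, hx2⟩ := S.exists_ik (A := 1 / 4) (by norm_num)
  set x : ℚ := ((k : ℚ) + 1) / (S.N : ℚ) ^ (i + 1) with hx
  obtain ⟨M1, hM1⟩ := S.tau_small (δ := (2 * x - 1 / 4) / 2) (by linarith)
  obtain ⟨M2, hM2⟩ := S.tau_small (δ := S.ie / 2) (by linarith)
  obtain ⟨M, hMdef⟩ : ∃ M, M = M1 + M2 + 1 := ⟨_, rfl⟩
  have e1 := hM1 M (by omega)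
  have e2 := hM2 M (by omega)
  have hM : 1 ≤ M := by omega
  have h00 : ‖(0 : K)‖ ≤ S.rad 5 := by
    rw [norm_zero]
    exact (S.rad_pos 5).le
  obtain ⟨z, hc, hrun, horb⟩ := S.exists_path h00 hi k M
  have hzd : ‖z - S.d‖ = S.rad (1 / S.p) := by
    cases M with
    | zero => exact hc
    | succ M => exact hc.1
  have hz1 : ‖z‖ = 1 := path_norm (by rw [hzd]; exact S.rad_lt_one.2 S.inv_p_pos) S.hd
  obtain ⟨b₀, hb₀, hb5⟩ := S.exists_b5 hz1.le
  have hN0 : (0 : ℚ) < S.N := S.back_N_pos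
  have hε : (0 : ℚ) < 1 / (S.N : ℚ) ^ (i + 1) := by positivity
  obtain ⟨t1, t2, t3⟩ := S.tail_ok (b := 0) (b' := b₀) (z := z) (z' := z) hi
    (by linarith) hc hrun horb
    (by rw [sub_zero]; exact hb₀.trans_lt (S.rad_lt.2 (by linarith)))
    (by rw [sub_self, norm_zero]; exact S.rad_pos _)
  have o1 : S.orb b₀ b₀ ([Step.X, .X, .X, .X, .X] : List Step).length = z := hb5
  have o2 : ∀ n, S.orb b₀ b₀ (([Step.X, .X, .X, .X, .X] : List Step).length + n) = S.orb b₀ z n := by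
    intro n
    rw [orb_add, o1]
  have hglow : S.GLow (3 / 2) (KL M ++ S.LQ i k) := S.KLQ_glow hi (by linarith) M
  have hL : ([Step.X, .X, .X, .X, .X] ++ KL M ++ S.LQ i k : List Step) =
      [Step.X, .X, .X, .X, .X] ++ (KL M ++ S.LQ i k) := List.append_assoc _ _ _
  have hlow : S.GLow (-1) ([Step.X, .X, .X, .X, .X] ++ KL M ++ S.LQ i k) := by
    rw [hL]
    exact S.initial_glow hglow
  have hlen : ([Step.X, .X, .X, .X, .X] ++ KL M ++ S.LQ i k : List Step).length =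
      ([Step.X, .X, .X, .X, .X] : List Step).length + (2 * M + 1) + (S.LQ i k).length := by
    rw [List.length_append, List.length_append, KL_length]
  have hgains : S.gains ([Step.X, .X, .X, .X, .X] ++ KL M ++ S.LQ i k) = x - 5 := by
    rw [hL, S.gains_append, S.initial_gains, S.KLQ_gains hi]
    ring
  have hfull : S.Run b₀ b₀ (S.ie + 5) ([Step.X, .X, .X, .X, .X] ++ KL M ++ S.LQ i k) := by
    rw [hL, S.run_append, S.run_append, o1, S.initial_gains, KL_length, S.KL_gains]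
    refine ⟨S.initial_runp hb₀ (by linarith), t1.run (by linarith), t2.mono (by linarith)⟩
  refine ⟨{ b₀ := b₀, s := S.ie + 5, E₀ := S.ie + 5, x := x, ε := 1 / (S.N : ℚ) ^ (i + 1)
            Lp := [Step.X, .X, .X, .X, .X], Lq := S.LQ i k, M := M
            hb := hb₀, hs := le_rfl, hE := le_rfl, hM := hM, hε := hε
            hμ := ?_, hτ := ?_, hx := ?_, runp := ?_, gp := ?_, crun := ?_, runq := ?_, gq := ?_
            close := ?_, low := ?_, scal := ?_ }⟩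
  · rw [gam]
    linarith
  · rw [gam]
    linarith
  · rw [gam]
    linarith
  · exact S.initial_runp hb₀ (by linarith)
  · rw [S.initial_gains]
    ring
  · rw [o1]
    exact t1
  · rw [o2]
    exact t2
  · exact S.LQ_gains hi k
  · rw [add_assoc, o2]
    exact t3
  · rw [sub_self]
    exact hlow.mono (by norm_num)
  · intro b b' hb hb'
    rcases eq_or_ne b b' with rfl | hne
    · rw [sub_self, sub_self, norm_zero, mul_zero]
    have hpos : 0 < ‖b - b'‖ := norm_pos_iff.2 (sub_ne_zero.2 hne)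
    rw [← hlen]
    have hr' := (hfull.tube (g₀ := 0) (hlow.mono (by norm_num)) (b' := b') (x' := b')
      (by rw [add_zero]; exact hb'.le) hb'.le).1
    have hbb : ‖b - b'‖ < S.rad (S.ie + 5) := by
      have : b - b' = (b - b₀) - (b' - b₀) := by ring
      rw [this]
      exact (back_sub_le_max _ _).trans_lt (max_lt hb hb')
    have h1 := hr'.scal hlow (b' := b) (x' := b) hne hbb (by
      refine lt_mul_of_one_lt_right hpos ?_
      rw [← S.rad_zero, S.rad_lt]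
      norm_num)
    rw [h1, hgains]
    congr 2
    ring

end Sys

end Pool.Agent.FIC
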