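import Pool.Agent.FIC.Next

/-!
# The scaling of the next state (S6)

Let `s' = nextS m i'`, `sig = 1/N^(i'+1)`; `b, b'` with distance `< rad s'` to `b₅`.  As `b₅` is in `B₃`
(`R4.near`) and `s' > s + 2mu + 2ta` (`m2`), `b, b'` are in `B₃`; `R3.scal`: distance `‖b - b'‖` at
the time `N₁`.
* `X^m`: `Run b' (orb b' b' N₁) s' (replicate m X)`: `Run.tube` from
  `Run b₅ (orb b₅ b₅ N₁) s' (replicate m X)` (`R4.zone`, exponents `s' - j ≥ 1`), `GLow (-1)`:
  `‖b' - b₅‖ ≤ rad (s' - 1)`; `Run.scal` (`g₀ = -1`, `D = ‖b - b'‖`): distance `rad (-m) ‖b - b'‖` at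
  the time `N₁ + m`; this is `< rad (ie + sig + 1)`.
* `TB i' ++ (KL M' ++ LQ i k)`: `Run b' (orb b' b' (N₁+m)) (ie + sig + 1) _` by `Run.tube` from the run of
  `b₅` (hypotheses `hT` (`TB_run`), `hc`, `hq`); partial gains `≤ 1`: `TB i'`: `≤ 1/4`; then
  `-te i' + 3/2 = 1/2 - sig`; `‖b - b'‖ < rad (-m) ‖b - b'‖ rad 1` as `m ≥ 4`; `Run.scal`: the factor is
  `rad (- te i' + 1 + x' - 1) = rad (x' - 1 - sig)`.  Total: `rad (- m + x' - 1 - sig) = rad (ie + x' - s')`.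
-/

open Polynomial

noncomputable section

namespace Pool.Agent.FIC

variable {K : Type*} [NontriviallyNormedField K] [IsUltrametricDist K]

namespace Sys.State

variable {S : Sys K} (st : S.State)

omit [IsUltrametricDist K] in
theorem nexts_glow_X (S : Sys K) : ∀ (m : ℕ) {g₀ : ℚ}, -1 ≤ g₀ →
    S.GLow g₀ (List.replicate m Step.X) := by
  intro m
  induction m with
  | zero => intro g₀ _; trivial
  | succ m ih =>
    intro g₀ hg
    rw [List.replicate_succ]
    refine ⟨by rw [gain_X]; exact hg, ih ?_⟩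
    rw [gain_X]
    linarith

theorem nexts_tri {x y z : K} {r : ℝ} (h : ‖x - y‖ < r) (h' : ‖y - z‖ < r) : ‖x - z‖ < r := by
  have e : x - z = (x - y) + (y - z) := by ring
  rw [e]
  exact (IsUltrametricDist.norm_add_le_max _ _).trans_lt (max_lt h h')

theorem next_scal {b₁ X₀ b₂ b₄ b₅ : K} {i' i k M' m : ℕ} {A : ℚ}
    (h : st.Numbers i' i k M' m A) (h1 : st.R1 b₁)
    (h2 : st.R2 b₁ X₀ b₂) (h3 : st.R3 b₂ X₀ m b₄) (h4 : st.R4 b₄ X₀ m b₅)
    (hT : ‖S.orb b₅ b₅ (st.N₁ m + m) - S.t‖ = S.rad (S.te i'))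
    (hc : S.CRun b₅ (S.orb b₅ b₅ (st.N₁ m + m + (i' + 1))) M')
    (hq : S.Run b₅ (S.orb b₅ b₅ (st.N₁ m + m + (i' + 1) + (2 * M' + 1)))
      (S.ie + 1 - 1 / (S.N : ℚ) ^ (i + 1)) (S.LQ i k))
    {b b' : K} (hb : ‖b - b₅‖ < S.rad (st.nextS m i')) (hb' : ‖b' - b₅‖ < S.rad (st.nextS m i')) :
    ‖S.orb b b (st.N₁ m + m + (i' + 1) + (2 * M' + 1) + (S.LQ i k).length) -
      S.orb b' b' (st.N₁ m + m + (i' + 1) + (2 * M' + 1) + (S.LQ i k).length)‖ =
    S.rad (S.ie + ((k : ℚ) + 1) / (S.N : ℚ) ^ (i + 1) - st.nextS m i') * ‖b - b'‖ := by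
  have hmu := st.mu_pos
  have hta := st.ta_pos
  have hxm := st.x_add_mu_le
  have hie := S.ie_pos
  have hm4 : (4 : ℚ) ≤ m := by exact_mod_cast h.hm
  have hm1 := h.m1
  have hm2 := h.m2
  have hsig : (0 : ℚ) < 1 / (S.N : ℚ) ^ (i' + 1) := by
    have := S.nine_le_N
    positivity
  have hlt' := h.lt'
  have hA := h.hA
  have hte := S.te_even h.even
  have hk : ((k : ℚ) + 1) / (S.N : ℚ) ^ (i + 1) ≤ 1 / 4 := by linarith
  have hs' : st.nextS m i' = S.ie + 1 / (S.N : ℚ) ^ (i' + 1) + m + 1 := rfl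
  set sig : ℚ := 1 / (S.N : ℚ) ^ (i' + 1) with hsigdef
  set xx : ℚ := ((k : ℚ) + 1) / (S.N : ℚ) ^ (i + 1) with hxx
  set s' : ℚ := st.nextS m i' with hs'def
  by_cases hbb : b = b'
  · rw [hbb, sub_self, sub_self, norm_zero, mul_zero]
  have hD : 0 < ‖b - b'‖ := norm_pos_iff.2 (sub_ne_zero.2 hbb)
  -- the disk `B₃`
  have hsub : S.rad s' < S.rad (st.s + 2 * st.mu + 2 * st.ta) := S.rad_lt.2 (by linarith)
  have h5 := h4.near
  have hb3 : ‖b - b₄‖ < S.rad (st.s + 2 * st.mu + 2 * st.ta) := nexts_tri (hb.trans hsub) h5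
  have hb3' : ‖b' - b₄‖ < S.rad (st.s + 2 * st.mu + 2 * st.ta) := nexts_tri (hb'.trans hsub) h5
  have hb0 := h1.sub b₅ (h2.sub b₅ (h3.sub b₅ h5))
  have hbs : ‖b - b'‖ < S.rad s' := nexts_tri hb (by rw [norm_sub_rev]; exact hb')
  have hbs' : ‖b - b'‖ < S.rad s' := hbs
  have e1 := h3.scal b b' hb3 hb3'
  have e2 := h3.scal b' b₅ hb3' h5
  -- the passage `X^m`
  have hX5 : S.Run b₅ (S.orb b₅ b₅ (st.N₁ m)) s' (List.replicate m Step.X) := by
    refine run_replicate_X S m ?_ (by linarith)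
    intro j hj
    rw [← S.orb_add]
    exact h4.zone j hj
  have hgX := nexts_glow_X S m (g₀ := -1) le_rfl
  have gX : S.gains (List.replicate m Step.X) = -m := by
    rw [gains_replicate, gain_X]
    ring
  have hX := hX5.tube hgX (b' := b') (x' := S.orb b' b' (st.N₁ m))
    (hb'.le.trans (S.rad_le.2 (by linarith))) (by rw [e2]; exact hb'.le)
  rw [List.length_replicate, gX, ← S.orb_add, ← S.orb_add] at hX
  have r1 : 1 < S.rad (-1) := by
    rw [← S.rad_zero]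
    exact S.rad_lt.2 (by norm_num)
  have e3 := hX.1.scal hgX (b' := b) (x' := S.orb b b (st.N₁ m))
    (fun he => by rw [he, sub_self, norm_zero] at e1; exact hD.ne e1)
    (by rw [e1]; exact hbs) (by rw [e1]; exact lt_mul_of_one_lt_right hD r1)
  rw [List.length_replicate, gX, ← S.orb_add, ← S.orb_add, e1] at e3
  -- the tail
  have hR5 : S.Run b₅ (S.orb b₅ b₅ (st.N₁ m + m)) (S.ie + sig + 1)
      (S.TB i' ++ (KL M' ++ S.LQ i k)) := by
    rw [S.run_append]
    refine ⟨S.TB_run (st.norm_b hb0) hT (by linarith), ?_⟩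
    rw [S.TB_length, S.TB_gains, ← S.orb_add, S.run_append]
    refine ⟨hc.run (by linarith), ?_⟩
    rw [KL_length, S.KL_gains, ← S.orb_add]
    refine hq.mono ?_
    have hpos : (0 : ℚ) ≤ 1 / (S.N : ℚ) ^ (i + 1) := by positivity
    linarith
  have hgT : S.GLow 1 (S.TB i' ++ (KL M' ++ S.LQ i k)) := by
    rw [S.glow_append]
    refine ⟨(S.TB_glow i').mono (by norm_num), (S.KLQ_glow h.odd hk M').mono ?_⟩
    rw [S.TB_gains]
    linarith
  have gT : S.gains (S.TB i' ++ (KL M' ++ S.LQ i k)) = xx - 1 - sig := by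
    rw [S.gains_append, S.TB_gains, S.KLQ_gains h.odd]
    linarith
  have lT : (S.TB i' ++ (KL M' ++ S.LQ i k)).length =
      (i' + 1) + (2 * M' + 1) + (S.LQ i k).length := by
    rw [List.length_append, S.TB_length, S.KLQ_length]
    ring
  have hR := hR5.tube hgT (b' := b') (x' := S.orb b' b' (st.N₁ m + m))
    (hb'.le.trans (S.rad_le.2 (by linarith)))
    (hX.2.trans (S.rad_le.2 (by linarith)))
  have hm0 : 0 < S.rad (-m : ℚ) := S.rad_pos _
  have e4 := hR.1.scal hgT (b' := b) (x' := S.orb b b (st.N₁ m + m))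
    (fun he => by
      rw [he, sub_self, norm_zero] at e3
      exact (mul_pos hm0 hD).ne e3)
    (by
      rw [e3]
      have e5 : S.rad (S.ie + sig + 1) = S.rad (-m : ℚ) * S.rad s' := by
        rw [← S.rad_add]
        congr 1
        linarith
      rw [e5]
      exact mul_lt_mul_of_pos_left hbs hm0)
    (by
      rw [e3, mul_assoc, mul_comm, mul_assoc, ← S.rad_add]
      refine lt_mul_of_one_lt_right hD ?_
      rw [← S.rad_zero]
      exact S.rad_lt.2 (by linarith))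
  rw [lT, gT, ← S.orb_add, ← S.orb_add, e3, ← mul_assoc, ← S.rad_add] at e4
  rw [show st.N₁ m + m + (i' + 1) + (2 * M' + 1) + (S.LQ i k).length =
    st.N₁ m + m + (i' + 1 + (2 * M' + 1) + (S.LQ i k).length) by ring, e4]
  congr 2
  linarith


end Sys.State

end Pool.Agent.FIC
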