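import Pool.Agent.FIC.Rounds

/-!
# The start of the frozen path

`exists_X0`: let `z = orb b₀ b₀ m₀`, `CRun b₀ z M`, so `Run b₀ z ie (CXL M)` (`CRun.run`, `KL_eq`,
`run_append`).  Choose `X₁` with `‖X₁ - z‖ = rad (ie - ta)` (`exists_rad`).  For all `X` in the closed
disk `D(z, rad (ie - ta))` `deep_le` (`b' = b`, `k = ta`, `pow_mul_tau`) gives `Run b₀ X ie (CXL M)`, so
`X ↦ orb b₀ X (2 M)` is `RatOn` this disk (`ratOn_orb`, `Run.nopole`).  `deep_eq`: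
`‖orb b₀ X₁ (2M) - orb b₀ z (2M)‖ = rad (1/p)`.  `‖z₀ - orb b₀ z (2M)‖ ≤ rad (1/p)` (`CRun.last`), in fact
equal, as `‖z₀ - d‖ < rad (1/p)`.  `RatOn.ivt` gives `X₀`; `deep_inv` gives its distance to `z`.
-/

open Polynomial

noncomputable section

namespace Pool.Agent.FIC

variable {K : Type*} [NontriviallyNormedField K] [IsUltrametricDist K] [IsAlgClosed K]

namespace Sys.State

variable {S : Sys K} (st : S.State)

theorem exists_X0 {z₀ : K} (hz : ‖z₀ - S.d‖ < S.rad (1 / S.p)) :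
    ∃ X₀, ‖X₀ - S.orb st.b₀ st.b₀ st.m₀‖ = S.rad (S.ie - st.ta) ∧
      S.Run st.b₀ X₀ S.ie (CXL st.M) ∧ S.orb st.b₀ X₀ (2 * st.M) = z₀ := by
  have hcr : S.CRun st.b₀ (S.orb st.b₀ st.b₀ st.m₀) st.M := st.crun
  generalize S.orb st.b₀ st.b₀ st.m₀ = z at hcr ⊢
  have hrun : S.Run st.b₀ z S.ie (CXL st.M) := by
    have h1 := hcr.run (le_refl S.ie)
    rw [KL_eq, S.run_append] at h1
    exact h1.1
  have hta : 0 < st.ta := S.tau_pos st.M
  have hpt : (S.p : ℚ) ^ st.M * st.ta = S.ie - 1 / S.p := S.pow_mul_tau st.M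
  have hb0 : ‖st.b₀ - st.b₀‖ < S.rad (S.ie + 1) := by
    rw [sub_self, norm_zero]; exact S.rad_pos _
  have hdisk : ∀ X, ‖X - z‖ ≤ S.rad (S.ie - st.ta) → S.Run st.b₀ X S.ie (CXL st.M) := by
    intro X hX
    exact (S.deep_le hta.le hpt.le hrun hb0 hX).1
  obtain ⟨y, hy⟩ := S.exists_rad (S.ie - st.ta)
  have hX1 : ‖(z + y) - z‖ = S.rad (S.ie - st.ta) := by rw [add_sub_cancel_left, hy]
  have hR : RatOn {X | ‖X - z‖ ≤ S.rad (S.ie - st.ta)} fun X => S.orb st.b₀ X (2 * st.M) := by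
    refine S.ratOn_orb (RatOn.const _ _) (RatOn.id _) (2 * st.M) fun X hX i hi => ?_
    refine (hdisk X hX).nopole ?_
    rw [CXL_length]
    exact hi
  have he : S.ie - (S.p : ℚ) ^ st.M * st.ta = 1 / S.p := by rw [hpt]; ring
  have hd1 : ‖S.orb st.b₀ (z + y) (2 * st.M) - S.orb st.b₀ z (2 * st.M)‖ = S.rad (1 / S.p) := by
    have := S.deep_eq hta hrun (hdisk _ hX1.le) hb0 hX1
    rw [he] at this
    exact this
  have hlast : ‖S.orb st.b₀ z (2 * st.M) - S.d‖ = S.rad (1 / S.p) := hcr.last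
  have hz0 : ‖z₀ - S.orb st.b₀ z (2 * st.M)‖ = S.rad (1 / S.p) := by
    have e : z₀ - S.orb st.b₀ z (2 * st.M) =
        -(S.orb st.b₀ z (2 * st.M) - S.d) + (z₀ - S.d) := by ring
    rw [e, DeepX.add_eq, norm_neg, hlast]
    rw [norm_neg, hlast]
    exact hz
  obtain ⟨X₀, h1, h2⟩ := hR.ivt (z₀ := z) (z₁ := z + y) (τ := z₀)
    (fun X hX => by rw [hX1] at hX; exact hX) (by rw [hd1, hz0])
  rw [hX1] at h1
  have hrun0 := hdisk X₀ h1
  refine ⟨X₀, ?_, hrun0, h2⟩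
  refine S.deep_inv hta hrun hrun0 h1 ?_
  rw [he, ← hz0]
  congr 2

end Sys.State

end Pool.Agent.FIC
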