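import Pool.Agent.FIC.NextG
import Pool.Agent.FIC.NextS
import Pool.Agent.FIC.X0

/-!
# The stage step: assembly

`exists_numbers`, `exists_frozen` (parameter `b₀`), `exists_X0` with the `z₀` of the frozen path,
`Run b₀ X₀ ie (CXL M ++ replicate (m+1) C)` (`hC` of the frozen path), `exists_R1`, `exists_R2`,
`exists_b3`, `exists_R3`, `exists_R4` (`hX` of the frozen path).  `orb b₅ b₅ (N₁ + m) =
orb b₀ z₀ (m + 1 + m)` (`R4.hit`, `orb_add`), `tail_T`, `tail_ok` (`‖b₅ - b₀‖ < rad s ≤ rad (ie + 5)`).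
The new state: `b₀ = b₅`, `s = nextS m i'`, `E₀ = nextE i'`, `x = (k+1)/N^(i+1)`, `ε = 1/N^(i+1)`,
`Lp = nextLp m i'`, `Lq = LQ i k`, `M = M'`.
`mu' = gam - ie - x' - nextE i' = (x + mu) - 2mu - 2ta - sig - x' = A - x' > 0`;
`x' - mu' = 2x' - A > 2 tau M'`; `x' + mu' = A ≤ 1/4`; `runp`: `next_run` with `δ = 2 tau M'`;
`gq`: `LQ_gains`; `low`: `next_glow`; `scal`: `next_scal`.
-/

open Polynomial

noncomputable section

namespace Pool.Agent.FIC

variable {K : Type*} [NontriviallyNormedField K] [IsUltrametricDist K] [IsAlgClosed K]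

namespace Sys

omit [IsUltrametricDist K] [IsAlgClosed K] in
/-- a run through the zone `C` -/
theorem run_replicate_C (S : Sys K) {b : K} (l : ℕ) : ∀ {z : K} {E : ℚ}, S.ie ≤ E →
    (∀ j < l, ‖S.orb b z j - S.d‖ ≤ S.rad (1 / S.p)) →
    S.Run b z E (List.replicate l Step.C) := by
  induction l with
  | zero => intro z E _ _; exact True.intro
  | succ l ih =>
    intro z E hE h
    refine ⟨h 0 (Nat.succ_pos l), hE, ih ?_ ?_⟩
    · show S.ie ≤ E + 1
      linarith
    · intro j hj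
      have := h (j + 1) (Nat.succ_lt_succ hj)
      rwa [S.orb_succ'] at this

end Sys

namespace Sys.State

variable {S : Sys K} (st : S.State)

theorem next : ∃ st' : S.State, st.s + 1 ≤ st'.s ∧ st.E₀ < st'.E₀ ∧
    ∀ b, ‖b - st'.b₀‖ < S.rad st'.s →
      ‖b - st.b₀‖ < S.rad st.s ∧ ‖S.orb b b st.n - S.w‖ = S.rad (S.gam - st.E₀) := by
  obtain ⟨i', i, k, M', m, A, hN⟩ := st.exists_numbers
  obtain ⟨z₀, hF⟩ := S.exists_frozen st.hb hN.odd k M' i' (m := m) (by have := hN.hm; omega)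
  obtain ⟨X₀, hX₀, hrun, h2M⟩ := st.exists_X0 hF.lt
  have hXr : S.Run st.b₀ X₀ S.ie (CXL st.M ++ List.replicate (m + 1) Step.C) := by
    rw [S.run_append]
    refine ⟨hrun, ?_⟩
    rw [CXL_length, S.CXL_gains, add_zero, h2M]
    exact S.run_replicate_C (m + 1) le_rfl fun j hj => hF.hC j (Nat.lt_succ_iff.1 hj)
  obtain ⟨b₁, h1⟩ := st.exists_R1
  obtain ⟨b₂, h2⟩ := st.exists_R2 h1 hX₀
  obtain ⟨b₃, hb₃, hb₃X⟩ := st.exists_b3 h1 h2
  obtain ⟨b₄, h3⟩ := st.exists_R3 h1 h2 hb₃ hb₃X hXr hN.m2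
  have horb : ∀ j, S.orb st.b₀ X₀ (2 * st.M + (m + 1) + j) = S.orb st.b₀ z₀ (m + 1 + j) := by
    intro j
    rw [add_assoc, S.orb_add, h2M]
  obtain ⟨b₅, h4⟩ := st.exists_R4 h1 h2 h3 (fun j hj => by rw [horb]; exact hF.hX j hj)
  -- numbers
  have hsig : (0 : ℚ) < 1 / (S.N : ℚ) ^ (i' + 1) := by have := S.N_pos; positivity
  have hm4 : (4 : ℚ) ≤ m := by exact_mod_cast hN.hm
  have hmu := st.mu_pos
  have hta := st.ta_pos
  have hxm := st.x_add_mu_le
  have hE₀ := st.E₀_eq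
  have hs5 := st.hs
  have hA4 : A ≤ 1 / 4 := by rw [hN.hA]; linarith
  -- the new parameter is close to the old one
  have hs' : st.s + 2 * st.mu + 2 * st.ta < st.nextS m i' := by
    have := hN.m2
    unfold nextS
    linarith
  have hnear : ∀ b, ‖b - b₅‖ < S.rad (st.nextS m i') →
      ‖b - b₄‖ < S.rad (st.s + 2 * st.mu + 2 * st.ta) := by
    intro b hb
    have e : b - b₄ = (b - b₅) + (b₅ - b₄) := by ring
    rw [e]
    refine lt_of_le_of_lt (IsUltrametricDist.norm_add_le_max _ _) (max_lt ?_ h4.near)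
    exact lt_of_lt_of_le hb (S.rad_le.2 hs'.le)
  have hall : ∀ b, ‖b - b₄‖ < S.rad (st.s + 2 * st.mu + 2 * st.ta) →
      ‖b - st.b₀‖ < S.rad st.s ∧ ‖S.orb b b st.n - S.w‖ = S.rad (S.gam - st.E₀) := by
    intro b hb
    have hb1 := h2.sub b (h3.sub b hb)
    exact ⟨h1.sub b hb1, h1.dist b hb1⟩
  have hb5 : ‖b₅ - st.b₀‖ < S.rad st.s := (hall b₅ h4.near).1
  have hb5' : ‖b₅ - st.b₀‖ < S.rad (S.ie + 2) :=
    lt_of_lt_of_le hb5 (S.rad_le.2 (by linarith))
  -- the end of the path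
  have hhit : S.orb b₅ b₅ (st.N₁ m + m) = S.orb st.b₀ z₀ (m + 1 + m) := by
    rw [h4.hit, horb]
  have hT : ‖S.orb b₅ b₅ (st.N₁ m + m) - S.t‖ = S.rad (S.te i') := by rw [hhit]; exact hF.hT
  have hx14 : ((k : ℚ) + 1) / (S.N : ℚ) ^ (i + 1) ≤ 1 / 4 := hN.lt'.le.trans hA4
  have hclose := S.tail_T (i' := i') st.hb hF.hT hb5'
  have hz : ‖S.orb b₅ b₅ (st.N₁ m + m + (i' + 1)) - S.orb st.b₀ z₀ (m + 1 + m + (i' + 1))‖ <
      S.rad S.ie := by
    rw [S.orb_add b₅ b₅, hhit, S.orb_add st.b₀ z₀ (m + 1 + m) (i' + 1)]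
    exact hclose
  have htail := S.tail_ok hN.odd hx14 hF.crun
    (by have := hF.runq; rwa [S.orb_add st.b₀ z₀ (m + 1 + m + (i' + 1))] at this)
    (by
      have := hF.hw
      rwa [add_assoc (m + 1 + m + (i' + 1)), S.orb_add st.b₀ z₀ (m + 1 + m + (i' + 1))] at this)
    hb5' hz
  obtain ⟨hc, hq, hcl⟩ := htail
  have hq' : S.Run b₅ (S.orb b₅ b₅ (st.N₁ m + m + (i' + 1) + (2 * M' + 1)))
      (S.ie + 1 - 1 / (S.N : ℚ) ^ (i + 1)) (S.LQ i k) := by
    rw [S.orb_add b₅ b₅ (st.N₁ m + m + (i' + 1))]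
    exact hq
  have hcl' : ‖S.orb b₅ b₅ (st.N₁ m + m + (i' + 1) + (2 * M' + 1) + (S.LQ i k).length) - S.w‖ <
      S.rad (S.ie + ((k : ℚ) + 1) / (S.N : ℚ) ^ (i + 1)) := by
    rw [add_assoc (st.N₁ m + m + (i' + 1)), S.orb_add b₅ b₅ (st.N₁ m + m + (i' + 1))]
    exact hcl
  have hlen := st.next_length m i'
  have hmu' : S.gam - S.ie - ((k : ℚ) + 1) / (S.N : ℚ) ^ (i + 1) - st.nextE i' =
      A - ((k : ℚ) + 1) / (S.N : ℚ) ^ (i + 1) := by
    rw [hN.hA]
    unfold nextE
    linarith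
  refine ⟨{ b₀ := b₅
            s := st.nextS m i'
            E₀ := st.nextE i'
            x := ((k : ℚ) + 1) / (S.N : ℚ) ^ (i + 1)
            ε := 1 / (S.N : ℚ) ^ (i + 1)
            Lp := st.nextLp m i'
            Lq := S.LQ i k
            M := M'
            hb := st.norm_b hb5
            hs := ?_
            hE := ?_
            hM := hN.hM
            hε := by have := S.N_pos; positivity
            hμ := by rw [hmu']; have := hN.lt'; linarith
            hτ := by rw [hmu']; have := hN.t2; linarith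
            hx := by rw [hmu']; linarith
            runp := st.next_run hN.even h1 h2 h3 h4 hT hN.t1 hN.t3
            gp := st.next_gains hN.even
            crun := by rw [hlen]; exact hc
            runq := by rw [hlen]; exact hq'
            gq := S.LQ_gains hN.odd k
            close := by rw [hlen]; exact hcl'
            low := st.next_glow hN
            scal := fun b b' hb hb' => by
              rw [hlen]; exact st.next_scal hN h1 h2 h3 h4 hT hc hq' hb hb' }, ?_, ?_, ?_⟩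
  · show S.ie + 5 ≤ st.nextS m i'
    unfold nextS
    linarith
  · show st.nextE i' ≤ st.nextS m i'
    have := hN.m2
    have := st.hE
    unfold nextE nextS
    linarith
  · show st.s + 1 ≤ st.nextS m i'
    have := hN.m1
    unfold nextS
    linarith
  · show st.E₀ < st.nextE i'
    unfold nextE
    linarith
  · intro b hb
    exact hall b (hnear b hb)

end Sys.State

end Pool.Agent.FIC
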