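import Pool.Agent.FIC.Export
import Pool.Agent.FIC.NextA
import Pool.Agent.FIC.Initial
import Pool.Agent.FIC.BZ

/-!
# The limit parameter

`exists_state`, `State.next` give a sequence of states `st k` (recursion; `Classical.choose`),
`st k .s + 1 ≤ st (k+1) .s`, `E₀` strictly increasing, and every `b` in the disk of `st (k+1)` is in the
disk of `st k` and satisfies `‖orb b b n_k - w‖ = rad (gam - E₀_k)`.  The centres `st k .b₀` form a Cauchy
sequence (`‖st (k+1) .b₀ - st k .b₀‖ < rad (s k) → 0`, `exists_rad_lt`; ultrametric: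
`‖st l .b₀ - st k .b₀‖ < rad (s k)` for `k ≤ l`); the limit `b` satisfies `‖b - st k .b₀‖ ≤ rad (s (k+1))`...:
`‖b - st (k+1) .b₀‖ ≤ rad (s (k+1)) < rad (s k)`, so `‖b - st k .b₀‖ < rad (s k)` for all `k`.
`flipData` for all `k`; `infinite_cycles` (`R k 0 = rad (E₀ k + 0)`, strictly decreasing;
`shift_degree`, `one_le_degree`).
-/

open Polynomial

noncomputable section

namespace Pool.Agent.FIC

variable {K : Type*} [NontriviallyNormedField K] [IsUltrametricDist K] [IsAlgClosed K]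
  [CompleteSpace K]

namespace Sys

variable (S : Sys K)

section seq

omit [CompleteSpace K]

/-- the sequence of states -/
def seq : ℕ → S.State
  | 0 => S.exists_state.some
  | k + 1 => (seq k).next.choose

theorem seq_spec (k : ℕ) : (S.seq k).s + 1 ≤ (S.seq (k + 1)).s ∧
    (S.seq k).E₀ < (S.seq (k + 1)).E₀ ∧
    ∀ b, ‖b - (S.seq (k + 1)).b₀‖ < S.rad (S.seq (k + 1)).s →
      ‖b - (S.seq k).b₀‖ < S.rad (S.seq k).s ∧
        ‖S.orb b b (S.seq k).n - S.w‖ = S.rad (S.gam - (S.seq k).E₀) :=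
  (S.seq k).next.choose_spec

theorem le_seq_s (k : ℕ) : (k : ℚ) ≤ (S.seq k).s := by
  induction k with
  | zero =>
    have h1 := (S.seq 0).hs
    have h2 := S.ie_pos
    push_cast
    linarith
  | succ k ih =>
    have h := (S.seq_spec k).1
    push_cast
    linarith

theorem seq_nested (k j : ℕ) {b : K} (hb : ‖b - (S.seq (k + j)).b₀‖ < S.rad (S.seq (k + j)).s) :
    ‖b - (S.seq k).b₀‖ < S.rad (S.seq k).s := by
  induction j with
  | zero => exact hb
  | succ j ih => exact ih ((S.seq_spec (k + j)).2.2 b hb).1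

theorem seq_close {k l : ℕ} (h : k ≤ l) : ‖(S.seq l).b₀ - (S.seq k).b₀‖ < S.rad (S.seq k).s := by
  obtain ⟨j, rfl⟩ := Nat.exists_eq_add_of_le h
  refine S.seq_nested k j ?_
  rw [sub_self, norm_zero]
  exact S.rad_pos _

theorem seq_cauchy : CauchySeq fun k => (S.seq k).b₀ := by
  rw [Metric.cauchySeq_iff']
  intro ε hε
  obtain ⟨n, hn⟩ := S.exists_rad_lt hε
  refine ⟨n, fun l hl => ?_⟩
  rw [dist_eq_norm]
  exact (S.seq_close hl).trans (hn _ (S.le_seq_s n))

end seq

theorem exists_limit : ∃ b : K, ∀ k, ‖b - (S.seq k).b₀‖ < S.rad (S.seq k).s := by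
  obtain ⟨b, hb⟩ := cauchySeq_tendsto_of_complete S.seq_cauchy
  refine ⟨b, fun k => ?_⟩
  have h1 : ‖b - (S.seq (k + 1)).b₀‖ ≤ S.rad (S.seq (k + 1)).s := by
    have h : Filter.Tendsto (fun l => ‖(S.seq l).b₀ - (S.seq (k + 1)).b₀‖) Filter.atTop
        (nhds ‖b - (S.seq (k + 1)).b₀‖) := (hb.sub_const _).norm
    refine le_of_tendsto h ?_
    filter_upwards [Filter.eventually_ge_atTop (k + 1)] with l hl
    exact (S.seq_close hl).le
  have h2 : S.rad (S.seq (k + 1)).s < S.rad (S.seq k).s := by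
    rw [S.rad_lt]
    have := (S.seq_spec k).1
    linarith
  have e : b - (S.seq k).b₀ = (b - (S.seq (k + 1)).b₀) + ((S.seq (k + 1)).b₀ - (S.seq k).b₀) := by
    ring
  rw [e]
  exact lt_of_le_of_lt (IsUltrametricDist.norm_add_le_max _ _)
    (max_lt (lt_of_le_of_lt h1 h2) (S.seq_close (Nat.le_succ k)))

theorem infinite : ∃ b : K, (nonDiskCycles (S.F.shift b)).Infinite := by
  obtain ⟨b, hb⟩ := S.exists_limit
  refine ⟨b, ?_⟩
  have hd : 1 ≤ (S.F.shift b).degree := by
    rw [S.shift_degree]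
    exact S.one_le_degree
  refine infinite_cycles hd (fun k => (S.seq k).flipData (hb k)
    ((S.seq_spec k).2.2 b (hb (k + 1))).2) ?_
  refine strictAnti_nat_of_succ_lt fun k => ?_
  show S.rad ((S.seq (k + 1)).E₀ + S.gains ((S.seq (k + 1)).L.take 0)) <
    S.rad ((S.seq k).E₀ + S.gains ((S.seq k).L.take 0))
  rw [S.rad_lt, List.take_zero, List.take_zero]
  have := (S.seq_spec k).2.1
  linarith

end Sys

end Pool.Agent.FIC
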