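import Pool.Agent.FIC.RadG

/-!
# The explicit map: parameters

`q = rad a (1/p)` etc. with `a = ‖α‖`.
* `exists_par`: `α`: if `(p : K) ≠ 0` take `α ^ 3 = p`, otherwise any `α` with `0 < ‖α‖ < 1`.
  `ι₀ ^ (p-1) = α ^ 2`, `ϑ ^ (p-1) = -1`, `η ^ (2p) = α`: `IsAlgClosed.exists_pow_nat_eq`.
  `c`: `exists_rad'`.  `t, d, w`: for a finite list `s₁, …, s_r` of elements with `‖s_i‖ ≤ 1` a root `x` of
  `∏ (X - s_i) = 1` satisfies `‖x‖ ≤ 1` (if `‖x‖ > 1` the product has norm `> 1`), so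
  all `‖x - s_i‖ ≤ 1`, hence `= 1`; apply this to `(0)`, `(0, t)`, `(0, t, d)`.
-/

open Polynomial

noncomputable section

namespace Pool.Agent.FIC

/-- the parameters of the explicit map -/
structure Par (K : Type*) [NontriviallyNormedField K] where
  p : ℕ
  hp : p.Prime
  α : K
  α0 : α ≠ 0
  α1 : ‖α‖ < 1
  hpα : ‖(p : K)‖ ≤ ‖α‖ ^ 3
  ι₀ : K
  hι : ι₀ ^ (p - 1) = α ^ 2
  ϑ : K
  hϑ : ϑ ^ (p - 1) = -1
  c : K
  hc : ‖c‖ = rad ‖α‖ (2 * (2 / ((p : ℚ) - 1)) + 21 / 4)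
  t : K
  d : K
  w : K
  ht : ‖t‖ = 1
  hd : ‖d‖ = 1
  hw : ‖w‖ = 1
  htd : ‖t - d‖ = 1
  htw : ‖t - w‖ = 1
  hdw : ‖d - w‖ = 1
  η : K
  hη : η ^ (2 * p) = α
  n₁ : ℕ
  h₁ : 22 * p ≤ n₁
  n₂ : ℕ
  h₂ : 22 * p ≤ n₂
  n₃ : ℕ
  h₃ : 22 * p ≤ n₃

namespace Par

variable {K : Type*} [NontriviallyNormedField K] (P : Par K)

/-- the bump functions `1 / (1 - ((z - y) / η) ^ n)` -/
def bump (y : K) (n : ℕ) (z : K) : K := (1 - ((z - y) / P.η) ^ n)⁻¹

/-- the map of the zone `C` -/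
def Pd (z : K) : K := P.d + (z - P.d) ^ P.p / P.α + P.α * (z - P.d)

/-- the explicit map -/
def fn (z : K) : K := P.c / (z - P.w) + P.α ^ (4 * P.p + 2) / (z - P.t) ^ (4 * P.p + 1) +
  P.t * P.bump P.t P.n₁ z + P.Pd z * P.bump P.d P.n₂ z + z / P.α * P.bump 0 P.n₃ z

/-- the poles of the explicit map -/
def IsPole (z : K) : Prop := z = P.w ∨ z = P.t ∨ ((z - P.t) / P.η) ^ P.n₁ = 1 ∨
  ((z - P.d) / P.η) ^ P.n₂ = 1 ∨ ((z - 0) / P.η) ^ P.n₃ = 1

end Par

/-- a point at distance `1` from all the elements of a finite list of integral elements -/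
theorem exists_far {K : Type*} [NontriviallyNormedField K] [IsUltrametricDist K] [IsAlgClosed K]
    (s : Multiset K) (hs : s ≠ 0) (h1 : ∀ a ∈ s, ‖a‖ ≤ 1) : ∃ x : K, ∀ a ∈ s, ‖x - a‖ = 1 := by
  have hdeg : ((s.map (fun a => X - C a)).prod - C 1).degree ≠ 0 := by
    have hd : (s.map (fun a => X - C a)).prod.degree = ((Multiset.card s : ℕ) : WithBot ℕ) := by
      rw [degree_multiset_prod]
      simp
    have hc : 0 < Multiset.card s := Multiset.card_pos.2 hs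
    have hlt : (C (1 : K)).degree < (s.map (fun a => X - C a)).prod.degree := by
      rw [hd]
      refine lt_of_le_of_lt degree_C_le ?_
      exact_mod_cast hc
    rw [degree_sub_eq_left_of_degree_lt hlt, hd]
    exact_mod_cast hc.ne'
  obtain ⟨x, hx⟩ := IsAlgClosed.exists_root _ hdeg
  have hx1 : (s.map (fun a => x - a)).prod = 1 := by
    rw [IsRoot.def, eval_sub, eval_C, sub_eq_zero, eval_multiset_prod, Multiset.map_map] at hx
    simpa using hx
  have hn1 : (s.map (fun a => ‖x - a‖)).prod = 1 := by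
    have := congrArg norm hx1
    rw [norm_one] at this
    rw [← this]
    have h2 := map_multiset_prod (normHom : K →*₀ ℝ) (s.map (fun a => x - a))
    rw [Multiset.map_map] at h2
    exact h2.symm
  have hxle : ‖x‖ ≤ 1 := by
    by_contra hgt
    push Not at hgt
    have h3 : ∀ a ∈ s, ‖x - a‖ = ‖x‖ := by
      intro a ha
      have hlt : ‖a‖ < ‖x‖ := lt_of_le_of_lt (h1 a ha) hgt
      rw [sub_eq_add_neg, IsUltrametricDist.norm_add_eq_max_of_norm_ne_norm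
        (by rw [norm_neg]; exact hlt.ne'), norm_neg]
      exact max_eq_left hlt.le
    rw [Multiset.map_congr rfl h3, Multiset.map_const', Multiset.prod_replicate] at hn1
    exact absurd hn1 (one_lt_pow₀ hgt (Multiset.card_pos.2 hs).ne').ne'
  have hle : ∀ a ∈ s, ‖x - a‖ ≤ 1 := by
    intro a ha
    rw [sub_eq_add_neg]
    refine (IsUltrametricDist.norm_add_le_max _ _).trans (max_le hxle ?_)
    rw [norm_neg]
    exact h1 a ha
  refine ⟨x, fun a ha => le_antisymm (hle a ha) ?_⟩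
  by_contra hlt
  push Not at hlt
  obtain ⟨s', rfl⟩ := Multiset.exists_cons_of_mem ha
  rw [Multiset.map_cons, Multiset.prod_cons] at hn1
  have h4 : (s'.map (fun a => ‖x - a‖)).prod ≤ 1 := by
    have h5 : ∀ (m : Multiset K), (∀ a ∈ m, ‖x - a‖ ≤ 1) → 0 ≤ (m.map (fun a => ‖x - a‖)).prod ∧
        (m.map (fun a => ‖x - a‖)).prod ≤ 1 := by
      intro m
      induction m using Multiset.induction_on with
      | empty => intro _; simp
      | cons b m ih =>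
        intro hm
        rw [Multiset.map_cons, Multiset.prod_cons]
        have h6 := ih (fun a ha => hm a (Multiset.mem_cons_of_mem ha))
        have h7 := hm b (Multiset.mem_cons_self b m)
        exact ⟨mul_nonneg (norm_nonneg _) h6.1, mul_le_one₀ h7 h6.1 h6.2⟩
    exact (h5 s' (fun a ha => hle a (Multiset.mem_cons_of_mem ha))).2
  have h6 : ‖x - a‖ * (s'.map (fun a => ‖x - a‖)).prod < 1 := by
    calc ‖x - a‖ * (s'.map (fun a => ‖x - a‖)).prod ≤ ‖x - a‖ * 1 :=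
          mul_le_mul_of_nonneg_left h4 (norm_nonneg _)
      _ < 1 := by rw [mul_one]; exact hlt
  exact absurd hn1 h6.ne

/-- the constant `α` -/
theorem exists_alpha {K : Type*} [NontriviallyNormedField K] [IsAlgClosed K] {q : K}
    (h : ‖q‖ < 1) : ∃ α : K, α ≠ 0 ∧ ‖α‖ < 1 ∧ ‖q‖ ≤ ‖α‖ ^ 3 := by
  by_cases hq : q = 0
  · obtain ⟨α, h0, h1⟩ := NormedField.exists_norm_lt_one K
    refine ⟨α, norm_pos_iff.1 h0, h1, ?_⟩
    rw [hq, norm_zero]
    positivity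
  · obtain ⟨α, hα⟩ := IsAlgClosed.exists_pow_nat_eq q (show 0 < 3 by norm_num)
    refine ⟨α, ?_, ?_, ?_⟩
    · rintro rfl
      apply hq
      rw [← hα]
      norm_num
    · by_contra hge
      push Not at hge
      have : 1 ≤ ‖α‖ ^ 3 := one_le_pow₀ hge
      rw [← norm_pow, hα] at this
      linarith
    · rw [← norm_pow, hα]

theorem exists_par {K : Type*} [NontriviallyNormedField K] [IsUltrametricDist K] [IsAlgClosed K]
    {p : ℕ} (hp : p.Prime) (h : ‖(p : K)‖ < 1) {D : ℕ} (hD : 70 * p + 2 ≤ D) :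
    ∃ P : Par K, P.p = p ∧ 1 + (4 * p + 1) + P.n₁ + P.n₂ + P.n₃ = D := by
  have hp1 : 0 < p - 1 := by have := hp.two_le; omega
  have hp2 : 0 < 2 * p := by have := hp.two_le; omega
  obtain ⟨α, α0, α1, hpα⟩ := exists_alpha h
  obtain ⟨ι₀, hι⟩ := IsAlgClosed.exists_pow_nat_eq (α ^ 2) hp1
  obtain ⟨ϑ, hϑ⟩ := IsAlgClosed.exists_pow_nat_eq (-1 : K) hp1
  obtain ⟨η, hη⟩ := IsAlgClosed.exists_pow_nat_eq α hp2
  obtain ⟨c, hc⟩ := exists_rad' α0 (2 * (2 / ((p : ℚ) - 1)) + 21 / 4)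
  obtain ⟨t, ht⟩ := exists_far ({0} : Multiset K) (by simp) (by simp)
  have ht0 : ‖t‖ = 1 := by simpa using ht 0 (by simp)
  obtain ⟨d, hd⟩ := exists_far ({0, t} : Multiset K) (by simp) (by simp [ht0])
  have hd0 : ‖d‖ = 1 := by simpa using hd 0 (by simp)
  have hdt : ‖d - t‖ = 1 := hd t (by simp)
  obtain ⟨w, hw⟩ := exists_far ({0, t, d} : Multiset K) (by simp) (by simp [ht0, hd0])
  have hw0 : ‖w‖ = 1 := by simpa using hw 0 (by simp)
  have hwt : ‖w - t‖ = 1 := hw t (by simp)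
  have hwd : ‖w - d‖ = 1 := hw d (by simp)
  refine ⟨⟨p, hp, α, α0, α1, hpα, ι₀, hι, ϑ, hϑ, c, hc, t, d, w, ht0, hd0, hw0, ?_, ?_, ?_, η, hη,
    22 * p, le_rfl, 22 * p, le_rfl, D - (48 * p + 2), ?_⟩, rfl, ?_⟩
  · rw [norm_sub_rev]; exact hdt
  · rw [norm_sub_rev]; exact hwt
  · rw [norm_sub_rev]; exact hwd
  · omega
  · show 1 + (4 * p + 1) + 22 * p + 22 * p + (D - (48 * p + 2)) = D
    omega

end Pool.Agent.FIC
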