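import Pool.Agent.FIC.Mk0

/-!
# Bump functions

`a = ‖α‖`, `‖η‖ = rad a (1/(2p))`, `n ≥ 22 p`, `Z = (z - y)/η`, `Z' = (z' - y)/η`.
* far (`‖z - y‖ = ‖z' - y‖ = 1`): `‖Z ^ n‖ = rad a (-n/(2p)) > 1`, so `‖1 - Z^n‖ = ‖Z^n‖`,
  `‖bump‖ = ‖η‖^n ≤ rad a 11 = a ^ 11`; `bump z - bump z' = (Z^n - Z'^n) / ((1 - Z^n) (1 - Z'^n))`,
  `‖Z^n - Z'^n‖ ≤ ‖Z - Z'‖ max(‖Z‖, ‖Z'‖)^(n-1) = ‖z - z'‖ ‖η‖^(-n)`.
* near (`‖z - y‖, ‖z' - y‖ ≤ rad a (1/p)`): `‖Z‖ ≤ rad a (1/(2p))`, `‖Z^n‖ ≤ a ^ 11 < 1`;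
  `‖bump - 1‖ = ‖Z^n‖`, `‖bump z - bump z'‖ ≤ ‖Z^n - Z'^n‖ ≤ ‖z - z'‖ ‖η‖⁻¹ rad a ((n-1)/(2p)) =
  ‖z - z'‖ rad a ((n-2)/(2p)) ≤ a ^ 10 ‖z - z'‖`.
-/

open Polynomial

noncomputable section

namespace Pool.Agent.FIC

namespace Par

variable {K : Type*} [NontriviallyNormedField K] [IsUltrametricDist K] (P : Par K)

theorem mkBump_a_pos : 0 < ‖P.α‖ := norm_pos_iff.2 P.α0

theorem mkBump_p_pos : (0 : ℚ) < P.p := by exact_mod_cast P.hp.pos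

theorem norm_η : ‖P.η‖ = rad ‖P.α‖ (1 / (2 * P.p)) := by
  have hp := P.hp.pos
  have hpq := P.mkBump_p_pos
  have h : ‖P.η‖ ^ (2 * P.p) = rad ‖P.α‖ (1 / (2 * P.p)) ^ (2 * P.p) := by
    rw [← norm_pow, P.hη, ← rad_nat_mul' P.mkBump_a_pos]
    have : ((2 * P.p : ℕ) : ℚ) * (1 / (2 * P.p)) = 1 := by
      push_cast
      field_simp
    rw [this, rad_one']
  exact (pow_left_inj₀ (norm_nonneg _) (rad_pos' P.mkBump_a_pos _).le (by omega)).1 h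

theorem mkBump_η_pos : 0 < ‖P.η‖ := by
  rw [P.norm_η]
  exact rad_pos' P.mkBump_a_pos _

theorem mkBump_η_ne : P.η ≠ 0 := norm_pos_iff.1 P.mkBump_η_pos

theorem mkBump_η_lt : ‖P.η‖ < 1 := by
  have hpq := P.mkBump_p_pos
  rw [P.norm_η, ← rad_zero' ‖P.α‖, rad_lt' P.mkBump_a_pos P.α1]
  positivity

/-- powers of `‖η‖` against powers of `‖α‖` -/
theorem mkBump_pow_le {m k : ℕ} (h : 2 * P.p * k ≤ m) : ‖P.η‖ ^ m ≤ ‖P.α‖ ^ k := by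
  have h1 : ‖P.η‖ ^ (2 * P.p * k) = ‖P.α‖ ^ k := by
    rw [pow_mul, ← norm_pow P.η, P.hη]
  rw [← h1]
  exact pow_le_pow_of_le_one (norm_nonneg _) P.mkBump_η_lt.le h

/-- `rad a (1/p) = ‖η‖²` -/
theorem mkBump_rad_eq : rad ‖P.α‖ (1 / P.p) = ‖P.η‖ ^ 2 := by
  have hpq := P.mkBump_p_pos
  rw [P.norm_η, ← rad_nat_mul' P.mkBump_a_pos]
  congr 1
  push_cast
  field_simp

/-- `‖x ^ n - y ^ n‖ ≤ ‖x - y‖ M ^ (n-1)` -/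
theorem norm_pow_sub_le {x y : K} {M : ℝ} (hx : ‖x‖ ≤ M) (hy : ‖y‖ ≤ M) (n : ℕ) :
    ‖x ^ (n + 1) - y ^ (n + 1)‖ ≤ ‖x - y‖ * M ^ n := by
  have hM : 0 ≤ M := (norm_nonneg x).trans hx
  induction n with
  | zero => simp
  | succ n ih =>
    have e : x ^ (n + 1 + 1) - y ^ (n + 1 + 1) =
        x * (x ^ (n + 1) - y ^ (n + 1)) + (x - y) * y ^ (n + 1) := by ring
    rw [e]
    refine (IsUltrametricDist.norm_add_le_max _ _).trans (max_le ?_ ?_)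
    · rw [norm_mul]
      calc ‖x‖ * ‖x ^ (n + 1) - y ^ (n + 1)‖ ≤ M * (‖x - y‖ * M ^ n) :=
            mul_le_mul hx ih (norm_nonneg _) hM
        _ = ‖x - y‖ * M ^ (n + 1) := by ring
    · rw [norm_mul, norm_pow]
      exact mul_le_mul_of_nonneg_left (pow_le_pow_left₀ (norm_nonneg _) hy _) (norm_nonneg _)

/-- the norm of `1 - x` for `‖x‖ > 1` -/
theorem mkBump_norm_one_sub_gt {x : K} (h : 1 < ‖x‖) : ‖1 - x‖ = ‖x‖ := by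
  rw [sub_eq_add_neg, IsUltrametricDist.norm_add_eq_max_of_norm_ne_norm
    (by rw [norm_neg, norm_one]; exact h.ne), norm_neg, norm_one]
  exact max_eq_right h.le

/-- the norm of `1 - x` for `‖x‖ < 1` -/
theorem mkBump_norm_one_sub_lt {x : K} (h : ‖x‖ < 1) : ‖1 - x‖ = 1 := by
  rw [sub_eq_add_neg, IsUltrametricDist.norm_add_eq_max_of_norm_ne_norm
    (by rw [norm_neg, norm_one]; exact h.ne'), norm_neg, norm_one]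
  exact max_eq_left h.le

theorem mkBump_inv_sub {x y : K} (hx : x ≠ 1) (hy : y ≠ 1) :
    (1 - x)⁻¹ - (1 - y)⁻¹ = (x - y) * (1 - x)⁻¹ * (1 - y)⁻¹ := by
  have h1 : (1 : K) - x ≠ 0 := sub_ne_zero.2 (Ne.symm hx)
  have h2 : (1 : K) - y ≠ 0 := sub_ne_zero.2 (Ne.symm hy)
  field_simp
  ring

variable {P}

theorem mkBump_n_pos {n : ℕ} (hn : 22 * P.p ≤ n) : 2 ≤ n := by
  have := P.hp.two_le
  omega

theorem mkBump_far_norm {y z : K} (n : ℕ) (h : ‖z - y‖ = 1) :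
    ‖((z - y) / P.η) ^ n‖ = (‖P.η‖ ^ n)⁻¹ := by
  rw [norm_pow, norm_div, h, one_div, inv_pow]

theorem mkBump_far_gt {y z : K} {n : ℕ} (hn : 22 * P.p ≤ n) (h : ‖z - y‖ = 1) :
    1 < ‖((z - y) / P.η) ^ n‖ := by
  have hn2 := mkBump_n_pos hn
  rw [mkBump_far_norm n h]
  exact (one_lt_inv₀ (pow_pos P.mkBump_η_pos _)).2
    (pow_lt_one₀ (norm_nonneg _) P.mkBump_η_lt (by omega))

theorem far_ne {y z : K} {n : ℕ} (hn : 22 * P.p ≤ n) (h : ‖z - y‖ = 1) :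
    ((z - y) / P.η) ^ n ≠ 1 := by
  intro he
  have h1 := mkBump_far_gt hn h
  rw [he, norm_one] at h1
  exact lt_irrefl _ h1

theorem mkBump_far_eq {y z : K} {n : ℕ} (hn : 22 * P.p ≤ n) (h : ‖z - y‖ = 1) :
    ‖P.bump y n z‖ = ‖P.η‖ ^ n := by
  rw [bump, norm_inv, mkBump_norm_one_sub_gt (mkBump_far_gt hn h), mkBump_far_norm n h, inv_inv]

theorem far_le {y z : K} {n : ℕ} (hn : 22 * P.p ≤ n) (h : ‖z - y‖ = 1) :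
    ‖P.bump y n z‖ ≤ ‖P.α‖ ^ 11 := by
  rw [mkBump_far_eq hn h]
  exact P.mkBump_pow_le (by omega)

theorem far_dist {y z z' : K} {n : ℕ} (hn : 22 * P.p ≤ n) (h : ‖z - y‖ = 1) (h' : ‖z' - y‖ = 1) :
    ‖P.bump y n z - P.bump y n z'‖ ≤ ‖P.α‖ ^ 11 * ‖z - z'‖ := by
  have hn2 := mkBump_n_pos hn
  have h1 := mkBump_far_eq hn h
  have h2 := mkBump_far_eq hn h'
  have hη := P.mkBump_η_pos
  have h3 : P.bump y n z - P.bump y n z' =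
      (((z - y) / P.η) ^ n - ((z' - y) / P.η) ^ n) * P.bump y n z * P.bump y n z' := by
    unfold bump
    exact mkBump_inv_sub (far_ne hn h) (far_ne hn h')
  rw [h3, norm_mul, norm_mul, h1, h2]
  obtain ⟨m, rfl⟩ : ∃ m, n = m + 1 := ⟨n - 1, by omega⟩
  have h4 : ‖((z - y) / P.η) ^ (m + 1) - ((z' - y) / P.η) ^ (m + 1)‖ ≤
      ‖(z - y) / P.η - (z' - y) / P.η‖ * (‖P.η‖⁻¹) ^ m := by
    apply norm_pow_sub_le
    · rw [norm_div, h, one_div]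
    · rw [norm_div, h', one_div]
  have h5 : ‖(z - y) / P.η - (z' - y) / P.η‖ = ‖z - z'‖ * ‖P.η‖⁻¹ := by
    rw [← sub_div, norm_div, div_eq_mul_inv]
    congr 2
    ring
  rw [h5] at h4
  calc ‖((z - y) / P.η) ^ (m + 1) - ((z' - y) / P.η) ^ (m + 1)‖ * ‖P.η‖ ^ (m + 1) *
        ‖P.η‖ ^ (m + 1)
      ≤ ‖z - z'‖ * ‖P.η‖⁻¹ * (‖P.η‖⁻¹) ^ m * ‖P.η‖ ^ (m + 1) * ‖P.η‖ ^ (m + 1) := by gcongr
    _ = ‖P.η‖ ^ (m + 1) * ‖z - z'‖ := by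
        rw [inv_pow, pow_succ]
        field_simp
    _ ≤ ‖P.α‖ ^ 11 * ‖z - z'‖ :=
        mul_le_mul_of_nonneg_right (P.mkBump_pow_le (by omega)) (norm_nonneg _)

theorem mkBump_near_div {y z : K} (h : ‖z - y‖ ≤ rad ‖P.α‖ (1 / P.p)) :
    ‖(z - y) / P.η‖ ≤ ‖P.η‖ := by
  have hη := P.mkBump_η_pos
  rw [P.mkBump_rad_eq] at h
  rw [norm_div, div_le_iff₀ hη]
  calc ‖z - y‖ ≤ ‖P.η‖ ^ 2 := h
    _ = ‖P.η‖ * ‖P.η‖ := by ring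

theorem mkBump_near_pow {y z : K} (n : ℕ) (h : ‖z - y‖ ≤ rad ‖P.α‖ (1 / P.p)) :
    ‖((z - y) / P.η) ^ n‖ ≤ ‖P.η‖ ^ n := by
  rw [norm_pow]
  exact pow_le_pow_left₀ (norm_nonneg _) (mkBump_near_div h) _

theorem mkBump_near_lt {y z : K} {n : ℕ} (hn : 22 * P.p ≤ n)
    (h : ‖z - y‖ ≤ rad ‖P.α‖ (1 / P.p)) : ‖((z - y) / P.η) ^ n‖ < 1 := by
  have hn2 := mkBump_n_pos hn
  exact lt_of_le_of_lt (mkBump_near_pow n h)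
    (pow_lt_one₀ (norm_nonneg _) P.mkBump_η_lt (by omega))

theorem near_ne {y z : K} {n : ℕ} (hn : 22 * P.p ≤ n) (h : ‖z - y‖ ≤ rad ‖P.α‖ (1 / P.p)) :
    ((z - y) / P.η) ^ n ≠ 1 := by
  intro he
  have h1 := mkBump_near_lt hn h
  rw [he, norm_one] at h1
  exact lt_irrefl _ h1

theorem mkBump_near_eq {y z : K} {n : ℕ} (hn : 22 * P.p ≤ n)
    (h : ‖z - y‖ ≤ rad ‖P.α‖ (1 / P.p)) : ‖P.bump y n z‖ = 1 := by
  rw [bump, norm_inv, mkBump_norm_one_sub_lt (mkBump_near_lt hn h), inv_one]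

theorem near_le {y z : K} {n : ℕ} (hn : 22 * P.p ≤ n) (h : ‖z - y‖ ≤ rad ‖P.α‖ (1 / P.p)) :
    ‖P.bump y n z - 1‖ ≤ ‖P.α‖ ^ 11 := by
  have h1 : (1 : K) - ((z - y) / P.η) ^ n ≠ 0 := sub_ne_zero.2 (Ne.symm (near_ne hn h))
  have h2 : P.bump y n z - 1 = ((z - y) / P.η) ^ n * P.bump y n z := by
    unfold bump
    set x := ((z - y) / P.η) ^ n with hx
    calc (1 - x)⁻¹ - 1 = (1 - x)⁻¹ - (1 - x) * (1 - x)⁻¹ := by rw [mul_inv_cancel₀ h1]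
      _ = x * (1 - x)⁻¹ := by ring
  rw [h2, norm_mul, mkBump_near_eq hn h, mul_one]
  exact (mkBump_near_pow n h).trans (P.mkBump_pow_le (by omega))

theorem near_dist {y z z' : K} {n : ℕ} (hn : 22 * P.p ≤ n) (h : ‖z - y‖ ≤ rad ‖P.α‖ (1 / P.p))
    (h' : ‖z' - y‖ ≤ rad ‖P.α‖ (1 / P.p)) :
    ‖P.bump y n z - P.bump y n z'‖ ≤ ‖P.α‖ ^ 10 * ‖z - z'‖ := by
  have hn2 := mkBump_n_pos hn
  have hη := P.mkBump_η_pos
  have h3 : P.bump y n z - P.bump y n z' =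
      (((z - y) / P.η) ^ n - ((z' - y) / P.η) ^ n) * P.bump y n z * P.bump y n z' := by
    unfold bump
    exact mkBump_inv_sub (near_ne hn h) (near_ne hn h')
  rw [h3, norm_mul, norm_mul, mkBump_near_eq hn h, mkBump_near_eq hn h', mul_one, mul_one]
  have hp2 := P.hp.two_le
  obtain ⟨m, rfl⟩ : ∃ m, n = m + 1 + 1 := ⟨n - 2, by omega⟩
  have h4 : ‖((z - y) / P.η) ^ (m + 1 + 1) - ((z' - y) / P.η) ^ (m + 1 + 1)‖ ≤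
      ‖(z - y) / P.η - (z' - y) / P.η‖ * ‖P.η‖ ^ (m + 1) :=
    norm_pow_sub_le (mkBump_near_div h) (mkBump_near_div h') _
  have h5 : ‖(z - y) / P.η - (z' - y) / P.η‖ = ‖z - z'‖ * ‖P.η‖⁻¹ := by
    rw [← sub_div, norm_div, div_eq_mul_inv]
    congr 2
    ring
  rw [h5] at h4
  calc ‖((z - y) / P.η) ^ (m + 1 + 1) - ((z' - y) / P.η) ^ (m + 1 + 1)‖
      ≤ ‖z - z'‖ * ‖P.η‖⁻¹ * ‖P.η‖ ^ (m + 1) := h4
    _ = ‖P.η‖ ^ m * ‖z - z'‖ := by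
        rw [pow_succ]
        field_simp
    _ ≤ ‖P.α‖ ^ 10 * ‖z - z'‖ :=
        mul_le_mul_of_nonneg_right (P.mkBump_pow_le (by omega)) (norm_nonneg _)

end Par

end Pool.Agent.FIC
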