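import Pool.Agent.FIC.MkBump

/-!
# The zone laws of the explicit map in the zones `C` and `X`

`a = ‖α‖`.  Zone `C`: `z, z'` in the closed disk `D(d, q)`, `q = rad a (1/p)`; they have distance `1` to
`w`, `t`, `0`.  `fn z - fn z'` is the sum of
* `c / (z - w) - c / (z' - w)`: norm `≤ ‖c‖ ‖z - z'‖ ≤ a ^ 5 ‖z - z'‖`;
* `α^(4p+2) (...)`: norm `≤ a ^ 10 ‖z - z'‖`; `t (bump - bump')`: `far_dist`, `≤ a ^ 11 ‖z - z'‖`;
* `Pd z bump z - Pd z' bump z' = (Pd z - Pd z') + [Pd z (bump z - 1) - Pd z' (bump z' - 1)]`, `‖Pd‖ ≤ 1`,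
  `‖Pd z - Pd z'‖ ≤ a⁻¹ ‖z - z'‖`, `near_le`, `near_dist`; and
  `‖(h ^ p - h' ^ p) - (h - h') ^ p‖ ≤ ‖p‖ ‖h - h'‖` for `‖h‖, ‖h'‖ ≤ 1` (binomial theorem:
  `(h' + e)^p = h'^p + e^p + ∑ p-divisible terms containing e`), `‖p‖ / a ≤ a ^ 2`;
* `(z / α) bump - (z' / α) bump'`: `far_le`, `far_dist`: `≤ a ^ 10 ‖z - z'‖`.
`fn d - d = c / (d - w) + α^(4p+2) / (d - t)^(4p+1) + t bump + (d bump_d(d) - d = 0) + (d/α) bump`:
norm `≤ a ^ 5` (`bump d n₂ d = 1`).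
Zone `X`: `z, z'` with norm `≤ a ≤ q`; distance `1` to `w`, `t`, `d`: `c` term `≤ a^5 ‖z - z'‖`,
`Pd z bump z`: `‖Pd z‖ ≤ a⁻¹`, `‖Pd z - Pd z'‖ ≤ a⁻¹ ‖z - z'‖`: `≤ a ^ 10 ‖z - z'‖`;
`(z/α) (bump_0 - 1)`: `near_le`, `near_dist`.
-/

open Polynomial

noncomputable section

namespace Pool.Agent.FIC

namespace Par

variable {K : Type*} [NontriviallyNormedField K] [IsUltrametricDist K] (P : Par K)

/-! ### Auxiliary facts -/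

omit [IsUltrametricDist K] in
theorem mc_a_pos : 0 < ‖P.α‖ := norm_pos_iff.2 P.α0

omit [IsUltrametricDist K] in
theorem mc_two_le : (2 : ℚ) ≤ P.p := by exact_mod_cast P.hp.two_le

theorem mc_add_le {x y : K} {C : ℝ} (hx : ‖x‖ ≤ C) (hy : ‖y‖ ≤ C) : ‖x + y‖ ≤ C :=
  (IsUltrametricDist.norm_add_le_max x y).trans (max_le hx hy)

theorem mc_sub_eq {x y z : K} (h : ‖z - y‖ < 1) (h' : ‖y - x‖ = 1) : ‖z - x‖ = 1 := by
  have e : z - x = (z - y) + (y - x) := by ring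
  rw [e, IsUltrametricDist.norm_add_eq_max_of_norm_ne_norm (by rw [h']; exact h.ne), h']
  exact max_eq_right h.le

omit [IsUltrametricDist K] in
theorem mc_pow_le {m n : ℕ} (h : n ≤ m) : ‖P.α‖ ^ m ≤ ‖P.α‖ ^ n :=
  pow_le_pow_of_le_one (norm_nonneg _) P.α1.le h

omit [IsUltrametricDist K] in
theorem mc_c_le : ‖P.c‖ ≤ ‖P.α‖ ^ 5 := by
  rw [P.hc, ← rad_natCast' ‖P.α‖ 5, rad_le' P.mc_a_pos P.α1]
  have h : 0 < (P.p : ℚ) - 1 := by have := P.mc_two_le; linarith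
  have h2 : 0 < 2 / ((P.p : ℚ) - 1) := div_pos two_pos h
  push_cast
  linarith

omit [IsUltrametricDist K] in
theorem mc_q_lt : rad ‖P.α‖ (1 / P.p) < 1 := by
  rw [← rad_zero' ‖P.α‖, rad_lt' P.mc_a_pos P.α1]
  have := P.mc_two_le
  exact div_pos one_pos (by linarith)

omit [IsUltrametricDist K] in
theorem mc_a_le_q : ‖P.α‖ ≤ rad ‖P.α‖ (1 / P.p) := by
  conv_lhs => rw [← rad_one' ‖P.α‖]
  rw [rad_le' P.mc_a_pos P.α1]
  have := P.mc_two_le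
  rw [div_le_one (by linarith)]
  linarith

omit [IsUltrametricDist K] in
/-- `c / (z - w)` -/
theorem mc_c_dist {z z' : K} (h : ‖z - P.w‖ = 1) (h' : ‖z' - P.w‖ = 1) :
    ‖P.c / (z - P.w) - P.c / (z' - P.w)‖ ≤ ‖P.α‖ ^ 5 * ‖z - z'‖ := by
  have h0 : z - P.w ≠ 0 := by rw [← norm_pos_iff, h]; exact one_pos
  have h0' : z' - P.w ≠ 0 := by rw [← norm_pos_iff, h']; exact one_pos
  have e : P.c / (z - P.w) - P.c / (z' - P.w) =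
      P.c * (z' - z) / ((z - P.w) * (z' - P.w)) := by
    field_simp
    ring
  rw [e, norm_div, norm_mul, norm_mul, h, h', norm_sub_rev z' z]
  simp only [mul_one, div_one]
  exact mul_le_mul_of_nonneg_right P.mc_c_le (norm_nonneg _)

/-- the term with pole `t` -/
theorem mc_t_dist {z z' : K} (h : ‖z - P.t‖ = 1) (h' : ‖z' - P.t‖ = 1) :
    ‖P.α ^ (4 * P.p + 2) / (z - P.t) ^ (4 * P.p + 1) -
      P.α ^ (4 * P.p + 2) / (z' - P.t) ^ (4 * P.p + 1)‖ ≤ ‖P.α‖ ^ 10 * ‖z - z'‖ := by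
  have h0 : z - P.t ≠ 0 := by rw [← norm_pos_iff, h]; exact one_pos
  have h0' : z' - P.t ≠ 0 := by rw [← norm_pos_iff, h']; exact one_pos
  have e : P.α ^ (4 * P.p + 2) / (z - P.t) ^ (4 * P.p + 1) -
      P.α ^ (4 * P.p + 2) / (z' - P.t) ^ (4 * P.p + 1) =
      P.α ^ (4 * P.p + 2) * ((z' - P.t) ^ (4 * P.p + 1) - (z - P.t) ^ (4 * P.p + 1)) /
        ((z - P.t) ^ (4 * P.p + 1) * (z' - P.t) ^ (4 * P.p + 1)) := by
    field_simp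
  have hk := norm_pow_sub_le (x := z' - P.t) (y := z - P.t) (M := 1) h'.le h.le (4 * P.p)
  have e2 : z' - P.t - (z - P.t) = z' - z := by ring
  rw [e2, one_pow, mul_one, norm_sub_rev z' z] at hk
  rw [e, norm_div, norm_mul, norm_mul, norm_pow (z - P.t), norm_pow (z' - P.t), h, h', norm_pow]
  simp only [one_pow, mul_one, div_one]
  refine mul_le_mul (P.mc_pow_le ?_) hk (norm_nonneg _) (pow_nonneg (norm_nonneg _) _)
  have := P.hp.two_le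
  omega

theorem mc_Pd_le {z : K} (h : ‖z - P.d‖ ≤ 1) : ‖P.Pd z‖ ≤ ‖P.α‖⁻¹ := by
  have ha := P.mc_a_pos
  have hinv : 1 ≤ ‖P.α‖⁻¹ := (one_le_inv₀ ha).2 P.α1.le
  unfold Pd
  refine mc_add_le (mc_add_le (P.hd.le.trans hinv) ?_) ?_
  · rw [norm_div, norm_pow, div_eq_mul_inv]
    calc ‖z - P.d‖ ^ P.p * ‖P.α‖⁻¹ ≤ 1 * ‖P.α‖⁻¹ :=
          mul_le_mul_of_nonneg_right (pow_le_one₀ (norm_nonneg _) h) (inv_nonneg.2 ha.le)
      _ = ‖P.α‖⁻¹ := one_mul _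
  · rw [norm_mul]
    exact (mul_le_one₀ P.α1.le (norm_nonneg _) h).trans hinv

theorem mc_Pd_dist {z z' : K} (h : ‖z - P.d‖ ≤ 1) (h' : ‖z' - P.d‖ ≤ 1) :
    ‖P.Pd z - P.Pd z'‖ ≤ ‖P.α‖⁻¹ * ‖z - z'‖ := by
  have ha := P.mc_a_pos
  have hinv : 1 ≤ ‖P.α‖⁻¹ := (one_le_inv₀ ha).2 P.α1.le
  have hp1 : P.p - 1 + 1 = P.p := Nat.sub_add_cancel P.hp.one_lt.le
  have hk := norm_pow_sub_le (x := z - P.d) (y := z' - P.d) (M := 1) h h' (P.p - 1)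
  rw [hp1] at hk
  have e2 : z - P.d - (z' - P.d) = z - z' := by ring
  rw [e2, one_pow, mul_one] at hk
  have e : P.Pd z - P.Pd z' =
      ((z - P.d) ^ P.p - (z' - P.d) ^ P.p) / P.α + P.α * (z - z') := by
    unfold Pd
    ring
  rw [e]
  refine mc_add_le ?_ ?_
  · rw [norm_div, div_eq_mul_inv, mul_comm]
    exact mul_le_mul_of_nonneg_left hk (inv_nonneg.2 ha.le)
  · rw [norm_mul]
    exact mul_le_mul_of_nonneg_right (P.α1.le.trans hinv) (norm_nonneg _)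

/-- the binomial theorem -/
theorem mc_binom {h h' : K} (k : ‖h‖ ≤ 1) (k' : ‖h'‖ ≤ 1) :
    ‖h ^ P.p - h' ^ P.p - (h - h') ^ P.p‖ ≤ ‖(P.p : K)‖ * ‖h - h'‖ := by
  have hd : ‖h - h'‖ ≤ 1 := by
    rw [sub_eq_add_neg]
    exact mc_add_le k (by rw [norm_neg]; exact k')
  have e := add_pow_prime_eq P.hp h' (h - h')
  rw [add_sub_cancel] at e
  rw [e]
  have e2 : h' ^ P.p + (h - h') ^ P.p + (P.p : K) * h' * (h - h') *
      ∑ k ∈ Finset.Ioo 0 P.p, h' ^ (k - 1) * (h - h') ^ (P.p - k - 1) * ((P.p.choose k / P.p : ℕ) : K) -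
      h' ^ P.p - (h - h') ^ P.p = (P.p : K) * (h - h') * (h' *
      ∑ k ∈ Finset.Ioo 0 P.p, h' ^ (k - 1) * (h - h') ^ (P.p - k - 1) * ((P.p.choose k / P.p : ℕ) : K)) := by
    ring
  rw [e2, norm_mul, norm_mul]
  have hs : ‖∑ k ∈ Finset.Ioo 0 P.p, h' ^ (k - 1) * (h - h') ^ (P.p - k - 1) *
      ((P.p.choose k / P.p : ℕ) : K)‖ ≤ 1 := by
    refine IsUltrametricDist.norm_sum_le_of_forall_le_of_nonneg zero_le_one fun i _ => ?_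
    rw [norm_mul, norm_mul, norm_pow, norm_pow]
    refine mul_le_one₀ (mul_le_one₀ (pow_le_one₀ (norm_nonneg _) k')
      (pow_nonneg (norm_nonneg _) _) (pow_le_one₀ (norm_nonneg _) hd)) (norm_nonneg _) ?_
    exact IsUltrametricDist.norm_natCast_le_one K _
  have hm : ‖h' * ∑ k ∈ Finset.Ioo 0 P.p, h' ^ (k - 1) * (h - h') ^ (P.p - k - 1) *
      ((P.p.choose k / P.p : ℕ) : K)‖ ≤ 1 := by
    rw [norm_mul]
    exact mul_le_one₀ k' (norm_nonneg _) hs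
  calc ‖(P.p : K)‖ * ‖h - h'‖ * ‖h' * ∑ k ∈ Finset.Ioo 0 P.p, h' ^ (k - 1) *
        (h - h') ^ (P.p - k - 1) * ((P.p.choose k / P.p : ℕ) : K)‖
      ≤ ‖(P.p : K)‖ * ‖h - h'‖ * 1 :=
        mul_le_mul_of_nonneg_left hm (mul_nonneg (norm_nonneg _) (norm_nonneg _))
    _ = ‖(P.p : K)‖ * ‖h - h'‖ := mul_one _

/-- product differences -/
theorem mc_mul_dist {x x' y y' : K} {A B C D E δ : ℝ} (hA : ‖x - x'‖ ≤ A * δ) (hB : ‖y‖ ≤ B)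
    (hC : ‖x'‖ ≤ C) (hD : ‖y - y'‖ ≤ D * δ) (hδ : 0 ≤ δ) (hA0 : 0 ≤ A) (hC0 : 0 ≤ C)
    (h1 : A * B ≤ E) (h2 : C * D ≤ E) : ‖x * y - x' * y'‖ ≤ E * δ := by
  have e : x * y - x' * y' = (x - x') * y + x' * (y - y') := by ring
  rw [e]
  refine mc_add_le ?_ ?_
  · rw [norm_mul]
    calc ‖x - x'‖ * ‖y‖ ≤ (A * δ) * B :=
          mul_le_mul hA hB (norm_nonneg _) (mul_nonneg hA0 hδ)
      _ = (A * B) * δ := by ring
      _ ≤ E * δ := mul_le_mul_of_nonneg_right h1 hδ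
  · rw [norm_mul]
    calc ‖x'‖ * ‖y - y'‖ ≤ C * (D * δ) :=
          mul_le_mul hC hD (norm_nonneg _) hC0
      _ = (C * D) * δ := by ring
      _ ≤ E * δ := mul_le_mul_of_nonneg_right h2 hδ

omit [IsUltrametricDist K] in
theorem mc_inv_mul_pow (n : ℕ) : ‖P.α‖⁻¹ * ‖P.α‖ ^ (n + 1) = ‖P.α‖ ^ n := by
  have ha := P.mc_a_pos
  rw [pow_succ]
  field_simp

/-! ### Zone `C` -/

theorem mc_C_w {z : K} (h : ‖z - P.d‖ ≤ rad ‖P.α‖ (1 / P.p)) : ‖z - P.w‖ = 1 :=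
  mc_sub_eq (h.trans_lt P.mc_q_lt) P.hdw

theorem mc_C_t {z : K} (h : ‖z - P.d‖ ≤ rad ‖P.α‖ (1 / P.p)) : ‖z - P.t‖ = 1 :=
  mc_sub_eq (h.trans_lt P.mc_q_lt) (by rw [norm_sub_rev]; exact P.htd)

theorem mc_C_0 {z : K} (h : ‖z - P.d‖ ≤ rad ‖P.α‖ (1 / P.p)) : ‖z - 0‖ = 1 :=
  mc_sub_eq (h.trans_lt P.mc_q_lt) (by rw [sub_zero]; exact P.hd)

theorem C_nopole {z : K} (h : ‖z - P.d‖ ≤ rad ‖P.α‖ (1 / P.p)) : ¬ P.IsPole z := by
  rintro (h1 | h1 | h1 | h1 | h1)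
  · have := P.mc_C_w h
    rw [h1, sub_self, norm_zero] at this
    exact zero_ne_one this
  · have := P.mc_C_t h
    rw [h1, sub_self, norm_zero] at this
    exact zero_ne_one this
  · exact far_ne P.h₁ (P.mc_C_t h) h1
  · exact near_ne P.h₂ h h1
  · exact far_ne P.h₃ (P.mc_C_0 h) h1

theorem C_law {z z' : K} (h : ‖z - P.d‖ ≤ rad ‖P.α‖ (1 / P.p))
    (h' : ‖z' - P.d‖ ≤ rad ‖P.α‖ (1 / P.p)) :
    ‖P.fn z - P.fn z' - ((z - z') ^ P.p / P.α + P.α * (z - z'))‖ ≤ ‖P.α‖ ^ 2 * ‖z - z'‖ := by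
  have ha := P.mc_a_pos
  have hδ : 0 ≤ ‖z - z'‖ := norm_nonneg _
  have h1 : ‖z - P.d‖ ≤ 1 := h.trans P.mc_q_lt.le
  have h1' : ‖z' - P.d‖ ≤ 1 := h'.trans P.mc_q_lt.le
  have key : ∀ m : ℕ, 2 ≤ m → ‖P.α‖ ^ m * ‖z - z'‖ ≤ ‖P.α‖ ^ 2 * ‖z - z'‖ := fun m hm =>
    mul_le_mul_of_nonneg_right (P.mc_pow_le hm) hδ
  have e : P.fn z - P.fn z' - ((z - z') ^ P.p / P.α + P.α * (z - z')) =
      (P.c / (z - P.w) - P.c / (z' - P.w)) +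
      (P.α ^ (4 * P.p + 2) / (z - P.t) ^ (4 * P.p + 1) -
        P.α ^ (4 * P.p + 2) / (z' - P.t) ^ (4 * P.p + 1)) +
      P.t * (P.bump P.t P.n₁ z - P.bump P.t P.n₁ z') +
      (P.Pd z - P.Pd z' - ((z - z') ^ P.p / P.α + P.α * (z - z'))) +
      (P.Pd z * (P.bump P.d P.n₂ z - 1) - P.Pd z' * (P.bump P.d P.n₂ z' - 1)) +
      (z / P.α * P.bump 0 P.n₃ z - z' / P.α * P.bump 0 P.n₃ z') := by
    unfold fn
    ring
  rw [e]
  refine mc_add_le (mc_add_le (mc_add_le (mc_add_le (mc_add_le ?_ ?_) ?_) ?_) ?_) ?_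
  · exact (P.mc_c_dist (P.mc_C_w h) (P.mc_C_w h')).trans (key 5 (by norm_num))
  · exact (P.mc_t_dist (P.mc_C_t h) (P.mc_C_t h')).trans (key 10 (by norm_num))
  · rw [norm_mul, P.ht, one_mul]
    exact (far_dist P.h₁ (P.mc_C_t h) (P.mc_C_t h')).trans (key 11 (by norm_num))
  · have e3 : P.Pd z - P.Pd z' - ((z - z') ^ P.p / P.α + P.α * (z - z')) =
        ((z - P.d) ^ P.p - (z' - P.d) ^ P.p - ((z - P.d) - (z' - P.d)) ^ P.p) / P.α := by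
      have e4 : (z - P.d) - (z' - P.d) = z - z' := by ring
      rw [e4]
      unfold Pd
      ring
    rw [e3, norm_div, div_le_iff₀ ha]
    refine (P.mc_binom h1 h1').trans ?_
    have e4 : (z - P.d) - (z' - P.d) = z - z' := by ring
    rw [e4]
    calc ‖(P.p : K)‖ * ‖z - z'‖ ≤ ‖P.α‖ ^ 3 * ‖z - z'‖ :=
          mul_le_mul_of_nonneg_right P.hpα hδ
      _ = ‖P.α‖ ^ 2 * ‖z - z'‖ * ‖P.α‖ := by ring
  · refine mc_mul_dist (P.mc_Pd_dist h1 h1') (near_le P.h₂ h) (P.mc_Pd_le h1') (D := ‖P.α‖ ^ 10) ?_ hδ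
      (inv_nonneg.2 ha.le) (inv_nonneg.2 ha.le) ?_ ?_
    · rw [sub_sub_sub_cancel_right]
      exact near_dist P.h₂ h h'
    · rw [P.mc_inv_mul_pow 10]
      exact P.mc_pow_le (by norm_num)
    · rw [P.mc_inv_mul_pow 9]
      exact P.mc_pow_le (by norm_num)
  · refine mc_mul_dist (A := ‖P.α‖⁻¹) (C := ‖P.α‖⁻¹) ?_ (far_le P.h₃ (P.mc_C_0 h)) ?_
      (far_dist P.h₃ (P.mc_C_0 h) (P.mc_C_0 h')) hδ
      (inv_nonneg.2 ha.le) (inv_nonneg.2 ha.le) ?_ ?_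
    · rw [← sub_div, norm_div, div_eq_mul_inv, mul_comm]
    · have := P.mc_C_0 h'
      rw [sub_zero] at this
      rw [norm_div, this, one_div]
    · rw [P.mc_inv_mul_pow 10]
      exact P.mc_pow_le (by norm_num)
    · rw [P.mc_inv_mul_pow 10]
      exact P.mc_pow_le (by norm_num)

theorem C_zero : ‖P.fn P.d - P.d‖ ≤ ‖P.α‖ ^ 5 := by
  have ha := P.mc_a_pos
  have hd : ‖P.d - P.d‖ ≤ rad ‖P.α‖ (1 / P.p) := by
    rw [sub_self, norm_zero]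
    exact (rad_pos' ha _).le
  have hp := P.hp.two_le
  have hn₂ : P.n₂ ≠ 0 := by have := P.h₂; omega
  have hb : P.bump P.d P.n₂ P.d = 1 := by
    unfold bump
    rw [sub_self, zero_div, zero_pow hn₂, sub_zero, inv_one]
  have hPd : P.Pd P.d = P.d := by
    unfold Pd
    rw [sub_self, zero_pow P.hp.ne_zero, zero_div, mul_zero, add_zero, add_zero]
  have e : P.fn P.d - P.d = P.c / (P.d - P.w) +
      P.α ^ (4 * P.p + 2) / (P.d - P.t) ^ (4 * P.p + 1) +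
      P.t * P.bump P.t P.n₁ P.d + P.d / P.α * P.bump 0 P.n₃ P.d := by
    unfold fn
    rw [hb, hPd]
    ring
  rw [e]
  refine mc_add_le (mc_add_le (mc_add_le ?_ ?_) ?_) ?_
  · rw [norm_div, P.mc_C_w hd, div_one]
    exact P.mc_c_le
  · rw [norm_div, norm_pow, norm_pow, P.mc_C_t hd, one_pow, div_one]
    exact P.mc_pow_le (by omega)
  · rw [norm_mul, P.ht, one_mul]
    exact (far_le P.h₁ (P.mc_C_t hd)).trans (P.mc_pow_le (by norm_num))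
  · rw [norm_mul, norm_div, P.hd, one_div]
    calc ‖P.α‖⁻¹ * ‖P.bump 0 P.n₃ P.d‖ ≤ ‖P.α‖⁻¹ * ‖P.α‖ ^ 11 :=
          mul_le_mul_of_nonneg_left (far_le P.h₃ (P.mc_C_0 hd)) (inv_nonneg.2 ha.le)
      _ = ‖P.α‖ ^ 10 := P.mc_inv_mul_pow 10
      _ ≤ ‖P.α‖ ^ 5 := P.mc_pow_le (by norm_num)

/-! ### Zone `X` -/

theorem mc_X_w {z : K} (h : ‖z‖ ≤ ‖P.α‖) : ‖z - P.w‖ = 1 :=
  mc_sub_eq (y := 0) (by rw [sub_zero]; exact h.trans_lt P.α1)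
    (by rw [zero_sub, norm_neg]; exact P.hw)

theorem mc_X_t {z : K} (h : ‖z‖ ≤ ‖P.α‖) : ‖z - P.t‖ = 1 :=
  mc_sub_eq (y := 0) (by rw [sub_zero]; exact h.trans_lt P.α1)
    (by rw [zero_sub, norm_neg]; exact P.ht)

theorem mc_X_d {z : K} (h : ‖z‖ ≤ ‖P.α‖) : ‖z - P.d‖ = 1 :=
  mc_sub_eq (y := 0) (by rw [sub_zero]; exact h.trans_lt P.α1)
    (by rw [zero_sub, norm_neg]; exact P.hd)

omit [IsUltrametricDist K] in
theorem mc_X_0 {z : K} (h : ‖z‖ ≤ ‖P.α‖) : ‖z - 0‖ ≤ rad ‖P.α‖ (1 / P.p) := by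
  rw [sub_zero]
  exact h.trans P.mc_a_le_q

theorem X_nopole {z : K} (h : ‖z‖ ≤ ‖P.α‖) : ¬ P.IsPole z := by
  rintro (h1 | h1 | h1 | h1 | h1)
  · have := P.mc_X_w h
    rw [h1, sub_self, norm_zero] at this
    exact zero_ne_one this
  · have := P.mc_X_t h
    rw [h1, sub_self, norm_zero] at this
    exact zero_ne_one this
  · exact far_ne P.h₁ (P.mc_X_t h) h1
  · exact far_ne P.h₂ (P.mc_X_d h) h1
  · exact near_ne P.h₃ (P.mc_X_0 h) h1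

theorem X_law {z z' : K} (h : ‖z‖ ≤ ‖P.α‖) (h' : ‖z'‖ ≤ ‖P.α‖) :
    ‖P.fn z - P.fn z' - (z - z') / P.α‖ ≤ ‖P.α‖ ^ 5 * ‖z - z'‖ := by
  have ha := P.mc_a_pos
  have hδ : 0 ≤ ‖z - z'‖ := norm_nonneg _
  have h1 : ‖z - P.d‖ ≤ 1 := (P.mc_X_d h).le
  have h1' : ‖z' - P.d‖ ≤ 1 := (P.mc_X_d h').le
  have key : ∀ m : ℕ, 5 ≤ m → ‖P.α‖ ^ m * ‖z - z'‖ ≤ ‖P.α‖ ^ 5 * ‖z - z'‖ := fun m hm =>
    mul_le_mul_of_nonneg_right (P.mc_pow_le hm) hδ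
  have e : P.fn z - P.fn z' - (z - z') / P.α =
      (P.c / (z - P.w) - P.c / (z' - P.w)) +
      (P.α ^ (4 * P.p + 2) / (z - P.t) ^ (4 * P.p + 1) -
        P.α ^ (4 * P.p + 2) / (z' - P.t) ^ (4 * P.p + 1)) +
      P.t * (P.bump P.t P.n₁ z - P.bump P.t P.n₁ z') +
      (P.Pd z * P.bump P.d P.n₂ z - P.Pd z' * P.bump P.d P.n₂ z') +
      (z / P.α * (P.bump 0 P.n₃ z - 1) - z' / P.α * (P.bump 0 P.n₃ z' - 1)) := by
    unfold fn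
    ring
  rw [e]
  refine mc_add_le (mc_add_le (mc_add_le (mc_add_le ?_ ?_) ?_) ?_) ?_
  · exact P.mc_c_dist (P.mc_X_w h) (P.mc_X_w h')
  · exact (P.mc_t_dist (P.mc_X_t h) (P.mc_X_t h')).trans (key 10 (by norm_num))
  · rw [norm_mul, P.ht, one_mul]
    exact (far_dist P.h₁ (P.mc_X_t h) (P.mc_X_t h')).trans (key 11 (by norm_num))
  · refine mc_mul_dist (P.mc_Pd_dist h1 h1') (far_le P.h₂ (P.mc_X_d h)) (P.mc_Pd_le h1')
      (far_dist P.h₂ (P.mc_X_d h) (P.mc_X_d h')) hδ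
      (inv_nonneg.2 ha.le) (inv_nonneg.2 ha.le) ?_ ?_
    · rw [P.mc_inv_mul_pow 10]
      exact P.mc_pow_le (by norm_num)
    · rw [P.mc_inv_mul_pow 10]
      exact P.mc_pow_le (by norm_num)
  · refine mc_mul_dist (A := ‖P.α‖⁻¹) (C := ‖P.α‖⁻¹) ?_ (near_le P.h₃ (P.mc_X_0 h)) ?_
      (D := ‖P.α‖ ^ 10) ?_ hδ (inv_nonneg.2 ha.le) (inv_nonneg.2 ha.le) ?_ ?_
    · rw [← sub_div, norm_div, div_eq_mul_inv, mul_comm]
    · rw [norm_div, div_eq_mul_inv]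
      calc ‖z'‖ * ‖P.α‖⁻¹ ≤ 1 * ‖P.α‖⁻¹ :=
            mul_le_mul_of_nonneg_right (h'.trans P.α1.le) (inv_nonneg.2 ha.le)
        _ = ‖P.α‖⁻¹ := one_mul _
    · rw [sub_sub_sub_cancel_right]
      exact near_dist P.h₃ (P.mc_X_0 h) (P.mc_X_0 h')
    · rw [P.mc_inv_mul_pow 10]
      exact P.mc_pow_le (by norm_num)
    · rw [P.mc_inv_mul_pow 9]
      exact P.mc_pow_le (by norm_num)

theorem X_zero : ‖P.fn 0‖ ≤ ‖P.α‖ ^ 5 := by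
  have ha := P.mc_a_pos
  have h0 : ‖(0 : K)‖ ≤ ‖P.α‖ := by rw [norm_zero]; exact ha.le
  have hp := P.hp.two_le
  have e : P.fn 0 = P.c / (0 - P.w) + P.α ^ (4 * P.p + 2) / (0 - P.t) ^ (4 * P.p + 1) +
      P.t * P.bump P.t P.n₁ 0 + P.Pd 0 * P.bump P.d P.n₂ 0 := by
    unfold fn
    rw [zero_div, zero_mul, add_zero]
  rw [e]
  refine mc_add_le (mc_add_le (mc_add_le ?_ ?_) ?_) ?_
  · rw [norm_div, P.mc_X_w h0, div_one]
    exact P.mc_c_le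
  · rw [norm_div, norm_pow, norm_pow, P.mc_X_t h0, one_pow, div_one]
    exact P.mc_pow_le (by omega)
  · rw [norm_mul, P.ht, one_mul]
    exact (far_le P.h₁ (P.mc_X_t h0)).trans (P.mc_pow_le (by norm_num))
  · rw [norm_mul]
    calc ‖P.Pd 0‖ * ‖P.bump P.d P.n₂ 0‖ ≤ ‖P.α‖⁻¹ * ‖P.α‖ ^ 11 :=
          mul_le_mul (P.mc_Pd_le (P.mc_X_d h0).le) (far_le P.h₂ (P.mc_X_d h0)) (norm_nonneg _)
            (inv_nonneg.2 ha.le)
      _ = ‖P.α‖ ^ 10 := P.mc_inv_mul_pow 10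
      _ ≤ ‖P.α‖ ^ 5 := P.mc_pow_le (by norm_num)

end Par

end Pool.Agent.FIC
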