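import Pool.Agent.FIC.Mk0

/-!
# The explicit map as a rational map

`RatMap.sum f g` (coprime denominators): `(P₁ Q₂ + P₂ Q₁) / (Q₁ Q₂)`.  The map is the sum of the five
fractions `c / (X - w)`, `α^(4p+2) / (X - t)^(4p+1)`, `t / (1 - ((X - t)/η)^n₁)`,
`(d + (X-d)^p / α + α (X-d)) / (1 - ((X - d)/η)^n₂)`, `(X/α) / (1 - (X/η)^n₃)`.
Each is reduced: at a zero of the denominator `‖z - y‖ = ‖η‖` (`((z-y)/η)^n = 1`), and there the
numerator is not zero (`‖(z-d)^p / α‖ = rad a (1/2 - 1) > 1`).  The denominators have no common zeros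
(their zeros are in the disks of radius `‖η‖ < 1` around `t`, `t`, `d`, `0`, and the points `w`, `t`;
`((t - t)/η)^n₁ = 0 ≠ 1`).  Use `Polynomial.isCoprime_iff_aeval_ne_zero_of_isAlgClosed` or similar.
Degrees: all numerators have smaller degree than the denominators (`p < n₂`), so this holds for the sums
(`deg (P₁ Q₂ + P₂ Q₁) < deg (Q₁ Q₂)`).  `w` is a simple zero of the denominator.
-/

open Polynomial

noncomputable section

namespace Pool.Agent.FIC

variable {K : Type*} [NontriviallyNormedField K]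

/-- the sum of two rational maps with coprime denominators -/
def RatMap.sum (f g : RatMap K) (h : IsCoprime f.Q g.Q) : RatMap K where
  P := f.P * g.Q + g.P * f.Q
  Q := f.Q * g.Q
  coprime := by
    refine IsCoprime.mul_right ?_ ?_
    · have h1 : IsCoprime (f.P * g.Q) f.Q := IsCoprime.mul_left f.coprime h.symm
      exact h1.add_mul_right_left g.P
    · have h1 : IsCoprime (g.P * f.Q) g.Q := IsCoprime.mul_left g.coprime h
      rw [add_comm]
      exact h1.add_mul_right_left f.P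

namespace MkRat

/-- `f` has a denominator of degree `n` and a numerator of degree at most `n` -/
def Deg (f : RatMap K) (n : ℕ) : Prop :=
  f.P.natDegree ≤ n ∧ f.Q.natDegree = n ∧ f.Q ≠ 0

theorem deg_sum {f g : RatMap K} {m n : ℕ} (hf : Deg f m) (hg : Deg g n)
    (h : IsCoprime f.Q g.Q) : Deg (f.sum g h) (m + n) := by
  obtain ⟨hf1, hf2, hf3⟩ := hf
  obtain ⟨hg1, hg2, hg3⟩ := hg
  refine ⟨?_, ?_, mul_ne_zero hf3 hg3⟩
  · change (f.P * g.Q + g.P * f.Q).natDegree ≤ m + n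
    refine natDegree_add_le_of_degree_le ?_ ?_
    · exact natDegree_mul_le.trans (add_le_add hf1 hg2.le)
    · refine natDegree_mul_le.trans ?_
      rw [add_comm m n]
      exact add_le_add hg1 hf2.le
  · change (f.Q * g.Q).natDegree = m + n
    rw [natDegree_mul hf3 hg3, hf2, hg2]

theorem ev_sum {f g : RatMap K} (h : IsCoprime f.Q g.Q) {z : K} (hf : f.Q.eval z ≠ 0)
    (hg : g.Q.eval z ≠ 0) : (f.sum g h).ev z = f.ev z + g.ev z := by
  change (f.P * g.Q + g.P * f.Q).eval z / (f.Q * g.Q).eval z =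
    f.P.eval z / f.Q.eval z + g.P.eval z / g.Q.eval z
  rw [eval_add, eval_mul, eval_mul, eval_mul]
  field_simp

theorem Q_sum {f g : RatMap K} (h : IsCoprime f.Q g.Q) (z : K) :
    (f.sum g h).Q.eval z = 0 ↔ f.Q.eval z = 0 ∨ g.Q.eval z = 0 := by
  change (f.Q * g.Q).eval z = 0 ↔ _
  rw [eval_mul, mul_eq_zero]

theorem der_sum {f g : RatMap K} (h : IsCoprime f.Q g.Q) {w : K} (h0 : f.Q.eval w = 0)
    (h1 : f.Q.derivative.eval w ≠ 0) (h2 : g.Q.eval w ≠ 0) :
    (f.sum g h).Q.derivative.eval w ≠ 0 := by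
  change (f.Q * g.Q).derivative.eval w ≠ 0
  rw [derivative_mul, eval_add, eval_mul, eval_mul, h0, zero_mul, add_zero]
  exact mul_ne_zero h1 h2

theorem isCoprime_unit_left {f g : K[X]} (h : IsUnit f) : IsCoprime f g := by
  obtain ⟨u, hu⟩ := h.exists_left_inv
  exact ⟨u, 0, by rw [zero_mul, add_zero, hu]⟩

theorem coprime_of_no_root [IsAlgClosed K] {f g : K[X]}
    (h : ∀ z, f.eval z = 0 → g.eval z = 0 → False) : IsCoprime f g := by
  refine (isCoprime_iff_aeval_ne_zero_of_isAlgClosed K K f g).2 ?_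
  intro z
  rw [coe_aeval_eq_eval]
  by_cases hf : f.eval z = 0
  · exact Or.inr fun hg => h z hf hg
  · exact Or.inl hf

/-- the denominators of the bump functions -/
def B (η y : K) (n : ℕ) : K[X] := 1 - (C η⁻¹ * (X - C y)) ^ n

theorem eval_B (η y : K) (n : ℕ) (z : K) : (B η y n).eval z = 1 - ((z - y) / η) ^ n := by
  unfold B
  rw [eval_sub, eval_one, eval_pow, eval_mul, eval_C, eval_sub, eval_X, eval_C, div_eq_inv_mul]

theorem B_eq_zero {η y : K} {n : ℕ} {z : K} : (B η y n).eval z = 0 ↔ ((z - y) / η) ^ n = 1 := by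
  rw [eval_B, sub_eq_zero, eq_comm]

theorem natDegree_lin {η : K} (hη : η ≠ 0) (y : K) : (C η⁻¹ * (X - C y)).natDegree = 1 := by
  rw [natDegree_C_mul (inv_ne_zero hη), natDegree_X_sub_C]

theorem natDegree_B {η : K} (hη : η ≠ 0) (y : K) {n : ℕ} (hn : 0 < n) :
    (B η y n).natDegree = n := by
  unfold B
  have h1 : ((C η⁻¹ * (X - C y)) ^ n).natDegree = n := by
    rw [natDegree_pow, natDegree_lin hη, mul_one]
  rw [natDegree_sub_eq_right_of_natDegree_lt, h1]
  rw [h1, natDegree_one]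
  exact hn

theorem norm_of_root {η y : K} (hη : η ≠ 0) {n : ℕ} (hn : 0 < n) {z : K}
    (h : ((z - y) / η) ^ n = 1) : ‖z - y‖ = ‖η‖ := by
  have h1 : ‖(z - y) / η‖ ^ n = 1 := by rw [← norm_pow, h, norm_one]
  have h2 : ‖(z - y) / η‖ = 1 := (pow_eq_one_iff_of_nonneg (norm_nonneg _) hn.ne').1 h1
  rw [norm_div, div_eq_one_iff_eq (norm_ne_zero_iff.2 hη)] at h2
  exact h2

variable (P : Par K)

theorem eta_ne : P.η ≠ 0 := by
  intro h
  have h1 := P.hη
  rw [h, zero_pow (by have := P.hp.two_le; omega)] at h1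
  exact P.α0 h1.symm

theorem norm_eta_pow : ‖P.η‖ ^ (2 * P.p) = ‖P.α‖ := by rw [← norm_pow, P.hη]

theorem norm_eta_lt : ‖P.η‖ < 1 := by
  by_contra h
  push Not at h
  have h1 := one_le_pow₀ (n := 2 * P.p) h
  rw [norm_eta_pow] at h1
  exact absurd P.α1 (not_lt.2 h1)

theorem norm_eta_pos : 0 < ‖P.η‖ := norm_pos_iff.2 (eta_ne P)

theorem n_pos {n : ℕ} (h : 22 * P.p ≤ n) : 0 < n := by
  have := P.hp.two_le
  omega

theorem c_ne : P.c ≠ 0 := by
  intro h
  have h1 := P.hc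
  rw [h, norm_zero] at h1
  exact absurd h1 (rad_pos' (norm_pos_iff.2 P.α0) _).ne

theorem ne_zero_of_norm_one {x : K} (h : ‖x‖ = 1) : x ≠ 0 := by
  rintro rfl
  rw [norm_zero] at h
  exact zero_ne_one h

/-- the numerator of the fourth fraction -/
def PdP : K[X] := C P.d + C P.α⁻¹ * (X - C P.d) ^ P.p + C P.α * (X - C P.d)

theorem eval_PdP (z : K) : (PdP P).eval z = P.Pd z := by
  unfold PdP Par.Pd
  simp only [eval_add, eval_C, eval_mul, eval_pow, eval_sub, eval_X]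
  rw [div_eq_inv_mul]

theorem natDegree_PdP : (PdP P).natDegree ≤ P.p := by
  unfold PdP
  have h1 : (X - C P.d : K[X]).natDegree = 1 := natDegree_X_sub_C _
  have hp := P.hp.two_le
  refine natDegree_add_le_of_degree_le (natDegree_add_le_of_degree_le ?_ ?_) ?_
  · rw [natDegree_C]; exact Nat.zero_le _
  · refine (natDegree_C_mul_le _ _).trans ?_
    rw [natDegree_pow, h1, mul_one]
  · refine (natDegree_C_mul_le _ _).trans ?_
    rw [h1]; omega

theorem Pd_ne [IsUltrametricDist K] {z : K} (h : ‖z - P.d‖ = ‖P.η‖) : P.Pd z ≠ 0 := by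
  have hη0 := norm_eta_pos P
  have hη1 := norm_eta_lt P
  have hα0 : 0 < ‖P.α‖ := norm_pos_iff.2 P.α0
  have hp := P.hp.two_le
  have h1 : 1 < ‖(z - P.d) ^ P.p / P.α‖ := by
    rw [norm_div, norm_pow, h, ← norm_eta_pow P, two_mul, pow_add, one_lt_div (by positivity)]
    have h2 : ‖P.η‖ ^ P.p < 1 := pow_lt_one₀ hη0.le hη1 (by omega)
    have h3 : 0 < ‖P.η‖ ^ P.p := by positivity
    nlinarith
  have h2 : ‖P.d + P.α * (z - P.d)‖ ≤ 1 := by
    refine (IsUltrametricDist.norm_add_le_max _ _).trans (max_le P.hd.le ?_)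
    rw [norm_mul, h]
    exact mul_le_one₀ P.α1.le hη0.le hη1.le
  intro h0
  unfold Par.Pd at h0
  have h3 : (z - P.d) ^ P.p / P.α = -(P.d + P.α * (z - P.d)) := by
    linear_combination h0
  rw [h3, norm_neg] at h1
  exact absurd h1 (not_lt.2 h2)

/-- the five fractions -/
def F1 : RatMap K where
  P := C P.c
  Q := X - C P.w
  coprime := isCoprime_unit_left (isUnit_C.2 (c_ne P).isUnit)

def F2 : RatMap K where
  P := C (P.α ^ (4 * P.p + 2))
  Q := (X - C P.t) ^ (4 * P.p + 1)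
  coprime := isCoprime_unit_left (isUnit_C.2 (pow_ne_zero _ P.α0).isUnit)

def F3 : RatMap K where
  P := C P.t
  Q := B P.η P.t P.n₁
  coprime := isCoprime_unit_left (isUnit_C.2 (ne_zero_of_norm_one P.ht).isUnit)

def F4 [IsUltrametricDist K] [IsAlgClosed K] : RatMap K where
  P := PdP P
  Q := B P.η P.d P.n₂
  coprime := coprime_of_no_root fun z h1 h2 => by
    rw [B_eq_zero] at h2
    rw [eval_PdP] at h1
    exact Pd_ne P (norm_of_root (eta_ne P) (n_pos P P.h₂) h2) h1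

def F5 [IsAlgClosed K] : RatMap K where
  P := C P.α⁻¹ * X
  Q := B P.η 0 P.n₃
  coprime := coprime_of_no_root fun z h1 h2 => by
    rw [B_eq_zero] at h2
    rw [eval_mul, eval_C, eval_X] at h1
    have h3 : z = 0 := by
      rcases mul_eq_zero.1 h1 with h | h
      · exact absurd h (inv_ne_zero P.α0)
      · exact h
    rw [h3, sub_zero, zero_div, zero_pow (n_pos P P.h₃).ne'] at h2
    exact zero_ne_one h2

theorem deg1 : Deg (F1 P) 1 := by
  refine ⟨?_, natDegree_X_sub_C _, X_sub_C_ne_zero _⟩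
  change (C P.c).natDegree ≤ 1
  rw [natDegree_C]; exact Nat.zero_le _

theorem deg2 : Deg (F2 P) (4 * P.p + 1) := by
  refine ⟨?_, ?_, pow_ne_zero _ (X_sub_C_ne_zero _)⟩
  · change (C (P.α ^ (4 * P.p + 2))).natDegree ≤ _
    rw [natDegree_C]; exact Nat.zero_le _
  · change ((X - C P.t) ^ (4 * P.p + 1)).natDegree = _
    rw [natDegree_pow, natDegree_X_sub_C, mul_one]

theorem B_ne {y : K} {n : ℕ} (h : 22 * P.p ≤ n) : B P.η y n ≠ 0 := by
  intro h0
  have h1 := natDegree_B (eta_ne P) y (n_pos P h)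
  rw [h0, natDegree_zero] at h1
  exact (n_pos P h).ne h1

theorem deg3 : Deg (F3 P) P.n₁ := by
  refine ⟨?_, natDegree_B (eta_ne P) _ (n_pos P P.h₁), B_ne P P.h₁⟩
  change (C P.t).natDegree ≤ _
  rw [natDegree_C]; exact Nat.zero_le _

theorem deg4 [IsUltrametricDist K] [IsAlgClosed K] : Deg (F4 P) P.n₂ := by
  refine ⟨?_, natDegree_B (eta_ne P) _ (n_pos P P.h₂), B_ne P P.h₂⟩
  refine (natDegree_PdP P).trans ?_
  have := P.h₂
  omega

theorem deg5 [IsAlgClosed K] : Deg (F5 P) P.n₃ := by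
  refine ⟨?_, natDegree_B (eta_ne P) _ (n_pos P P.h₃), B_ne P P.h₃⟩
  change (C P.α⁻¹ * X).natDegree ≤ _
  refine (natDegree_C_mul_le _ _).trans ?_
  rw [natDegree_X]
  have := P.h₃
  have := P.hp.two_le
  omega

/-- two centres at distance `1`: the circles of radius `‖η‖` do not meet -/
theorem far_far [IsUltrametricDist K] {x y z : K} (h : ‖x - y‖ = 1) (h1 : ‖z - x‖ < 1)
    (h2 : ‖z - y‖ < 1) : False := by
  have h3 : ‖x - y‖ < 1 := by
    have h4 : x - y = (z - y) + -(z - x) := by ring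
    rw [h4]
    refine lt_of_le_of_lt (IsUltrametricDist.norm_add_le_max _ _) (max_lt h2 ?_)
    rw [norm_neg]
    exact h1
  exact absurd h h3.ne

theorem root1 {z : K} : (F1 P).Q.eval z = 0 ↔ z = P.w := by
  change (X - C P.w).eval z = 0 ↔ _
  rw [eval_sub, eval_X, eval_C, sub_eq_zero]

theorem root2 {z : K} : (F2 P).Q.eval z = 0 ↔ z = P.t := by
  change ((X - C P.t) ^ (4 * P.p + 1)).eval z = 0 ↔ _
  rw [eval_pow, pow_eq_zero_iff (Nat.succ_ne_zero _), eval_sub, eval_X, eval_C, sub_eq_zero]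

theorem root3 {z : K} : (F3 P).Q.eval z = 0 ↔ ((z - P.t) / P.η) ^ P.n₁ = 1 := B_eq_zero

theorem root4 [IsUltrametricDist K] [IsAlgClosed K] {z : K} :
    (F4 P).Q.eval z = 0 ↔ ((z - P.d) / P.η) ^ P.n₂ = 1 := B_eq_zero

theorem root5 [IsAlgClosed K] {z : K} :
    (F5 P).Q.eval z = 0 ↔ ((z - 0) / P.η) ^ P.n₃ = 1 := B_eq_zero

/-- the zeros of the denominators: they are close to the centres -/
theorem near1 {z : K} (h : (F1 P).Q.eval z = 0) : ‖z - P.w‖ < 1 := by
  rw [(root1 P).1 h, sub_self, norm_zero]; exact one_pos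

theorem near2 {z : K} (h : (F2 P).Q.eval z = 0) : ‖z - P.t‖ < 1 := by
  rw [(root2 P).1 h, sub_self, norm_zero]; exact one_pos

theorem near3 {z : K} (h : (F3 P).Q.eval z = 0) : ‖z - P.t‖ < 1 := by
  rw [norm_of_root (eta_ne P) (n_pos P P.h₁) ((root3 P).1 h)]; exact norm_eta_lt P

theorem near4 [IsUltrametricDist K] [IsAlgClosed K] {z : K} (h : (F4 P).Q.eval z = 0) :
    ‖z - P.d‖ < 1 := by
  rw [norm_of_root (eta_ne P) (n_pos P P.h₂) ((root4 P).1 h)]; exact norm_eta_lt P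

theorem near5 [IsAlgClosed K] {z : K} (h : (F5 P).Q.eval z = 0) : ‖z - 0‖ < 1 := by
  rw [norm_of_root (eta_ne P) (n_pos P P.h₃) ((root5 P).1 h)]; exact norm_eta_lt P

theorem cop12 [IsUltrametricDist K] [IsAlgClosed K] : IsCoprime (F1 P).Q (F2 P).Q :=
  coprime_of_no_root fun _ h1 h2 =>
    far_far (by rw [norm_sub_rev]; exact P.htw) (near1 P h1) (near2 P h2)

theorem cop13 [IsUltrametricDist K] [IsAlgClosed K] : IsCoprime (F1 P).Q (F3 P).Q :=
  coprime_of_no_root fun _ h1 h2 =>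
    far_far (by rw [norm_sub_rev]; exact P.htw) (near1 P h1) (near3 P h2)

theorem cop14 [IsUltrametricDist K] [IsAlgClosed K] : IsCoprime (F1 P).Q (F4 P).Q :=
  coprime_of_no_root fun _ h1 h2 =>
    far_far (by rw [norm_sub_rev]; exact P.hdw) (near1 P h1) (near4 P h2)

theorem cop15 [IsUltrametricDist K] [IsAlgClosed K] : IsCoprime (F1 P).Q (F5 P).Q :=
  coprime_of_no_root fun _ h1 h2 =>
    far_far (by rw [sub_zero]; exact P.hw) (near1 P h1) (near5 P h2)

theorem cop23 [IsUltrametricDist K] [IsAlgClosed K] : IsCoprime (F2 P).Q (F3 P).Q :=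
  coprime_of_no_root fun z h1 h2 => by
    rw [(root2 P).1 h1] at h2
    rw [root3, sub_self, zero_div, zero_pow (n_pos P P.h₁).ne'] at h2
    exact zero_ne_one h2

theorem cop24 [IsUltrametricDist K] [IsAlgClosed K] : IsCoprime (F2 P).Q (F4 P).Q :=
  coprime_of_no_root fun _ h1 h2 => far_far P.htd (near2 P h1) (near4 P h2)

theorem cop25 [IsUltrametricDist K] [IsAlgClosed K] : IsCoprime (F2 P).Q (F5 P).Q :=
  coprime_of_no_root fun _ h1 h2 =>
    far_far (by rw [sub_zero]; exact P.ht) (near2 P h1) (near5 P h2)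

theorem cop34 [IsUltrametricDist K] [IsAlgClosed K] : IsCoprime (F3 P).Q (F4 P).Q :=
  coprime_of_no_root fun _ h1 h2 => far_far P.htd (near3 P h1) (near4 P h2)

theorem cop35 [IsUltrametricDist K] [IsAlgClosed K] : IsCoprime (F3 P).Q (F5 P).Q :=
  coprime_of_no_root fun _ h1 h2 =>
    far_far (by rw [sub_zero]; exact P.ht) (near3 P h1) (near5 P h2)

theorem cop45 [IsUltrametricDist K] [IsAlgClosed K] : IsCoprime (F4 P).Q (F5 P).Q :=
  coprime_of_no_root fun _ h1 h2 =>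
    far_far (by rw [sub_zero]; exact P.hd) (near4 P h1) (near5 P h2)

end MkRat

open MkRat in
theorem Par.exists_rat [IsUltrametricDist K] [IsAlgClosed K] (P : Par K) : ∃ F : RatMap K,
    F.degree = 1 + (4 * P.p + 1) + P.n₁ + P.n₂ + P.n₃ ∧ F.P.natDegree ≤ F.Q.natDegree ∧
    (∀ z, F.Q.eval z = 0 ↔ P.IsPole z) ∧ (∀ z, ¬ P.IsPole z → F.ev z = P.fn z) ∧
    F.Q.derivative.eval P.w ≠ 0 := by
  let G2 := (F1 P).sum (F2 P) (cop12 P)
  have c3 : IsCoprime G2.Q (F3 P).Q := IsCoprime.mul_left (cop13 P) (cop23 P)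
  let G3 := G2.sum (F3 P) c3
  have c4 : IsCoprime G3.Q (F4 P).Q :=
    IsCoprime.mul_left (IsCoprime.mul_left (cop14 P) (cop24 P)) (cop34 P)
  let G4 := G3.sum (F4 P) c4
  have c5 : IsCoprime G4.Q (F5 P).Q :=
    IsCoprime.mul_left (IsCoprime.mul_left (IsCoprime.mul_left (cop15 P) (cop25 P)) (cop35 P))
      (cop45 P)
  let G5 := G4.sum (F5 P) c5
  have hdeg : Deg G5 (1 + (4 * P.p + 1) + P.n₁ + P.n₂ + P.n₃) :=
    deg_sum (deg_sum (deg_sum (deg_sum (deg1 P) (deg2 P) _) (deg3 P) _) (deg4 P) _) (deg5 P) _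
  have hroot : ∀ z, G5.Q.eval z = 0 ↔ P.IsPole z := by
    intro z
    rw [Q_sum, Q_sum, Q_sum, Q_sum, root1, root2, root3, root4, root5]
    unfold Par.IsPole
    tauto
  refine ⟨G5, ?_, ?_, hroot, ?_, ?_⟩
  · unfold RatMap.degree
    rw [hdeg.2.1]
    exact max_eq_right hdeg.1
  · rw [hdeg.2.1]
    exact hdeg.1
  · intro z hz
    have hz' : ¬ G5.Q.eval z = 0 := fun h => hz ((hroot z).1 h)
    rw [Q_sum, Q_sum, Q_sum, Q_sum] at hz'
    push Not at hz'
    obtain ⟨⟨⟨⟨h1, h2⟩, h3⟩, h4⟩, h5⟩ := hz'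
    have e2 : G2.Q.eval z ≠ 0 := fun h => by
      rcases (Q_sum _ z).1 h with h | h
      exacts [h1 h, h2 h]
    have e3 : G3.Q.eval z ≠ 0 := fun h => by
      rcases (Q_sum _ z).1 h with h | h
      exacts [e2 h, h3 h]
    have e4 : G4.Q.eval z ≠ 0 := fun h => by
      rcases (Q_sum _ z).1 h with h | h
      exacts [e3 h, h4 h]
    rw [ev_sum c5 e4 h5, ev_sum c4 e3 h4, ev_sum c3 e2 h3, ev_sum (cop12 P) h1 h2]
    have g1 : (F1 P).ev z = P.c / (z - P.w) := by
      change (C P.c).eval z / (X - C P.w).eval z = _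
      rw [eval_C, eval_sub, eval_X, eval_C]
    have g2 : (F2 P).ev z = P.α ^ (4 * P.p + 2) / (z - P.t) ^ (4 * P.p + 1) := by
      change (C (P.α ^ (4 * P.p + 2))).eval z / ((X - C P.t) ^ (4 * P.p + 1)).eval z = _
      rw [eval_C, eval_pow, eval_sub, eval_X, eval_C]
    have g3 : (F3 P).ev z = P.t * P.bump P.t P.n₁ z := by
      change (C P.t).eval z / (B P.η P.t P.n₁).eval z = _
      rw [eval_C, eval_B, div_eq_mul_inv]
      rfl
    have g4 : (F4 P).ev z = P.Pd z * P.bump P.d P.n₂ z := by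
      change (PdP P).eval z / (B P.η P.d P.n₂).eval z = _
      rw [eval_PdP, eval_B, div_eq_mul_inv]
      rfl
    have g5 : (F5 P).ev z = z / P.α * P.bump 0 P.n₃ z := by
      change (C P.α⁻¹ * X).eval z / (B P.η 0 P.n₃).eval z = _
      rw [eval_mul, eval_C, eval_X, eval_B, div_eq_mul_inv, div_eq_inv_mul z]
      rfl
    rw [g1, g2, g3, g4, g5]
    rfl
  · have k1 : (F1 P).Q.eval P.w = 0 := (root1 P).2 rfl
    have k2 : (F2 P).Q.eval P.w ≠ 0 := fun h =>
      far_far P.htw (near2 P h) (near1 P k1)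
    have k3 : (F3 P).Q.eval P.w ≠ 0 := fun h =>
      far_far P.htw (near3 P h) (near1 P k1)
    have k4 : (F4 P).Q.eval P.w ≠ 0 := fun h =>
      far_far P.hdw (near4 P h) (near1 P k1)
    have k5 : (F5 P).Q.eval P.w ≠ 0 := fun h =>
      far_far (by rw [sub_zero]; exact P.hw) (near1 P k1) (near5 P h)
    have d1 : (F1 P).Q.derivative.eval P.w ≠ 0 := by
      change (X - C P.w).derivative.eval P.w ≠ 0
      rw [derivative_X_sub_C, eval_one]
      exact one_ne_zero
    have d2 := der_sum (cop12 P) k1 d1 k2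
    have z2 : G2.Q.eval P.w = 0 := (Q_sum _ _).2 (Or.inl k1)
    have d3 := der_sum c3 z2 d2 k3
    have z3 : G3.Q.eval P.w = 0 := (Q_sum _ _).2 (Or.inl z2)
    have d4 := der_sum c4 z3 d3 k4
    have z4 : G4.Q.eval P.w = 0 := (Q_sum _ _).2 (Or.inl z3)
    exact der_sum c5 z4 d4 k5

end Pool.Agent.FIC
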