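import Pool.Agent.FIC.MkT
import Pool.Agent.FIC.MkC
import Pool.Agent.FIC.MkRat

/-!
# Existence of systems of every large degree

`exists_par`, `Par.exists_rat`, and the zone laws of `MkC`, `MkT`.
-/

open Polynomial

noncomputable section

namespace Pool.Agent.FIC

theorem exists_sys {K : Type*} [NontriviallyNormedField K] [IsUltrametricDist K] [IsAlgClosed K]
    {p : ℕ} (hp : p.Prime) (h : ‖(p : K)‖ < 1) {D : ℕ} (hD : 70 * p + 2 ≤ D) :
    ∃ S : Sys K, S.p = p ∧ S.F.degree = D := by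
  obtain ⟨P, hP, hDeg⟩ := exists_par hp h hD
  obtain ⟨F, hF1, hF2, hF3, hF4, hF5⟩ := P.exists_rat
  have np : ∀ {z : K}, ¬ P.IsPole z → F.Q.eval z ≠ 0 := fun hz h0 => hz ((hF3 _).1 h0)
  refine ⟨{ p := P.p, hp := P.hp, α := P.α, α0 := P.α0, α1 := P.α1, hpα := P.hpα, ι₀ := P.ι₀,
            hι := P.hι, ϑ := P.ϑ, hϑ := P.hϑ, c := P.c, hc := P.hc, t := P.t, d := P.d, w := P.w,
            ht := P.ht, hd := P.hd, hw := P.hw, htd := P.htd, htw := P.htw, hdw := P.hdw, F := F,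
            zC := ?_, zC0 := ?_, zX := ?_, zX0 := ?_, zT := ?_, zT' := ?_, zW := ?_, zW' := ?_,
            pole := (hF3 _).2 (Or.inl rfl), simple := hF5, deg := hF2 }, hP, ?_⟩
  · intro z z' hz hz'
    refine ⟨np (P.C_nopole hz), ?_⟩
    rw [hF4 z (P.C_nopole hz), hF4 z' (P.C_nopole hz')]
    exact P.C_law hz hz'
  · have h0 : ‖P.d - P.d‖ ≤ rad ‖P.α‖ (1 / P.p) := by
      rw [sub_self, norm_zero]
      exact (rad_pos' (norm_pos_iff.2 P.α0) _).le
    rw [hF4 _ (P.C_nopole h0)]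
    exact P.C_zero
  · intro z z' hz hz'
    refine ⟨np (P.X_nopole hz), ?_⟩
    rw [hF4 z (P.X_nopole hz), hF4 z' (P.X_nopole hz')]
    exact P.X_law hz hz'
  · have h0 : ‖(0 : K)‖ ≤ ‖P.α‖ := by rw [norm_zero]; exact norm_nonneg _
    rw [hF4 _ (P.X_nopole h0)]
    exact P.X_zero
  · intro z hz hz'
    refine ⟨np (P.T_nopole hz hz'), ?_⟩
    rw [hF4 _ (P.T_nopole hz hz')]
    exact P.T_val hz hz'
  · intro z z' h1 h2 h3 h4
    rw [hF4 _ (P.T_nopole h1 h2), hF4 _ (P.T_nopole h3 h4)]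
    exact P.T_law h1 h2 h3 h4
  · intro z hz hz'
    refine ⟨np (P.W_nopole hz hz'), ?_⟩
    rw [hF4 _ (P.W_nopole hz hz')]
    exact P.W_val hz hz'
  · intro z z' h1 h2 h3 h4
    rw [hF4 _ (P.W_nopole h1 h2), hF4 _ (P.W_nopole h3 h4)]
    exact P.W_law h1 h2 h3 h4
  · change F.degree = D
    rw [hF1, hP]
    exact hDeg

end Pool.Agent.FIC
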