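import Pool.Agent.FIC.MkC

/-!
# The zone laws of the explicit map in the zones `T` and `W`, and the existence of systems

Zone `T`: `‖z - t‖ ≤ rad a (1 - 1/N^2) ≤ rad a (1/p)`, `z ≠ t`; distance `1` to `w`, `d`, `0`.
`fn z - (t + α^(4p+2)/(z-t)^(4p+1)) = c/(z - w) + t (bump - 1) + Pd z bump + (z/α) bump`: `near_le`,
`far_le`, `‖Pd z‖ ≤ a⁻¹`, `‖c‖ ≤ a ^ 5`; differences: `near_dist`, `far_dist`.
Zone `W`: `‖z - w‖ ≤ ‖ι₀‖ < 1`; distance `1` to `t`, `d`, `0`; all terms except `c / (z - w)` are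
`≤ a ^ 10`: `α^(4p+2) / (z - t)^(4p+1)` (`4p + 2 ≥ 10`), `t bump`, `Pd bump` (`a⁻¹ a ^ 11`),
`(z/α) bump`.
`exists_sys`: `exists_par`, `Par.exists_rat`.
-/

open Polynomial

noncomputable section

namespace Pool.Agent.FIC

namespace Par

variable {K : Type*} [NontriviallyNormedField K] [IsUltrametricDist K] (P : Par K)

/-! ### Auxiliary facts -/

/-- `(z / α) bump` far from `0` -/
theorem mt_z_le {z : K} (h : ‖z - 0‖ = 1) : ‖z / P.α * P.bump 0 P.n₃ z‖ ≤ ‖P.α‖ ^ 10 := by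
  have ha := P.mc_a_pos
  have hz : ‖z‖ = 1 := by rwa [sub_zero] at h
  rw [norm_mul, norm_div, hz, one_div]
  calc ‖P.α‖⁻¹ * ‖P.bump 0 P.n₃ z‖ ≤ ‖P.α‖⁻¹ * ‖P.α‖ ^ 11 :=
        mul_le_mul_of_nonneg_left (far_le P.h₃ h) (inv_nonneg.2 ha.le)
    _ = ‖P.α‖ ^ 10 := P.mc_inv_mul_pow 10

theorem mt_z_dist {z z' : K} (h : ‖z - 0‖ = 1) (h' : ‖z' - 0‖ = 1) :
    ‖z / P.α * P.bump 0 P.n₃ z - z' / P.α * P.bump 0 P.n₃ z'‖ ≤ ‖P.α‖ ^ 10 * ‖z - z'‖ := by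
  have ha := P.mc_a_pos
  refine mc_mul_dist (A := ‖P.α‖⁻¹) (C := ‖P.α‖⁻¹) ?_ (far_le P.h₃ h) ?_
    (far_dist P.h₃ h h') (norm_nonneg _) (inv_nonneg.2 ha.le) (inv_nonneg.2 ha.le)
    (P.mc_inv_mul_pow 10).le (P.mc_inv_mul_pow 10).le
  · rw [← sub_div, norm_div, div_eq_mul_inv, mul_comm]
  · rw [sub_zero] at h'
    rw [norm_div, h', one_div]

/-- `Pd bump` far from `d` -/
theorem mt_Pd_le {z : K} (h : ‖z - P.d‖ = 1) : ‖P.Pd z * P.bump P.d P.n₂ z‖ ≤ ‖P.α‖ ^ 10 := by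
  have ha := P.mc_a_pos
  rw [norm_mul]
  calc ‖P.Pd z‖ * ‖P.bump P.d P.n₂ z‖ ≤ ‖P.α‖⁻¹ * ‖P.α‖ ^ 11 :=
        mul_le_mul (P.mc_Pd_le h.le) (far_le P.h₂ h) (norm_nonneg _) (inv_nonneg.2 ha.le)
    _ = ‖P.α‖ ^ 10 := P.mc_inv_mul_pow 10

theorem mt_Pd_dist {z z' : K} (h : ‖z - P.d‖ = 1) (h' : ‖z' - P.d‖ = 1) :
    ‖P.Pd z * P.bump P.d P.n₂ z - P.Pd z' * P.bump P.d P.n₂ z'‖ ≤ ‖P.α‖ ^ 10 * ‖z - z'‖ := by
  have ha := P.mc_a_pos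
  exact mc_mul_dist (P.mc_Pd_dist h.le h'.le) (far_le P.h₂ h) (P.mc_Pd_le h'.le)
    (far_dist P.h₂ h h') (norm_nonneg _) (inv_nonneg.2 ha.le) (inv_nonneg.2 ha.le)
    (P.mc_inv_mul_pow 10).le (P.mc_inv_mul_pow 10).le

/-! ### Zone `T` -/

omit [IsUltrametricDist K] in
theorem mt_T_le {z : K} (h' : ‖z - P.t‖ ≤ rad ‖P.α‖ (1 - 1 / (4 * P.p + 1) ^ 2)) :
    ‖z - P.t‖ ≤ rad ‖P.α‖ (1 / P.p) := by
  refine h'.trans ?_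
  rw [rad_le' P.mc_a_pos P.α1]
  have h2 := P.mc_two_le
  have h3 : 1 / (P.p : ℚ) ≤ 1 / 2 := one_div_le_one_div_of_le two_pos h2
  have h4 : 1 / (4 * (P.p : ℚ) + 1) ^ 2 ≤ 1 / 2 := by
    refine one_div_le_one_div_of_le two_pos ?_
    nlinarith
  linarith

theorem mt_T_w {z : K} (h : ‖z - P.t‖ ≤ rad ‖P.α‖ (1 / P.p)) : ‖z - P.w‖ = 1 :=
  mc_sub_eq (h.trans_lt P.mc_q_lt) P.htw

theorem mt_T_d {z : K} (h : ‖z - P.t‖ ≤ rad ‖P.α‖ (1 / P.p)) : ‖z - P.d‖ = 1 :=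
  mc_sub_eq (h.trans_lt P.mc_q_lt) P.htd

theorem mt_T_0 {z : K} (h : ‖z - P.t‖ ≤ rad ‖P.α‖ (1 / P.p)) : ‖z - 0‖ = 1 :=
  mc_sub_eq (h.trans_lt P.mc_q_lt) (by rw [sub_zero]; exact P.ht)

theorem T_nopole {z : K} (h : rad ‖P.α‖ (1 + 1 / (4 * P.p + 1)) ≤ ‖z - P.t‖)
    (h' : ‖z - P.t‖ ≤ rad ‖P.α‖ (1 - 1 / (4 * P.p + 1) ^ 2)) : ¬ P.IsPole z := by
  have hq := P.mt_T_le h'
  rintro (h1 | h1 | h1 | h1 | h1)
  · have := P.mt_T_w hq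
    rw [h1, sub_self, norm_zero] at this
    exact zero_ne_one this
  · rw [h1, sub_self, norm_zero] at h
    exact absurd h (not_le.2 (rad_pos' P.mc_a_pos _))
  · exact near_ne P.h₁ hq h1
  · exact far_ne P.h₂ (P.mt_T_d hq) h1
  · exact far_ne P.h₃ (P.mt_T_0 hq) h1

theorem T_val {z : K} (h : rad ‖P.α‖ (1 + 1 / (4 * P.p + 1)) ≤ ‖z - P.t‖)
    (h' : ‖z - P.t‖ ≤ rad ‖P.α‖ (1 - 1 / (4 * P.p + 1) ^ 2)) :
    ‖P.fn z - (P.t + P.α ^ (4 * P.p + 2) / (z - P.t) ^ (4 * P.p + 1))‖ ≤ ‖P.α‖ ^ 5 := by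
  have hq := P.mt_T_le h'
  have e : P.fn z - (P.t + P.α ^ (4 * P.p + 2) / (z - P.t) ^ (4 * P.p + 1)) =
      P.c / (z - P.w) + P.t * (P.bump P.t P.n₁ z - 1) + P.Pd z * P.bump P.d P.n₂ z +
        z / P.α * P.bump 0 P.n₃ z := by
    unfold fn
    ring
  rw [e]
  refine mc_add_le (mc_add_le (mc_add_le ?_ ?_) ?_) ?_
  · rw [norm_div, P.mt_T_w hq, div_one]
    exact P.mc_c_le
  · rw [norm_mul, P.ht, one_mul]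
    exact (near_le P.h₁ hq).trans (P.mc_pow_le (by norm_num))
  · exact (P.mt_Pd_le (P.mt_T_d hq)).trans (P.mc_pow_le (by norm_num))
  · exact (P.mt_z_le (P.mt_T_0 hq)).trans (P.mc_pow_le (by norm_num))

theorem T_law {z z' : K} (h : rad ‖P.α‖ (1 + 1 / (4 * P.p + 1)) ≤ ‖z - P.t‖)
    (h' : ‖z - P.t‖ ≤ rad ‖P.α‖ (1 - 1 / (4 * P.p + 1) ^ 2))
    (k : rad ‖P.α‖ (1 + 1 / (4 * P.p + 1)) ≤ ‖z' - P.t‖)
    (k' : ‖z' - P.t‖ ≤ rad ‖P.α‖ (1 - 1 / (4 * P.p + 1) ^ 2)) :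
    ‖P.fn z - P.fn z' - (P.α ^ (4 * P.p + 2) / (z - P.t) ^ (4 * P.p + 1) -
      P.α ^ (4 * P.p + 2) / (z' - P.t) ^ (4 * P.p + 1))‖ ≤ ‖P.α‖ ^ 5 * ‖z - z'‖ := by
  have hq := P.mt_T_le h'
  have kq := P.mt_T_le k'
  have key : ∀ m : ℕ, 5 ≤ m → ‖P.α‖ ^ m * ‖z - z'‖ ≤ ‖P.α‖ ^ 5 * ‖z - z'‖ := fun m hm =>
    mul_le_mul_of_nonneg_right (P.mc_pow_le hm) (norm_nonneg _)
  have e : P.fn z - P.fn z' - (P.α ^ (4 * P.p + 2) / (z - P.t) ^ (4 * P.p + 1) -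
      P.α ^ (4 * P.p + 2) / (z' - P.t) ^ (4 * P.p + 1)) =
      (P.c / (z - P.w) - P.c / (z' - P.w)) +
      P.t * (P.bump P.t P.n₁ z - P.bump P.t P.n₁ z') +
      (P.Pd z * P.bump P.d P.n₂ z - P.Pd z' * P.bump P.d P.n₂ z') +
      (z / P.α * P.bump 0 P.n₃ z - z' / P.α * P.bump 0 P.n₃ z') := by
    unfold fn
    ring
  rw [e]
  refine mc_add_le (mc_add_le (mc_add_le ?_ ?_) ?_) ?_
  · exact P.mc_c_dist (P.mt_T_w hq) (P.mt_T_w kq)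
  · rw [norm_mul, P.ht, one_mul]
    exact (near_dist P.h₁ hq kq).trans (key 10 (by norm_num))
  · exact (P.mt_Pd_dist (P.mt_T_d hq) (P.mt_T_d kq)).trans (key 10 (by norm_num))
  · exact (P.mt_z_dist (P.mt_T_0 hq) (P.mt_T_0 kq)).trans (key 10 (by norm_num))

/-! ### Zone `W` -/

omit [IsUltrametricDist K] in
theorem mt_ι_lt : ‖P.ι₀‖ < 1 := by
  by_contra hge
  push Not at hge
  have h1 : (1 : ℝ) ≤ ‖P.ι₀‖ ^ (P.p - 1) := one_le_pow₀ hge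
  rw [← norm_pow, P.hι, norm_pow] at h1
  have h2 : ‖P.α‖ ^ 2 < 1 := pow_lt_one₀ (norm_nonneg _) P.α1 (by norm_num)
  linarith

theorem mt_W_t {z : K} (h : ‖z - P.w‖ ≤ ‖P.ι₀‖) : ‖z - P.t‖ = 1 :=
  mc_sub_eq (h.trans_lt P.mt_ι_lt) (by rw [norm_sub_rev]; exact P.htw)

theorem mt_W_d {z : K} (h : ‖z - P.w‖ ≤ ‖P.ι₀‖) : ‖z - P.d‖ = 1 :=
  mc_sub_eq (h.trans_lt P.mt_ι_lt) (by rw [norm_sub_rev]; exact P.hdw)

theorem mt_W_0 {z : K} (h : ‖z - P.w‖ ≤ ‖P.ι₀‖) : ‖z - 0‖ = 1 :=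
  mc_sub_eq (h.trans_lt P.mt_ι_lt) (by rw [sub_zero]; exact P.hw)

theorem W_nopole {z : K} (h : z ≠ P.w) (h' : ‖z - P.w‖ ≤ ‖P.ι₀‖) : ¬ P.IsPole z := by
  rintro (h1 | h1 | h1 | h1 | h1)
  · exact h h1
  · have := P.mt_W_t h'
    rw [h1, sub_self, norm_zero] at this
    exact zero_ne_one this
  · exact far_ne P.h₁ (P.mt_W_t h') h1
  · exact far_ne P.h₂ (P.mt_W_d h') h1
  · exact far_ne P.h₃ (P.mt_W_0 h') h1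

theorem W_val {z : K} (h : z ≠ P.w) (h' : ‖z - P.w‖ ≤ ‖P.ι₀‖) :
    ‖P.fn z - P.c / (z - P.w)‖ ≤ ‖P.α‖ ^ 10 := by
  have hp := P.hp.two_le
  have e : P.fn z - P.c / (z - P.w) =
      P.α ^ (4 * P.p + 2) / (z - P.t) ^ (4 * P.p + 1) +
      P.t * P.bump P.t P.n₁ z + P.Pd z * P.bump P.d P.n₂ z + z / P.α * P.bump 0 P.n₃ z := by
    unfold fn
    ring
  rw [e]
  refine mc_add_le (mc_add_le (mc_add_le ?_ ?_) ?_) ?_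
  · rw [norm_div, norm_pow, norm_pow, P.mt_W_t h', one_pow, div_one]
    exact P.mc_pow_le (by omega)
  · rw [norm_mul, P.ht, one_mul]
    exact (far_le P.h₁ (P.mt_W_t h')).trans (P.mc_pow_le (by norm_num))
  · exact P.mt_Pd_le (P.mt_W_d h')
  · exact P.mt_z_le (P.mt_W_0 h')

theorem W_law {z z' : K} (h : z ≠ P.w) (h' : ‖z - P.w‖ ≤ ‖P.ι₀‖) (k : z' ≠ P.w)
    (k' : ‖z' - P.w‖ ≤ ‖P.ι₀‖) :
    ‖P.fn z - P.fn z' - (P.c / (z - P.w) - P.c / (z' - P.w))‖ ≤ ‖P.α‖ ^ 10 * ‖z - z'‖ := by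
  have e : P.fn z - P.fn z' - (P.c / (z - P.w) - P.c / (z' - P.w)) =
      (P.α ^ (4 * P.p + 2) / (z - P.t) ^ (4 * P.p + 1) -
        P.α ^ (4 * P.p + 2) / (z' - P.t) ^ (4 * P.p + 1)) +
      P.t * (P.bump P.t P.n₁ z - P.bump P.t P.n₁ z') +
      (P.Pd z * P.bump P.d P.n₂ z - P.Pd z' * P.bump P.d P.n₂ z') +
      (z / P.α * P.bump 0 P.n₃ z - z' / P.α * P.bump 0 P.n₃ z') := by
    unfold fn
    ring
  rw [e]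
  refine mc_add_le (mc_add_le (mc_add_le ?_ ?_) ?_) ?_
  · exact P.mc_t_dist (P.mt_W_t h') (P.mt_W_t k')
  · rw [norm_mul, P.ht, one_mul]
    exact (far_dist P.h₁ (P.mt_W_t h') (P.mt_W_t k')).trans
      (mul_le_mul_of_nonneg_right (P.mc_pow_le (by norm_num)) (norm_nonneg _))
  · exact P.mt_Pd_dist (P.mt_W_d h') (P.mt_W_d k')
  · exact P.mt_z_dist (P.mt_W_0 h') (P.mt_W_0 k')

end Par

end Pool.Agent.FIC
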