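import Pool.Agent.FIC.Path

/-!
# Perturbation of the last part of a path

`tail_ok`: `(b, z)` is a path as in `exists_path`; `‖b' - b‖ < rad (ie + 2)`, `‖z' - z‖ < rad ie`.
* `CRun b' z' M`: `CRun.tube`.
* `Run b z ie (KL M ++ LQ i k)` (`CRun.run`, `Run.mono`: `ie + 1 - 1/N^(i+1) ≤ ie + 1`),
  `GLow (3/2) (KL M ++ LQ i k)` (`KL_glow`, `KL_gains`, `LQ_glow`, `x' ≤ 1/4`).
  `D = max ‖z' - z‖ (rad (ie + 1/2)) < rad ie`; `Run.main` with `g₀ = 3/2`
  (`‖b' - b‖ < rad (ie + 2) ≤ D rad (3/2)`), `norm_slp`: the end points have distance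
  `≤ D rad (gains) < rad (ie + x')`, `gains = 1 + (x' - 1)`.
* `Run b' _ (ie + 1 - 1/N^(i+1)) (LQ i k)`: `Run.tube` with `E = ie + 1 - 1/N^(i+1)`,
  `g₀ = 1/2 + ...` (`LQ_glow`, `‖b' - b‖ < rad (ie + 2) ≤ rad (E + g₀)`), and
  `‖orb b' z' (2M+1) - orb b z (2M+1)‖ ≤ rad (ie + 1)` (`Run.tube` for `KL M`).
* `tail_T`: `x_T` and the block `TB i'`: `Run.main` for `Run b x_T (ie + te i') (TB i')`
  (`TB_run`), `D = rad (ie + te i' + 1/2)`, `x' = x`, `g₀ = 1/4` (`TB_glow`),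
  `TB_gains`: distance `< rad (ie + 1/2) < rad ie`.
-/

open Polynomial

noncomputable section

namespace Pool.Agent.FIC

variable {K : Type*} [NontriviallyNormedField K] [IsUltrametricDist K]

namespace Sys

variable (S : Sys K)

theorem KLQ_glow {i : ℕ} (hi : Odd i) {k : ℕ} (hx : ((k : ℚ) + 1) / (S.N : ℚ) ^ (i + 1) ≤ 1 / 4)
    (M : ℕ) : S.GLow (3 / 2) (KL M ++ S.LQ i k) := by
  rw [S.glow_append]
  refine ⟨(S.KL_glow M).mono (by norm_num), (S.LQ_glow hi k).mono ?_⟩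
  rw [S.KL_gains]
  linarith

/-- the gains of the tail -/
theorem KLQ_gains {i : ℕ} (hi : Odd i) (k M : ℕ) :
    S.gains (KL M ++ S.LQ i k) = ((k : ℚ) + 1) / (S.N : ℚ) ^ (i + 1) := by
  rw [S.gains_append, S.KL_gains, S.LQ_gains hi]
  ring

omit [IsUltrametricDist K] in
theorem KLQ_length (i k M : ℕ) :
    (KL M ++ S.LQ i k).length = 2 * M + 1 + (S.LQ i k).length := by
  rw [List.length_append, KL_length]

theorem tail_ok {b b' z z' : K} {M i k : ℕ} (hi : Odd i)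
    (hx : ((k : ℚ) + 1) / (S.N : ℚ) ^ (i + 1) ≤ 1 / 4) (h1 : S.CRun b z M)
    (h2 : S.Run b (S.orb b z (2 * M + 1)) (S.ie + 1 - 1 / (S.N : ℚ) ^ (i + 1)) (S.LQ i k))
    (h3 : S.orb b z (2 * M + 1 + (S.LQ i k).length) = S.w)
    (hb : ‖b' - b‖ < S.rad (S.ie + 2)) (hz : ‖z' - z‖ < S.rad S.ie) :
    S.CRun b' z' M ∧
    S.Run b' (S.orb b' z' (2 * M + 1)) (S.ie + 1 - 1 / (S.N : ℚ) ^ (i + 1)) (S.LQ i k) ∧
    ‖S.orb b' z' (2 * M + 1 + (S.LQ i k).length) - S.w‖ <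
      S.rad (S.ie + ((k : ℚ) + 1) / (S.N : ℚ) ^ (i + 1)) := by
  have hNpos : (0 : ℚ) < 1 / (S.N : ℚ) ^ (i + 1) := by
    have := S.N_pos
    positivity
  have hb1 : ‖b' - b‖ ≤ S.rad (S.ie + 1) := by
    refine hb.le.trans (S.rad_le.2 ?_)
    linarith
  have hR1 : S.Run b z S.ie (KL M) := h1.run le_rfl
  refine ⟨h1.tube hb1 hz.le, ?_, ?_⟩
  · have ht := (hR1.tube (S.KL_glow M) hb1 hz.le).2
    rw [KL_length, S.KL_gains] at ht
    refine (h2.tube (S.LQ_glow hi k) ?_ (ht.trans (S.rad_le.2 (by linarith)))).1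
    refine hb.le.trans (S.rad_le.2 ?_)
    linarith
  · have hR : S.Run b z S.ie (KL M ++ S.LQ i k) := by
      rw [S.run_append]
      refine ⟨hR1, ?_⟩
      rw [KL_length, S.KL_gains]
      exact h2.mono (by linarith)
    set D : ℝ := max ‖z' - z‖ (S.rad (S.ie + 1 / 2)) with hDdef
    have hDpos : 0 < D := lt_of_lt_of_le (S.rad_pos _) (le_max_right _ _)
    have hDlt : D < S.rad S.ie := max_lt hz (S.rad_lt.2 (by linarith))
    have hDz : ‖z' - z‖ ≤ D := le_max_left _ _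
    have hDb : ‖b' - b‖ < D * S.rad (3 / 2) := by
      refine lt_of_lt_of_le hb ?_
      have : S.rad (S.ie + 2) = S.rad (S.ie + 1 / 2) * S.rad (3 / 2) := by
        rw [← S.rad_add]
        congr 1
        ring
      rw [this]
      exact mul_le_mul_of_nonneg_right (le_max_right _ _) (S.rad_pos _).le
    have hm := hR.main (S.KLQ_glow hi hx M) hDpos hDlt hDz hDb
    have hs := hR.norm_slp
    rw [S.KLQ_length, h3, S.KLQ_gains hi] at hm
    rw [S.KLQ_gains hi] at hs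
    have e : S.orb b' z' (2 * M + 1 + (S.LQ i k).length) - S.w =
        (S.orb b' z' (2 * M + 1 + (S.LQ i k).length) - S.w -
          S.slp b z (KL M ++ S.LQ i k) * (z' - z)) +
        S.slp b z (KL M ++ S.LQ i k) * (z' - z) := by ring
    rw [e]
    refine lt_of_le_of_lt (IsUltrametricDist.norm_add_le_max _ _) ?_
    rw [S.rad_add, norm_mul, hs]
    refine max_lt (hm.trans ?_) ?_
    · exact mul_lt_mul_of_pos_right hDlt (S.rad_pos _)
    · rw [mul_comm]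
      exact mul_lt_mul_of_pos_right hz (S.rad_pos _)

theorem tail_T {b b' x : K} {i' : ℕ} (hb0 : ‖b‖ ≤ S.rad 5)
    (hT : ‖x - S.t‖ = S.rad (S.te i')) (hb : ‖b' - b‖ < S.rad (S.ie + 2)) :
    ‖S.orb b' x (i' + 1) - S.orb b x (i' + 1)‖ < S.rad S.ie := by
  have hie := S.ie_pos
  have hR : S.Run b x (S.ie + S.te i') (S.TB i') := S.TB_run hb0 hT (by linarith)
  have hDlt : S.rad (S.ie + S.te i' + 1 / 2) < S.rad (S.ie + S.te i') :=
    S.rad_lt.2 (by linarith)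
  have hx : ‖x - x‖ ≤ S.rad (S.ie + S.te i' + 1 / 2) := by
    rw [sub_self, norm_zero]
    exact (S.rad_pos _).le
  have hDb : ‖b' - b‖ < S.rad (S.ie + S.te i' + 1 / 2) * S.rad (1 / 4) := by
    rw [← S.rad_add]
    refine lt_of_lt_of_le hb (S.rad_le.2 ?_)
    have h1 := (S.te_range i').2
    have h2 : 1 / (S.N : ℚ) ≤ 1 / 9 := one_div_le_one_div_of_le (by norm_num) S.nine_le_N
    linarith
  have hm := hR.main (S.TB_glow i') (S.rad_pos _) hDlt hx hDb
  rw [S.TB_length, S.TB_gains, sub_self, mul_zero, sub_zero, ← S.rad_add] at hm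
  refine hm.trans (S.rad_lt.2 ?_)
  linarith

end Sys

end Pool.Agent.FIC
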