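import Pool.Agent.FIC.R4
import Pool.Agent.FIC.Tail
import Pool.Agent.FIC.Choose

/-!
# The list of the next state (step (6) of Part 4 of the paper proof)

`nextLp = L ++ [W e₁] ++ L ++ [W e₂] ++ Lp ++ (C X)^M ++ C^(m+1) ++ X^m ++ TB i'`,
`e₁ = gam - E₀`, `e₂ = gam - E₀ + ta`; `E₀' = E₀ + 2 mu + 2 ta + sig`, `sig = te i' - 1`
(`te_even`).  Exponents: `E₀'` (by `L`) to `ie+x+2mu+2ta+sig` (by `W e₁`) to `E₀+mu+2ta+sig`
(by `L`) to `ie+x+mu+2ta+sig` (by `W e₂`) to `E₀+sig` (by `Lp`) to `ie+sig` (by `(CX)^M`) to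
`ie+sig` (by `C^(m+1)`) to `ie+sig+m+1` (by `X^m`) to `ie+sig+1` (by `TB i'`) to `ie`.

* `next_gains`: `gains_L`, `gp`, `CXL_gains`, `TB_gains`, `E₀ = gam - ie - x - mu`.
* `next_run`: `run_append` and `Run.mono`:
  - `Run b₅ b₅ E₀ L` (`tube`), `E₀ ≤ E₀' - δ`;
  - `W e₁`: `R1.dist`, `e₁ = ie + x + mu < ie + x + 2mu + 2ta + sig - δ` (`δ ≤ sig`);
  - `Run b₅ (orb b₅ b₅ (n+1)) E₀ L` (`R1.ret`, `tube`);
  - `W e₂`: `R2.dist`, `e₂ = ie + x + mu + ta < ie + x + mu + 2ta + sig - δ`;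
  - `Run b₅ (orb b₅ b₅ (n+1+n+1)) (E₀ - ta) Lp` (`R2.ret`, `runp'`), `E₀ - ta ≤ E₀ + sig - δ`;
  - `R3.run`, `ie ≤ ie + sig - δ`;
  - `X^m`: `R4.zone`, exponents `ie + sig + m + 1 - δ - j ≥ 1`;
  - `TB i'`: `TB_run`, `te i' = 1 + sig < ie + sig + 1 - δ` (`δ < ie`).
* `next_glow`: all partial gains are `≤ s' - E₀'`, `s' = ie + sig + m + 1`: in `L`: `≤ s - E₀`
  (`low`); `(ie + x - E₀) + gain (W e₁) = - mu ≤ ...`; etc.
-/

open Polynomial

noncomputable section

namespace Pool.Agent.FIC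

variable {K : Type*} [NontriviallyNormedField K]

namespace Sys.State

variable {S : Sys K} (st : S.State)

/-- the list before the contact of the next state -/
def nextLp (m i' : ℕ) : List Step :=
  st.L ++ (Step.W (S.gam - st.E₀) :: (st.L ++ (Step.W (S.gam - st.E₀ + st.ta) :: (st.Lp ++
    (CXL st.M ++ (List.replicate (m + 1) Step.C ++ (List.replicate m Step.X ++ S.TB i')))))))

/-- the new exponent `E₀'` -/
def nextE (i' : ℕ) : ℚ := st.E₀ + 2 * st.mu + 2 * st.ta + 1 / (S.N : ℚ) ^ (i' + 1)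

/-- the new exponent `s'` -/
def nextS (_ : S.State) (m i' : ℕ) : ℚ := S.ie + 1 / (S.N : ℚ) ^ (i' + 1) + m + 1

variable [IsUltrametricDist K]

theorem next_length (m i' : ℕ) : (st.nextLp m i').length = st.N₁ m + m + (i' + 1) := by
  unfold nextLp N₁ Tc m₀
  simp only [List.length_append, List.length_cons, List.length_replicate, length_L, CXL_length,
    TB_length]
  ring

omit [IsUltrametricDist K] in
theorem gains_replicate (S : Sys K) (n : ℕ) (s : Step) :
    S.gains (List.replicate n s) = n * S.gain s := by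
  unfold Sys.gains
  rw [List.map_replicate, List.sum_replicate, nsmul_eq_mul]

omit [IsUltrametricDist K] in
theorem gain_W (S : Sys K) (e : ℚ) : S.gain (.W e) = S.gam - 2 * e := rfl

omit [IsUltrametricDist K] in
theorem gain_C (S : Sys K) : S.gain .C = 1 := rfl

omit [IsUltrametricDist K] in
theorem gain_X (S : Sys K) : S.gain .X = -1 := rfl

theorem next_gains {m i' : ℕ} (hi : Even i') :
    S.gains (st.nextLp m i') = S.ie - st.nextE i' := by
  unfold nextLp nextE
  simp only [gains_append, gains_cons, gains_L, st.gp, CXL_gains, gains_replicate, TB_gains,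
    gain_W, gain_C, gain_X, te_even S hi]
  have h := st.E₀_eq
  push_cast
  linear_combination 2 * h

omit [IsUltrametricDist K] in
theorem run_replicate_X (S : Sys K) {b : K} : ∀ (m : ℕ) {x : K} {E : ℚ},
    (∀ j < m, ‖S.orb b x j‖ ≤ S.rad 1) → (m : ℚ) ≤ E → S.Run b x E (List.replicate m Step.X) := by
  intro m
  induction m with
  | zero => intro x E _ _; trivial
  | succ m ih =>
    intro x E h hE
    push_cast at hE
    rw [List.replicate_succ]
    refine ⟨h 0 (Nat.succ_pos m), ?_, ?_⟩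
    · change (1 : ℚ) ≤ E
      have : (0 : ℚ) ≤ m := Nat.cast_nonneg m
      linarith
    · apply ih
      · intro j hj
        have := h (j + 1) (by omega)
        rwa [S.orb_succ'] at this
      · rw [gain_X]; linarith

theorem next_run {b₁ X₀ b₂ b₄ b₅ : K} {m i' : ℕ} (hi : Even i') (h1 : st.R1 b₁)
    (h2 : st.R2 b₁ X₀ b₂) (h3 : st.R3 b₂ X₀ m b₄) (h4 : st.R4 b₄ X₀ m b₅)
    (hT : ‖S.orb b₅ b₅ (st.N₁ m + m) - S.t‖ = S.rad (S.te i')) {δ : ℚ}
    (hδ : δ ≤ 1 / (S.N : ℚ) ^ (i' + 1)) (hδ' : δ < S.ie) :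
    S.Run b₅ b₅ (st.nextE i' - δ) (st.nextLp m i') := by
  have hb3 := h4.near
  have hb2 := h3.sub b₅ hb3
  have hb1 := h2.sub b₅ hb2
  have hb0 := h1.sub b₅ hb1
  have hmu := st.mu_pos
  have hta := st.ta_pos
  have hxm := st.two_ta_lt
  have hE0 := st.E₀_eq
  have hie := S.ie_pos
  set sig : ℚ := 1 / (S.N : ℚ) ^ (i' + 1) with hsig
  unfold nextLp
  -- first round
  rw [run_append]
  refine ⟨(st.tube hb0 (st.self_le hb0)).1.mono (by unfold nextE; linarith), ?_⟩
  rw [length_L, gains_L]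
  refine ⟨⟨h1.dist b₅ hb1, by linarith⟩, ?_, ?_⟩
  · change S.gam - st.E₀ < st.nextE i' - δ + (S.ie + st.x - st.E₀)
    unfold nextE
    linarith
  rw [← S.orb_succ, gain_W]
  -- second round
  rw [run_append]
  refine ⟨(st.tube hb0 (h1.ret b₅ hb1)).1.mono (by unfold nextE; linarith), ?_⟩
  rw [length_L, gains_L, ← S.orb_add]
  refine ⟨⟨h2.dist b₅ hb2, by linarith⟩, ?_, ?_⟩
  · change S.gam - st.E₀ + st.ta < st.nextE i' - δ + (S.ie + st.x - st.E₀) +
      (S.gam - 2 * (S.gam - st.E₀)) + (S.ie + st.x - st.E₀)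
    unfold nextE
    linarith
  rw [← S.orb_succ, gain_W]
  -- third round
  rw [run_append]
  refine ⟨(st.runp' hb0 (by linarith) (by linarith) (h2.ret b₅ hb2)).1.mono
    (by unfold nextE; linarith), ?_⟩
  rw [← S.orb_add, st.gp]
  -- the deep pass
  rw [← List.append_assoc, run_append]
  refine ⟨(h3.run b₅ hb3).mono (by unfold nextE; linarith), ?_⟩
  have hN : S.orb b₅ (S.orb b₅ b₅ (st.n + 1 + st.n + 1 + st.Lp.length))
      (CXL st.M ++ List.replicate (m + 1) Step.C).length = S.orb b₅ b₅ (st.N₁ m) := by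
    rw [← S.orb_add, List.length_append, CXL_length, List.length_replicate]
    congr 1
    unfold N₁ Tc m₀
    ring
  rw [hN, gains_append, CXL_gains, gains_replicate, gain_C]
  rw [run_append]
  refine ⟨run_replicate_X S m ?_ ?_, ?_⟩
  · intro j hj
    rw [← S.orb_add]
    exact h4.zone j hj
  · push_cast
    unfold nextE
    linarith
  rw [List.length_replicate, ← S.orb_add, gains_replicate, gain_X]
  refine S.TB_run (st.norm_b hb0) hT ?_
  rw [te_even S hi]
  push_cast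
  unfold nextE
  linarith

end Sys.State

end Pool.Agent.FIC
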