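import Pool.Agent.FIC.Next

/-!
# The lower bound for the radii of the next state (S5)

All partial gains of `nextLp ++ KL M' ++ LQ i k` are `≤ nextS - nextE`; equivalently all exponents,
starting from `nextE`, are `≤ nextS = ie + sig + m + 1`.  Use `glow_append`, `GLow.mono`; exponents:
* first `L`: `≤ s + 2mu + 2ta + sig ≤ nextS` (`m2`); after `W e₁`: `E₀ + mu + 2ta + sig ≤ ...` (`E₀ ≤ s`);
* second `L`: `≤ s + mu + 2ta + sig`; after `W e₂`: `E₀ + sig`; `Lp`: `≤ s + sig`;
* `(CX)^M`: `≤ ie + sig + 1`; `C^(m+1)`: `≤ ie + sig + m + 1`; `X^m`: smaller;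
* `TB i'`: from `ie + sig + 1`, `≤ ie + sig + 1 + 1/4`; `KL M' ++ LQ i k` from `ie`: `≤ ie + 3/2`
  (`KLQ_glow`).
-/

open Polynomial

noncomputable section

namespace Pool.Agent.FIC

variable {K : Type*} [NontriviallyNormedField K] [IsUltrametricDist K]

namespace Sys.State

variable {S : Sys K} (st : S.State)

omit [IsUltrametricDist K] in
theorem nextG_replicate_C (S : Sys K) : ∀ (n : ℕ) {g₀ : ℚ}, (n : ℚ) ≤ g₀ →
    S.GLow g₀ (List.replicate n Step.C) := by
  intro n
  induction n with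
  | zero => intro g₀ _; trivial
  | succ n ih =>
    intro g₀ h
    push_cast at h
    rw [List.replicate_succ]
    refine ⟨?_, ih ?_⟩
    · change (1 : ℚ) ≤ g₀
      have : (0 : ℚ) ≤ n := Nat.cast_nonneg n
      linarith
    · change (n : ℚ) ≤ g₀ - 1
      linarith

omit [IsUltrametricDist K] in
theorem nextG_replicate_X (S : Sys K) : ∀ (n : ℕ) {g₀ : ℚ}, -1 ≤ g₀ →
    S.GLow g₀ (List.replicate n Step.X) := by
  intro n
  induction n with
  | zero => intro g₀ _; trivial
  | succ n ih =>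
    intro g₀ h
    rw [List.replicate_succ]
    refine ⟨h, ih ?_⟩
    change (-1 : ℚ) ≤ g₀ - -1
    linarith

theorem next_glow {i' i k M' m : ℕ} {A : ℚ} (h : st.Numbers i' i k M' m A) :
    S.GLow (st.nextS m i' - st.nextE i') (st.nextLp m i' ++ KL M' ++ S.LQ i k) := by
  have hmu := st.mu_pos
  have hta := st.ta_pos
  have hE0 := st.E₀_eq
  have hie := S.ie_pos
  have hm2 := h.m2
  have hEs : st.E₀ ≤ st.s := st.hE
  have hm : (4 : ℚ) ≤ m := by exact_mod_cast h.hm
  have hgam : S.gam = 2 * S.ie + 21 / 4 := rfl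
  have hN : (0 : ℚ) < (S.N : ℚ) ^ (i' + 1) := pow_pos S.N_pos _
  have hsig : 0 < 1 / (S.N : ℚ) ^ (i' + 1) := by positivity
  have hx := st.x_add_mu_le
  have hxm := st.two_ta_lt
  have hA4 : A ≤ 1 / 4 := by rw [h.hA]; linarith
  have hlt := h.lt'
  set sig : ℚ := 1 / (S.N : ℚ) ^ (i' + 1) with hsigdef
  have hsig0 : 0 < sig := hsig
  have eS : st.nextS m i' = S.ie + sig + m + 1 := rfl
  have eE : st.nextE i' = st.E₀ + 2 * st.mu + 2 * st.ta + sig := rfl
  rw [List.append_assoc, S.glow_append, st.next_gains h.even, eS, eE]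
  refine ⟨?_, (S.KLQ_glow h.odd (by linarith) M').mono (by linarith)⟩
  unfold nextLp
  rw [S.glow_append, gains_L]
  refine ⟨st.low_L.mono (by linarith), ?_, ?_⟩
  · rw [gain_W]; linarith
  rw [gain_W, S.glow_append, gains_L]
  refine ⟨st.low_L.mono (by linarith), ?_, ?_⟩
  · rw [gain_W]; linarith
  rw [gain_W, S.glow_append, st.gp]
  refine ⟨st.glow_p.mono (by linarith), ?_⟩
  rw [S.glow_append, S.CXL_gains]
  refine ⟨(S.CXL_glow _).mono (by linarith), ?_⟩
  rw [S.glow_append, gains_replicate, gain_C]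
  refine ⟨nextG_replicate_C S _ (by push_cast; linarith), ?_⟩
  rw [S.glow_append, gains_replicate, gain_X]
  refine ⟨nextG_replicate_X S _ (by push_cast; linarith), ?_⟩
  exact (S.TB_glow i').mono (by push_cast; linarith)

end Sys.State

end Pool.Agent.FIC
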