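import Pool.Agent.FIC.StB
import Pool.Agent.FIC.BX

/-!
# The first return on the closed disk `D(b, r)`

`b` in `B`, `y = b`; `l₀ = slp b b Lp`, `lq = slp b (orb b b (m₀ + (2M+1))) Lq`, `Lam = α ι₀ lq`.
* `pass1`: `Run.main_same` for `Run b b (E₀ - 2 ta) Lp` (`runp'`), `D = rad E₀`:
  `‖orb b x m₀ - orb b b m₀ - ι₀ u‖ < rad ie`, `u = l₀ (x - b) / ι₀`; `CRun.contact` (centre
  `(b₀, orb b₀ b₀ m₀)` or `(b, orb b b m₀)`, `crun'`): difference at `m₀ + (2M+1)` is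
  `α ι₀ A^[M+1] u + (< rad (ie+1))`; `Run.main_same` for `Lq` (`runq'`), `D = rad (ie + 1)`.
  So `‖orb b x n - orb b b n - Lam A^[M+1] u‖ < rad (ie + x)`; and
  `‖orb b b n - w‖ = rad (gam - E₀) < rad (ie + x)`.
* `slp_L`: `slp_append`, `KL_slp`.
* `step2`: `AA = A^[M+1] u`, `‖AA‖ = 1`: `z = orb b x n`, `‖z - w - Lam AA‖ < rad (ie + x)`; `W_val`
  (`e = ie + x`): `x₁ = g b z`, `‖x₁ - b - c / (Lam AA)‖ < rad (gam - ie - x) = ρ`; so `‖x₁ - b‖ = ρ < r`.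
  `Run.main_same` for `Run b b E₀ L` (`tube`), `D = ρ`, `gains_L`:
  `‖orb b x₁ n - orb b b n - (Lam l₀ / ι₀) (x₁ - b)‖ < ρ rad (ie + x - E₀) = rad (gam - E₀)`; so
  `orb b x₁ n - w = (l₀ c / ι₀) (v + 1 / AA) + (< rad (gam - E₀))`, `‖l₀ c / ι₀‖ = rad (gam - E₀)`,
  `v = (orb b b n - w) ι₀ / (l₀ c)`, `‖v + 1/AA‖ = ‖1 + v AA‖ = 1`.  `W_val` (`e = gam - E₀`):
  `‖x' - b - (ι₀ / l₀) / (v + 1/AA)‖ < rad E₀`.
-/

open Polynomial

noncomputable section

namespace Pool.Agent.FIC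

variable {K : Type*} [NontriviallyNormedField K]

namespace Sys.State

variable {S : Sys K} (st : S.State)

/-- slope of the list before contact -/
def l₀ (b : K) : K := S.slp b b st.Lp

/-- the factor `Lam` -/
def Lam (b : K) : K := S.α * S.ι₀ * S.slp b (S.orb b b (st.m₀ + (2 * st.M + 1))) st.Lq

/-- the coordinate `u` of a point of the disk `D(b, r)` -/
def cu (b x : K) : K := st.l₀ b * (x - b) / S.ι₀

/-- the normalised position of `orb b b n` relative to `w` -/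
def vv (b : K) : K := (S.orb b b st.n - S.w) * S.ι₀ / (st.l₀ b * S.c)

variable [IsUltrametricDist K]

theorem pass_run {b : K} (hb : ‖b - st.b₀‖ < S.rad st.s) :
    S.Run b b (st.E₀ - 2 * st.ta) st.Lp := by
  have hta := st.ta_pos
  exact (st.runp' hb (E := st.E₀ - 2 * st.ta) le_rfl (by linarith)
    (hb.le.trans (S.rad_le.2 (by have := st.hE; linarith)))).1

theorem norm_l₀ {b : K} (hb : ‖b - st.b₀‖ < S.rad st.s) : ‖st.l₀ b‖ = S.rad (S.ie - st.E₀) := by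
  unfold l₀
  rw [(st.pass_run hb).norm_slp, st.gp]

theorem pass_slq {b : K} (hb : ‖b - st.b₀‖ < S.rad st.s) :
    ‖S.slp b (S.orb b b (st.m₀ + (2 * st.M + 1))) st.Lq‖ = S.rad (st.x - 1) := by
  rw [(st.runq' hb (st.self_le hb)).norm_slp, st.gq]

theorem norm_Lam {b : K} (hb : ‖b - st.b₀‖ < S.rad st.s) : ‖st.Lam b‖ = S.rad (S.ie + st.x) := by
  unfold Lam
  rw [norm_mul, norm_mul, st.pass_slq hb, S.norm_ι, S.norm_α, ← S.rad_add, ← S.rad_add]
  congr 1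
  ring

theorem slp_L {b : K} (hb : ‖b - st.b₀‖ < S.rad st.s) :
    S.slp b b st.L = st.Lam b * st.l₀ b / S.ι₀ := by
  have hι := S.ι_ne
  unfold L Lam l₀
  rw [S.slp_append, S.slp_append, S.KL_slp, st.length_pk]
  change S.slp b b st.Lp * S.α * S.slp b (S.orb b b (st.m₀ + (2 * st.M + 1))) st.Lq = _
  field_simp

theorem norm_cu {b x : K} (hb : ‖b - st.b₀‖ < S.rad st.s) :
    ‖st.cu b x‖ = S.rad (- st.E₀) * ‖x - b‖ := by
  unfold cu
  rw [norm_div, norm_mul, st.norm_l₀ hb, S.norm_ι, S.rad_sub, S.rad_neg]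
  have h1 := (S.rad_pos S.ie).ne'
  have h2 := (S.rad_pos st.E₀).ne'
  field_simp

theorem pass_cu_le {b x : K} (hb : ‖b - st.b₀‖ < S.rad st.s) (hx : ‖x - b‖ ≤ S.rad st.E₀) :
    ‖st.cu b x‖ ≤ 1 := by
  rw [st.norm_cu hb, S.rad_neg]
  have h := S.rad_pos st.E₀
  calc (S.rad st.E₀)⁻¹ * ‖x - b‖ ≤ (S.rad st.E₀)⁻¹ * S.rad st.E₀ :=
        mul_le_mul_of_nonneg_left hx (inv_nonneg.2 h.le)
    _ = 1 := inv_mul_cancel₀ h.ne'

/-- the position at the time of contact -/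
theorem pass_contact {b : K} (hb : ‖b - st.b₀‖ < S.rad st.s) {x : K}
    (hx : ‖x - b‖ ≤ S.rad st.E₀) :
    ‖S.orb b x st.m₀ - S.orb b b st.m₀ - S.ι₀ * st.cu b x‖ < S.rad S.ie := by
  have hta := st.ta_pos
  have h := (st.pass_run hb).main_same (x' := x) (S.rad_pos st.E₀)
    (S.rad_lt.2 (by linarith)) hx
  rw [st.gp, ← S.rad_add, add_sub_cancel] at h
  have e : S.ι₀ * st.cu b x = S.slp b b st.Lp * (x - b) := by
    unfold cu l₀
    have := S.ι_ne
    field_simp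
  rw [e]
  exact h

theorem pass_lin {b : K} (hb : ‖b - st.b₀‖ < S.rad st.s) {x : K}
    (hx : ‖x - b‖ ≤ S.rad st.E₀) :
    ‖S.orb b x st.n - S.orb b b st.n - st.Lam b * S.A^[st.M + 1] (st.cu b x)‖ <
      S.rad (S.ie + st.x) := by
  have hta := st.ta_pos
  have hu := st.pass_cu_le hb hx
  have h1 := st.pass_contact hb hx
  have hιu : ‖S.ι₀ * st.cu b x‖ ≤ S.rad S.ie := by
    rw [norm_mul, S.norm_ι]
    exact mul_le_of_le_one_right (S.rad_pos _).le hu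
  have hX' : ‖S.orb b x st.m₀ - S.orb b b st.m₀‖ ≤ S.rad S.ie := by
    have e : S.orb b x st.m₀ - S.orb b b st.m₀ =
        (S.orb b x st.m₀ - S.orb b b st.m₀ - S.ι₀ * st.cu b x) + S.ι₀ * st.cu b x := by ring
    rw [e]
    exact steps_add_le h1.le hιu
  have hbb : ‖b - b‖ < S.rad (S.ie + 1) := by
    rw [sub_self, norm_zero]; exact S.rad_pos _
  have h2 := (st.crun' hb (st.self_le hb)).contact (b := b) (b' := b) (X := S.orb b b st.m₀)
    (X' := S.orb b x st.m₀) (u := st.cu b x) hbb hbb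
    (by rw [sub_self, norm_zero]; exact (S.rad_pos _).le) hX' hu h1
  rw [← S.orb_add, ← S.orb_add] at h2
  set Z' := S.orb b x (st.m₀ + (2 * st.M + 1)) with hZ'
  set Z := S.orb b b (st.m₀ + (2 * st.M + 1)) with hZ
  set AA := S.A^[st.M + 1] (st.cu b x) with hAA
  have hA : ‖AA‖ ≤ 1 := S.norm_iterate_A_le hu _
  have hι : ‖S.α * S.ι₀ * AA‖ ≤ S.rad (S.ie + 1) := by
    rw [norm_mul, norm_mul, S.norm_ι, S.norm_α, ← S.rad_add, add_comm (1 : ℚ)]
    exact mul_le_of_le_one_right (S.rad_pos _).le hA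
  have hZZ : ‖Z' - Z‖ ≤ S.rad (S.ie + 1) := by
    have e : Z' - Z = (Z' - Z - S.α * S.ι₀ * AA) + S.α * S.ι₀ * AA := by ring
    rw [e]
    exact steps_add_le h2.le hι
  have hε := st.hε
  have h3 := (st.runq' hb (st.self_le hb)).main_same (x' := Z') (S.rad_pos (S.ie + 1))
    (S.rad_lt.2 (by linarith)) hZZ
  have hn : st.n = st.m₀ + (2 * st.M + 1) + st.Lq.length := rfl
  have e1 : S.orb b x st.n = S.orb b Z' st.Lq.length := by rw [hn, S.orb_add]
  have e2 : S.orb b b st.n = S.orb b Z st.Lq.length := by rw [hn, S.orb_add]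
  rw [← hZ, ← e1, ← e2, st.gq, ← S.rad_add] at h3
  have h4 : ‖S.slp b Z st.Lq * (Z' - Z - S.α * S.ι₀ * AA)‖ < S.rad (S.ie + 1 + (st.x - 1)) := by
    rw [norm_mul, st.pass_slq hb, S.rad_add, mul_comm (S.rad (S.ie + 1))]
    exact mul_lt_mul_of_pos_left h2 (S.rad_pos _)
  have e3 : S.ie + 1 + (st.x - 1) = S.ie + st.x := by ring
  rw [e3] at h3 h4
  have e4 : S.orb b x st.n - S.orb b b st.n - st.Lam b * AA =
      (S.orb b x st.n - S.orb b b st.n - S.slp b Z st.Lq * (Z' - Z)) +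
        S.slp b Z st.Lq * (Z' - Z - S.α * S.ι₀ * AA) := by
    unfold Lam
    rw [← hZ]
    ring
  rw [e4]
  exact steps_add_lt h3 h4

omit [IsUltrametricDist K] in
theorem pass_gam : S.gam - st.E₀ = S.ie + st.x + st.mu := by
  have := st.E₀_eq
  linarith

omit [IsUltrametricDist K] in
theorem pass_x_pos : 0 < st.x := by
  have h1 := st.mu_pos
  have h2 := st.ta_pos
  have h3 := st.two_ta_lt
  linarith

theorem pass1 {b : K} (hb : ‖b - st.b₀‖ < S.rad st.s)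
    (hw : ‖S.orb b b st.n - S.w‖ = S.rad (S.gam - st.E₀)) {x : K} (hx : ‖x - b‖ ≤ S.rad st.E₀) :
    ‖S.orb b x st.n - S.w - st.Lam b * S.A^[st.M + 1] (st.cu b x)‖ < S.rad (S.ie + st.x) := by
  have h1 := st.pass_lin hb hx
  have h2 : ‖S.orb b b st.n - S.w‖ < S.rad (S.ie + st.x) := by
    rw [hw, st.pass_gam]
    exact S.rad_lt.2 (by have := st.mu_pos; linarith)
  have e : S.orb b x st.n - S.w - st.Lam b * S.A^[st.M + 1] (st.cu b x) =
      (S.orb b x st.n - S.orb b b st.n - st.Lam b * S.A^[st.M + 1] (st.cu b x)) +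
        (S.orb b b st.n - S.w) := by ring
  rw [e]
  exact steps_add_lt h1 h2

theorem norm_vv {b : K} (hb : ‖b - st.b₀‖ < S.rad st.s)
    (hw : ‖S.orb b b st.n - S.w‖ = S.rad (S.gam - st.E₀)) : ‖st.vv b‖ = 1 := by
  unfold vv
  rw [norm_div, norm_mul, norm_mul, hw, S.norm_ι, st.norm_l₀ hb, S.norm_c, S.rad_sub, S.rad_sub]
  have h1 := (S.rad_pos S.ie).ne'
  have h2 := (S.rad_pos st.E₀).ne'
  have h3 := (S.rad_pos S.gam).ne'
  field_simp

theorem step2 {b : K} (hb : ‖b - st.b₀‖ < S.rad st.s)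
    (hw : ‖S.orb b b st.n - S.w‖ = S.rad (S.gam - st.E₀)) {x : K} (hx : ‖x - b‖ ≤ S.rad st.E₀)
    (h1 : ‖S.A^[st.M + 1] (st.cu b x)‖ = 1)
    (h2 : ‖1 + st.vv b * S.A^[st.M + 1] (st.cu b x)‖ = 1) :
    DirStep (S.F.shift b) S.w st.n (S.rad (S.ie + st.x)) (S.rad st.mu) x
      (S.orb b (S.orb b x (st.n + 1)) (st.n + 1)) ∧
    ‖S.orb b (S.orb b x (st.n + 1)) (st.n + 1) - b‖ ≤ S.rad st.E₀ ∧
    ‖st.cu b (S.orb b (S.orb b x (st.n + 1)) (st.n + 1)) - S.A^[st.M + 1] (st.cu b x) /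
      (1 + st.vv b * S.A^[st.M + 1] (st.cu b x))‖ < 1 := by
  have hxp := st.pass_x_pos
  have hmu := st.mu_pos
  have hgam := st.pass_gam
  have hp := st.pass1 hb hw hx
  have hlam := st.norm_Lam hb
  have hl₀ := st.norm_l₀ hb
  set AA := S.A^[st.M + 1] (st.cu b x) with hAA
  have hA0 : AA ≠ 0 := by
    rw [← norm_pos_iff, h1]; exact one_pos
  have hlam0 : st.Lam b ≠ 0 := by
    rw [← norm_pos_iff, hlam]; exact S.rad_pos _
  have hl0 : st.l₀ b ≠ 0 := by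
    rw [← norm_pos_iff, hl₀]; exact S.rad_pos _
  have hι0 := S.ι_ne
  have hc0 := S.c_ne
  have hv0 : 1 + st.vv b * AA ≠ 0 := by
    rw [← norm_pos_iff, h2]; exact one_pos
  have hLA : ‖st.Lam b * AA‖ = S.rad (S.ie + st.x) := by rw [norm_mul, h1, hlam, mul_one]
  -- the first return
  have d1 : ‖S.orb b x st.n - S.w‖ = S.rad (S.ie + st.x) := by
    rw [← hLA]
    exact norm_eq_of_sub_lt (by rw [hLA]; exact hp)
  have w1 := S.W_val (b := b) (e := S.ie + st.x) (by linarith) hLA hp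
  rw [← S.orb_succ] at w1
  have eg : S.gam - (S.ie + st.x) = st.E₀ + st.mu := by linarith
  rw [eg] at w1
  set x₁ := S.orb b x (st.n + 1) with hx₁
  have hcL : ‖S.c / (st.Lam b * AA)‖ = S.rad (st.E₀ + st.mu) := by
    rw [norm_div, hLA, S.norm_c, ← S.rad_sub, eg]
  have hx₁b : ‖x₁ - b‖ ≤ S.rad (st.E₀ + st.mu) := by
    have e : x₁ - b = (x₁ - b - S.c / (st.Lam b * AA)) + S.c / (st.Lam b * AA) := by ring
    rw [e]
    exact steps_add_le w1.le hcL.le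
  -- the second return
  have m2 := (st.tube hb (st.self_le hb)).1.main_same (x' := x₁) (S.rad_pos (st.E₀ + st.mu))
    (S.rad_lt.2 (by linarith)) hx₁b
  rw [st.length_L, st.gains_L, ← S.rad_add] at m2
  have eg2 : st.E₀ + st.mu + (S.ie + st.x - st.E₀) = S.gam - st.E₀ := by linarith
  have m3 : ‖S.slp b b st.L * (x₁ - b - S.c / (st.Lam b * AA))‖ <
      S.rad (st.E₀ + st.mu + (S.ie + st.x - st.E₀)) := by
    have hs : ‖S.slp b b st.L‖ = S.rad (S.ie + st.x - st.E₀) := by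
      rw [(st.tube hb (st.self_le hb)).1.norm_slp, st.gains_L]
    rw [norm_mul, hs, S.rad_add (st.E₀ + st.mu), mul_comm (S.rad (st.E₀ + st.mu))]
    exact mul_lt_mul_of_pos_left w1 (S.rad_pos _)
  rw [eg2] at m2 m3
  set v := st.l₀ b * S.c / S.ι₀ * ((1 + st.vv b * AA) / AA) with hv
  have hvn : ‖v‖ = S.rad (S.gam - st.E₀) := by
    rw [hv, norm_mul, norm_div, norm_mul, norm_div, h1, h2, hl₀, S.norm_c, S.norm_ι, div_one,
      mul_one, S.rad_sub, S.rad_sub]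
    have h1 := (S.rad_pos S.ie).ne'
    have h2 := (S.rad_pos st.E₀).ne'
    field_simp
  have p2 : ‖S.orb b x₁ st.n - S.w - v‖ < S.rad (S.gam - st.E₀) := by
    have e : S.orb b x₁ st.n - S.w - v =
        (S.orb b x₁ st.n - S.orb b b st.n - S.slp b b st.L * (x₁ - b)) +
          S.slp b b st.L * (x₁ - b - S.c / (st.Lam b * AA)) := by
      rw [hv, st.slp_L hb]
      unfold vv
      field_simp
      ring
    rw [e]
    exact steps_add_lt m2 m3
  have d2 : ‖S.orb b x₁ st.n - S.w‖ = S.rad (S.gam - st.E₀) := by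
    rw [← hvn]
    exact norm_eq_of_sub_lt (by rw [hvn]; exact p2)
  have w2 := S.W_val (b := b) (e := S.gam - st.E₀) (by linarith) hvn p2
  rw [← S.orb_succ, sub_sub_cancel] at w2
  set x₂ := S.orb b x₁ (st.n + 1) with hx₂
  have hcv : ‖S.c / v‖ = S.rad st.E₀ := by
    rw [norm_div, hvn, S.norm_c, ← S.rad_sub, sub_sub_cancel]
  refine ⟨⟨d1, ?_, rfl⟩, ?_, ?_⟩
  · change ‖S.orb b x₁ st.n - S.w‖ = _
    rw [d2, hgam, S.rad_add]
  · have e : x₂ - b = (x₂ - b - S.c / v) + S.c / v := by ring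
    rw [e]
    exact steps_add_le w2.le hcv.le
  · have e : st.cu b x₂ - AA / (1 + st.vv b * AA) = st.l₀ b / S.ι₀ * (x₂ - b - S.c / v) := by
      rw [hv]
      unfold cu
      field_simp
    rw [e, norm_mul, norm_div, hl₀, S.norm_ι, ← S.rad_sub]
    have e' : S.ie - st.E₀ - S.ie = - st.E₀ := by ring
    rw [e', S.rad_neg]
    have h := S.rad_pos st.E₀
    calc (S.rad st.E₀)⁻¹ * ‖x₂ - b - S.c / v‖ < (S.rad st.E₀)⁻¹ * S.rad st.E₀ :=
          mul_lt_mul_of_pos_left w2 (inv_pos.2 h)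
      _ = 1 := inv_mul_cancel₀ h.ne'

end Sys.State

end Pool.Agent.FIC
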