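import Pool.Agent.FIC.TBlock
import Pool.Agent.FIC.Contact

/-!
# Paths for a fixed parameter

* `exists_path`: `LQ_back` gives `z_q` with `‖z_q - t‖ < 1`, so `‖z_q - d‖ = 1`; `back_C` gives `z` with
  `‖z - d‖ = rad (1/p)` (case `M = 0`).  Induction on `M`: `‖z - d‖ = rad (1/p) < 1` so `‖z‖ = 1`;
  `back_X` gives `x` with `‖x‖ = rad 1`, so `‖x - d‖ = 1`; `back_C`.
* `exists_frozen`: let `z_c` be the point of `exists_path`; `‖z_c - t‖ = 1`, `TB_back` gives `x_T`,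
  `‖x_T - t‖ = rad (te i') < 1`, so `‖x_T‖ = 1`; `back_X` `m` times (`1 ≤ m`) gives `ζ`,
  `‖ζ‖ ≤ rad 1`, `‖ζ - d‖ = 1`; `back_C` `m + 1` times, the last time with a target `τ`,
  `‖τ - d‖ ≤ rad (1/p) < 1`.  (Prove the iterated versions of `back_X`, `back_C` by induction.)
-/

open Polynomial

noncomputable section

namespace Pool.Agent.FIC

variable {K : Type*} [NontriviallyNormedField K] [IsUltrametricDist K]

namespace Sys

variable (S : Sys K)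

/-- the frozen path -/
structure Frozen (b z₀ : K) (m i' M i k : ℕ) : Prop where
  lt : ‖z₀ - S.d‖ < S.rad (1 / S.p)
  hC : ∀ j ≤ m, ‖S.orb b z₀ j - S.d‖ ≤ S.rad (1 / S.p)
  hX : ∀ j < m, ‖S.orb b z₀ (m + 1 + j)‖ ≤ S.rad 1
  hT : ‖S.orb b z₀ (m + 1 + m) - S.t‖ = S.rad (S.te i')
  crun : S.CRun b (S.orb b z₀ (m + 1 + m + (i' + 1))) M
  runq : S.Run b (S.orb b z₀ (m + 1 + m + (i' + 1) + (2 * M + 1)))
    (S.ie + 1 - 1 / (S.N : ℚ) ^ (i + 1)) (S.LQ i k)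
  hw : S.orb b z₀ (m + 1 + m + (i' + 1) + (2 * M + 1) + (S.LQ i k).length) = S.w

theorem path_te_pos (i : ℕ) : 0 < S.te i := by
  have h9 := S.nine_le_N
  have h1 := (S.te_range i).1
  have h2 : (1 : ℚ) / (S.N : ℚ) ^ 2 ≤ 1 / 81 := by
    apply one_div_le_one_div_of_le (by norm_num)
    calc (81 : ℚ) = 9 ^ 2 := by norm_num
      _ ≤ (S.N : ℚ) ^ 2 := pow_le_pow_left₀ (by norm_num) h9 2
  linarith

/-- a point near a unit is a unit -/
theorem path_norm {x y : K} (h : ‖x - y‖ < 1) (h' : ‖y‖ = 1) : ‖x‖ = 1 := by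
  have := tblock_norm_sub (z := 0) h (by rw [sub_zero]; exact h')
  rwa [sub_zero] at this

variable [IsAlgClosed K]

theorem exists_path {b : K} (hb : ‖b‖ ≤ S.rad 5) {i : ℕ} (hi : Odd i) (k M : ℕ) :
    ∃ z, S.CRun b z M ∧
      S.Run b (S.orb b z (2 * M + 1)) (S.ie + 1 - 1 / (S.N : ℚ) ^ (i + 1)) (S.LQ i k) ∧
      S.orb b z (2 * M + 1 + (S.LQ i k).length) = S.w := by
  induction M with
  | zero =>
    obtain ⟨zq, hzq, hrun, horb⟩ := S.LQ_back hb hi k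
    have h1 : ‖zq - S.t‖ < 1 := by rw [hzq]; exact S.rad_lt_one.2 (S.path_te_pos i)
    have h2 : ‖zq - S.d‖ = 1 := tblock_norm_sub h1 S.htd
    obtain ⟨z, hz, hg, hz', -⟩ := S.back_C hb h2.le
    have h3 : S.orb b z (2 * 0 + 1) = zq := hg
    refine ⟨z, hz' h2, ?_, ?_⟩
    · rw [h3]; exact hrun
    · rw [orb_add, h3]; exact horb
  | succ M ih =>
    obtain ⟨z, hc, hrun, horb⟩ := ih
    have hzd : ‖z - S.d‖ = S.rad (1 / S.p) := by
      cases M with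
      | zero => exact hc
      | succ M => exact hc.1
    have h1 : ‖z - S.d‖ < 1 := by rw [hzd]; exact S.rad_lt_one.2 S.inv_p_pos
    have h2 : ‖z‖ = 1 := path_norm h1 S.hd
    obtain ⟨x, hx, hgx, -⟩ := S.back_X hb h2.le
    have hx1 : ‖x‖ < 1 := lt_of_le_of_lt hx (S.rad_lt_one.2 one_pos)
    have hxd : ‖x - S.d‖ = 1 := by
      refine tblock_norm_sub (y := 0) (by rw [sub_zero]; exact hx1) ?_
      rw [zero_sub, norm_neg]
      exact S.hd
    obtain ⟨z', hz', hg', hz'', -⟩ := S.back_C hb hxd.le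
    have h3 : S.orb b z' (2 * (M + 1) + 1) = S.orb b z (2 * M + 1) := by
      have e : 2 * (M + 1) + 1 = (2 * M + 1) + 1 + 1 := by ring
      rw [e, orb_succ', orb_succ', hg', hgx]
    refine ⟨z', ⟨hz'' hxd, ?_, ?_⟩, ?_, ?_⟩
    · rw [hg']; exact hx
    · rw [hg', hgx]; exact hc
    · rw [h3]; exact hrun
    · rw [orb_add, h3, ← orb_add]; exact horb

/-- iterated backward steps in the zone `X` -/
theorem path_backX {b : K} (hb : ‖b‖ ≤ S.rad 5) (m : ℕ) {τ : K} (hτ : ‖τ‖ ≤ 1) :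
    ∃ ζ, (∀ j < m, ‖S.orb b ζ j‖ ≤ S.rad 1) ∧ S.orb b ζ m = τ ∧ ‖ζ‖ ≤ 1 := by
  induction m with
  | zero => exact ⟨τ, fun j hj => absurd hj (Nat.not_lt_zero j), rfl, hτ⟩
  | succ m ih =>
    obtain ⟨ζ, h1, h2, h3⟩ := ih
    obtain ⟨ζ', h4, h5, -⟩ := S.back_X hb h3
    refine ⟨ζ', ?_, ?_, h4.trans (S.rad_lt_one.2 one_pos).le⟩
    · intro j hj
      cases j with
      | zero => exact h4
      | succ j =>
        rw [orb_succ', h5]
        exact h1 j (by omega)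
    · rw [orb_succ', h5]; exact h2

/-- iterated backward steps in the zone `C` -/
theorem path_backC {b : K} (hb : ‖b‖ ≤ S.rad 5) (m : ℕ) {τ : K} (hτ : ‖τ - S.d‖ ≤ 1) :
    ∃ z, (∀ j ≤ m, ‖S.orb b z j - S.d‖ ≤ S.rad (1 / S.p)) ∧ S.orb b z (m + 1) = τ ∧
      (1 ≤ m → ‖z - S.d‖ < S.rad (1 / S.p)) := by
  induction m with
  | zero =>
    obtain ⟨z, hz, hg, -, -⟩ := S.back_C hb hτ
    refine ⟨z, ?_, hg, fun h => absurd h (by omega)⟩
    intro j hj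
    obtain rfl : j = 0 := by omega
    exact hz
  | succ m ih =>
    obtain ⟨z, h1, h2, -⟩ := ih
    have h3 : ‖z - S.d‖ ≤ S.rad (1 / S.p) := h1 0 (Nat.zero_le m)
    have h4 : ‖z - S.d‖ < 1 := h3.trans_lt (S.rad_lt_one.2 S.inv_p_pos)
    obtain ⟨z', hz', hg', -, hlt⟩ := S.back_C hb h4.le
    refine ⟨z', ?_, ?_, fun _ => hlt h4⟩
    · intro j hj
      cases j with
      | zero => exact hz'
      | succ j =>
        rw [orb_succ', hg']
        exact h1 j (by omega)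
    · rw [orb_succ', hg']; exact h2

theorem exists_frozen {b : K} (hb : ‖b‖ ≤ S.rad 5) {i : ℕ} (hi : Odd i) (k M i' : ℕ) {m : ℕ}
    (hm : 1 ≤ m) : ∃ z₀, S.Frozen b z₀ m i' M i k := by
  obtain ⟨zc, hc, hrun, horb⟩ := S.exists_path hb hi k M
  have hzd : ‖zc - S.d‖ = S.rad (1 / S.p) := by
    cases M with
    | zero => exact hc
    | succ M => exact hc.1
  have h1 : ‖zc - S.d‖ < 1 := by rw [hzd]; exact S.rad_lt_one.2 S.inv_p_pos
  have h2 : ‖zc - S.t‖ = 1 := tblock_norm_sub h1 (by rw [norm_sub_rev]; exact S.htd)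
  obtain ⟨xT, hxT, hoT⟩ := S.TB_back hb h2 i'
  have h3 : ‖xT - S.t‖ < 1 := by rw [hxT]; exact S.rad_lt_one.2 (S.path_te_pos i')
  have h4 : ‖xT‖ = 1 := path_norm h3 S.ht
  obtain ⟨ζ, hζ, hoζ, -⟩ := S.path_backX hb m h4.le
  have h5 : ‖ζ‖ < 1 := (hζ 0 (by omega)).trans_lt (S.rad_lt_one.2 one_pos)
  have h6 : ‖ζ - S.d‖ = 1 := by
    refine tblock_norm_sub (y := 0) (by rw [sub_zero]; exact h5) ?_
    rw [zero_sub, norm_neg]
    exact S.hd
  obtain ⟨z₀, hz₀, hoz, hlt⟩ := S.path_backC hb m h6.le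
  have e1 : ∀ j, S.orb b z₀ (m + 1 + j) = S.orb b ζ j := by
    intro j; rw [orb_add, hoz]
  have e2 : S.orb b z₀ (m + 1 + m) = xT := by rw [e1, hoζ]
  have e3 : S.orb b z₀ (m + 1 + m + (i' + 1)) = zc := by rw [orb_add, e2, hoT]
  refine ⟨z₀, hlt hm, hz₀, ?_, ?_, ?_, ?_, ?_⟩
  · intro j hj; rw [e1]; exact hζ j hj
  · rw [e2]; exact hxT
  · rw [e3]; exact hc
  · rw [orb_add, e3]; exact hrun
  · rw [add_assoc (m + 1 + m + (i' + 1)), orb_add, e3]; exact horb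

end Sys

end Pool.Agent.FIC
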