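import Pool.Agent.FIC.Rounds

/-!
# The first and second round (step (1) of Part 4 of the paper proof)

`l₀ = slp b₀ b₀ Lp`, `‖l₀‖ = rad (ie - E₀)`; `v₀ = c l₀ / (ι₀ ϑ)`, `‖v₀‖ = rad (gam - E₀) <
rad (ie + x)` (`gam - E₀ = ie + x + mu`); `surj_n` gives `b₁` with `orb b₁ b₁ n = w + v₀`.
Let `‖b - b₁‖ < rad (s + mu)`.
* `sub`: clear.  `dist`: `‖orb b b n - w - v₀‖ = rad (ie + x - s) ‖b - b₁‖ < rad (gam - E₀)` (`scal`).
* `y = orb b b (n + 1)`: `W_val` (`e = gam - E₀ ≥ ie`): `‖y - b - c / v₀‖ < rad E₀`,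
  `c / v₀ = ι₀ ϑ / l₀` has norm `rad E₀`; `‖b - b₀‖ < rad s ≤ rad E₀`.  So `ret`, and
  `‖y - b₀ - ι₀ ϑ / l₀‖ < rad E₀`.
* `close`: `Run.main` for `Run b₀ b₀ (E₀ - 2 ta) Lp`, `g₀ = s - E₀`, `D = rad E₀`:
  `‖orb b y m₀ - orb b₀ b₀ m₀ - ι₀ ϑ‖ < rad ie`.  `CRun.contact` (`X = z = orb b₀ b₀ m₀`, parameters `b₀`
  and `b`, `u = ϑ`, `A ϑ = 0`, `A 0 = 0`):
  `‖orb b y (m₀ + (2M+1)) - orb b₀ b₀ (m₀ + (2M+1))‖ < rad (ie + 1)`.  `Run.main` for
  `Run b₀ _ (ie + 1 - ε) Lq`, `g₀ = s - ie - 1`, `D = rad (ie + 1)`, `norm_slp`: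
  `‖orb b y n - orb b₀ b₀ n‖ < rad (ie + x)`.  Use `st.close`.
* `scal`: `b ≠ b'`: `W_scal` at `orb b' b' n` (`e = gam - E₀`):
  `‖y - y'‖ = rad (gam - 2 (gam - E₀)) rad (ie + x - s) ‖b - b'‖ = rad (E₀ - mu - s) ‖b - b'‖ < rad E₀`
  (`hb`: `E₀ - mu - s < 0`).  `Run.scal` for `Run b' y' E₀ L` (`tube`), `g₀ = s - E₀`
  (`‖b - b'‖ < ‖y - y'‖ rad (s - E₀) = rad (-mu) ‖b - b'‖`), `gains_L`.
* `ratOn`: `ratOn_orb` with `β = ξ = id`: no poles at the times `i < n` (`tube`, `Run.nopole`), `n`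
  (`zone_nopole` for `W (gam - E₀)`), and afterwards (`tube` for `x = orb b b (n + 1)`).
-/

open Polynomial

noncomputable section

namespace Pool.Agent.FIC

variable {K : Type*} [NontriviallyNormedField K] [IsUltrametricDist K]

namespace Sys.State

variable {S : Sys K} (st : S.State)

omit [IsUltrametricDist K] in
theorem gam_sub_E₀ : S.gam - st.E₀ = S.ie + st.x + st.mu := by
  rw [st.E₀_eq]; ring

omit [IsUltrametricDist K] in
theorem ie_le_gam_sub : S.ie ≤ S.gam - st.E₀ := by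
  have h1 := st.gam_sub_E₀
  have h2 := st.mu_pos
  have h3 := st.ta_pos
  have h4 := st.two_ta_lt
  linarith

/-- no poles during the first two rounds -/
theorem R1.nopole {st : S.State} {b₁ : K} (h : st.R1 b₁) {b : K}
    (hb : ‖b - b₁‖ < S.rad (st.s + st.mu)) {i : ℕ} (hi : i < st.n + 1 + st.n) :
    S.F.Q.eval (S.orb b b i) ≠ 0 := by
  have hs := h.sub b hb
  rcases lt_trichotomy i st.n with h1 | h1 | h1
  · exact (st.tube hs (st.self_le hs)).1.nopole (by rw [st.length_L]; exact h1)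
  · subst h1
    exact S.zone_nopole (s := .W (S.gam - st.E₀)) ⟨h.dist b hb, st.ie_le_gam_sub⟩
  · obtain ⟨j, rfl⟩ : ∃ j, i = st.n + 1 + j := Nat.exists_eq_add_of_le h1
    rw [S.orb_add]
    exact (st.tube hs (h.ret b hb)).1.nopole (by rw [st.length_L]; omega)

theorem R1.ratOn {st : S.State} {b₁ : K} (h : st.R1 b₁) :
    RatOn {b | ‖b - b₁‖ < S.rad (st.s + st.mu)} fun b => S.orb b b (st.n + 1 + st.n) :=
  S.ratOn_orb (RatOn.id _) (RatOn.id _) _ fun _ hz _ hi => h.nopole hz hi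

/-- distances after the return, common to all rounds: if `orb b b n'` and `orb b' b' n'` are in
the zone `W e` and have distance `rad q ‖b - b'‖` then the distance after the next
step is multiplied by `rad (gam - 2 e)` -/
theorem W_next {b b' : K} {e q : ℚ} {n' : ℕ} (hbb : b ≠ b')
    (hz : ‖S.orb b' b' n' - S.w‖ = S.rad e) (he : S.ie ≤ e)
    (hd : ‖S.orb b b n' - S.orb b' b' n'‖ = S.rad q * ‖b - b'‖)
    (hlt : S.rad q * ‖b - b'‖ < S.rad e) (hq : S.gam - 2 * e + q < 0) :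
    ‖S.orb b b (n' + 1) - S.orb b' b' (n' + 1)‖ = S.rad (S.gam - 2 * e + q) * ‖b - b'‖ := by
  rw [S.orb_succ, S.orb_succ]
  have hpos : 0 < ‖b - b'‖ := norm_pos_iff.2 (sub_ne_zero.2 hbb)
  have h1 := S.W_scal (b := b') (b' := b) (z := S.orb b' b' n') (z' := S.orb b b n') (e := e)
    ⟨hz, he⟩ (by rw [hd]; exact hlt) (by
      rw [hd, ← mul_assoc, ← S.rad_add]
      have h2 : 1 < S.rad (S.gam - 2 * e + q) := by
        rw [← S.rad_zero, S.rad_lt]; exact hq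
      calc ‖b - b'‖ = 1 * ‖b - b'‖ := (one_mul _).symm
        _ < S.rad (S.gam - 2 * e + q) * ‖b - b'‖ := mul_lt_mul_of_pos_right h2 hpos)
  rw [h1, hd, ← mul_assoc, ← S.rad_add]

theorem exists_R1 [IsAlgClosed K] : ∃ b₁, st.R1 b₁ := by
  set l₀ := S.slp st.b₀ st.b₀ st.Lp with hl₀
  have hnl : ‖l₀‖ = S.rad (S.ie - st.E₀) := by rw [hl₀, st.runp.norm_slp, st.gp]
  have hl0 : l₀ ≠ 0 := by
    rw [← norm_pos_iff, hnl]; exact S.rad_pos _
  set v₀ := S.c * l₀ / (S.ι₀ * S.ϑ) with hv₀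
  have hιϑ : S.ι₀ * S.ϑ ≠ 0 := mul_ne_zero S.ι_ne S.ϑ_ne
  have hnιϑ : ‖S.ι₀ * S.ϑ‖ = S.rad S.ie := by rw [norm_mul, S.norm_ι, S.norm_ϑ, mul_one]
  have hnv : ‖v₀‖ = S.rad (S.gam - st.E₀) := by
    rw [hv₀, norm_div, norm_mul, hnιϑ, S.norm_c, hnl, ← S.rad_add, ← S.rad_sub]
    congr 1; ring
  have hv0 : v₀ ≠ 0 := by
    rw [← norm_pos_iff, hnv]; exact S.rad_pos _
  have hge := st.gam_sub_E₀
  have hmu := st.mu_pos
  have hie := st.ie_le_gam_sub
  obtain ⟨b₁, hb₁, hb₁n⟩ := st.surj_n (τ := S.w + v₀) (by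
    rw [add_sub_cancel_left, hnv, S.rad_lt]; linarith)
  have hsub : ∀ b, ‖b - b₁‖ < S.rad (st.s + st.mu) → ‖b - st.b₀‖ < S.rad st.s := by
    intro b hb
    have h1 : b - st.b₀ = (b - b₁) + (b₁ - st.b₀) := by ring
    rw [h1]
    exact norm_add_lt' (hb.trans (S.rad_lt.2 (by linarith))) hb₁
  have hvb : ∀ b, ‖b - b₁‖ < S.rad (st.s + st.mu) →
      ‖S.orb b b st.n - S.w - v₀‖ < S.rad (S.gam - st.E₀) := by
    intro b hb
    have h1 : S.orb b b st.n - S.w - v₀ = S.orb b b st.n - S.orb b₁ b₁ st.n := by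
      rw [hb₁n]; ring
    have h2 : ‖S.orb b b st.n - S.orb b₁ b₁ st.n‖ = S.rad (S.ie + st.x - st.s) * ‖b - b₁‖ :=
      st.scal b b₁ (hsub b hb) hb₁
    have h3 : S.rad (S.gam - st.E₀) = S.rad (S.ie + st.x - st.s) * S.rad (st.s + st.mu) := by
      rw [← S.rad_add]; congr 1; linarith
    rw [h1, h2, h3]
    exact mul_lt_mul_of_pos_left hb (S.rad_pos _)
  have hdist : ∀ b, ‖b - b₁‖ < S.rad (st.s + st.mu) →
      ‖S.orb b b st.n - S.w‖ = S.rad (S.gam - st.E₀) := by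
    intro b hb
    rw [← hnv]
    exact norm_eq_of_sub_lt (by rw [hnv]; exact hvb b hb)
  have hcv : S.c / v₀ = S.ι₀ * S.ϑ / l₀ := by
    rw [hv₀]
    have := S.c_ne
    field_simp
  have hncv : ‖S.ι₀ * S.ϑ / l₀‖ = S.rad st.E₀ := by
    rw [norm_div, hnιϑ, hnl, ← S.rad_sub]; congr 1; ring
  have hyy : ∀ b, ‖b - b₁‖ < S.rad (st.s + st.mu) →
      ‖S.orb b b (st.n + 1) - st.b₀ - S.ι₀ * S.ϑ / l₀‖ < S.rad st.E₀ := by
    intro b hb
    have h1 := S.W_val (b := b) hie hnv (hvb b hb)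
    rw [← S.orb_succ, hcv] at h1
    have h2 : S.orb b b (st.n + 1) - st.b₀ - S.ι₀ * S.ϑ / l₀ =
      (S.orb b b (st.n + 1) - b - S.ι₀ * S.ϑ / l₀) + (b - st.b₀) := by ring
    rw [h2]
    refine norm_add_lt' (h1.trans_eq (by congr 1; ring)) ?_
    exact (hsub b hb).trans_le (S.rad_le.2 st.hE)
  have hret : ∀ b, ‖b - b₁‖ < S.rad (st.s + st.mu) →
      ‖S.orb b b (st.n + 1) - st.b₀‖ ≤ S.rad st.E₀ := by
    intro b hb
    have h2 : S.orb b b (st.n + 1) - st.b₀ =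
      (S.orb b b (st.n + 1) - st.b₀ - S.ι₀ * S.ϑ / l₀) + S.ι₀ * S.ϑ / l₀ := by ring
    rw [h2]
    exact (IsUltrametricDist.norm_add_le_max _ _).trans (max_le (hyy b hb).le hncv.le)
  refine ⟨b₁, hsub, hdist, hret, ?_, ?_⟩
  · -- close
    intro b hb
    set y := S.orb b b (st.n + 1) with hy
    have hbs := hsub b hb
    have hta := st.ta_pos
    -- the first list
    have h1 := st.runp.main st.glow_p (b' := b) (x' := y) (D := S.rad st.E₀) (S.rad_pos _)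
      (S.rad_lt.2 (by
        have : st.ta = S.tau st.M := rfl
        linarith)) (hret b hb)
      (by rw [← S.rad_add]; exact hbs.trans_eq (by congr 1; ring))
    rw [← hl₀, st.gp, ← S.rad_add] at h1
    have h2 : ‖l₀ * (y - st.b₀) - S.ι₀ * S.ϑ‖ < S.rad S.ie := by
      have h3 : l₀ * (y - st.b₀) - S.ι₀ * S.ϑ = l₀ * (y - st.b₀ - S.ι₀ * S.ϑ / l₀) := by
        field_simp
      rw [h3, norm_mul, hnl]
      calc S.rad (S.ie - st.E₀) * ‖y - st.b₀ - S.ι₀ * S.ϑ / l₀‖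
          < S.rad (S.ie - st.E₀) * S.rad st.E₀ := mul_lt_mul_of_pos_left (hyy b hb) (S.rad_pos _)
        _ = S.rad S.ie := by rw [← S.rad_add]; congr 1; ring
    have h4 : ‖S.orb b y st.m₀ - S.orb st.b₀ st.b₀ st.m₀ - S.ι₀ * S.ϑ‖ < S.rad S.ie := by
      have h5 : S.orb b y st.m₀ - S.orb st.b₀ st.b₀ st.m₀ - S.ι₀ * S.ϑ =
        (S.orb b y st.Lp.length - S.orb st.b₀ st.b₀ st.Lp.length - l₀ * (y - st.b₀)) +
        (l₀ * (y - st.b₀) - S.ι₀ * S.ϑ) := by unfold m₀; ring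
      rw [h5]
      exact norm_add_lt' (h1.trans_eq (by congr 1; ring)) h2
    have h6 : ‖S.orb b y st.m₀ - S.orb st.b₀ st.b₀ st.m₀‖ ≤ S.rad S.ie := by
      have h7 : S.orb b y st.m₀ - S.orb st.b₀ st.b₀ st.m₀ =
        (S.orb b y st.m₀ - S.orb st.b₀ st.b₀ st.m₀ - S.ι₀ * S.ϑ) + S.ι₀ * S.ϑ := by ring
      rw [h7]
      exact (IsUltrametricDist.norm_add_le_max _ _).trans (max_le h4.le hnιϑ.le)
    -- the contact
    have hs5 := st.hs
    have h8 := CRun.contact st.crun (b := st.b₀) (b' := b) (X := S.orb st.b₀ st.b₀ st.Lp.length)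
      (X' := S.orb b y st.m₀) (u := S.ϑ) (by rw [sub_self, norm_zero]; exact S.rad_pos _)
      (hbs.trans_le (S.rad_le.2 (by linarith))) (by rw [sub_self, norm_zero]; exact (S.rad_pos _).le)
      h6 S.norm_ϑ.le h4
    have h9 : S.A^[st.M + 1] S.ϑ = 0 := by
      rw [Function.iterate_succ_apply, S.A_ϑ]
      have h0 : S.A 0 = 0 := by
        unfold Sys.A
        rw [zero_pow S.hp.ne_zero, add_zero]
      exact Function.iterate_fixed h0 _
    rw [h9, mul_zero, sub_zero, ← S.orb_add b y st.m₀ (2 * st.M + 1),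
      ← S.orb_add st.b₀ st.b₀ st.Lp.length (2 * st.M + 1)] at h8
    -- the last list
    have hε := st.hε
    have h10 := st.runq.main st.glow_q (b' := b) (x' := S.orb b y (st.m₀ + (2 * st.M + 1)))
      (D := S.rad (S.ie + 1)) (S.rad_pos _) (S.rad_lt.2 (by linarith)) h8.le
      (by rw [← S.rad_add]; exact hbs.trans_eq (by congr 1; ring))
    rw [st.gq, ← S.rad_add, ← S.orb_add b y (st.m₀ + (2 * st.M + 1)) st.Lq.length,
      ← S.orb_add st.b₀ st.b₀ (st.Lp.length + (2 * st.M + 1)) st.Lq.length] at h10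
    have h11 : ‖S.slp st.b₀ (S.orb st.b₀ st.b₀ (st.Lp.length + (2 * st.M + 1))) st.Lq *
        (S.orb b y (st.m₀ + (2 * st.M + 1)) -
          S.orb st.b₀ st.b₀ (st.Lp.length + (2 * st.M + 1)))‖ < S.rad (S.ie + st.x) := by
      rw [norm_mul, st.runq.norm_slp, st.gq]
      calc S.rad (st.x - 1) * ‖S.orb b y (st.m₀ + (2 * st.M + 1)) -
            S.orb st.b₀ st.b₀ (st.Lp.length + (2 * st.M + 1))‖
          < S.rad (st.x - 1) * S.rad (S.ie + 1) := mul_lt_mul_of_pos_left h8 (S.rad_pos _)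
        _ = S.rad (S.ie + st.x) := by rw [← S.rad_add]; congr 1; ring
    have h12 : ‖S.orb b y st.n - S.orb st.b₀ st.b₀ st.n‖ < S.rad (S.ie + st.x) := by
      have h13 : S.orb b y st.n - S.orb st.b₀ st.b₀ st.n =
        (S.orb b y (st.m₀ + (2 * st.M + 1) + st.Lq.length) -
          S.orb st.b₀ st.b₀ (st.Lp.length + (2 * st.M + 1) + st.Lq.length) -
          S.slp st.b₀ (S.orb st.b₀ st.b₀ (st.Lp.length + (2 * st.M + 1))) st.Lq *
          (S.orb b y (st.m₀ + (2 * st.M + 1)) -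
          S.orb st.b₀ st.b₀ (st.Lp.length + (2 * st.M + 1)))) +
          S.slp st.b₀ (S.orb st.b₀ st.b₀ (st.Lp.length + (2 * st.M + 1))) st.Lq *
          (S.orb b y (st.m₀ + (2 * st.M + 1)) -
          S.orb st.b₀ st.b₀ (st.Lp.length + (2 * st.M + 1))) := by
        unfold n m₀; ring
      rw [h13]
      exact norm_add_lt' (h10.trans_eq (by congr 1; ring)) h11
    have h14 : S.orb b b (st.n + 1 + st.n) - S.w =
        (S.orb b y st.n - S.orb st.b₀ st.b₀ st.n) + (S.orb st.b₀ st.b₀ st.n - S.w) := by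
      rw [S.orb_add, ← hy]; ring
    rw [h14]
    exact norm_add_lt' h12 st.close
  · -- scal
    intro b b' hb hb'
    by_cases hbb : b = b'
    · rw [hbb, sub_self, sub_self, norm_zero, mul_zero]
    have hpos : 0 < ‖b - b'‖ := norm_pos_iff.2 (sub_ne_zero.2 hbb)
    have hlt : ‖b - b'‖ < S.rad (st.s + st.mu) := by
      have h1 : b - b' = (b - b₁) + -(b' - b₁) := by ring
      rw [h1]
      exact norm_add_lt' hb (by rw [norm_neg]; exact hb')
    have h1 := W_next (S := S) (n' := st.n) (q := S.ie + st.x - st.s) hbb (hdist b' hb') hie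
      (st.scal b b' (hsub b hb) (hsub b' hb'))
      (by
        have h3 : S.rad (S.gam - st.E₀) = S.rad (S.ie + st.x - st.s) * S.rad (st.s + st.mu) := by
          rw [← S.rad_add]; congr 1; linarith
        rw [h3]
        exact mul_lt_mul_of_pos_left hlt (S.rad_pos _))
      (by have := st.hE; linarith)
    have h2 : S.gam - 2 * (S.gam - st.E₀) + (S.ie + st.x - st.s) = st.E₀ - st.mu - st.s := by
      linarith
    rw [h2] at h1
    have h3 : S.orb b b (st.n + 1) ≠ S.orb b' b' (st.n + 1) := by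
      rw [← sub_ne_zero, ← norm_pos_iff, h1]
      exact mul_pos (S.rad_pos _) hpos
    have h4 := (st.tube (hsub b' hb') (hret b' hb')).1.scal st.low_L (b' := b)
      (x' := S.orb b b (st.n + 1)) h3
      (by
        rw [h1]
        calc S.rad (st.E₀ - st.mu - st.s) * ‖b - b'‖
            < S.rad (st.E₀ - st.mu - st.s) * S.rad (st.s + st.mu) :=
              mul_lt_mul_of_pos_left hlt (S.rad_pos _)
          _ = S.rad st.E₀ := by rw [← S.rad_add]; congr 1; ring)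
      (by
        rw [h1, mul_right_comm, ← S.rad_add]
        have h5 : 1 < S.rad (st.E₀ - st.mu - st.s + (st.s - st.E₀)) := by
          rw [← S.rad_zero, S.rad_lt]; linarith
        calc ‖b - b'‖ = 1 * ‖b - b'‖ := (one_mul _).symm
          _ < _ := mul_lt_mul_of_pos_right h5 hpos)
    rw [st.length_L, ← S.orb_add, ← S.orb_add, st.gains_L, h1, ← mul_assoc, ← S.rad_add] at h4
    rw [h4]
    congr 2
    ring

end Sys.State

end Pool.Agent.FIC
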