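import Pool.Agent.FIC.R1

/-!
# The third round up to the contact (step (2) of Part 4 of the paper proof)

`z = orb b₀ b₀ m₀`, `l₀ = slp b₀ b₀ Lp`, `v₁ = c l₀ / (X₀ - z)`, `‖v₁‖ = rad (gam - E₀ + ta)
< rad (ie + x)`.  `Y b = orb b b (n + 1 + n)`: `RatOn.surj_open` on `B₁` (`R1.ratOn`, `R1.scal`,
radius `rad (s + mu)`, `lam = rad (ie + x - mu - s)`, image radius `rad (ie + x)`), `R1.close`: there is
`b₂` in `B₁` with `Y b₂ = w + v₁`.  Let `‖b - b₂‖ < rad (s + 2 mu + ta)`.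
* `sub` clear.  `dist`: `‖Y b - w - v₁‖ = rad (ie + x - mu - s) ‖b - b₂‖ < rad (ie + x + mu + ta) =
  rad (gam - E₀ + ta)`.
* `y = orb b b (n + 1 + n + 1)`; `W_val`: `‖y - b - c / v₁‖ < rad (E₀ - ta)`, `c / v₁ = (X₀ - z) / l₀`,
  `‖c / v₁‖ = rad (E₀ - ta)`, `‖b - b₀‖ < rad s ≤ rad E₀ ≤ rad (E₀ - ta)`: `ret`.
* `close`: `Run.main` for `Run b₀ b₀ (E₀ - 2 ta) Lp`, `D = rad (E₀ - ta)`, `g₀ = s - E₀`:
  `‖orb b y m₀ - z - l₀ (y - b₀)‖ < rad (ie - ta)`, `l₀ (y - b₀) = X₀ - z + (< rad (ie - ta))`.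
* `scal`: `W_scal` (`e = gam - E₀ + ta`): `‖y - y'‖ = rad (E₀ - 2 mu - 2 ta - s) ‖b - b'‖ < rad (E₀ - ta)`;
  `runp'` with `E = E₀ - ta` for `(b', y')`; `Run.scal` with `g₀ = s - E₀` (`glow_p`), `gp`.
`exists_b₃`: `RatOn.surj_open` on `B₂`, `lam = rad (ie - 2 mu - 2 ta - s)`, image radius
`rad (ie - ta)`, `close`.
-/

open Polynomial

noncomputable section

namespace Pool.Agent.FIC

variable {K : Type*} [NontriviallyNormedField K] [IsUltrametricDist K]

namespace Sys.State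

variable {S : Sys K} (st : S.State)

/-- no poles up to the contact of the third round -/
theorem R2.nopole {st : S.State} {b₁ X₀ b₂ : K} (h1 : st.R1 b₁) (h : st.R2 b₁ X₀ b₂) {b : K}
    (hb : ‖b - b₂‖ < S.rad (st.s + 2 * st.mu + st.ta)) {i : ℕ} (hi : i < st.Tc) :
    S.F.Q.eval (S.orb b b i) ≠ 0 := by
  have hta := st.ta_pos
  rcases lt_trichotomy i (st.n + 1 + st.n) with h2 | h2 | h2
  · exact h1.nopole (h.sub b hb) h2
  · subst h2
    exact S.zone_nopole (s := .W (S.gam - st.E₀ + st.ta))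
      ⟨h.dist b hb, by have := st.ie_le_gam_sub; linarith⟩
  · obtain ⟨j, rfl⟩ : ∃ j, i = st.n + 1 + st.n + 1 + j := Nat.exists_eq_add_of_le h2
    rw [S.orb_add]
    refine (st.runp' (h1.sub b (h.sub b hb)) (E := st.E₀ - st.ta) (by linarith) (by linarith)
      (h.ret b hb)).1.nopole ?_
    unfold Tc m₀ at hi
    omega

theorem R2.ratOn {st : S.State} {b₁ X₀ b₂ : K} (h1 : st.R1 b₁) (h : st.R2 b₁ X₀ b₂) :
    RatOn {b | ‖b - b₂‖ < S.rad (st.s + 2 * st.mu + st.ta)} fun b => S.orb b b st.Tc :=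
  S.ratOn_orb (RatOn.id _) (RatOn.id _) _ fun _ hz _ hi => h.nopole h1 hz hi

variable [IsAlgClosed K]

theorem exists_R2 {b₁ X₀ : K} (h1 : st.R1 b₁)
    (hX₀ : ‖X₀ - S.orb st.b₀ st.b₀ st.m₀‖ = S.rad (S.ie - st.ta)) : ∃ b₂, st.R2 b₁ X₀ b₂ := by
  set l₀ := S.slp st.b₀ st.b₀ st.Lp with hl₀
  have hnl : ‖l₀‖ = S.rad (S.ie - st.E₀) := by rw [hl₀, st.runp.norm_slp, st.gp]
  have hl0 : l₀ ≠ 0 := by
    rw [← norm_pos_iff, hnl]; exact S.rad_pos _
  set z := S.orb st.b₀ st.b₀ st.m₀ with hz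
  have hX0 : X₀ - z ≠ 0 := by
    rw [← norm_pos_iff, hX₀]; exact S.rad_pos _
  set v₁ := S.c * l₀ / (X₀ - z) with hv₁
  have hnv : ‖v₁‖ = S.rad (S.gam - st.E₀ + st.ta) := by
    rw [hv₁, norm_div, norm_mul, hX₀, S.norm_c, hnl, ← S.rad_add, ← S.rad_sub]
    congr 1; ring
  have hge := st.gam_sub_E₀
  have hmu := st.mu_pos
  have hta := st.ta_pos
  have hta' : st.ta = S.tau st.M := rfl
  have hsE := st.hE
  have hie : S.ie ≤ S.gam - st.E₀ + st.ta := by have := st.ie_le_gam_sub; linarith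
  have h11 : ‖b₁ - b₁‖ < S.rad (st.s + st.mu) := by
    rw [sub_self, norm_zero]; exact S.rad_pos _
  obtain ⟨b₂, hb₂, hb₂n⟩ := RatOn.surj_open (lam := S.rad (S.ie + st.x - st.mu - st.s))
    (τ := S.w + v₁) (S.rad_pos _) h1.ratOn (fun z z' hz hz' => h1.scal z z' hz hz') (by
      rw [← S.rad_add]
      have e1 : S.ie + st.x - st.mu - st.s + (st.s + st.mu) = S.ie + st.x := by ring
      have e2 : S.w + v₁ - S.orb b₁ b₁ (st.n + 1 + st.n) =
        v₁ + (S.w - S.orb b₁ b₁ (st.n + 1 + st.n)) := by ring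
      rw [e1, e2]
      refine norm_add_lt' ?_ ?_
      · rw [hnv, S.rad_lt]; linarith
      · rw [norm_sub_rev]; exact h1.close b₁ h11)
  have hsub : ∀ b, ‖b - b₂‖ < S.rad (st.s + 2 * st.mu + st.ta) → ‖b - b₁‖ < S.rad (st.s + st.mu) := by
    intro b hb
    have h1 : b - b₁ = (b - b₂) + (b₂ - b₁) := by ring
    rw [h1]
    exact norm_add_lt' (hb.trans (S.rad_lt.2 (by linarith))) hb₂
  have hsub0 : ∀ b, ‖b - b₂‖ < S.rad (st.s + 2 * st.mu + st.ta) → ‖b - st.b₀‖ < S.rad st.s :=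
    fun b hb => h1.sub b (hsub b hb)
  have hvb : ∀ b, ‖b - b₂‖ < S.rad (st.s + 2 * st.mu + st.ta) →
      ‖S.orb b b (st.n + 1 + st.n) - S.w - v₁‖ < S.rad (S.gam - st.E₀ + st.ta) := by
    intro b hb
    have e1 : S.orb b b (st.n + 1 + st.n) - S.w - v₁ =
      S.orb b b (st.n + 1 + st.n) - S.orb b₂ b₂ (st.n + 1 + st.n) := by
      rw [hb₂n]; ring
    have h3 : S.rad (S.gam - st.E₀ + st.ta) =
      S.rad (S.ie + st.x - st.mu - st.s) * S.rad (st.s + 2 * st.mu + st.ta) := by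
      rw [← S.rad_add]; congr 1; linarith
    rw [e1, h1.scal b b₂ (hsub b hb) hb₂, h3]
    exact mul_lt_mul_of_pos_left hb (S.rad_pos _)
  have hdist : ∀ b, ‖b - b₂‖ < S.rad (st.s + 2 * st.mu + st.ta) →
      ‖S.orb b b (st.n + 1 + st.n) - S.w‖ = S.rad (S.gam - st.E₀ + st.ta) := by
    intro b hb
    rw [← hnv]
    exact norm_eq_of_sub_lt (by rw [hnv]; exact hvb b hb)
  have hcv : S.c / v₁ = (X₀ - z) / l₀ := by
    rw [hv₁]
    have := S.c_ne
    field_simp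
  have hncv : ‖(X₀ - z) / l₀‖ = S.rad (st.E₀ - st.ta) := by
    rw [norm_div, hX₀, hnl, ← S.rad_sub]; congr 1; ring
  have hyy : ∀ b, ‖b - b₂‖ < S.rad (st.s + 2 * st.mu + st.ta) →
      ‖S.orb b b (st.n + 1 + st.n + 1) - st.b₀ - (X₀ - z) / l₀‖ < S.rad (st.E₀ - st.ta) := by
    intro b hb
    have h2 := S.W_val (b := b) hie hnv (hvb b hb)
    rw [← S.orb_succ, hcv] at h2
    have h3 : S.orb b b (st.n + 1 + st.n + 1) - st.b₀ - (X₀ - z) / l₀ =
      (S.orb b b (st.n + 1 + st.n + 1) - b - (X₀ - z) / l₀) + (b - st.b₀) := by ring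
    rw [h3]
    refine norm_add_lt' (h2.trans_eq (by congr 1; ring)) ?_
    exact (hsub0 b hb).trans (S.rad_lt.2 (by linarith))
  have hret : ∀ b, ‖b - b₂‖ < S.rad (st.s + 2 * st.mu + st.ta) →
      ‖S.orb b b (st.n + 1 + st.n + 1) - st.b₀‖ ≤ S.rad (st.E₀ - st.ta) := by
    intro b hb
    have h2 : S.orb b b (st.n + 1 + st.n + 1) - st.b₀ =
      (S.orb b b (st.n + 1 + st.n + 1) - st.b₀ - (X₀ - z) / l₀) + (X₀ - z) / l₀ := by ring
    rw [h2]
    exact (IsUltrametricDist.norm_add_le_max _ _).trans (max_le (hyy b hb).le hncv.le)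
  refine ⟨b₂, hsub, hdist, hret, ?_, ?_⟩
  · -- close
    intro b hb
    set y := S.orb b b (st.n + 1 + st.n + 1) with hy
    have hbs := hsub0 b hb
    have h2 := st.runp.main st.glow_p (b' := b) (x' := y) (D := S.rad (st.E₀ - st.ta)) (S.rad_pos _)
      (S.rad_lt.2 (by linarith)) (hret b hb)
      (by rw [← S.rad_add]; exact hbs.trans (S.rad_lt.2 (by linarith)))
    rw [← hl₀, st.gp, ← S.rad_add] at h2
    have h3 : ‖l₀ * (y - st.b₀) - (X₀ - z)‖ < S.rad (S.ie - st.ta) := by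
      have h3 : l₀ * (y - st.b₀) - (X₀ - z) = l₀ * (y - st.b₀ - (X₀ - z) / l₀) := by
        field_simp
      rw [h3, norm_mul, hnl]
      calc S.rad (S.ie - st.E₀) * ‖y - st.b₀ - (X₀ - z) / l₀‖
          < S.rad (S.ie - st.E₀) * S.rad (st.E₀ - st.ta) :=
            mul_lt_mul_of_pos_left (hyy b hb) (S.rad_pos _)
        _ = S.rad (S.ie - st.ta) := by rw [← S.rad_add]; congr 1; ring
    have h5 : S.orb b b st.Tc - X₀ =
        (S.orb b y st.Lp.length - S.orb st.b₀ st.b₀ st.Lp.length - l₀ * (y - st.b₀)) +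
        (l₀ * (y - st.b₀) - (X₀ - z)) := by
      have e1 : S.orb b b st.Tc = S.orb b y st.Lp.length := by
        unfold Tc m₀
        rw [S.orb_add]
      rw [e1, hz]
      unfold m₀
      ring
    rw [h5]
    exact norm_add_lt' (h2.trans_eq (by congr 1; ring)) h3
  · -- scal
    intro b b' hb hb'
    by_cases hbb : b = b'
    · rw [hbb, sub_self, sub_self, norm_zero, mul_zero]
    have hpos : 0 < ‖b - b'‖ := norm_pos_iff.2 (sub_ne_zero.2 hbb)
    have hlt : ‖b - b'‖ < S.rad (st.s + 2 * st.mu + st.ta) := by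
      have e1 : b - b' = (b - b₂) + -(b' - b₂) := by ring
      rw [e1]
      exact norm_add_lt' hb (by rw [norm_neg]; exact hb')
    have h2 := W_next (S := S) (n' := st.n + 1 + st.n) (q := S.ie + st.x - st.mu - st.s) hbb
      (hdist b' hb') hie (h1.scal b b' (hsub b hb) (hsub b' hb'))
      (by
        have h3 : S.rad (S.gam - st.E₀ + st.ta) =
          S.rad (S.ie + st.x - st.mu - st.s) * S.rad (st.s + 2 * st.mu + st.ta) := by
          rw [← S.rad_add]; congr 1; linarith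
        rw [h3]
        exact mul_lt_mul_of_pos_left hlt (S.rad_pos _))
      (by linarith)
    have h3 : S.gam - 2 * (S.gam - st.E₀ + st.ta) + (S.ie + st.x - st.mu - st.s) =
        st.E₀ - 2 * st.mu - 2 * st.ta - st.s := by
      linarith
    rw [h3] at h2
    have h4 : S.orb b b (st.n + 1 + st.n + 1) ≠ S.orb b' b' (st.n + 1 + st.n + 1) := by
      rw [← sub_ne_zero, ← norm_pos_iff, h2]
      exact mul_pos (S.rad_pos _) hpos
    have h5 := (st.runp' (hsub0 b' hb') (E := st.E₀ - st.ta) (by linarith) (by linarith)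
      (hret b' hb')).1.scal st.glow_p (b' := b) (x' := S.orb b b (st.n + 1 + st.n + 1)) h4
      (by
        rw [h2]
        calc S.rad (st.E₀ - 2 * st.mu - 2 * st.ta - st.s) * ‖b - b'‖
            < S.rad (st.E₀ - 2 * st.mu - 2 * st.ta - st.s) * S.rad (st.s + 2 * st.mu + st.ta) :=
              mul_lt_mul_of_pos_left hlt (S.rad_pos _)
          _ = S.rad (st.E₀ - st.ta) := by rw [← S.rad_add]; congr 1; ring)
      (by
        rw [h2, mul_right_comm, ← S.rad_add]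
        have h5 : 1 < S.rad (st.E₀ - 2 * st.mu - 2 * st.ta - st.s + (st.s - st.E₀)) := by
          rw [← S.rad_zero, S.rad_lt]; linarith
        calc ‖b - b'‖ = 1 * ‖b - b'‖ := (one_mul _).symm
          _ < _ := mul_lt_mul_of_pos_right h5 hpos)
    rw [← S.orb_add, ← S.orb_add, st.gp, h2, ← mul_assoc, ← S.rad_add] at h5
    have e1 : st.Tc = st.n + 1 + st.n + 1 + st.Lp.length := rfl
    rw [e1, h5]
    congr 2
    ring

theorem exists_b3 {b₁ X₀ b₂ : K} (h1 : st.R1 b₁) (h : st.R2 b₁ X₀ b₂) :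
    ∃ b₃, ‖b₃ - b₂‖ < S.rad (st.s + 2 * st.mu + st.ta) ∧ S.orb b₃ b₃ st.Tc = X₀ := by
  refine RatOn.surj_open (lam := S.rad (S.ie - 2 * st.mu - 2 * st.ta - st.s)) (S.rad_pos _)
    (h.ratOn h1) (fun z z' hz hz' => h.scal z z' hz hz') ?_
  rw [← S.rad_add, norm_sub_rev]
  refine (h.close b₂ (by rw [sub_self, norm_zero]; exact S.rad_pos _)).trans_eq ?_
  congr 1
  ring

end Sys.State

end Pool.Agent.FIC
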