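import Pool.Agent.FIC.R2

/-!
# The deep pass (steps (3), (4) of Part 4 of the paper proof)

`om = S.om M`, `0 < om < ta`, `p ^ M om = ie - 1/(p-1)` (`pow_mul_om`).
`BB`: `‖b - b₃‖ ≤ rad (s + 2 mu + 2 ta - om)`; then `‖b - b₂‖ < rad (s + 2 mu + ta)`.
For `b` in `BB`: `‖orb b b Tc - X₀‖ = rad (ie - 2 mu - 2 ta - s) ‖b - b₃‖ ≤ rad (ie - om)`; `deep_le`
(centre `(b₀, X₀)`, `k = om`; `‖b - b₀‖ < rad s ≤ rad (ie + 5) < rad (ie + 1)`) and `cs_le`:
`Run b (orb b b Tc) ie (CXL M ++ replicate (m+1) C)` and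
`‖orb b b N₁ - orb b₀ X₀ (2M + (m+1))‖ ≤ rad (1/(p-1))`.
Choose `b'` with `‖b' - b₃‖ = rad (s + 2 mu + 2 ta - om)`; `deep_eq`, `cs_eq` for `(b₃, X₀)`,
`(b', orb b' b' Tc)`: `‖orb b' b' N₁ - orb b₃ b₃ N₁‖ = rad (1/(p-1))`.  `RatOn.ivt` for
`b ↦ orb b b N₁` on `BB` (`ratOn_orb`; no poles: `R2.nopole`, `Run.nopole`) with
`τ = orb b₀ X₀ (2M + (m+1))` gives `b₄` in `BB`: `hit`.
Let `‖b - b₄‖ < rad (s + 2 mu + 2 ta)`: then `b` is in `BB`: `sub`, `run`.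
`scal`: `b ≠ b'`, `D₀ = ‖orb b b Tc - orb b' b' Tc‖ = rad (ie - 2 mu - 2 ta - s) ‖b - b'‖ < rad ie`
(`R2.scal`); `Run.scal` for `CXL M` at `(b', orb b' b' Tc)`, `E = ie`, `g₀ = 1` (`CXL_glow`):
`‖b - b'‖ < D₀ rad 1` because `s ≥ ie + 5`; so the distance at `Tc + 2M` is `D₀` (`CXL_gains`);
`cs_small` with `l = m`, `D = D₀`: the distance `D'` at `Tc + 2M + m` is
`≤ max (rad m * D₀) ‖b - b'‖ ≤ rad ie`; one more step `C`: `C_le`: the difference of the values of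
`F` is `≤ a D'` (`D' ≤ rad ie`), `a D' ≤ max (rad (m+1) D₀) (a ‖b - b'‖) < ‖b - b'‖` by `hm`; so the
distance at `N₁` is `‖b - b'‖`.
-/

open Polynomial

noncomputable section

namespace Pool.Agent.FIC

variable {K : Type*} [NontriviallyNormedField K] [IsUltrametricDist K]

namespace Sys.State

variable {S : Sys K} (st : S.State)

/-- no poles up to the time `N₁` -/
theorem R3.nopole {st : S.State} {b₁ X₀ b₂ b₄ : K} {m : ℕ} (h1 : st.R1 b₁) (h2 : st.R2 b₁ X₀ b₂)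
    (h : st.R3 b₂ X₀ m b₄) {b : K} (hb : ‖b - b₄‖ < S.rad (st.s + 2 * st.mu + 2 * st.ta)) {i : ℕ}
    (hi : i < st.N₁ m) : S.F.Q.eval (S.orb b b i) ≠ 0 := by
  rcases lt_or_ge i st.Tc with hi' | hi'
  · exact h2.nopole h1 (h.sub b hb) hi'
  · obtain ⟨j, rfl⟩ := Nat.exists_eq_add_of_le hi'
    rw [S.orb_add]
    refine (h.run b hb).nopole ?_
    rw [List.length_append, CXL_length, List.length_replicate]
    unfold N₁ at hi
    omega

/-- the run along `C^(m+1)` after the list `CXL M` -/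
lemma r3_run_iff {b z : K} {M m : ℕ} :
    S.Run b z S.ie (CXL M ++ List.replicate (m + 1) Step.C) ↔
      S.Run b z S.ie (CXL M) ∧
        S.Run b (S.orb b z (2 * M)) S.ie (List.replicate (m + 1) Step.C) := by
  rw [S.run_append, CXL_length, S.CXL_gains, add_zero]

/-- the pass from the contact to the time `N₁`, upper bound -/
lemma r3_pass {X₀ : K} {m : ℕ}
    (hX : S.Run st.b₀ X₀ S.ie (CXL st.M ++ List.replicate (m + 1) Step.C)) {b z : K}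
    (hb : ‖b - st.b₀‖ < S.rad (S.ie + 1)) (hz : ‖z - X₀‖ ≤ S.rad (S.ie - S.om st.M)) :
    S.Run b z S.ie (CXL st.M ++ List.replicate (m + 1) Step.C) ∧
      ‖S.orb b z (2 * st.M + (m + 1)) - S.orb st.b₀ X₀ (2 * st.M + (m + 1))‖ ≤
        S.rad (1 / ((S.p : ℚ) - 1)) := by
  obtain ⟨hX1, hX2⟩ := r3_run_iff.1 hX
  have hpm := S.pow_mul_om st.M
  obtain ⟨r1, r2⟩ := S.deep_le (S.om_pos st.M).le (by rw [hpm]; linarith [S.inv_p_lt]) hX1 hb hz
  rw [hpm, sub_sub_cancel] at r2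
  obtain ⟨r3, r4⟩ := S.cs_le hX2 hb r2
  refine ⟨r3_run_iff.2 ⟨r1, r3⟩, ?_⟩
  rw [S.orb_add b z (2 * st.M) (m + 1), S.orb_add st.b₀ X₀ (2 * st.M) (m + 1)]
  exact r4

/-- the pass from the contact to the time `N₁`, boundary points -/
lemma r3_pass_eq {m : ℕ} {b z b' z' : K}
    (h : S.Run b z S.ie (CXL st.M ++ List.replicate (m + 1) Step.C))
    (h' : S.Run b' z' S.ie (CXL st.M ++ List.replicate (m + 1) Step.C))
    (hb : ‖b' - b‖ < S.rad (S.ie + 1)) (hz : ‖z' - z‖ = S.rad (S.ie - S.om st.M)) :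
    ‖S.orb b' z' (2 * st.M + (m + 1)) - S.orb b z (2 * st.M + (m + 1))‖ =
        S.rad (1 / ((S.p : ℚ) - 1)) := by
  obtain ⟨h1, h2⟩ := r3_run_iff.1 h
  obtain ⟨h3, h4⟩ := r3_run_iff.1 h'
  have e := S.deep_eq (S.om_pos st.M) h1 h3 hb hz
  rw [S.pow_mul_om st.M, sub_sub_cancel] at e
  rw [S.orb_add b' z' (2 * st.M) (m + 1), S.orb_add b z (2 * st.M) (m + 1)]
  exact S.cs_eq h2 h4 hb e

/-- the scaling of distances from the contact to the time `N₁` -/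
lemma r3_scal {m : ℕ} {b z b' z' : K} {q : ℚ}
    (h : S.Run b z S.ie (CXL st.M ++ List.replicate (m + 1) Step.C))
    (h' : S.Run b' z' S.ie (CXL st.M ++ List.replicate (m + 1) Step.C))
    (hbb : b' ≠ b) (hb : ‖b' - b‖ ≤ S.rad (S.ie + 1))
    (hz : ‖z' - z‖ = S.rad q * ‖b' - b‖) (hz' : ‖z' - z‖ < S.rad S.ie) (hq : q + 1 < 0)
    (hqm : 0 < q + m + 1) :
    ‖S.orb b' z' (2 * st.M + (m + 1)) - S.orb b z (2 * st.M + (m + 1))‖ = ‖b' - b‖ := by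
  obtain ⟨h1, h2⟩ := r3_run_iff.1 h
  obtain ⟨h3, h4⟩ := r3_run_iff.1 h'
  have hpos : 0 < ‖b' - b‖ := norm_pos_iff.2 (sub_ne_zero.2 hbb)
  have hzz : z' ≠ z := by
    rw [← sub_ne_zero, ← norm_pos_iff, hz]
    exact mul_pos (S.rad_pos _) hpos
  have e1 := h1.scal (S.CXL_glow st.M) hzz hz' (by
    rw [hz, mul_right_comm, ← S.rad_add]
    have h5 : 1 < S.rad (q + 1) := by
      rw [← S.rad_zero, S.rad_lt]; exact hq
    calc ‖b' - b‖ = 1 * ‖b' - b‖ := (one_mul _).symm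
      _ < _ := mul_lt_mul_of_pos_right h5 hpos)
  rw [CXL_length, S.CXL_gains, S.rad_zero, one_mul] at e1
  set y := S.orb b z (2 * st.M) with hy
  set y' := S.orb b' z' (2 * st.M) with hy'
  have z1 := (S.run_rep le_rfl).1 h2
  have z2 := (S.run_rep le_rfl).1 h4
  have h2' : S.Run b y S.ie (List.replicate m Step.C) :=
    (S.run_rep le_rfl).2 fun i hi => z1 i (by omega)
  have e2 := S.cs_small h2' hz'.le e1.le hb
  have hα := S.a_pos
  set δ := ‖S.orb b' y' m - S.orb b y m‖ with hδ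
  have hδ0 : 0 ≤ δ := norm_nonneg _
  have hδle : δ ≤ S.rad S.ie := by
    refine e2.trans (max_le ?_ (hb.trans (S.rad_le.2 (by linarith))))
    calc S.rad m * ‖z' - z‖ ≤ 1 * ‖z' - z‖ :=
          mul_le_mul_of_nonneg_right (S.rad_le_one.2 (Nat.cast_nonneg m)) (norm_nonneg _)
      _ ≤ S.rad S.ie := by rw [one_mul]; exact hz'.le
  have e3 := S.C_le (z1 m (by omega)) (z2 m (by omega))
  rw [← hδ] at e3
  have e4 : δ ^ S.p / ‖S.α‖ ≤ ‖S.α‖ * δ := by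
    rw [div_le_iff₀ hα]
    have h6 : δ ^ (S.p - 1) ≤ ‖S.α‖ ^ 2 := by
      have h7 : δ ^ (S.p - 1) ≤ S.rad S.ie ^ (S.p - 1) := pow_le_pow_left₀ hδ0 hδle _
      have h8 : S.rad S.ie ^ (S.p - 1) = ‖S.α‖ ^ 2 := by
        rw [← S.norm_ι, ← norm_pow, S.hι, norm_pow]
      rwa [h8] at h7
    have h9 : S.p = (S.p - 1) + 1 := by have := S.hp.two_le; omega
    calc δ ^ S.p = δ ^ (S.p - 1) * δ := by rw [← pow_succ, ← h9]
      _ ≤ ‖S.α‖ ^ 2 * δ := mul_le_mul_of_nonneg_right h6 hδ0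
      _ = ‖S.α‖ * δ * ‖S.α‖ := by ring
  have e5 : ‖S.F.ev (S.orb b' y' m) - S.F.ev (S.orb b y m)‖ < ‖b' - b‖ := by
    refine (e3.trans (max_le e4 le_rfl)).trans_lt ?_
    refine (mul_le_mul_of_nonneg_left e2 hα.le).trans_lt ?_
    rw [mul_max_of_nonneg _ _ hα.le]
    refine max_lt ?_ ?_
    · rw [hz, S.norm_α, ← mul_assoc, ← mul_assoc, ← S.rad_add, ← S.rad_add]
      have h5 : S.rad (1 + m + q) < 1 := S.rad_lt_one.2 (by linarith)
      calc S.rad (1 + m + q) * ‖b' - b‖ < 1 * ‖b' - b‖ := mul_lt_mul_of_pos_right h5 hpos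
        _ = ‖b' - b‖ := one_mul _
    · calc ‖S.α‖ * ‖b' - b‖ < 1 * ‖b' - b‖ := mul_lt_mul_of_pos_right S.α1 hpos
        _ = ‖b' - b‖ := one_mul _
  rw [S.orb_add b' z' (2 * st.M) (m + 1), S.orb_add b z (2 * st.M) (m + 1), ← hy, ← hy',
    S.orb_succ, S.orb_succ,
    S.g_diff (S.zone_nopole (z1 m (by omega))) (S.zone_nopole (z2 m (by omega))), add_comm]
  exact DeepX.add_eq e5

theorem exists_R3 [IsAlgClosed K] {b₁ X₀ b₂ b₃ : K} {m : ℕ} (h1 : st.R1 b₁) (h2 : st.R2 b₁ X₀ b₂)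
    (hb₃ : ‖b₃ - b₂‖ < S.rad (st.s + 2 * st.mu + st.ta)) (h3 : S.orb b₃ b₃ st.Tc = X₀)
    (hX : S.Run st.b₀ X₀ S.ie (CXL st.M ++ List.replicate (m + 1) Step.C))
    (hm : st.s + 2 * st.mu + 2 * st.ta < S.ie + m + 1) : ∃ b₄, st.R3 b₂ X₀ m b₄ := by
  have hom := S.om_pos st.M
  have hot : S.om st.M < st.ta := S.om_lt_tau st.M
  have hmu := st.mu_pos
  have hta := st.ta_pos
  have hs5 := st.hs
  have hN : ∀ b : K, S.orb b b (st.N₁ m) = S.orb b (S.orb b b st.Tc) (2 * st.M + (m + 1)) := by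
    intro b
    rw [← S.orb_add]
    congr 1
    unfold N₁
    ring
  -- the closed disk `BB`
  have hBB : ∀ b, ‖b - b₃‖ ≤ S.rad (st.s + 2 * st.mu + 2 * st.ta - S.om st.M) →
      ‖b - b₂‖ < S.rad (st.s + 2 * st.mu + st.ta) := by
    intro b hb
    have e : b - b₂ = (b - b₃) + (b₃ - b₂) := by ring
    rw [e]
    exact norm_add_lt' (hb.trans_lt (S.rad_lt.2 (by linarith))) hb₃
  have hb0 : ∀ b, ‖b - b₃‖ ≤ S.rad (st.s + 2 * st.mu + 2 * st.ta - S.om st.M) →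
      ‖b - st.b₀‖ < S.rad (S.ie + 1) := by
    intro b hb
    exact (h1.sub b (h2.sub b (hBB b hb))).trans_le (S.rad_le.2 (by linarith))
  have hTc : ∀ b, ‖b - b₃‖ ≤ S.rad (st.s + 2 * st.mu + 2 * st.ta - S.om st.M) →
      ‖S.orb b b st.Tc - X₀‖ = S.rad (S.ie - 2 * st.mu - 2 * st.ta - st.s) * ‖b - b₃‖ := by
    intro b hb
    have e := h2.scal b b₃ (hBB b hb) hb₃
    rwa [h3] at e
  have hTc' : ∀ b, ‖b - b₃‖ ≤ S.rad (st.s + 2 * st.mu + 2 * st.ta - S.om st.M) →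
      ‖S.orb b b st.Tc - X₀‖ ≤ S.rad (S.ie - S.om st.M) := by
    intro b hb
    rw [hTc b hb]
    calc S.rad (S.ie - 2 * st.mu - 2 * st.ta - st.s) * ‖b - b₃‖
        ≤ S.rad (S.ie - 2 * st.mu - 2 * st.ta - st.s) *
          S.rad (st.s + 2 * st.mu + 2 * st.ta - S.om st.M) :=
          mul_le_mul_of_nonneg_left hb (S.rad_pos _).le
      _ = S.rad (S.ie - S.om st.M) := by rw [← S.rad_add]; congr 1; ring
  have hpass := fun b hb => st.r3_pass hX (hb0 b hb) (hTc' b hb)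
  have hb33 : ‖b₃ - b₃‖ ≤ S.rad (st.s + 2 * st.mu + 2 * st.ta - S.om st.M) := by
    rw [sub_self, norm_zero]; exact (S.rad_pos _).le
  -- a boundary point
  obtain ⟨c, hc⟩ := S.exists_rad (st.s + 2 * st.mu + 2 * st.ta - S.om st.M)
  have hb'3 : ‖(b₃ + c) - b₃‖ = S.rad (st.s + 2 * st.mu + 2 * st.ta - S.om st.M) := by
    rw [add_sub_cancel_left]; exact hc
  have heq : ‖S.orb (b₃ + c) (b₃ + c) (st.N₁ m) - S.orb b₃ b₃ (st.N₁ m)‖ =
      S.rad (1 / ((S.p : ℚ) - 1)) := by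
    rw [hN, hN]
    refine st.r3_pass_eq (hpass b₃ hb33).1 (hpass _ hb'3.le).1 ?_ ?_
    · rw [hb'3]
      exact S.rad_lt.2 (by linarith)
    · rw [h3, hTc _ hb'3.le, hb'3, ← S.rad_add]
      congr 1; ring
  have hrat : RatOn {b | ‖b - b₃‖ ≤ S.rad (st.s + 2 * st.mu + 2 * st.ta - S.om st.M)}
      fun b => S.orb b b (st.N₁ m) := by
    refine S.ratOn_orb (RatOn.id _) (RatOn.id _) _ fun b hb i hi => ?_
    rcases lt_or_ge i st.Tc with hi' | hi'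
    · exact h2.nopole h1 (hBB b hb) hi'
    · obtain ⟨j, rfl⟩ := Nat.exists_eq_add_of_le hi'
      rw [S.orb_add]
      refine (hpass b hb).1.nopole ?_
      rw [List.length_append, CXL_length, List.length_replicate]
      unfold N₁ at hi
      omega
  obtain ⟨b₄, hb₄, hit⟩ := hrat.ivt (z₀ := b₃) (z₁ := b₃ + c)
    (τ := S.orb st.b₀ X₀ (2 * st.M + (m + 1)))
    (fun z hz => by
      rw [hb'3] at hz
      exact hz)
    (by
      rw [heq, norm_sub_rev, hN]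
      exact (hpass b₃ hb33).2)
  rw [hb'3] at hb₄
  have hin : ∀ b, ‖b - b₄‖ < S.rad (st.s + 2 * st.mu + 2 * st.ta) →
      ‖b - b₃‖ ≤ S.rad (st.s + 2 * st.mu + 2 * st.ta - S.om st.M) := by
    intro b hb
    have e : b - b₃ = (b - b₄) + (b₄ - b₃) := by ring
    rw [e]
    exact DeepX.add_le (hb.le.trans (S.rad_le.2 (by linarith))) hb₄
  refine ⟨b₄, fun b hb => hBB b (hin b hb), fun b hb => (hpass b (hin b hb)).1, hit, ?_⟩
  intro b b' hb hb'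
  by_cases hbb : b = b'
  · rw [hbb, sub_self, sub_self]
  have hlt : ‖b - b'‖ < S.rad (st.s + 2 * st.mu + 2 * st.ta) := by
    have e : b - b' = (b - b₄) + -(b' - b₄) := by ring
    rw [e]
    exact norm_add_lt' hb (by rw [norm_neg]; exact hb')
  have hsc := h2.scal b b' (hBB b (hin b hb)) (hBB b' (hin b' hb'))
  rw [hN, hN]
  refine st.r3_scal (hpass b' (hin b' hb')).1 (hpass b (hin b hb)).1 hbb ?_ hsc ?_ ?_ ?_
  · exact hlt.le.trans (S.rad_le.2 (by linarith))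
  · rw [hsc]
    calc S.rad (S.ie - 2 * st.mu - 2 * st.ta - st.s) * ‖b - b'‖
        < S.rad (S.ie - 2 * st.mu - 2 * st.ta - st.s) *
          S.rad (st.s + 2 * st.mu + 2 * st.ta) := mul_lt_mul_of_pos_left hlt (S.rad_pos _)
      _ = S.rad S.ie := by rw [← S.rad_add]; congr 1; ring
  · linarith
  · linarith

end Sys.State

end Pool.Agent.FIC
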