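import Pool.Agent.FIC.R3

/-!
# The passage `X^m` (step (5) of Part 4 of the paper proof)

`x j = orb b₀ X₀ (2M + (m+1) + j)`, `‖x j‖ ≤ rad 1` for `j < m`; `2 mu + 2 ta ≤ 1/4`.
Claim, by induction on `j ≤ m`: there is `β` with `‖β - b₄‖ ≤ rad (s + 1)`,
`orb β β (N₁ + j) = x j`, `‖orb β β (N₁ + i) - x i‖ ≤ rad (s + 1)` for `i ≤ j`.
`j = 0`: `β = b₄` (`R3.hit`).  Step: for `b, b'` in the open disk `D(β, rad (s + j + 1))` one has
`‖orb b b (N₁ + i) - orb b' b' (N₁ + i)‖ = rad (-i) ‖b - b'‖` for `i ≤ j + 1`, by induction on `i`: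
`i = 0`: `R3.scal`; for `i ≤ j` all points `orb b b (N₁ + i)` are in the zone `X` (distance
`≤ rad (-i) rad (s + j + 1) ≤ rad (s + 1)` to `orb β β (N₁ + i)`, which has distance `≤ rad (s + 1)` to
`x i`), and `X_eq`, `‖b - b'‖ < rad (-i-1) ‖b - b'‖`.
`orb β β (N₁ + j + 1) = g β (x j) = x (j+1) + (β - b₀)`, `‖β - b₀‖ < rad s`; `RatOn.surj_open` on
`D(β, rad (s+j+1))`, `lam = rad (-j-1)`, image radius `rad s`: there is `β'` with
`orb β' β' (N₁ + j + 1) = x (j + 1)`, and for `i ≤ j`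
`‖orb β' β' (N₁ + i) - x i‖ ≤ max (rad (-i) ‖β' - β‖) (rad (s+1)) ≤ rad (s + 1)`.
`RatOn`: `ratOn_orb`, `R3.nopole`, zone `X`.
-/

open Polynomial

noncomputable section

namespace Pool.Agent.FIC

variable {K : Type*} [NontriviallyNormedField K] [IsUltrametricDist K]

namespace Sys.State

variable {S : Sys K} (st : S.State)

/-- the points near a point of the zone `X` are in the zone `X` -/
lemma r4_zone {x y z : K} {e : ℚ} (he : 1 ≤ e) (hx : ‖x‖ ≤ S.rad 1) (hy : ‖y - x‖ ≤ S.rad e)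
    (hz : ‖z - y‖ ≤ S.rad e) : S.zone .X z := by
  change ‖z‖ ≤ S.rad 1
  have e1 : z = (z - y) + ((y - x) + x) := by ring
  have h1 : S.rad e ≤ S.rad 1 := S.rad_le.2 he
  rw [e1]
  exact DeepX.add_le (hz.trans h1) (DeepX.add_le (hy.trans h1) hx)

/-- the scaling of distances along the passage `X^m` -/
lemma r4_scal {x : ℕ → K} {N₁ j : ℕ} {s : ℚ} {β : K} (hs : 0 ≤ s)
    (hx : ∀ i ≤ j, ‖x i‖ ≤ S.rad 1)
    (hβ : ∀ i ≤ j, ‖S.orb β β (N₁ + i) - x i‖ ≤ S.rad (s + 1))
    (h0 : ∀ b b', ‖b - β‖ < S.rad (s + j + 1) → ‖b' - β‖ < S.rad (s + j + 1) →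
      ‖S.orb b b N₁ - S.orb b' b' N₁‖ = ‖b - b'‖) :
    ∀ i ≤ j + 1, ∀ b b', ‖b - β‖ < S.rad (s + j + 1) → ‖b' - β‖ < S.rad (s + j + 1) →
      ‖S.orb b b (N₁ + i) - S.orb b' b' (N₁ + i)‖ = S.rad (-i) * ‖b - b'‖ ∧
      ∀ i' < i, S.zone .X (S.orb b b (N₁ + i')) := by
  have hββ : ‖β - β‖ < S.rad (s + j + 1) := by
    rw [sub_self, norm_zero]; exact S.rad_pos _
  intro i
  induction i with
  | zero =>
    intro _ b b' hb hb'
    refine ⟨?_, fun i' hi' => absurd hi' (Nat.not_lt_zero _)⟩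
    rw [Nat.cast_zero, neg_zero, S.rad_zero, one_mul]
    exact h0 b b' hb hb'
  | succ i ih =>
    intro hi b b' hb hb'
    have hij : i ≤ j := by omega
    have hz : ∀ c, ‖c - β‖ < S.rad (s + j + 1) → S.zone .X (S.orb c c (N₁ + i)) := by
      intro c hc
      have h1 := (ih (by omega) c β hc hββ).1
      refine r4_zone (S := S) (e := s + 1) (by linarith) (hx i hij) (hβ i hij) ?_
      rw [h1]
      have hij' : (i : ℚ) ≤ j := by exact_mod_cast hij
      calc S.rad (-i) * ‖c - β‖ ≤ S.rad (-i) * S.rad (s + j + 1) :=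
            mul_le_mul_of_nonneg_left hc.le (S.rad_pos _).le
        _ = S.rad (s + 1 + (j - i)) := by rw [← S.rad_add]; congr 1; ring
        _ ≤ S.rad (s + 1) := S.rad_le.2 (by linarith)
    refine ⟨?_, ?_⟩
    · rcases eq_or_ne b b' with rfl | hbb
      · rw [sub_self, sub_self, norm_zero, mul_zero]
      have hpos : 0 < ‖b - b'‖ := norm_pos_iff.2 (sub_ne_zero.2 hbb)
      have h1 := (ih (by omega) b b' hb hb').1
      have hX := S.X_eq (hz b' hb') (hz b hb)
      rw [h1, S.norm_α, div_eq_mul_inv, ← S.rad_neg, mul_right_comm, ← S.rad_add] at hX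
      have e0 : (-(i : ℚ) + -1) = -((i + 1 : ℕ) : ℚ) := by push_cast; ring
      rw [e0] at hX
      have e1 : N₁ + (i + 1) = (N₁ + i) + 1 := by ring
      rw [e1, S.orb_succ, S.orb_succ, S.g_diff (S.zone_nopole (hz b' hb')) (S.zone_nopole (hz b hb)),
        ← hX]
      refine DeepX.add_eq ?_
      rw [hX]
      have h5 : 1 < S.rad (-((i + 1 : ℕ) : ℚ)) := by
        rw [← S.rad_zero, S.rad_lt]
        push_cast
        have : (0 : ℚ) ≤ i := Nat.cast_nonneg i
        linarith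
      calc ‖b - b'‖ = 1 * ‖b - b'‖ := (one_mul _).symm
        _ < _ := mul_lt_mul_of_pos_right h5 hpos
    · intro i' hi'
      rcases Nat.lt_succ_iff_lt_or_eq.1 hi' with h | rfl
      · exact (ih (by omega) b b' hb hb').2 i' h
      · exact hz b hb

theorem exists_R4 [IsAlgClosed K] {b₁ X₀ b₂ b₄ : K} {m : ℕ} (h1 : st.R1 b₁) (h2 : st.R2 b₁ X₀ b₂)
    (h3 : st.R3 b₂ X₀ m b₄)
    (hX : ∀ j < m, ‖S.orb st.b₀ X₀ (2 * st.M + (m + 1) + j)‖ ≤ S.rad 1) :
    ∃ b₅, st.R4 b₄ X₀ m b₅ := by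
  have hie := S.ie_pos
  have hs5 := st.hs
  have hs0 : 0 ≤ st.s := by linarith
  have h14 : 2 * st.mu + 2 * st.ta < 1 := by
    have := st.two_ta_lt
    have := st.x_add_mu_le
    linarith
  set x : ℕ → K := fun j => S.orb st.b₀ X₀ (2 * st.M + (m + 1) + j) with hx
  have key : ∀ j ≤ m, ∃ β, ‖β - b₄‖ ≤ S.rad (st.s + 1) ∧ S.orb β β (st.N₁ m + j) = x j ∧
      ∀ i ≤ j, ‖S.orb β β (st.N₁ m + i) - x i‖ ≤ S.rad (st.s + 1) := by
    intro j
    induction j with
    | zero =>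
      intro _
      have e0 : S.orb b₄ b₄ (st.N₁ m + 0) = x 0 := h3.hit
      refine ⟨b₄, ?_, e0, ?_⟩
      · rw [sub_self, norm_zero]; exact (S.rad_pos _).le
      · intro i hi
        obtain rfl : i = 0 := by omega
        rw [e0, sub_self, norm_zero]; exact (S.rad_pos _).le
    | succ j ih =>
      intro hj
      obtain ⟨β, hβ4, hβj, hβi⟩ := ih (by omega)
      have hj0 : (0 : ℚ) ≤ j := Nat.cast_nonneg j
      have hin : ∀ b, ‖b - β‖ < S.rad (st.s + j + 1) →
          ‖b - b₄‖ < S.rad (st.s + 2 * st.mu + 2 * st.ta) := by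
        intro b hb
        have e : b - b₄ = (b - β) + (β - b₄) := by ring
        rw [e]
        exact DeepX.add_lt (hb.trans_le (S.rad_le.2 (by linarith)))
          (hβ4.trans_lt (S.rad_lt.2 (by linarith)))
      have hxi : ∀ i ≤ j, ‖x i‖ ≤ S.rad 1 := fun i hi => hX i (by omega)
      have hsc := r4_scal (S := S) hs0 hxi hβi
        (fun b b' hb hb' => h3.scal b b' (hin b hb) (hin b' hb'))
      have hββ : ‖β - β‖ < S.rad (st.s + j + 1) := by
        rw [sub_self, norm_zero]; exact S.rad_pos _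
      have hrat : RatOn {b | ‖b - β‖ < S.rad (st.s + j + 1)}
          fun b => S.orb b b (st.N₁ m + (j + 1)) := by
        refine S.ratOn_orb (RatOn.id _) (RatOn.id _) _ fun b hb i hi => ?_
        rcases lt_or_ge i (st.N₁ m) with hi' | hi'
        · exact h3.nopole h1 h2 (hin b hb) hi'
        · obtain ⟨i', rfl⟩ := Nat.exists_eq_add_of_le hi'
          exact S.zone_nopole ((hsc (j + 1) le_rfl b β hb hββ).2 i' (by omega))
      have hzj : S.zone .X (x j) := hxi j le_rfl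
      have hval : x (j + 1) - S.orb β β (st.N₁ m + (j + 1)) = st.b₀ - β := by
        have e1 : st.N₁ m + (j + 1) = (st.N₁ m + j) + 1 := by ring
        have e2 : x (j + 1) = S.g st.b₀ (x j) := S.orb_succ _ _ _
        rw [e1, S.orb_succ, hβj, e2, S.g_diff (S.zone_nopole hzj) (S.zone_nopole hzj), sub_self,
          zero_add]
      have hβ0 : ‖β - st.b₀‖ < S.rad st.s :=
        h1.sub β (h2.sub β (h3.sub β (hin β hββ)))
      obtain ⟨β', hβ'1, hβ'2⟩ := RatOn.surj_open (lam := S.rad (-((j + 1 : ℕ) : ℚ)))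
        (τ := x (j + 1)) (S.rad_pos _) hrat
        (fun b b' hb hb' => (hsc (j + 1) le_rfl b b' hb hb').1) (by
          rw [hval, norm_sub_rev, ← S.rad_add]
          refine hβ0.trans_eq ?_
          congr 1
          push_cast
          ring)
      refine ⟨β', ?_, hβ'2, ?_⟩
      · have e : β' - b₄ = (β' - β) + (β - b₄) := by ring
        rw [e]
        exact DeepX.add_le (hβ'1.le.trans (S.rad_le.2 (by linarith))) hβ4
      · intro i hi
        rcases Nat.le_succ_iff.1 hi with hi' | rfl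
        · have e : S.orb β' β' (st.N₁ m + i) - x i =
            (S.orb β' β' (st.N₁ m + i) - S.orb β β (st.N₁ m + i)) +
              (S.orb β β (st.N₁ m + i) - x i) := by ring
          rw [e]
          refine DeepX.add_le ?_ (hβi i hi')
          rw [(hsc i (by omega) β' β hβ'1 hββ).1]
          have hij' : (i : ℚ) ≤ j := by exact_mod_cast hi'
          calc S.rad (-i) * ‖β' - β‖ ≤ S.rad (-i) * S.rad (st.s + j + 1) :=
                mul_le_mul_of_nonneg_left hβ'1.le (S.rad_pos _).le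
            _ = S.rad (st.s + 1 + (j - i)) := by rw [← S.rad_add]; congr 1; ring
            _ ≤ S.rad (st.s + 1) := S.rad_le.2 (by linarith)
        · rw [hβ'2, sub_self, norm_zero]; exact (S.rad_pos _).le
  obtain ⟨b₅, hb1, hb2, hb3⟩ := key m le_rfl
  refine ⟨b₅, hb1.trans_lt (S.rad_lt.2 (by linarith)), ?_, hb2⟩
  intro j hj
  have e : S.orb b₅ b₅ (st.N₁ m + j) = (S.orb b₅ b₅ (st.N₁ m + j) - x j) + x j := by ring
  rw [e]
  exact DeepX.add_le ((hb3 j hj.le).trans (S.rad_le.2 (by linarith))) (hX j hj)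

end Sys.State

end Pool.Agent.FIC
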