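import Pool.Agent.FIC.RadG

/-!
# Elementary facts on the constants of a system

`rad e = a ^ e` (`Real.rpow`), `0 < a < 1`.
-/

open Polynomial

noncomputable section

namespace Pool.Agent.FIC

variable {K : Type*} [NontriviallyNormedField K]

namespace Sys

variable (S : Sys K)

theorem a_pos : 0 < ‖S.α‖ := norm_pos_iff.2 S.α0

theorem rad_pos (e : ℚ) : 0 < S.rad e := rad_pos' S.a_pos e

theorem rad_zero : S.rad 0 = 1 := rad_zero' _

theorem rad_one : S.rad 1 = ‖S.α‖ := rad_one' _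

theorem rad_add (e e' : ℚ) : S.rad (e + e') = S.rad e * S.rad e' := rad_add' S.a_pos _ _

theorem rad_sub (e e' : ℚ) : S.rad (e - e') = S.rad e / S.rad e' := rad_sub' S.a_pos _ _

theorem rad_neg (e : ℚ) : S.rad (-e) = (S.rad e)⁻¹ := rad_neg' S.a_pos _

theorem rad_natCast (n : ℕ) : S.rad n = ‖S.α‖ ^ n := rad_natCast' _ _

theorem rad_ofNat (n : ℕ) [n.AtLeastTwo] : S.rad (OfNat.ofNat n) = ‖S.α‖ ^ (OfNat.ofNat n : ℕ) :=
  rad_natCast' ‖S.α‖ (OfNat.ofNat n)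

theorem rad_nat_mul (n : ℕ) (e : ℚ) : S.rad (n * e) = S.rad e ^ n := rad_nat_mul' S.a_pos _ _

theorem rad_lt {e e' : ℚ} : S.rad e < S.rad e' ↔ e' < e := rad_lt' S.a_pos S.α1

theorem rad_le {e e' : ℚ} : S.rad e ≤ S.rad e' ↔ e' ≤ e := rad_le' S.a_pos S.α1

theorem rad_inj {e e' : ℚ} : S.rad e = S.rad e' ↔ e = e' := by
  constructor
  · intro h
    exact le_antisymm (S.rad_le.1 h.symm.le) (S.rad_le.1 h.le)
  · rintro rfl; rfl

theorem rad_lt_one {e : ℚ} : S.rad e < 1 ↔ 0 < e := by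
  rw [← S.rad_zero, S.rad_lt]

theorem rad_le_one {e : ℚ} : S.rad e ≤ 1 ↔ 0 ≤ e := by
  rw [← S.rad_zero, S.rad_le]

/-- `rad` is cofinal at `0` -/
theorem exists_rad_lt {δ : ℝ} (hδ : 0 < δ) : ∃ n : ℕ, ∀ e : ℚ, (n : ℚ) ≤ e → S.rad e < δ := by
  obtain ⟨n, hn⟩ := exists_pow_lt_of_lt_one hδ S.α1
  refine ⟨n, fun e he => lt_of_le_of_lt ?_ hn⟩
  rw [← S.rad_natCast, S.rad_le]
  exact he

theorem exists_rad [IsAlgClosed K] (e : ℚ) : ∃ z : K, ‖z‖ = S.rad e := exists_rad' S.α0 e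

theorem two_le_p : (2 : ℚ) ≤ S.p := by exact_mod_cast S.hp.two_le

theorem p_sub_pos : 0 < (S.p : ℚ) - 1 := by have := S.two_le_p; linarith

theorem p_pos : 0 < (S.p : ℚ) := by have := S.two_le_p; linarith

theorem ie_pos : 0 < S.ie := div_pos two_pos S.p_sub_pos

theorem ie_le : S.ie ≤ 2 := by
  unfold ie
  rw [div_le_iff₀ S.p_sub_pos]
  have := S.two_le_p
  linarith

/-- `p ie = ie + 2` -/
theorem p_mul_ie : (S.p : ℚ) * S.ie = S.ie + 2 := by
  unfold ie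
  have := S.p_sub_pos
  field_simp
  ring

theorem inv_p_lt : 1 / (S.p : ℚ) < 1 / ((S.p : ℚ) - 1) :=
  one_div_lt_one_div_of_lt S.p_sub_pos (by linarith)

theorem inv_lt_ie : 1 / ((S.p : ℚ) - 1) < S.ie := by
  unfold ie
  exact div_lt_div_of_pos_right one_lt_two S.p_sub_pos

theorem ie_sub : S.ie - 1 / ((S.p : ℚ) - 1) = 1 / ((S.p : ℚ) - 1) := by
  unfold ie
  have := S.p_sub_pos
  field_simp
  ring

theorem inv_p_pos : 0 < 1 / (S.p : ℚ) := by
  have := S.p_pos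
  positivity

theorem inv_p_le : 1 / (S.p : ℚ) ≤ 1 / 2 := one_div_le_one_div_of_le two_pos S.two_le_p

theorem N_cast : (S.N : ℚ) = 4 * S.p + 1 := by rw [N]; push_cast; ring

theorem nine_le_N : (9 : ℚ) ≤ S.N := by
  rw [S.N_cast]
  have := S.two_le_p
  linarith

theorem N_pos : (0 : ℚ) < S.N := by have := S.nine_le_N; linarith

/-- `1 / N < ie` -/
theorem inv_N_lt_ie : 1 / (S.N : ℚ) < S.ie := by
  refine lt_trans ?_ S.inv_lt_ie
  refine one_div_lt_one_div_of_lt S.p_sub_pos ?_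
  rw [S.N_cast]
  have := S.two_le_p
  linarith

theorem pow_p_pos (M : ℕ) : 0 < (S.p : ℚ) ^ M := pow_pos S.p_pos M

theorem tau_pos (M : ℕ) : 0 < S.tau M :=
  div_pos (by have := S.inv_p_lt; have := S.inv_lt_ie; linarith) (S.pow_p_pos M)

theorem om_pos (M : ℕ) : 0 < S.om M :=
  div_pos (div_pos one_pos S.p_sub_pos) (S.pow_p_pos M)

theorem om_lt_tau (M : ℕ) : S.om M < S.tau M := by
  unfold om tau
  refine div_lt_div_of_pos_right ?_ (S.pow_p_pos M)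
  have h1 := S.ie_sub
  have h2 := S.inv_p_lt
  linarith

theorem pow_mul_tau (M : ℕ) : (S.p : ℚ) ^ M * S.tau M = S.ie - 1 / S.p := by
  unfold tau
  exact mul_div_cancel₀ _ (S.pow_p_pos M).ne'

/-- note `ie - 1 / (p - 1) = 1 / (p - 1)` -/
theorem pow_mul_om (M : ℕ) : (S.p : ℚ) ^ M * S.om M = S.ie - 1 / ((S.p : ℚ) - 1) := by
  unfold om
  rw [S.ie_sub]
  exact mul_div_cancel₀ _ (S.pow_p_pos M).ne'

theorem tau_small {δ : ℚ} (hδ : 0 < δ) : ∃ M₀ : ℕ, ∀ M, M₀ ≤ M → S.tau M < δ := by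
  have h1 : 0 < S.ie - 1 / S.p := by
    have := S.inv_p_lt; have := S.inv_lt_ie; linarith
  obtain ⟨n, hn⟩ := pow_unbounded_of_one_lt ((S.ie - 1 / S.p) / δ) (one_lt_two : (1 : ℚ) < 2)
  refine ⟨n, fun M hM => ?_⟩
  unfold tau
  rw [div_lt_iff₀ (S.pow_p_pos M)]
  rw [div_lt_iff₀ hδ] at hn
  have h2 : (2 : ℚ) ^ n ≤ (S.p : ℚ) ^ M := by
    calc (2 : ℚ) ^ n ≤ 2 ^ M := pow_le_pow_right₀ one_le_two hM
      _ ≤ (S.p : ℚ) ^ M := pow_le_pow_left₀ two_pos.le S.two_le_p M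
  calc S.ie - 1 / S.p < 2 ^ n * δ := hn
    _ ≤ (S.p : ℚ) ^ M * δ := mul_le_mul_of_nonneg_right h2 hδ.le
    _ = δ * (S.p : ℚ) ^ M := mul_comm _ _

theorem norm_α : ‖S.α‖ = S.rad 1 := S.rad_one.symm

theorem norm_c : ‖S.c‖ = S.rad S.gam := S.hc

theorem p_sub_one_ne : S.p - 1 ≠ 0 := by have := S.hp.two_le; omega

theorem cast_p_sub : ((S.p - 1 : ℕ) : ℚ) = (S.p : ℚ) - 1 := by
  have := S.hp.one_lt
  push_cast [Nat.cast_sub this.le]
  ring

theorem norm_ι : ‖S.ι₀‖ = S.rad S.ie := by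
  have h : ‖S.ι₀‖ ^ (S.p - 1) = S.rad S.ie ^ (S.p - 1) := by
    rw [← norm_pow, S.hι, norm_pow, ← S.rad_nat_mul, S.cast_p_sub]
    have : ((S.p : ℚ) - 1) * S.ie = 2 := by
      unfold ie
      exact mul_div_cancel₀ _ S.p_sub_pos.ne'
    rw [this]
    exact (S.rad_ofNat 2).symm
  exact (pow_left_inj₀ (norm_nonneg _) (S.rad_pos _).le S.p_sub_one_ne).1 h

theorem norm_ϑ : ‖S.ϑ‖ = 1 := by
  have h : ‖S.ϑ‖ ^ (S.p - 1) = 1 ^ (S.p - 1) := by
    rw [← norm_pow, S.hϑ, norm_neg, norm_one, one_pow]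
  exact (pow_left_inj₀ (norm_nonneg _) zero_le_one S.p_sub_one_ne).1 h

theorem ι_ne : S.ι₀ ≠ 0 := by
  rw [← norm_pos_iff, S.norm_ι]
  exact S.rad_pos _

theorem ϑ_ne : S.ϑ ≠ 0 := by
  rw [← norm_pos_iff, S.norm_ϑ]
  exact one_pos

theorem c_ne : S.c ≠ 0 := by
  rw [← norm_pos_iff, S.norm_c]
  exact S.rad_pos _

theorem norm_p_lt : ‖(S.p : K)‖ < 1 :=
  lt_of_le_of_lt S.hpα (pow_lt_one₀ (norm_nonneg _) S.α1 (by norm_num))

theorem norm_N [IsUltrametricDist K] : ‖(S.N : K)‖ = 1 := by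
  have h1 : ‖((4 * S.p : ℕ) : K)‖ < 1 := by
    push_cast
    rw [norm_mul]
    have h4 : ‖(4 : K)‖ ≤ 1 := by
      have := IsUltrametricDist.norm_natCast_le_one K 4
      exact_mod_cast this
    calc ‖(4 : K)‖ * ‖(S.p : K)‖ ≤ 1 * ‖(S.p : K)‖ :=
          mul_le_mul_of_nonneg_right h4 (norm_nonneg _)
      _ = ‖(S.p : K)‖ := one_mul _
      _ < 1 := S.norm_p_lt
  have h2 : (S.N : K) = 1 + ((4 * S.p : ℕ) : K) := by
    unfold N
    push_cast
    ring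
  rw [h2, IsUltrametricDist.norm_add_eq_max_of_norm_ne_norm (by rw [norm_one]; exact h1.ne'),
    norm_one]
  exact max_eq_left h1.le

theorem A_ϑ : S.A S.ϑ = 0 := by
  unfold A
  have h : S.ϑ ^ S.p = S.ϑ ^ (S.p - 1) * S.ϑ := by
    rw [← pow_succ]
    congr 1
    have := S.hp.one_lt
    omega
  rw [h, S.hϑ]
  ring

theorem zC_rad : (FIC.rad ‖S.α‖ (1 / S.p)) = S.rad (1 / S.p) := rfl

theorem g_eq (b : K) {z : K} (h : S.F.Q.eval z ≠ 0) : S.g b z = S.F.ev z + b := by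
  unfold g RatMap.ev RatMap.shift
  simp only [eval_add, eval_mul, eval_C]
  field_simp

theorem orb_zero (b x : K) : S.orb b x 0 = x := rfl

theorem orb_one (b x : K) : S.orb b x 1 = S.g b x := rfl

theorem orb_succ (b x : K) (n : ℕ) : S.orb b x (n + 1) = S.g b (S.orb b x n) :=
  Function.iterate_succ_apply' _ _ _

theorem orb_succ' (b x : K) (n : ℕ) : S.orb b x (n + 1) = S.orb b (S.g b x) n := rfl

theorem orb_add (b x : K) (m n : ℕ) : S.orb b x (m + n) = S.orb b (S.orb b x m) n := by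
  unfold orb
  rw [add_comm, Function.iterate_add_apply]

theorem it_eq (b x : K) (n : ℕ) : (S.F.shift b).it n x = S.orb b x n := rfl

theorem natDegree_shift_le (b : K) : (S.F.shift b).P.natDegree ≤ S.F.Q.natDegree := by
  refine (natDegree_add_le _ _).trans (max_le S.deg ?_)
  exact natDegree_C_mul_le _ _

theorem shift_degree (b : K) : (S.F.shift b).degree = S.F.degree := by
  unfold RatMap.degree
  have h1 := S.natDegree_shift_le b
  have h2 : (S.F.shift b).Q = S.F.Q := rfl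
  rw [h2, max_eq_right h1, max_eq_right S.deg]

theorem one_le_degree : 1 ≤ S.F.degree := by
  by_contra h
  have h0 : S.F.Q.natDegree = 0 := by
    have := le_max_right S.F.P.natDegree S.F.Q.natDegree
    unfold RatMap.degree at h
    omega
  obtain ⟨q, hq⟩ : ∃ q, S.F.Q = C q := ⟨_, eq_C_of_natDegree_eq_zero h0⟩
  apply S.simple
  rw [hq]
  simp

end Sys

end Pool.Agent.FIC
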