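import Pool.Agent.FIC.Sys

/-!
# The radii `rad a e = a ^ e`
-/

noncomputable section

namespace Pool.Agent.FIC

variable {a : ℝ}

theorem rad_pos' (h0 : 0 < a) (e : ℚ) : 0 < rad a e := Real.rpow_pos_of_pos h0 _

theorem rad_zero' (a : ℝ) : rad a 0 = 1 := by simp [rad]

theorem rad_one' (a : ℝ) : rad a 1 = a := by simp [rad]

theorem rad_add' (h0 : 0 < a) (e e' : ℚ) : rad a (e + e') = rad a e * rad a e' := by
  unfold rad
  push_cast
  exact Real.rpow_add h0 _ _

theorem rad_sub' (h0 : 0 < a) (e e' : ℚ) : rad a (e - e') = rad a e / rad a e' := by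
  unfold rad
  push_cast
  exact Real.rpow_sub h0 _ _

theorem rad_neg' (h0 : 0 < a) (e : ℚ) : rad a (-e) = (rad a e)⁻¹ := by
  unfold rad
  push_cast
  exact Real.rpow_neg h0.le _

theorem rad_natCast' (a : ℝ) (n : ℕ) : rad a n = a ^ n := by
  unfold rad
  push_cast
  exact Real.rpow_natCast _ _

theorem rad_nat_mul' (h0 : 0 < a) (n : ℕ) (e : ℚ) : rad a (n * e) = rad a e ^ n := by
  unfold rad
  rw [← Real.rpow_natCast, ← Real.rpow_mul h0.le]
  congr 1
  push_cast
  ring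

theorem rad_lt' (h0 : 0 < a) (h1 : a < 1) {e e' : ℚ} : rad a e < rad a e' ↔ e' < e := by
  unfold rad
  rw [Real.rpow_lt_rpow_left_iff_of_base_lt_one h0 h1]
  exact_mod_cast Iff.rfl

theorem rad_le' (h0 : 0 < a) (h1 : a < 1) {e e' : ℚ} : rad a e ≤ rad a e' ↔ e' ≤ e := by
  unfold rad
  rw [Real.rpow_le_rpow_left_iff_of_base_lt_one h0 h1]
  exact_mod_cast Iff.rfl

/-- the value group of an algebraically closed field contains all rational powers -/
theorem exists_rad' {K : Type*} [NontriviallyNormedField K] [IsAlgClosed K] {α : K} (h : α ≠ 0)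
    (e : ℚ) : ∃ z : K, ‖z‖ = rad ‖α‖ e := by
  have hden : (0 : ℕ) < e.den := e.den_pos
  obtain ⟨z, hz⟩ := IsAlgClosed.exists_pow_nat_eq (α ^ e.num) hden
  refine ⟨z, ?_⟩
  have h0 : 0 < ‖α‖ := norm_pos_iff.2 h
  have h1 : ‖z‖ ^ e.den = ‖α‖ ^ e.num := by rw [← norm_pow, hz, norm_zpow]
  have h2 : rad ‖α‖ e ^ e.den = ‖α‖ ^ e.num := by
    rw [← rad_nat_mul' h0]
    have : (e.den : ℚ) * e = e.num := Rat.den_mul_eq_num e
    rw [this]
    unfold rad
    push_cast
    exact Real.rpow_intCast _ _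
  exact (pow_left_inj₀ (norm_nonneg z) (rad_pos' h0 e).le hden.ne').1 (h1.trans h2.symm)

end Pool.Agent.FIC
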