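import Pool.Agent.FIC.StB
import Pool.Agent.FIC.Deep

/-!
# The rounds of the stage step: statements

`b₁, b₂, b₄, b₅`: centres of the disks `B₁ ⊇ B₂ ⊇ B₃`, see Part 4 of the paper proof.
-/

open Polynomial

noncomputable section

namespace Pool.Agent.FIC

variable {K : Type*} [NontriviallyNormedField K]

namespace Sys.State

variable {S : Sys K} (st : S.State)

/-- the disk `B₁ = D(b₁, rad (s + mu))` -/
structure R1 (b₁ : K) : Prop where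
  sub : ∀ b, ‖b - b₁‖ < S.rad (st.s + st.mu) → ‖b - st.b₀‖ < S.rad st.s
  dist : ∀ b, ‖b - b₁‖ < S.rad (st.s + st.mu) → ‖S.orb b b st.n - S.w‖ = S.rad (S.gam - st.E₀)
  ret : ∀ b, ‖b - b₁‖ < S.rad (st.s + st.mu) → ‖S.orb b b (st.n + 1) - st.b₀‖ ≤ S.rad st.E₀
  close : ∀ b, ‖b - b₁‖ < S.rad (st.s + st.mu) →
    ‖S.orb b b (st.n + 1 + st.n) - S.w‖ < S.rad (S.ie + st.x)
  scal : ∀ b b', ‖b - b₁‖ < S.rad (st.s + st.mu) → ‖b' - b₁‖ < S.rad (st.s + st.mu) →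
    ‖S.orb b b (st.n + 1 + st.n) - S.orb b' b' (st.n + 1 + st.n)‖ =
      S.rad (S.ie + st.x - st.mu - st.s) * ‖b - b'‖

/-- the time of the contact in the third round -/
def Tc : ℕ := st.n + 1 + st.n + 1 + st.m₀

/-- the disk `B₂ = D(b₂, rad (s + 2 mu + ta))` -/
structure R2 (b₁ X₀ b₂ : K) : Prop where
  sub : ∀ b, ‖b - b₂‖ < S.rad (st.s + 2 * st.mu + st.ta) → ‖b - b₁‖ < S.rad (st.s + st.mu)
  dist : ∀ b, ‖b - b₂‖ < S.rad (st.s + 2 * st.mu + st.ta) →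
    ‖S.orb b b (st.n + 1 + st.n) - S.w‖ = S.rad (S.gam - st.E₀ + st.ta)
  ret : ∀ b, ‖b - b₂‖ < S.rad (st.s + 2 * st.mu + st.ta) →
    ‖S.orb b b (st.n + 1 + st.n + 1) - st.b₀‖ ≤ S.rad (st.E₀ - st.ta)
  close : ∀ b, ‖b - b₂‖ < S.rad (st.s + 2 * st.mu + st.ta) →
    ‖S.orb b b st.Tc - X₀‖ < S.rad (S.ie - st.ta)
  scal : ∀ b b', ‖b - b₂‖ < S.rad (st.s + 2 * st.mu + st.ta) →
    ‖b' - b₂‖ < S.rad (st.s + 2 * st.mu + st.ta) →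
    ‖S.orb b b st.Tc - S.orb b' b' st.Tc‖ =
      S.rad (S.ie - 2 * st.mu - 2 * st.ta - st.s) * ‖b - b'‖

/-- the time `N₁ = T_c + 2 M + (m + 1)` -/
def N₁ (m : ℕ) : ℕ := st.Tc + 2 * st.M + (m + 1)

/-- the disk `B₃ = D(b₄, rad (s + 2 mu + 2 ta))` -/
structure R3 (b₂ X₀ : K) (m : ℕ) (b₄ : K) : Prop where
  sub : ∀ b, ‖b - b₄‖ < S.rad (st.s + 2 * st.mu + 2 * st.ta) →
    ‖b - b₂‖ < S.rad (st.s + 2 * st.mu + st.ta)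
  run : ∀ b, ‖b - b₄‖ < S.rad (st.s + 2 * st.mu + 2 * st.ta) →
    S.Run b (S.orb b b st.Tc) S.ie (CXL st.M ++ List.replicate (m + 1) Step.C)
  hit : S.orb b₄ b₄ (st.N₁ m) = S.orb st.b₀ X₀ (2 * st.M + (m + 1))
  scal : ∀ b b', ‖b - b₄‖ < S.rad (st.s + 2 * st.mu + 2 * st.ta) →
    ‖b' - b₄‖ < S.rad (st.s + 2 * st.mu + 2 * st.ta) →
    ‖S.orb b b (st.N₁ m) - S.orb b' b' (st.N₁ m)‖ = ‖b - b'‖

/-- the new centre `b₅` -/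
structure R4 (b₄ X₀ : K) (m : ℕ) (b₅ : K) : Prop where
  near : ‖b₅ - b₄‖ < S.rad (st.s + 2 * st.mu + 2 * st.ta)
  zone : ∀ j < m, ‖S.orb b₅ b₅ (st.N₁ m + j)‖ ≤ S.rad 1
  hit : S.orb b₅ b₅ (st.N₁ m + m) = S.orb st.b₀ X₀ (2 * st.M + (m + 1) + m)

end Sys.State

end Pool.Agent.FIC
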