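import Pool.Agent.FIC.Steps

/-!
# Runs: tube lemma and main lemma (Lemmas 2, 3 of the paper proof)

All by induction on the list, for all `x`, `E`.
* `Run.tube`: for `s :: L`: `S.zone_congr`, `g b' x' - g b x = (F x' - F x) + (b' - b)` (`g_eq`),
  `step_le`, `‖b' - b‖ ≤ rad (E + g₀) ≤ rad (E + gain s)`; the hypothesis for the rest of the list has
  `E + gain s` and `g₀ - gain s`.
* `Run.main`: for `s :: L`: put `D' = D * rad (gain s) < rad (E + gain s)`,
  `g b' x' - g b x = slope (x' - x) + (step_lt error) + (b' - b)`, norm `≤ D'` (`norm_slope`); the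
  induction hypothesis compares with `slp' * (g b' x' - g b x)`, and
  `slp' * (g b' x' - g b x) - slp' * slope * (x' - x)` has norm `< rad (gains L) * D'` (`norm_slp`).
* `Run.scal`: `Run.main` with `D = ‖x' - x‖`.
-/

open Polynomial

noncomputable section

namespace Pool.Agent.FIC

variable {K : Type*} [NontriviallyNormedField K] [IsUltrametricDist K]

namespace Sys

variable (S : Sys K)

theorem gains_nil : S.gains [] = 0 := rfl

theorem gains_cons (s : Step) (L : List Step) : S.gains (s :: L) = S.gain s + S.gains L := by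
  simp [gains]

theorem gains_append (L L' : List Step) : S.gains (L ++ L') = S.gains L + S.gains L' := by
  simp [gains]

theorem GLow.mono {S : Sys K} {g₀ g₁ : ℚ} {L : List Step} (h : S.GLow g₀ L) (hg : g₀ ≤ g₁) :
    S.GLow g₁ L := by
  induction L generalizing g₀ g₁ with
  | nil => trivial
  | cons s L ih => exact ⟨h.1.trans hg, ih h.2 (sub_le_sub_right hg _)⟩

theorem glow_append {g₀ : ℚ} {L L' : List Step} :
    S.GLow g₀ (L ++ L') ↔ S.GLow g₀ L ∧ S.GLow (g₀ - S.gains L) L' := by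
  induction L generalizing g₀ with
  | nil =>
    rw [List.nil_append, gains_nil, sub_zero]
    exact ⟨fun h => ⟨trivial, h⟩, fun h => h.2⟩
  | cons s L ih =>
    rw [gains_cons, ← sub_sub]
    constructor
    · rintro ⟨h1, h2⟩
      exact ⟨⟨h1, (ih.1 h2).1⟩, (ih.1 h2).2⟩
    · rintro ⟨⟨h1, h2⟩, h3⟩
      exact ⟨h1, ih.2 ⟨h2, h3⟩⟩

theorem GLow.take {S : Sys K} {g₀ : ℚ} {L : List Step} (h : S.GLow g₀ L) (i : ℕ) :
    S.GLow g₀ (L.take i) := by
  rw [← List.take_append_drop i L, glow_append] at h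
  exact h.1

/-- every list has a bound for its partial gains -/
theorem exists_glow (L : List Step) : ∃ g₀ : ℚ, S.GLow g₀ L := by
  induction L with
  | nil => exact ⟨0, trivial⟩
  | cons s L ih =>
    obtain ⟨g₀, h⟩ := ih
    exact ⟨max (S.gain s) (g₀ + S.gain s), le_max_left _ _,
      h.mono (le_sub_iff_add_le.2 (le_max_right _ _))⟩

theorem Run.mono {S : Sys K} {b x : K} {E E' : ℚ} {L : List Step} (h : S.Run b x E L)
    (hE : E ≤ E') : S.Run b x E' L := by
  induction L generalizing x E E' with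
  | nil => trivial
  | cons s L ih =>
    obtain ⟨h1, h2, h3⟩ := h
    exact ⟨h1, S.ok_mono h2 hE, ih h3 (add_le_add_left hE _)⟩

theorem run_append {b x : K} {E : ℚ} {L L' : List Step} : S.Run b x E (L ++ L') ↔
    S.Run b x E L ∧ S.Run b (S.orb b x L.length) (E + S.gains L) L' := by
  induction L generalizing x E with
  | nil =>
    rw [List.nil_append, gains_nil, add_zero, List.length_nil, orb_zero]
    exact ⟨fun h => ⟨trivial, h⟩, fun h => h.2⟩
  | cons s L ih =>
    rw [gains_cons, ← add_assoc, List.length_cons, orb_succ']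
    constructor
    · rintro ⟨h1, h2, h3⟩
      exact ⟨⟨h1, h2, (ih.1 h3).1⟩, (ih.1 h3).2⟩
    · rintro ⟨⟨h1, h2, h3⟩, h4⟩
      exact ⟨h1, h2, ih.2 ⟨h3, h4⟩⟩

theorem Run.take {S : Sys K} {b x : K} {E : ℚ} {L : List Step} (h : S.Run b x E L) (i : ℕ) :
    S.Run b x E (L.take i) := by
  rw [← List.take_append_drop i L, run_append] at h
  exact h.1

theorem Run.nopole {S : Sys K} {b x : K} {E : ℚ} {L : List Step} (h : S.Run b x E L) {i : ℕ}
    (hi : i < L.length) : S.F.Q.eval (S.orb b x i) ≠ 0 := by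
  induction L generalizing x E i with
  | nil => exact absurd hi (Nat.not_lt_zero _)
  | cons s L ih =>
    obtain ⟨h1, h2, h3⟩ := h
    cases i with
    | zero => exact S.zone_nopole h1
    | succ i =>
      rw [orb_succ']
      exact ih h3 (Nat.lt_of_succ_lt_succ hi)

theorem g_sub_g {b b' z z' : K} (h : S.F.Q.eval z ≠ 0) (h' : S.F.Q.eval z' ≠ 0) :
    S.g b' z' - S.g b z = (S.F.ev z' - S.F.ev z) + (b' - b) := by
  rw [g_eq S b h, g_eq S b' h']
  ring

theorem Run.tube {S : Sys K} {b x : K} {E g₀ : ℚ} {L : List Step} (h : S.Run b x E L)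
    (hg : S.GLow g₀ L) {b' x' : K} (hb : ‖b' - b‖ ≤ S.rad (E + g₀)) (hx : ‖x' - x‖ ≤ S.rad E) :
    S.Run b' x' E L ∧
      ‖S.orb b' x' L.length - S.orb b x L.length‖ ≤ S.rad (E + S.gains L) := by
  induction L generalizing x x' E g₀ with
  | nil =>
    refine ⟨trivial, ?_⟩
    rw [gains_nil, add_zero]
    exact hx
  | cons s L ih =>
    obtain ⟨h1, h2, h3⟩ := h
    obtain ⟨h4, h5⟩ := hg
    have h6 : S.zone s x' := S.zone_congr h1 h2 hx
    have h7 : ‖S.g b' x' - S.g b x‖ ≤ S.rad (E + S.gain s) := by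
      rw [S.g_sub_g (S.zone_nopole h1) (S.zone_nopole h6)]
      refine (IsUltrametricDist.norm_add_le_max _ _).trans (max_le (S.step_le h1 h2 hx) ?_)
      exact hb.trans (S.rad_le.2 (by linarith))
    have h8 := ih h3 h5 (x' := S.g b' x')
      (by rwa [show E + S.gain s + (g₀ - S.gain s) = E + g₀ by ring]) h7
    refine ⟨⟨h6, h2, h8.1⟩, ?_⟩
    rw [gains_cons, ← add_assoc]
    exact h8.2

theorem Run.tube_le {S : Sys K} {b x : K} {E g₀ : ℚ} {L : List Step} (h : S.Run b x E L)
    (hg : S.GLow g₀ L) {b' x' : K} (hb : ‖b' - b‖ ≤ S.rad (E + g₀)) (hx : ‖x' - x‖ ≤ S.rad E)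
    {i : ℕ} (hi : i ≤ L.length) :
    ‖S.orb b' x' i - S.orb b x i‖ ≤ S.rad (E + S.gains (L.take i)) := by
  have h1 := ((h.take i).tube (hg.take i) hb hx).2
  rwa [List.length_take, min_eq_left hi] at h1

theorem Run.norm_slp {S : Sys K} {b x : K} {E : ℚ} {L : List Step} (h : S.Run b x E L) :
    ‖S.slp b x L‖ = S.rad (S.gains L) := by
  induction L generalizing x E with
  | nil =>
    change ‖(1 : K)‖ = _
    rw [gains_nil, rad_zero, norm_one]
  | cons s L ih =>
    obtain ⟨h1, h2, h3⟩ := h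
    change ‖S.slope s x * S.slp b (S.g b x) L‖ = _
    rw [norm_mul, ih h3, S.norm_slope h1, gains_cons, rad_add]

theorem slp_append (b x : K) (L L' : List Step) :
    S.slp b x (L ++ L') = S.slp b x L * S.slp b (S.orb b x L.length) L' := by
  induction L generalizing x with
  | nil =>
    change S.slp b x L' = 1 * S.slp b x L'
    rw [one_mul]
  | cons s L ih =>
    change S.slope s x * S.slp b (S.g b x) (L ++ L') =
      S.slope s x * S.slp b (S.g b x) L * S.slp b (S.orb b (S.g b x) L.length) L'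
    rw [ih, mul_assoc]

theorem Run.main {S : Sys K} {b x : K} {E g₀ : ℚ} {L : List Step} (h : S.Run b x E L)
    (hg : S.GLow g₀ L) {b' x' : K} {D : ℝ} (hD : 0 < D) (hDE : D < S.rad E) (hx : ‖x' - x‖ ≤ D)
    (hb : ‖b' - b‖ < D * S.rad g₀) :
    ‖S.orb b' x' L.length - S.orb b x L.length - S.slp b x L * (x' - x)‖ <
      D * S.rad (S.gains L) := by
  induction L generalizing x x' E g₀ D with
  | nil =>
    change ‖x' - x - 1 * (x' - x)‖ < _
    rw [one_mul, sub_self, norm_zero, gains_nil, rad_zero, mul_one]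
    exact hD
  | cons s L ih =>
    obtain ⟨h1, h2, h3⟩ := h
    obtain ⟨h4, h5⟩ := hg
    have hr := S.rad_pos (S.gain s)
    have h6 : S.zone s x' := S.zone_congr h1 h2 (hx.trans hDE.le)
    set δ : K := S.g b' x' - S.g b x - S.slope s x * (x' - x) with hδ
    have h7 : ‖δ‖ < D * S.rad (S.gain s) := by
      have e1 : δ = (S.F.ev x' - S.F.ev x - S.slope s x * (x' - x)) + (b' - b) := by
        rw [hδ, S.g_sub_g (S.zone_nopole h1) (S.zone_nopole h6)]
        ring
      rw [e1]
      apply norm_add_lt'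
      · rw [mul_comm D]
        exact S.step_lt h1 h2 hD hDE hx
      · exact hb.trans_le (mul_le_mul_of_nonneg_left (S.rad_le.2 h4) hD.le)
    have h8 : ‖S.g b' x' - S.g b x‖ ≤ D * S.rad (S.gain s) := by
      have e2 : S.g b' x' - S.g b x = δ + S.slope s x * (x' - x) := by rw [hδ]; ring
      rw [e2]
      refine (IsUltrametricDist.norm_add_le_max _ _).trans (max_le h7.le ?_)
      rw [norm_mul, S.norm_slope h1, mul_comm]
      exact mul_le_mul_of_nonneg_right hx hr.le
    have h9 := ih h3 h5 (x' := S.g b' x') (D := D * S.rad (S.gain s))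
      (mul_pos hD hr) (by rw [rad_add]; exact mul_lt_mul_of_pos_right hDE hr) h8 (by
        rw [mul_assoc, ← rad_add, add_sub_cancel]
        exact hb)
    have e3 : S.orb b' x' (s :: L).length - S.orb b x (s :: L).length -
        S.slp b x (s :: L) * (x' - x) =
        (S.orb b' (S.g b' x') L.length - S.orb b (S.g b x) L.length -
          S.slp b (S.g b x) L * (S.g b' x' - S.g b x)) + S.slp b (S.g b x) L * δ := by
      rw [hδ]
      change S.orb b' (S.g b' x') L.length - S.orb b (S.g b x) L.length -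
        S.slope s x * S.slp b (S.g b x) L * (x' - x) = _
      ring
    rw [e3, gains_cons, rad_add, ← mul_assoc]
    apply norm_add_lt' h9
    rw [norm_mul, h3.norm_slp, mul_comm]
    exact mul_lt_mul_of_pos_right h7 (S.rad_pos _)

theorem Run.main_same {S : Sys K} {b x : K} {E : ℚ} {L : List Step} (h : S.Run b x E L)
    {x' : K} {D : ℝ} (hD : 0 < D) (hDE : D < S.rad E) (hx : ‖x' - x‖ ≤ D) :
    ‖S.orb b x' L.length - S.orb b x L.length - S.slp b x L * (x' - x)‖ <
      D * S.rad (S.gains L) := by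
  obtain ⟨g₀, hg⟩ := S.exists_glow L
  refine h.main hg hD hDE hx ?_
  rw [sub_self, norm_zero]
  exact mul_pos hD (S.rad_pos _)

theorem Run.scal {S : Sys K} {b x : K} {E g₀ : ℚ} {L : List Step} (h : S.Run b x E L)
    (hg : S.GLow g₀ L) {b' x' : K} (hx0 : x' ≠ x) (hx : ‖x' - x‖ < S.rad E)
    (hb : ‖b' - b‖ < ‖x' - x‖ * S.rad g₀) :
    ‖S.orb b' x' L.length - S.orb b x L.length‖ = S.rad (S.gains L) * ‖x' - x‖ := by
  have hD : 0 < ‖x' - x‖ := norm_pos_iff.2 (sub_ne_zero.2 hx0)
  have h1 := h.main hg hD hx le_rfl hb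
  have h2 : ‖S.slp b x L * (x' - x)‖ = S.rad (S.gains L) * ‖x' - x‖ := by
    rw [norm_mul, h.norm_slp]
  rw [← h2]
  apply norm_eq_of_sub_lt
  rw [h2, mul_comm (S.rad _)]
  exact h1

theorem Run.scal_same {S : Sys K} {b x : K} {E : ℚ} {L : List Step} (h : S.Run b x E L)
    {x' : K} (hx : ‖x' - x‖ < S.rad E) :
    ‖S.orb b x' L.length - S.orb b x L.length‖ = S.rad (S.gains L) * ‖x' - x‖ := by
  by_cases hx0 : x' = x
  · rw [hx0, sub_self, sub_self, norm_zero, mul_zero]
  · obtain ⟨g₀, hg⟩ := S.exists_glow L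
    refine h.scal hg hx0 hx ?_
    rw [sub_self, norm_zero]
    exact mul_pos (norm_pos_iff.2 (sub_ne_zero.2 hx0)) (S.rad_pos _)

/-- orbits depend rationally on their data -/
theorem ratOn_orb {A : Set K} {β ξ : K → K} (hβ : RatOn A β) (hξ : RatOn A ξ) (n : ℕ)
    (h : ∀ z ∈ A, ∀ i < n, S.F.Q.eval (S.orb (β z) (ξ z) i) ≠ 0) :
    RatOn A fun z => S.orb (β z) (ξ z) n := by
  induction n with
  | zero => exact hξ
  | succ n ih =>
    have h1 := ih fun z hz i hi => h z hz i (hi.trans (Nat.lt_succ_self n))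
    have h2 := (h1.comp_div S.F.P S.F.Q fun z hz => h z hz n (Nat.lt_succ_self n)).add hβ
    refine h2.congr fun z hz => ?_
    rw [orb_succ, g_eq S _ (h z hz n (Nat.lt_succ_self n))]
    rfl

end Sys

end Pool.Agent.FIC
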