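import Pool.Agent.FIC.Contact

/-!
# Basic facts on states

`σ = rad s`, `r = rad E₀`, `Θ = rad (ie + x)`, `mu`, `ta` as in the paper proof.
* `runp'`: `Run.mono`, `Run.tube` for `Lp`; `GLow (s - E₀) Lp` from `low` (`glow_append`), and
  `‖b - b₀‖ < rad s ≤ rad (E + (s - E₀))` for `E ≤ E₀`.
* `run_L`: `run_append` twice; `CRun.run` with `E = ie`.
* `runq'`: `Run.tube` for `Lq` with `E = ie + 1 - ε`, `g₀ = s - ie - 1`.
* `ratOn_n`: `ratOn_orb` with `β = ξ = id`; `Run.nopole`.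
* `surj_n`: `RatOn.surj_open` with `lam = rad (ie + x - s)` and `close`.
-/

open Polynomial

noncomputable section

namespace Pool.Agent.FIC

variable {K : Type*} [NontriviallyNormedField K] [IsUltrametricDist K]

namespace Sys.State

variable {S : Sys K} (st : S.State)

omit [IsUltrametricDist K] in
theorem mu_pos : 0 < st.mu := st.hμ

omit [IsUltrametricDist K] in
theorem ta_pos : 0 < st.ta := S.tau_pos st.M

omit [IsUltrametricDist K] in
theorem two_ta_lt : 2 * st.ta < st.x - st.mu := st.hτ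

omit [IsUltrametricDist K] in
theorem x_add_mu_le : st.x + st.mu ≤ 1 / 4 := st.hx

omit [IsUltrametricDist K] in
theorem E₀_eq : st.E₀ = S.gam - S.ie - st.x - st.mu := by unfold mu; ring

omit [IsUltrametricDist K] in
theorem length_L : st.L.length = st.n := by
  unfold L n
  rw [List.length_append, List.length_append, KL_length]

theorem gains_pk : S.gains (st.Lp ++ KL st.M) = S.ie - st.E₀ + 1 := by
  rw [S.gains_append, st.gp, S.KL_gains]

theorem gains_L : S.gains st.L = S.ie + st.x - st.E₀ := by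
  unfold L
  rw [S.gains_append, gains_pk, st.gq]
  ring

theorem length_pk : (st.Lp ++ KL st.M).length = st.Lp.length + (2 * st.M + 1) := by
  rw [List.length_append, KL_length]

theorem run_L : S.Run st.b₀ st.b₀ st.E₀ st.L := by
  have hta : 0 < S.tau st.M := S.tau_pos st.M
  have hε := st.hε
  unfold L
  rw [S.run_append, S.run_append, length_pk]
  refine ⟨⟨st.runp.mono (by linarith), ?_⟩, ?_⟩
  · refine st.crun.run ?_
    rw [st.gp]
    linarith
  · refine st.runq.mono ?_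
    rw [gains_pk]
    linarith

theorem low_L : S.GLow (st.s - st.E₀) st.L := st.low

theorem norm_b {b : K} (hb : ‖b - st.b₀‖ < S.rad st.s) : ‖b‖ ≤ S.rad 5 := by
  have h1 := IsUltrametricDist.norm_add_le_max (b - st.b₀) st.b₀
  rw [sub_add_cancel] at h1
  refine h1.trans (max_le (hb.le.trans ?_) st.hb)
  rw [S.rad_le]
  have := st.hs
  have := S.ie_pos
  linarith

theorem self_le {b : K} (hb : ‖b - st.b₀‖ < S.rad st.s) : ‖b - st.b₀‖ ≤ S.rad st.E₀ :=
  hb.le.trans (S.rad_le.2 st.hE)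

theorem glow_q : S.GLow (st.s - S.ie - 1) st.Lq := by
  have h := (S.glow_append.1 st.low).2
  rw [gains_pk] at h
  exact h.mono (by linarith)

theorem glow_p : S.GLow (st.s - st.E₀) st.Lp :=
  (S.glow_append.1 (S.glow_append.1 st.low).1).1

theorem runp' {b x : K} {E : ℚ} (hb : ‖b - st.b₀‖ < S.rad st.s) (hE : st.E₀ - 2 * st.ta ≤ E)
    (hE' : E ≤ st.E₀) (hx : ‖x - st.b₀‖ ≤ S.rad E) :
    S.Run b x E st.Lp ∧ ‖S.orb b x st.m₀ - S.orb st.b₀ st.b₀ st.m₀‖ ≤
      S.rad (E + (S.ie - st.E₀)) := by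
  have h := (st.runp.mono hE).tube st.glow_p (b' := b) (x' := x)
    (hb.le.trans (S.rad_le.2 (by linarith))) hx
  rw [st.gp] at h
  exact h

theorem tube {b x : K} (hb : ‖b - st.b₀‖ < S.rad st.s) (hx : ‖x - st.b₀‖ ≤ S.rad st.E₀) :
    S.Run b x st.E₀ st.L ∧
      ‖S.orb b x st.n - S.orb st.b₀ st.b₀ st.n‖ ≤ S.rad (S.ie + st.x) := by
  have h := st.run_L.tube st.low_L (b' := b) (x' := x)
    (hb.le.trans (S.rad_le.2 (by linarith))) hx
  rw [length_L, gains_L, add_sub_cancel] at h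
  exact h

theorem tube_le {b x : K} (hb : ‖b - st.b₀‖ < S.rad st.s) (hx : ‖x - st.b₀‖ ≤ S.rad st.E₀)
    {i : ℕ} (hi : i ≤ st.n) : ‖S.orb b x i - S.orb st.b₀ st.b₀ i‖ ≤
      S.rad (st.E₀ + S.gains (st.L.take i)) :=
  st.run_L.tube_le st.low_L (hb.le.trans (S.rad_le.2 (by linarith))) hx
    (hi.trans_eq st.length_L.symm)

theorem near_w {b x : K} (hb : ‖b - st.b₀‖ < S.rad st.s) (hx : ‖x - st.b₀‖ ≤ S.rad st.E₀) :
    ‖S.orb b x st.n - S.w‖ ≤ S.rad (S.ie + st.x) := by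
  have h1 := IsUltrametricDist.norm_add_le_max (S.orb b x st.n - S.orb st.b₀ st.b₀ st.n)
    (S.orb st.b₀ st.b₀ st.n - S.w)
  rw [sub_add_sub_cancel] at h1
  exact h1.trans (max_le (st.tube hb hx).2 st.close.le)

theorem near_contact {b x : K} (hb : ‖b - st.b₀‖ < S.rad st.s) (hx : ‖x - st.b₀‖ ≤ S.rad st.E₀) :
    ‖S.orb b x st.m₀ - S.orb st.b₀ st.b₀ st.m₀‖ ≤ S.rad S.ie := by
  have hta := st.ta_pos
  have h := (st.runp' hb (E := st.E₀) (by linarith) le_rfl hx).2
  rwa [add_sub_cancel] at h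

theorem crun' {b x : K} (hb : ‖b - st.b₀‖ < S.rad st.s) (hx : ‖x - st.b₀‖ ≤ S.rad st.E₀) :
    S.CRun b (S.orb b x st.m₀) st.M := by
  refine st.crun.tube (hb.le.trans (S.rad_le.2 ?_)) (st.near_contact hb hx)
  have := st.hs
  linarith

theorem runq' {b x : K} (hb : ‖b - st.b₀‖ < S.rad st.s) (hx : ‖x - st.b₀‖ ≤ S.rad st.E₀) :
    S.Run b (S.orb b x (st.m₀ + (2 * st.M + 1))) (S.ie + 1 - st.ε) st.Lq := by
  have hε := st.hε
  have h1 := st.tube_le hb hx (i := st.m₀ + (2 * st.M + 1)) (by unfold n m₀; omega)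
  have h2 : st.L.take (st.m₀ + (2 * st.M + 1)) = st.Lp ++ KL st.M := by
    have h3 : st.m₀ + (2 * st.M + 1) = (st.Lp ++ KL st.M).length := by
      rw [length_pk]
      rfl
    rw [h3]
    exact List.take_left
  rw [h2, gains_pk] at h1
  refine (st.runq.tube st.glow_q (hb.le.trans (S.rad_le.2 (by linarith)))
    (h1.trans (S.rad_le.2 (by linarith)))).1

theorem ratOn_n : RatOn {b | ‖b - st.b₀‖ < S.rad st.s} fun b => S.orb b b st.n := by
  refine S.ratOn_orb (RatOn.id _) (RatOn.id _) st.n fun b hb i hi => ?_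
  have hb' : ‖b - st.b₀‖ < S.rad st.s := hb
  exact (st.tube hb' (st.self_le hb')).1.nopole (hi.trans_eq st.length_L.symm)

theorem surj_n [IsAlgClosed K] {τ : K} (hτ : ‖τ - S.w‖ < S.rad (S.ie + st.x)) :
    ∃ b, ‖b - st.b₀‖ < S.rad st.s ∧ S.orb b b st.n = τ := by
  refine RatOn.surj_open (lam := S.rad (S.ie + st.x - st.s)) (S.rad_pos _) st.ratOn_n
    (fun z z' hz hz' => st.scal z z' hz hz') ?_
  rw [← S.rad_add, sub_add_cancel]
  have e : τ - S.orb st.b₀ st.b₀ st.n = (τ - S.w) + (S.w - S.orb st.b₀ st.b₀ st.n) := by ring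
  rw [e]
  refine norm_add_lt' hτ ?_
  rw [norm_sub_rev]
  exact st.close

end Sys.State

end Pool.Agent.FIC
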