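import Pool.Agent.FIC.Rad

/-!
# The step lemma (Lemma 1 of the paper proof)

* zone `C`: `zC`; for `e = z' - z`: `‖e ^ p / α‖ = ‖e‖ ‖e‖^(p-1) / a`, which is `< a ‖e‖` iff
  `‖e‖ < ι` (`ι ^ (p - 1) = a ^ 2`).
* zone `T e`: `z' - t = (z - t) (1 + δ)`, `‖δ‖ < 1`, `‖(1 + δ) ^ (-N) - 1 + N δ‖ ≤ ‖δ‖ ^ 2` (with
  `q = (1 + δ) ^ N`: `q⁻¹ - 1 + N δ = (1 - q + N δ q) / q`, `q = 1 + N δ + O(δ²)`); the error
  `a ^ 5 ‖z' - z‖` is smaller than `rad (gain) ‖z' - z‖ `, `gain = (N + 1) (1 - e) ≤ (N + 1) / N ^ 2`.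
  Here `rad (gain (T e)) = a ^ (N + 1) / (rad e) ^ (N + 1)`.
* zone `W e`: `c / (z - w) - c / (z' - w) = - c (z - z') / ((z - w) (z' - w))`; the error is
  `a ^ 10 ‖z - z'‖`, `rad (gain) = ‖c‖ / (rad e) ^ 2 ≥ rad (gam - 2 ie) = rad (21 / 4)`.
-/

open Polynomial

noncomputable section

namespace Pool.Agent.FIC

variable {K : Type*} [NontriviallyNormedField K] [IsUltrametricDist K]

/-! ### elementary ultrametric facts -/

theorem steps_sub_le {x y : K} {M : ℝ} (hx : ‖x‖ ≤ M) (hy : ‖y‖ ≤ M) : ‖x - y‖ ≤ M := by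
  rw [sub_eq_add_neg]
  refine (IsUltrametricDist.norm_add_le_max _ _).trans (max_le hx ?_)
  rwa [norm_neg]

theorem steps_add_le {x y : K} {M : ℝ} (hx : ‖x‖ ≤ M) (hy : ‖y‖ ≤ M) : ‖x + y‖ ≤ M :=
  (IsUltrametricDist.norm_add_le_max _ _).trans (max_le hx hy)

theorem steps_add_lt {x y : K} {M : ℝ} (hx : ‖x‖ < M) (hy : ‖y‖ < M) : ‖x + y‖ < M :=
  (IsUltrametricDist.norm_add_le_max _ _).trans_lt (max_lt hx hy)

theorem steps_norm_add {x y : K} (h : ‖x‖ < ‖y‖) : ‖x + y‖ = ‖y‖ := by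
  refine norm_eq_of_sub_lt ?_
  rwa [add_sub_cancel_right]

theorem steps_pow_sub {x y : K} {M : ℝ} (hx : ‖x‖ ≤ M) (hy : ‖y‖ ≤ M) {n : ℕ} :
    ‖x ^ n - y ^ n‖ ≤ ‖x - y‖ * M ^ (n - 1) := by
  have hM : 0 ≤ M := (norm_nonneg _).trans hx
  have h := (Commute.all x y).geom_sum₂_mul n
  rw [← h, norm_mul, mul_comm]
  refine mul_le_mul_of_nonneg_left ?_ (norm_nonneg _)
  refine IsUltrametricDist.norm_sum_le_of_forall_le_of_nonneg (pow_nonneg hM _) ?_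
  intro i hi
  rw [Finset.mem_range] at hi
  rw [norm_mul, norm_pow, norm_pow]
  calc ‖x‖ ^ i * ‖y‖ ^ (n - 1 - i) ≤ M ^ i * M ^ (n - 1 - i) :=
        mul_le_mul (pow_le_pow_left₀ (norm_nonneg _) hx _)
          (pow_le_pow_left₀ (norm_nonneg _) hy _) (by positivity) (by positivity)
    _ = M ^ (n - 1) := by rw [← pow_add]; congr 1; omega

theorem steps_nat_le (n : ℕ) : ‖(n : K)‖ ≤ 1 := IsUltrametricDist.norm_natCast_le_one K n

/-- `(1 + δ) ^ n = 1 + n δ + O(δ²)` -/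
theorem steps_binom {δ : K} (hδ : ‖δ‖ ≤ 1) (n : ℕ) : ‖(1 + δ) ^ n - 1 - n * δ‖ ≤ ‖δ‖ ^ 2 := by
  induction n with
  | zero => simp
  | succ n ih =>
    have e : (1 + δ) ^ (n + 1) - 1 - ((n + 1 : ℕ) : K) * δ =
        ((1 + δ) ^ n - 1 - n * δ) * (1 + δ) + n * δ ^ 2 := by
      rw [pow_succ]; push_cast; ring
    rw [e]
    refine steps_add_le ?_ ?_
    · rw [norm_mul]
      have h1 : ‖1 + δ‖ ≤ 1 := steps_add_le (by rw [norm_one]) hδ
      calc ‖(1 + δ) ^ n - 1 - n * δ‖ * ‖1 + δ‖ ≤ ‖δ‖ ^ 2 * 1 :=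
            mul_le_mul ih h1 (norm_nonneg _) (by positivity)
        _ = ‖δ‖ ^ 2 := mul_one _
    · rw [norm_mul, norm_pow]
      calc ‖(n : K)‖ * ‖δ‖ ^ 2 ≤ 1 * ‖δ‖ ^ 2 :=
            mul_le_mul_of_nonneg_right (steps_nat_le n) (by positivity)
        _ = ‖δ‖ ^ 2 := one_mul _

theorem steps_one_add {δ : K} (hδ : ‖δ‖ < 1) : ‖1 + δ‖ = 1 := by
  rw [add_comm]
  have h : ‖δ‖ < ‖(1 : K)‖ := by rwa [norm_one]
  rw [steps_norm_add h, norm_one]

/-- `(1 + δ) ^ (-n) = 1 - n δ + O(δ²)` -/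
theorem steps_binom_inv {δ : K} (hδ : ‖δ‖ < 1) (n : ℕ) :
    ‖((1 + δ) ^ n)⁻¹ - 1 + n * δ‖ ≤ ‖δ‖ ^ 2 := by
  have h1 := steps_one_add hδ
  have hne : (1 + δ) ^ n ≠ 0 := by
    rw [← norm_pos_iff, norm_pow, h1, one_pow]
    exact one_pos
  have h2 := steps_binom hδ.le n
  set q := (1 + δ) ^ n with hq
  have hqn : ‖q‖ = 1 := by rw [hq, norm_pow, h1, one_pow]
  set r := q - 1 - n * δ with hr
  have e : q⁻¹ - 1 + n * δ = (n * (n * δ ^ 2) + n * (δ * r) - r) / q := by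
    rw [eq_div_iff hne, sub_add, sub_mul, inv_mul_cancel₀ hne]
    have : q = 1 + n * δ + r := by rw [hr]; ring
    linear_combination (1 - n * δ) * this - this + this
  rw [e, norm_div, hqn, div_one]
  refine steps_sub_le (steps_add_le ?_ ?_) h2
  · rw [norm_mul, norm_mul, norm_pow]
    have := steps_nat_le (K := K) n
    calc ‖(n : K)‖ * (‖(n : K)‖ * ‖δ‖ ^ 2) ≤ 1 * (1 * ‖δ‖ ^ 2) := by gcongr
      _ = ‖δ‖ ^ 2 := by ring
  · rw [norm_mul, norm_mul]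
    have := steps_nat_le (K := K) n
    calc ‖(n : K)‖ * (‖δ‖ * ‖r‖) ≤ 1 * (1 * ‖δ‖ ^ 2) := by
          gcongr
      _ = ‖δ‖ ^ 2 := by ring

namespace Sys

variable (S : Sys K)

theorem steps_rad_ofNat (n : ℕ) [n.AtLeastTwo] : ‖S.α‖ ^ (OfNat.ofNat n : ℕ) =
    S.rad (OfNat.ofNat n) := (S.rad_ofNat n).symm

theorem steps_T_bounds {e : ℚ} (h1 : 1 - 1 / (S.N : ℚ) ^ 2 ≤ e) (h2 : e ≤ 1 + 1 / S.N) :
    FIC.rad ‖S.α‖ (1 + 1 / (4 * S.p + 1)) ≤ S.rad e ∧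
      S.rad e ≤ FIC.rad ‖S.α‖ (1 - 1 / (4 * S.p + 1) ^ 2) := by
  rw [S.N_cast] at h1 h2
  exact ⟨S.rad_le.2 h2, S.rad_le.2 h1⟩

theorem steps_W_ne {z : K} {e : ℚ} (h : ‖z - S.w‖ = S.rad e) : z ≠ S.w := by
  rintro rfl
  rw [sub_self, norm_zero] at h
  exact (S.rad_pos e).ne h

theorem steps_W_le {z : K} {e : ℚ} (h : ‖z - S.w‖ = S.rad e) (he : S.ie ≤ e) :
    ‖z - S.w‖ ≤ ‖S.ι₀‖ := by
  rw [h, S.norm_ι]
  exact S.rad_le.2 he

theorem zone_nopole {s : Step} {z : K} (h : S.zone s z) : S.F.Q.eval z ≠ 0 := by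
  cases s with
  | C => exact (S.zC z z h h).1
  | X =>
    have h' : ‖z‖ ≤ ‖S.α‖ := by rw [S.norm_α]; exact h
    exact (S.zX z z h' h').1
  | T e =>
    obtain ⟨h0, h1, h2⟩ := h
    obtain ⟨h3, h4⟩ := S.steps_T_bounds h1 h2
    exact (S.zT z (by rw [h0]; exact h3) (by rw [h0]; exact h4)).1
  | W e =>
    obtain ⟨h0, h1⟩ := h
    exact (S.zW z (S.steps_W_ne h0) (S.steps_W_le h0 h1)).1

theorem norm_slope {s : Step} {z : K} (h : S.zone s z) : ‖S.slope s z‖ = S.rad (S.gain s) := by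
  cases s with
  | C => exact S.norm_α
  | X =>
    change ‖S.α⁻¹‖ = S.rad (-1)
    rw [norm_inv, S.rad_neg, S.norm_α]
  | T e =>
    obtain ⟨h0, h1, h2⟩ := h
    change ‖-(S.N : K) * S.α ^ (S.N + 1) / (z - S.t) ^ (S.N + 1)‖ = S.rad ((S.N + 1) * (1 - e))
    rw [norm_div, norm_mul, norm_neg, S.norm_N, one_mul, norm_pow, norm_pow, h0]
    have : ((S.N : ℚ) + 1) * (1 - e) = ((S.N + 1 : ℕ) : ℚ) - ((S.N + 1 : ℕ) : ℚ) * e := by
      push_cast; ring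
    rw [this, S.rad_sub, S.rad_natCast, S.rad_nat_mul]
  | W e =>
    obtain ⟨h0, h1⟩ := h
    change ‖-S.c / (z - S.w) ^ 2‖ = S.rad (S.gam - 2 * e)
    rw [norm_div, norm_neg, S.norm_c, norm_pow, h0, S.rad_sub]
    congr 1
    exact (S.rad_nat_mul 2 e).symm

theorem zone_congr {s : Step} {E : ℚ} {z z' : K} (h : S.zone s z) (hE : S.ok s E)
    (h' : ‖z' - z‖ ≤ S.rad E) : S.zone s z' := by
  cases s with
  | C =>
    have hE' : S.ie ≤ E := hE
    have h1 : S.rad E ≤ S.rad (1 / S.p) := S.rad_le.2 (by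
      have := S.inv_p_lt; have := S.inv_lt_ie; linarith)
    change ‖z' - S.d‖ ≤ S.rad (1 / S.p)
    have e : z' - S.d = (z' - z) + (z - S.d) := by ring
    rw [e]
    exact steps_add_le (h'.trans h1) h
  | X =>
    have h1 : S.rad E ≤ S.rad 1 := S.rad_le.2 hE
    change ‖z'‖ ≤ S.rad 1
    have e : z' = (z' - z) + z := by ring
    rw [e]
    exact steps_add_le (h'.trans h1) h
  | T e =>
    obtain ⟨h0, h1, h2⟩ := h
    refine ⟨?_, h1, h2⟩
    have h3 : S.rad E < S.rad e := S.rad_lt.2 hE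
    have e' : z' - S.t = (z' - z) + (z - S.t) := by ring
    rw [e', steps_norm_add, h0]
    rw [h0]
    exact h'.trans_lt h3
  | W e =>
    obtain ⟨h0, h1⟩ := h
    refine ⟨?_, h1⟩
    have h3 : S.rad E < S.rad e := S.rad_lt.2 hE
    have e' : z' - S.w = (z' - z) + (z - S.w) := by ring
    rw [e', steps_norm_add, h0]
    rw [h0]
    exact h'.trans_lt h3

theorem ok_mono {s : Step} {E E' : ℚ} (h : S.ok s E) (hE : E ≤ E') : S.ok s E' := by
  cases s with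
  | C => exact le_trans (show S.ie ≤ E from h) hE
  | X => exact le_trans (show (1 : ℚ) ≤ E from h) hE
  | T e => exact lt_of_lt_of_le (show e < E from h) hE
  | W e => exact lt_of_lt_of_le (show e < E from h) hE

/-- `D ^ p / a ≤ a D` for `D ≤ ι` -/
theorem steps_pow_le {D : ℝ} (hD : 0 ≤ D) (h : D ≤ S.rad S.ie) :
    D ^ S.p / ‖S.α‖ ≤ ‖S.α‖ * D := by
  have hp : S.p = (S.p - 1) + 1 := by have := S.hp.one_lt; omega
  have h1 : D ^ (S.p - 1) ≤ ‖S.α‖ ^ 2 := by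
    calc D ^ (S.p - 1) ≤ S.rad S.ie ^ (S.p - 1) := pow_le_pow_left₀ hD h _
      _ = ‖S.α‖ ^ 2 := by rw [← S.norm_ι, ← norm_pow, S.hι, norm_pow]
  rw [div_le_iff₀ S.a_pos, hp, pow_succ]
  calc D ^ (S.p - 1) * D ≤ ‖S.α‖ ^ 2 * D := mul_le_mul_of_nonneg_right h1 hD
    _ = ‖S.α‖ * D * ‖S.α‖ := by ring

theorem steps_pow_lt {D : ℝ} (hD : 0 < D) (h : D < S.rad S.ie) :
    D ^ S.p / ‖S.α‖ < ‖S.α‖ * D := by
  have hp : S.p = (S.p - 1) + 1 := by have := S.hp.one_lt; omega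
  have h1 : D ^ (S.p - 1) < ‖S.α‖ ^ 2 := by
    calc D ^ (S.p - 1) < S.rad S.ie ^ (S.p - 1) := pow_lt_pow_left₀ h hD.le S.p_sub_one_ne
      _ = ‖S.α‖ ^ 2 := by rw [← S.norm_ι, ← norm_pow, S.hι, norm_pow]
  rw [div_lt_iff₀ S.a_pos, hp, pow_succ]
  calc D ^ (S.p - 1) * D < ‖S.α‖ ^ 2 * D := mul_lt_mul_of_pos_right h1 hD
    _ = ‖S.α‖ * D * ‖S.α‖ := by ring

theorem steps_X_zone {z : K} (h : S.zone .X z) : ‖z‖ ≤ ‖S.α‖ := by
  rw [S.norm_α]; exact h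

theorem steps_T_gain {e : ℚ} (h1 : 1 - 1 / (S.N : ℚ) ^ 2 ≤ e) :
    ((S.N : ℚ) + 1) * (1 - e) < 5 := by
  have hN := S.nine_le_N
  have h2 : 1 - e ≤ 1 / (S.N : ℚ) ^ 2 := by linarith
  have h3 : ((S.N : ℚ) + 1) * (1 - e) ≤ ((S.N : ℚ) + 1) * (1 / (S.N : ℚ) ^ 2) :=
    mul_le_mul_of_nonneg_left h2 (by linarith)
  have h4 : ((S.N : ℚ) + 1) * (1 / (S.N : ℚ) ^ 2) < 5 := by
    rw [mul_one_div, div_lt_iff₀ (by positivity)]
    nlinarith
  linarith

theorem steps_W_gain {e : ℚ} (h : S.ie ≤ e) : S.gam - 2 * e < 10 := by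
  unfold gam
  linarith

theorem steps_T_main {z z' : K} {e : ℚ} (h : ‖z - S.t‖ = S.rad e) (h' : ‖z' - z‖ < S.rad e) :
    ‖S.α ^ (S.N + 1) / (z' - S.t) ^ S.N - S.α ^ (S.N + 1) / (z - S.t) ^ S.N -
      (-(S.N : K) * S.α ^ (S.N + 1) / (z - S.t) ^ (S.N + 1)) * (z' - z)‖ ≤
      S.rad ((S.N + 1) * (1 - e)) * (‖z' - z‖ / S.rad e) * ‖z' - z‖ := by
  have hu0 : z - S.t ≠ 0 := by
    rw [← norm_pos_iff, h]; exact S.rad_pos e
  set u := z - S.t with hu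
  set δ := (z' - z) / u with hδ
  have hδn : ‖δ‖ = ‖z' - z‖ / S.rad e := by rw [hδ, norm_div, h]
  have hδ1 : ‖δ‖ < 1 := by
    rw [hδn, div_lt_one (S.rad_pos e)]; exact h'
  have hv : z' - S.t = u * (1 + δ) := by
    rw [hδ]; field_simp; rw [hu]; ring
  have hzz : z' - z = u * δ := by rw [hδ]; field_simp
  have h1d : (1 + δ) ^ S.N ≠ 0 := by
    rw [← norm_pos_iff, norm_pow, steps_one_add hδ1, one_pow]
    exact one_pos
  have e1 : S.α ^ (S.N + 1) / (z' - S.t) ^ S.N - S.α ^ (S.N + 1) / u ^ S.N -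
      (-(S.N : K) * S.α ^ (S.N + 1) / u ^ (S.N + 1)) * (z' - z) =
      S.α ^ (S.N + 1) / u ^ S.N * (((1 + δ) ^ S.N)⁻¹ - 1 + S.N * δ) := by
    rw [hv, hzz, mul_pow, pow_succ u]
    have hun : u ^ S.N ≠ 0 := pow_ne_zero _ hu0
    field_simp
    ring
  rw [e1, norm_mul, norm_div, norm_pow, norm_pow, h]
  have h2 := steps_binom_inv hδ1 S.N
  have h3 : S.rad ((S.N + 1) * (1 - e)) * (‖z' - z‖ / S.rad e) * ‖z' - z‖ =
      ‖S.α‖ ^ (S.N + 1) / S.rad e ^ S.N * ‖δ‖ ^ 2 := by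
    have : ((S.N : ℚ) + 1) * (1 - e) = ((S.N + 1 : ℕ) : ℚ) - ((S.N : ℕ) : ℚ) * e - e := by
      push_cast; ring
    rw [this, S.rad_sub, S.rad_sub, S.rad_natCast, S.rad_nat_mul, hδn]
    have := (S.rad_pos e).ne'
    field_simp
  rw [h3]
  exact mul_le_mul_of_nonneg_left h2 (div_nonneg (pow_nonneg (norm_nonneg _) _)
    (pow_nonneg (S.rad_pos e).le _))

theorem steps_W_main {z z' : K} {e : ℚ} (h : ‖z - S.w‖ = S.rad e) (h' : ‖z' - z‖ < S.rad e) :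
    ‖S.c / (z' - S.w) - S.c / (z - S.w) - (-S.c / (z - S.w) ^ 2) * (z' - z)‖ =
      S.rad (S.gam - 2 * e) * (‖z' - z‖ / S.rad e) * ‖z' - z‖ := by
  have hu0 : z - S.w ≠ 0 := by
    rw [← norm_pos_iff, h]; exact S.rad_pos e
  have e0 : z' - S.w = (z' - z) + (z - S.w) := by ring
  have hv : ‖z' - S.w‖ = S.rad e := by
    rw [e0, steps_norm_add, h]
    rwa [h]
  have hv0 : z' - S.w ≠ 0 := by
    rw [← norm_pos_iff, hv]; exact S.rad_pos e
  have e1 : S.c / (z' - S.w) - S.c / (z - S.w) - (-S.c / (z - S.w) ^ 2) * (z' - z) =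
      S.c * (z' - z) ^ 2 / ((z - S.w) ^ 2 * (z' - S.w)) := by
    field_simp
    ring
  rw [e1, norm_div, norm_mul, norm_mul, norm_pow, norm_pow, h, hv, S.norm_c]
  have h3 : S.gam - 2 * e = S.gam - ((2 : ℕ) : ℚ) * e := by push_cast; ring
  rw [h3, S.rad_sub, S.rad_nat_mul]
  have := (S.rad_pos e).ne'
  field_simp

theorem steps_T_zone {z : K} {e : ℚ} (h : S.zone (.T e) z) :
    FIC.rad ‖S.α‖ (1 + 1 / (4 * S.p + 1)) ≤ ‖z - S.t‖ ∧
      ‖z - S.t‖ ≤ FIC.rad ‖S.α‖ (1 - 1 / (4 * S.p + 1) ^ 2) := by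
  obtain ⟨h0, h1, h2⟩ := h
  rw [h0]
  exact S.steps_T_bounds h1 h2

theorem step_lt {s : Step} {E : ℚ} {D : ℝ} {z z' : K} (h : S.zone s z) (hE : S.ok s E) (hD : 0 < D)
    (hDE : D < S.rad E) (h' : ‖z' - z‖ ≤ D) :
    ‖S.F.ev z' - S.F.ev z - S.slope s z * (z' - z)‖ < S.rad (S.gain s) * D := by
  have hz' := S.zone_congr h hE (h'.trans hDE.le)
  have ha := S.a_pos
  have ha1 := S.α1
  cases s with
  | C =>
    have hE' : S.ie ≤ E := hE
    have h1 := (S.zC z' z hz' h).2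
    change ‖S.F.ev z' - S.F.ev z - S.α * (z' - z)‖ < S.rad 1 * D
    have e1 : S.F.ev z' - S.F.ev z - S.α * (z' - z) =
        (S.F.ev z' - S.F.ev z - ((z' - z) ^ S.p / S.α + S.α * (z' - z))) +
          (z' - z) ^ S.p / S.α := by ring
    rw [e1, S.rad_one]
    refine steps_add_lt (h1.trans_lt ?_) ?_
    · calc ‖S.α‖ ^ 2 * ‖z' - z‖ ≤ ‖S.α‖ ^ 2 * D :=
            mul_le_mul_of_nonneg_left h' (by positivity)
        _ < ‖S.α‖ * D := by
            refine mul_lt_mul_of_pos_right ?_ hD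
            rw [pow_two]
            exact mul_lt_of_lt_one_right ha ha1
    · rw [norm_div, norm_pow]
      calc ‖z' - z‖ ^ S.p / ‖S.α‖ ≤ D ^ S.p / ‖S.α‖ := by gcongr
        _ < ‖S.α‖ * D := S.steps_pow_lt hD (hDE.trans_le (S.rad_le.2 hE'))
  | X =>
    have h1 := (S.zX z' z (S.steps_X_zone hz') (S.steps_X_zone h)).2
    change ‖S.F.ev z' - S.F.ev z - S.α⁻¹ * (z' - z)‖ < S.rad (-1) * D
    rw [inv_mul_eq_div]
    refine h1.trans_lt ?_
    calc ‖S.α‖ ^ 5 * ‖z' - z‖ ≤ ‖S.α‖ ^ 5 * D := mul_le_mul_of_nonneg_left h' (by positivity)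
      _ < S.rad (-1) * D := by
          refine mul_lt_mul_of_pos_right ?_ hD
          rw [S.steps_rad_ofNat 5]
          exact S.rad_lt.2 (by norm_num)
  | T e =>
    have hE' : e < E := hE
    obtain ⟨h0, h2, h3⟩ := id h
    have h1 := S.zT' z' z (S.steps_T_zone hz').1 (S.steps_T_zone hz').2 (S.steps_T_zone h).1
      (S.steps_T_zone h).2
    have hlt : D < S.rad e := hDE.trans (S.rad_lt.2 hE')
    have h4 := S.steps_T_main h0 (h'.trans_lt hlt)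
    change ‖S.F.ev z' - S.F.ev z -
      (-(S.N : K) * S.α ^ (S.N + 1) / (z - S.t) ^ (S.N + 1)) * (z' - z)‖ <
      S.rad ((S.N + 1) * (1 - e)) * D
    have hN : S.N = 4 * S.p + 1 := rfl
    have e1 : S.F.ev z' - S.F.ev z -
        (-(S.N : K) * S.α ^ (S.N + 1) / (z - S.t) ^ (S.N + 1)) * (z' - z) =
        (S.F.ev z' - S.F.ev z - (S.α ^ (4 * S.p + 2) / (z' - S.t) ^ (4 * S.p + 1) -
          S.α ^ (4 * S.p + 2) / (z - S.t) ^ (4 * S.p + 1))) +
        (S.α ^ (S.N + 1) / (z' - S.t) ^ S.N - S.α ^ (S.N + 1) / (z - S.t) ^ S.N -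
          (-(S.N : K) * S.α ^ (S.N + 1) / (z - S.t) ^ (S.N + 1)) * (z' - z)) := by
      rw [hN]; ring
    rw [e1]
    refine steps_add_lt (h1.trans_lt ?_) (h4.trans_lt ?_)
    · calc ‖S.α‖ ^ 5 * ‖z' - z‖ ≤ ‖S.α‖ ^ 5 * D := mul_le_mul_of_nonneg_left h' (by positivity)
        _ < S.rad ((S.N + 1) * (1 - e)) * D := by
            refine mul_lt_mul_of_pos_right ?_ hD
            rw [S.steps_rad_ofNat 5]
            exact S.rad_lt.2 (S.steps_T_gain h2)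
    · have hr := S.rad_pos ((S.N + 1) * (1 - e))
      have h5 : ‖z' - z‖ / S.rad e < 1 := by
        rw [div_lt_one (S.rad_pos e)]
        exact h'.trans_lt hlt
      calc S.rad ((S.N + 1) * (1 - e)) * (‖z' - z‖ / S.rad e) * ‖z' - z‖
          ≤ S.rad ((S.N + 1) * (1 - e)) * (‖z' - z‖ / S.rad e) * D :=
            mul_le_mul_of_nonneg_left h' (mul_nonneg hr.le (div_nonneg (norm_nonneg _)
              (S.rad_pos e).le))
        _ < S.rad ((S.N + 1) * (1 - e)) * D := by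
            refine mul_lt_mul_of_pos_right ?_ hD
            exact mul_lt_of_lt_one_right hr h5
  | W e =>
    have hE' : e < E := hE
    obtain ⟨h0, h2⟩ := id h
    obtain ⟨h0', -⟩ := id hz'
    have h1 := S.zW' z' z (S.steps_W_ne h0') (S.steps_W_le h0' h2) (S.steps_W_ne h0)
      (S.steps_W_le h0 h2)
    have hlt : D < S.rad e := hDE.trans (S.rad_lt.2 hE')
    have h4 := S.steps_W_main h0 (h'.trans_lt hlt)
    change ‖S.F.ev z' - S.F.ev z - (-S.c / (z - S.w) ^ 2) * (z' - z)‖ < S.rad (S.gam - 2 * e) * D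
    have e1 : S.F.ev z' - S.F.ev z - (-S.c / (z - S.w) ^ 2) * (z' - z) =
        (S.F.ev z' - S.F.ev z - (S.c / (z' - S.w) - S.c / (z - S.w))) +
        (S.c / (z' - S.w) - S.c / (z - S.w) - (-S.c / (z - S.w) ^ 2) * (z' - z)) := by ring
    rw [e1]
    refine steps_add_lt (h1.trans_lt ?_) (h4.trans_lt ?_)
    · calc ‖S.α‖ ^ 10 * ‖z' - z‖ ≤ ‖S.α‖ ^ 10 * D :=
            mul_le_mul_of_nonneg_left h' (by positivity)
        _ < S.rad (S.gam - 2 * e) * D := by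
            refine mul_lt_mul_of_pos_right ?_ hD
            rw [S.steps_rad_ofNat 10]
            exact S.rad_lt.2 (S.steps_W_gain h2)
    · have hr := S.rad_pos (S.gam - 2 * e)
      have h5 : ‖z' - z‖ / S.rad e < 1 := by
        rw [div_lt_one (S.rad_pos e)]
        exact h'.trans_lt hlt
      calc S.rad (S.gam - 2 * e) * (‖z' - z‖ / S.rad e) * ‖z' - z‖
          ≤ S.rad (S.gam - 2 * e) * (‖z' - z‖ / S.rad e) * D :=
            mul_le_mul_of_nonneg_left h' (mul_nonneg hr.le (div_nonneg (norm_nonneg _)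
              (S.rad_pos e).le))
        _ < S.rad (S.gam - 2 * e) * D := by
            refine mul_lt_mul_of_pos_right ?_ hD
            exact mul_lt_of_lt_one_right hr h5

/-- the difference law in the zone `C`, general upper bound -/
theorem C_le {z z' : K} (h : S.zone .C z) (h' : S.zone .C z') :
    ‖S.F.ev z' - S.F.ev z‖ ≤ max (‖z' - z‖ ^ S.p / ‖S.α‖) (‖S.α‖ * ‖z' - z‖) := by
  have h1 := (S.zC z' z h' h).2
  have e1 : S.F.ev z' - S.F.ev z =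
      (S.F.ev z' - S.F.ev z - ((z' - z) ^ S.p / S.α + S.α * (z' - z))) +
        ((z' - z) ^ S.p / S.α + S.α * (z' - z)) := by ring
  rw [e1]
  refine steps_add_le (h1.trans (le_trans ?_ (le_max_right _ _))) (steps_add_le ?_ ?_)
  · refine mul_le_mul_of_nonneg_right ?_ (norm_nonneg _)
    exact pow_le_of_le_one S.a_pos.le S.α1.le two_ne_zero
  · rw [norm_div, norm_pow]
    exact le_max_left _ _
  · rw [norm_mul]
    exact le_max_right _ _

theorem step_le {s : Step} {E : ℚ} {z z' : K} (h : S.zone s z) (hE : S.ok s E)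
    (h' : ‖z' - z‖ ≤ S.rad E) : ‖S.F.ev z' - S.F.ev z‖ ≤ S.rad (E + S.gain s) := by
  have hz' := S.zone_congr h hE h'
  have hgen : ∀ E' : ℚ, S.ok s E' → E' < E →
      ‖S.F.ev z' - S.F.ev z‖ ≤ S.rad (E + S.gain s) := by
    intro E' hE' hlt
    have h1 := S.step_lt h hE' (S.rad_pos E) (S.rad_lt.2 hlt) h'
    have e1 : S.F.ev z' - S.F.ev z =
        (S.F.ev z' - S.F.ev z - S.slope s z * (z' - z)) + S.slope s z * (z' - z) := by ring
    rw [e1, add_comm E, S.rad_add]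
    refine steps_add_le h1.le ?_
    rw [norm_mul, S.norm_slope h]
    exact mul_le_mul_of_nonneg_left h' (S.rad_pos _).le
  cases s with
  | C =>
    have hE' : S.ie ≤ E := hE
    refine (S.C_le h hz').trans ?_
    change _ ≤ S.rad (E + 1)
    have h1 : ‖z' - z‖ ≤ S.rad S.ie := h'.trans (S.rad_le.2 hE')
    have h2 : ‖S.α‖ * ‖z' - z‖ ≤ S.rad (E + 1) := by
      rw [S.rad_add, S.rad_one, mul_comm]
      exact mul_le_mul_of_nonneg_right h' S.a_pos.le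
    exact max_le ((S.steps_pow_le (norm_nonneg _) h1).trans h2) h2
  | X =>
    have h1 := (S.zX z' z (S.steps_X_zone hz') (S.steps_X_zone h)).2
    change _ ≤ S.rad (E + -1)
    have e1 : S.F.ev z' - S.F.ev z =
        (S.F.ev z' - S.F.ev z - (z' - z) / S.α) + (z' - z) / S.α := by ring
    have h3 : S.rad E ≤ S.rad (E + -1) := S.rad_le.2 (by linarith)
    rw [e1]
    refine steps_add_le (h1.trans ?_) ?_
    · refine le_trans ?_ h3
      refine le_trans ?_ h'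
      refine mul_le_of_le_one_left (norm_nonneg _) ?_
      exact pow_le_one₀ S.a_pos.le S.α1.le
    · rw [norm_div, S.rad_add, S.rad_neg, S.rad_one, ← div_eq_mul_inv]
      exact div_le_div_of_nonneg_right h' S.a_pos.le
  | T e =>
    have hE' : e < E := hE
    exact hgen ((e + E) / 2) (show e < (e + E) / 2 by linarith) (by linarith)
  | W e =>
    have hE' : e < E := hE
    exact hgen ((e + E) / 2) (show e < (e + E) / 2 by linarith) (by linarith)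

theorem steps_rad_pow (k : ℚ) : S.rad (S.ie - k) ^ S.p / ‖S.α‖ = S.rad (S.ie + 1 - S.p * k) := by
  have h1 : S.ie + 1 - S.p * k = (S.p : ℚ) * (S.ie - k) - 1 := by
    have := S.p_mul_ie
    linear_combination -this
  rw [h1, S.rad_sub ((S.p : ℚ) * (S.ie - k)) 1, S.rad_nat_mul, S.rad_one]

theorem C_rad_le {z z' : K} {k : ℚ} (hk : 0 ≤ k) (h : S.zone .C z) (h' : S.zone .C z')
    (hz : ‖z' - z‖ ≤ S.rad (S.ie - k)) :
    ‖S.F.ev z' - S.F.ev z‖ ≤ S.rad (S.ie + 1 - S.p * k) := by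
  refine (S.C_le h h').trans (max_le ?_ ?_)
  · rw [← S.steps_rad_pow]
    exact div_le_div_of_nonneg_right (pow_le_pow_left₀ (norm_nonneg _) hz _) S.a_pos.le
  · calc ‖S.α‖ * ‖z' - z‖ ≤ ‖S.α‖ * S.rad (S.ie - k) :=
          mul_le_mul_of_nonneg_left hz S.a_pos.le
      _ = S.rad (1 + (S.ie - k)) := by rw [S.rad_add, S.rad_one]
      _ ≤ S.rad (S.ie + 1 - S.p * k) := S.rad_le.2 (by
          have := S.two_le_p
          nlinarith)

theorem C_rad_eq {z z' : K} {k : ℚ} (hk : 0 < k) (h : S.zone .C z) (h' : S.zone .C z')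
    (hz : ‖z' - z‖ = S.rad (S.ie - k)) :
    ‖S.F.ev z' - S.F.ev z‖ = S.rad (S.ie + 1 - S.p * k) := by
  have h1 := (S.zC z' z h' h).2
  have h2 : ‖(z' - z) ^ S.p / S.α‖ = S.rad (S.ie + 1 - S.p * k) := by
    rw [norm_div, norm_pow, hz, S.steps_rad_pow]
  rw [← h2]
  refine norm_eq_of_sub_lt ?_
  rw [h2]
  have e1 : S.F.ev z' - S.F.ev z - (z' - z) ^ S.p / S.α =
      (S.F.ev z' - S.F.ev z - ((z' - z) ^ S.p / S.α + S.α * (z' - z))) + S.α * (z' - z) := by ring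
  have h3 : ‖S.α‖ * ‖z' - z‖ < S.rad (S.ie + 1 - S.p * k) := by
    calc ‖S.α‖ * ‖z' - z‖ = S.rad (1 + (S.ie - k)) := by rw [S.rad_add, S.rad_one, hz]
      _ < S.rad (S.ie + 1 - S.p * k) := S.rad_lt.2 (by
          have := S.two_le_p
          nlinarith)
  rw [e1]
  refine steps_add_lt (h1.trans_lt (lt_of_le_of_lt ?_ h3)) ?_
  · refine mul_le_mul_of_nonneg_right ?_ (norm_nonneg _)
    exact pow_le_of_le_one S.a_pos.le S.α1.le two_ne_zero
  · rwa [norm_mul]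

/-- strict version: smaller distances give strictly smaller distances -/
theorem C_rad_lt {z z' : K} {k : ℚ} (hk : 0 < k) (h : S.zone .C z) (h' : S.zone .C z')
    (hz : ‖z' - z‖ < S.rad (S.ie - k)) :
    ‖S.F.ev z' - S.F.ev z‖ < S.rad (S.ie + 1 - S.p * k) := by
  refine (S.C_le h h').trans_lt (max_lt ?_ ?_)
  · rw [← S.steps_rad_pow]
    exact div_lt_div_of_pos_right (pow_lt_pow_left₀ hz (norm_nonneg _) S.hp.ne_zero) S.a_pos
  · calc ‖S.α‖ * ‖z' - z‖ < ‖S.α‖ * S.rad (S.ie - k) :=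
          mul_lt_mul_of_pos_left hz S.a_pos
      _ = S.rad (1 + (S.ie - k)) := by rw [S.rad_add, S.rad_one]
      _ ≤ S.rad (S.ie + 1 - S.p * k) := S.rad_le.2 (by
          have := S.two_le_p
          nlinarith)

theorem X_eq {z z' : K} (h : S.zone .X z) (h' : S.zone .X z') :
    ‖S.F.ev z' - S.F.ev z‖ = ‖z' - z‖ / ‖S.α‖ := by
  rcases eq_or_ne z' z with rfl | hne
  · simp
  have hpos : 0 < ‖z' - z‖ := norm_pos_iff.2 (sub_ne_zero.2 hne)
  have h1 := (S.zX z' z (S.steps_X_zone h') (S.steps_X_zone h)).2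
  rw [← norm_div]
  refine norm_eq_of_sub_lt (h1.trans_lt ?_)
  rw [norm_div, lt_div_iff₀ S.a_pos]
  calc ‖S.α‖ ^ 5 * ‖z' - z‖ * ‖S.α‖ = ‖S.α‖ ^ 6 * ‖z' - z‖ := by ring
    _ < 1 * ‖z' - z‖ :=
        mul_lt_mul_of_pos_right (pow_lt_one₀ S.a_pos.le S.α1 (by norm_num)) hpos
    _ = ‖z' - z‖ := one_mul _

theorem steps_gam_sub {e : ℚ} (h : S.ie ≤ e) : S.gam - e < 10 := by
  have := S.ie_le
  unfold gam
  linarith

/-- `z = w + v + (< ‖v‖)` is mapped to `b + c / v + (< ‖c / v‖)`; the error `a ^ 10` is small because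
`gam - e ≤ gam - ie = ie + 21 / 4 < 10` -/
theorem W_val {b z v : K} {e : ℚ} (he : S.ie ≤ e) (hv : ‖v‖ = S.rad e)
    (h : ‖z - S.w - v‖ < S.rad e) : ‖S.g b z - b - S.c / v‖ < S.rad (S.gam - e) := by
  have hu : ‖z - S.w‖ = S.rad e := by
    rw [← hv]
    refine norm_eq_of_sub_lt ?_
    rwa [hv]
  have hz : S.zone (.W e) z := ⟨hu, he⟩
  have h1 := (S.zW z (S.steps_W_ne hu) (S.steps_W_le hu he)).2
  have hu0 : z - S.w ≠ 0 := by rw [← norm_pos_iff, hu]; exact S.rad_pos e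
  have hv0 : v ≠ 0 := by rw [← norm_pos_iff, hv]; exact S.rad_pos e
  rw [S.g_eq b (S.zone_nopole hz)]
  have e1 : S.F.ev z + b - b - S.c / v =
      (S.F.ev z - S.c / (z - S.w)) + (-(S.c * (z - S.w - v)) / ((z - S.w) * v)) := by
    field_simp
    ring
  rw [e1]
  refine steps_add_lt (h1.trans_lt ?_) ?_
  · rw [S.steps_rad_ofNat 10]
    exact S.rad_lt.2 (S.steps_gam_sub he)
  · rw [norm_div, norm_neg, norm_mul, norm_mul, hu, hv, S.norm_c, S.rad_sub]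
    have hr := S.rad_pos e
    have hc := S.rad_pos S.gam
    rw [div_lt_div_iff₀ (mul_pos hr hr) hr]
    calc S.rad S.gam * ‖z - S.w - v‖ * S.rad e < S.rad S.gam * S.rad e * S.rad e := by
          refine mul_lt_mul_of_pos_right (mul_lt_mul_of_pos_left h hc) hr
      _ = S.rad S.gam * (S.rad e * S.rad e) := by ring

/-- the image of the zone `W e` -/
theorem W_dist {b z : K} {e : ℚ} (h : S.zone (.W e) z) : ‖S.g b z - b‖ = S.rad (S.gam - e) := by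
  obtain ⟨h0, h1⟩ := h
  have h2 := S.W_val (b := b) (z := z) (v := z - S.w) h1 h0 (by
    rw [sub_self, norm_zero]; exact S.rad_pos e)
  have h3 : ‖S.c / (z - S.w)‖ = S.rad (S.gam - e) := by
    rw [norm_div, h0, S.norm_c, S.rad_sub]
  rw [← h3]
  refine norm_eq_of_sub_lt ?_
  rw [h3]
  exact h2

/-- distances in the zone `W e` (also with different parameters) -/
theorem W_scal {b b' z z' : K} {e : ℚ} (h : S.zone (.W e) z) (h' : ‖z' - z‖ < S.rad e)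
    (hb : ‖b' - b‖ < S.rad (S.gam - 2 * e) * ‖z' - z‖) :
    ‖S.g b' z' - S.g b z‖ = S.rad (S.gam - 2 * e) * ‖z' - z‖ := by
  have hr := S.rad_pos (S.gam - 2 * e)
  have hpos : 0 < ‖z' - z‖ := by
    by_contra hc
    have : ‖z' - z‖ = 0 := le_antisymm (not_lt.1 hc) (norm_nonneg _)
    rw [this, mul_zero] at hb
    exact absurd hb (not_lt.2 (norm_nonneg _))
  obtain ⟨h0, h2⟩ := id h
  have e0 : z' - S.w = (z' - z) + (z - S.w) := by ring
  have h0' : ‖z' - S.w‖ = S.rad e := by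
    rw [e0, steps_norm_add, h0]
    rwa [h0]
  have hz' : S.zone (.W e) z' := ⟨h0', h2⟩
  have h1 := S.zW' z' z (S.steps_W_ne h0') (S.steps_W_le h0' h2) (S.steps_W_ne h0)
    (S.steps_W_le h0 h2)
  have h4 := S.steps_W_main h0 h'
  have h5 : ‖S.slope (.W e) z * (z' - z)‖ = S.rad (S.gam - 2 * e) * ‖z' - z‖ := by
    rw [norm_mul, S.norm_slope h]
    rfl
  rw [← h5]
  refine norm_eq_of_sub_lt ?_
  rw [h5, S.g_eq b' (S.zone_nopole hz'), S.g_eq b (S.zone_nopole h)]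
  change ‖S.F.ev z' + b' - (S.F.ev z + b) - (-S.c / (z - S.w) ^ 2) * (z' - z)‖ < _
  have e1 : S.F.ev z' + b' - (S.F.ev z + b) - (-S.c / (z - S.w) ^ 2) * (z' - z) =
      (S.F.ev z' - S.F.ev z - (S.c / (z' - S.w) - S.c / (z - S.w))) +
      ((S.c / (z' - S.w) - S.c / (z - S.w) - (-S.c / (z - S.w) ^ 2) * (z' - z)) + (b' - b)) := by
    ring
  rw [e1]
  refine steps_add_lt (h1.trans_lt ?_) (steps_add_lt (h4.trans_lt ?_) hb)
  · refine mul_lt_mul_of_pos_right ?_ hpos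
    rw [S.steps_rad_ofNat 10]
    exact S.rad_lt.2 (S.steps_W_gain h2)
  · refine mul_lt_mul_of_pos_right ?_ hpos
    refine mul_lt_of_lt_one_right hr ?_
    rwa [div_lt_one (S.rad_pos e)]

/-- at distances `≤ ι` the map is `u ↦ u ^ p + u` in the units `ι₀` -/
theorem C_contact {z z' u : K} (h : S.zone .C z) (h' : S.zone .C z') (hu : ‖u‖ ≤ 1)
    (hz : ‖z' - z - S.ι₀ * u‖ < S.rad S.ie) :
    ‖S.F.ev z' - S.F.ev z - S.α * S.ι₀ * S.A u‖ < S.rad (S.ie + 1) := by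
  have h1 := (S.zC z' z h' h).2
  have hιu : ‖S.ι₀ * u‖ ≤ S.rad S.ie := by
    rw [norm_mul, S.norm_ι]
    exact mul_le_of_le_one_right (S.rad_pos _).le hu
  have hzz : ‖z' - z‖ ≤ S.rad S.ie := by
    have e0 : z' - z = (z' - z - S.ι₀ * u) + S.ι₀ * u := by ring
    rw [e0]
    exact steps_add_le hz.le hιu
  have hp : S.p = (S.p - 1) + 1 := by have := S.hp.one_lt; omega
  have hA : S.α * S.ι₀ * S.A u = (S.ι₀ * u) ^ S.p / S.α + S.α * (S.ι₀ * u) := by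
    unfold A
    have h2 : S.ι₀ ^ S.p = S.α ^ 2 * S.ι₀ := by
      conv_lhs => rw [hp]
      rw [pow_succ, S.hι]
    rw [mul_pow, h2]
    have := S.α0
    field_simp
  rw [hA]
  have e1 : S.F.ev z' - S.F.ev z - ((S.ι₀ * u) ^ S.p / S.α + S.α * (S.ι₀ * u)) =
      (S.F.ev z' - S.F.ev z - ((z' - z) ^ S.p / S.α + S.α * (z' - z))) +
      (((z' - z) ^ S.p - (S.ι₀ * u) ^ S.p) / S.α + S.α * (z' - z - S.ι₀ * u)) := by ring
  rw [e1, S.rad_add, S.rad_one]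
  have hr := S.rad_pos S.ie
  have ha := S.a_pos
  refine steps_add_lt (h1.trans_lt ?_) (steps_add_lt ?_ ?_)
  · calc ‖S.α‖ ^ 2 * ‖z' - z‖ ≤ ‖S.α‖ ^ 2 * S.rad S.ie :=
          mul_le_mul_of_nonneg_left hzz (by positivity)
      _ < ‖S.α‖ * S.rad S.ie := by
          refine mul_lt_mul_of_pos_right ?_ hr
          rw [pow_two]
          exact mul_lt_of_lt_one_right ha S.α1
      _ = S.rad S.ie * ‖S.α‖ := mul_comm _ _
  · rw [norm_div, div_lt_iff₀ ha]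
    refine (steps_pow_sub hzz hιu).trans_lt ?_
    have h3 : S.rad S.ie ^ (S.p - 1) = ‖S.α‖ ^ 2 := by
      rw [← S.norm_ι, ← norm_pow, S.hι, norm_pow]
    rw [h3]
    calc ‖z' - z - S.ι₀ * u‖ * ‖S.α‖ ^ 2 < S.rad S.ie * ‖S.α‖ ^ 2 :=
          mul_lt_mul_of_pos_right hz (by positivity)
      _ = S.rad S.ie * ‖S.α‖ * ‖S.α‖ := by ring
  · rw [norm_mul, mul_comm]
    exact mul_lt_mul_of_pos_right hz ha

end Sys

end Pool.Agent.FIC
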