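import Pool.Agent.FIC.BM

/-!
# The systems: definitions

`Sys K`: a rational map `F` with the zone laws (ZC), (ZX), (ZT), (ZW) of the paper proof
(/team-store/MP_448b21_proof_helper31.md, Part 1).  Everything after this file uses only these laws;
`exists_sys` (files `Mk*.lean`) constructs systems of every large degree.

All radii are `rad e = ‖α‖ ^ e` with `e : ℚ`.
-/

open Polynomial

noncomputable section

namespace Pool.Agent.FIC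

/-- `a ^ e` -/
def rad (a : ℝ) (e : ℚ) : ℝ := a ^ (e : ℝ)

variable (K : Type*) [NontriviallyNormedField K]

/-- the shift `f + b` of a rational map -/
def RatMap.shift {K : Type*} [NontriviallyNormedField K] (f : RatMap K) (b : K) : RatMap K :=
  ⟨f.P + C b * f.Q, f.Q, f.coprime.add_mul_right_left (C b)⟩

/-- a rational map with the zone laws -/
structure Sys where
  p : ℕ
  hp : p.Prime
  α : K
  α0 : α ≠ 0
  α1 : ‖α‖ < 1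
  hpα : ‖(p : K)‖ ≤ ‖α‖ ^ 3
  ι₀ : K
  hι : ι₀ ^ (p - 1) = α ^ 2
  ϑ : K
  hϑ : ϑ ^ (p - 1) = -1
  c : K
  hc : ‖c‖ = rad ‖α‖ (2 * (2 / ((p : ℚ) - 1)) + 21 / 4)
  t : K
  d : K
  w : K
  ht : ‖t‖ = 1
  hd : ‖d‖ = 1
  hw : ‖w‖ = 1
  htd : ‖t - d‖ = 1
  htw : ‖t - w‖ = 1
  hdw : ‖d - w‖ = 1
  F : RatMap K
  zC : ∀ z z', ‖z - d‖ ≤ rad ‖α‖ (1 / p) → ‖z' - d‖ ≤ rad ‖α‖ (1 / p) → F.Q.eval z ≠ 0 ∧
    ‖F.ev z - F.ev z' - ((z - z') ^ p / α + α * (z - z'))‖ ≤ ‖α‖ ^ 2 * ‖z - z'‖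
  zC0 : ‖F.ev d - d‖ ≤ ‖α‖ ^ 5
  zX : ∀ z z', ‖z‖ ≤ ‖α‖ → ‖z'‖ ≤ ‖α‖ → F.Q.eval z ≠ 0 ∧
    ‖F.ev z - F.ev z' - (z - z') / α‖ ≤ ‖α‖ ^ 5 * ‖z - z'‖
  zX0 : ‖F.ev 0‖ ≤ ‖α‖ ^ 5
  zT : ∀ z, rad ‖α‖ (1 + 1 / (4 * p + 1)) ≤ ‖z - t‖ → ‖z - t‖ ≤ rad ‖α‖ (1 - 1 / (4 * p + 1) ^ 2) →
    F.Q.eval z ≠ 0 ∧
    ‖F.ev z - (t + α ^ (4 * p + 2) / (z - t) ^ (4 * p + 1))‖ ≤ ‖α‖ ^ 5
  zT' : ∀ z z', rad ‖α‖ (1 + 1 / (4 * p + 1)) ≤ ‖z - t‖ →
    ‖z - t‖ ≤ rad ‖α‖ (1 - 1 / (4 * p + 1) ^ 2) →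
    rad ‖α‖ (1 + 1 / (4 * p + 1)) ≤ ‖z' - t‖ → ‖z' - t‖ ≤ rad ‖α‖ (1 - 1 / (4 * p + 1) ^ 2) →
    ‖F.ev z - F.ev z' - (α ^ (4 * p + 2) / (z - t) ^ (4 * p + 1) -
      α ^ (4 * p + 2) / (z' - t) ^ (4 * p + 1))‖ ≤ ‖α‖ ^ 5 * ‖z - z'‖
  zW : ∀ z, z ≠ w → ‖z - w‖ ≤ ‖ι₀‖ → F.Q.eval z ≠ 0 ∧ ‖F.ev z - c / (z - w)‖ ≤ ‖α‖ ^ 10
  zW' : ∀ z z', z ≠ w → ‖z - w‖ ≤ ‖ι₀‖ → z' ≠ w → ‖z' - w‖ ≤ ‖ι₀‖ →
    ‖F.ev z - F.ev z' - (c / (z - w) - c / (z' - w))‖ ≤ ‖α‖ ^ 10 * ‖z - z'‖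
  pole : F.Q.eval w = 0
  simple : F.Q.derivative.eval w ≠ 0
  deg : F.P.natDegree ≤ F.Q.natDegree

/-- the types of steps -/
inductive Step where
  | C
  | X
  | T (e : ℚ)
  | W (e : ℚ)

/-- the list `(C X)^M` -/
def CXL : ℕ → List Step
  | 0 => []
  | M + 1 => Step.C :: Step.X :: CXL M

/-- the contact list `(C X)^M C` -/
def KL : ℕ → List Step
  | 0 => [Step.C]
  | M + 1 => Step.C :: Step.X :: KL M

variable {K}

namespace Sys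

variable (S : Sys K)

/-- `rad e = a ^ e`, `a = ‖α‖` -/
def rad (e : ℚ) : ℝ := FIC.rad ‖S.α‖ e

/-- the exponent `2 / (p - 1)` of `ι` -/
def ie : ℚ := 2 / ((S.p : ℚ) - 1)

/-- the exponent of `c` -/
def gam : ℚ := 2 * S.ie + 21 / 4

/-- the number `N = 4 p + 1` -/
def N : ℕ := 4 * S.p + 1

/-- `τ = (ie - 1/p) / p ^ M` -/
def tau (M : ℕ) : ℚ := (S.ie - 1 / S.p) / (S.p : ℚ) ^ M

/-- `ω = (ie - 1/(p-1)) / p ^ M` -/
def om (M : ℕ) : ℚ := (1 / ((S.p : ℚ) - 1)) / (S.p : ℚ) ^ M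

/-- the map `f + b` on `K` -/
def g (b z : K) : K := (S.F.shift b).ev z

/-- the orbit -/
def orb (b x : K) (n : ℕ) : K := (S.g b)^[n] x

/-- gain of a step: the exponent of its slope -/
def gain : Step → ℚ
  | .C => 1
  | .X => -1
  | .T e => (S.N + 1) * (1 - e)
  | .W e => S.gam - 2 * e

/-- the zone of a step -/
def zone : Step → K → Prop
  | .C, z => ‖z - S.d‖ ≤ S.rad (1 / S.p)
  | .X, z => ‖z‖ ≤ S.rad 1
  | .T e, z => ‖z - S.t‖ = S.rad e ∧ 1 - 1 / (S.N : ℚ) ^ 2 ≤ e ∧ e ≤ 1 + 1 / S.N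
  | .W e, z => ‖z - S.w‖ = S.rad e ∧ S.ie ≤ e

/-- the slope of a step -/
def slope : Step → K → K
  | .C, _ => S.α
  | .X, _ => S.α⁻¹
  | .T _, z => -(S.N : K) * S.α ^ (S.N + 1) / (z - S.t) ^ (S.N + 1)
  | .W _, z => -S.c / (z - S.w) ^ 2

/-- the radius `rad E` is allowed for the step -/
def ok : Step → ℚ → Prop
  | .C, E => S.ie ≤ E
  | .X, E => 1 ≤ E
  | .T e, E => e < E
  | .W e, E => e < E

/-- the orbit of `x` under `g b` passes through the zones of the list, with admissible radii -/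
def Run (b : K) : K → ℚ → List Step → Prop
  | _, _, [] => True
  | x, E, s :: L => S.zone s x ∧ S.ok s E ∧ Run b (S.g b x) (E + S.gain s) L

/-- total gain -/
def gains (L : List Step) : ℚ := (L.map S.gain).sum

/-- all partial gains (of nonempty initial segments) are `≤ g₀` -/
def GLow : ℚ → List Step → Prop
  | _, [] => True
  | g₀, s :: L => S.gain s ≤ g₀ ∧ GLow (g₀ - S.gain s) L

/-- total slope -/
def slp (b : K) : K → List Step → K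
  | _, [] => 1
  | x, s :: L => S.slope s x * slp b (S.g b x) L

/-- contact runs -/
def CRun (b : K) : K → ℕ → Prop
  | z, 0 => ‖z - S.d‖ = S.rad (1 / S.p)
  | z, M + 1 => ‖z - S.d‖ = S.rad (1 / S.p) ∧ ‖S.g b z‖ ≤ S.rad 1 ∧
      CRun b (S.g b (S.g b z)) M

/-- the exponents of the T-blocks, counted from the end -/
def te (k : ℕ) : ℚ := 1 + (-1) ^ k / (S.N : ℚ) ^ (k + 1)

/-- the T-blocks -/
def TB : ℕ → List Step
  | 0 => [Step.T (S.te 0)]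
  | k + 1 => Step.T (S.te (k + 1)) :: TB k

/-- the lists after contact: `k + 1` T-blocks, separated by `C` -/
def LQ (i : ℕ) : ℕ → List Step
  | 0 => S.TB i
  | k + 1 => S.TB i ++ Step.C :: LQ i k

/-- the polynomial map `A u = u ^ p + u` -/
def A (u : K) : K := u ^ S.p + u

end Sys

/-- the states of the construction -/
structure Sys.State (S : Sys K) where
  b₀ : K
  s : ℚ
  E₀ : ℚ
  x : ℚ
  ε : ℚ
  Lp : List Step
  Lq : List Step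
  M : ℕ
  hb : ‖b₀‖ ≤ S.rad 5
  hs : S.ie + 5 ≤ s
  hE : E₀ ≤ s
  hM : 1 ≤ M
  hε : 0 < ε
  hμ : 0 < S.gam - S.ie - x - E₀
  hτ : 2 * S.tau M < x - (S.gam - S.ie - x - E₀)
  hx : x + (S.gam - S.ie - x - E₀) ≤ 1 / 4
  runp : S.Run b₀ b₀ (E₀ - 2 * S.tau M) Lp
  gp : S.gains Lp = S.ie - E₀
  crun : S.CRun b₀ (S.orb b₀ b₀ Lp.length) M
  runq : S.Run b₀ (S.orb b₀ b₀ (Lp.length + (2 * M + 1))) (S.ie + 1 - ε) Lq
  gq : S.gains Lq = x - 1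
  close : ‖S.orb b₀ b₀ (Lp.length + (2 * M + 1) + Lq.length) - S.w‖ < S.rad (S.ie + x)
  low : S.GLow (s - E₀) (Lp ++ KL M ++ Lq)
  scal : ∀ b b', ‖b - b₀‖ < S.rad s → ‖b' - b₀‖ < S.rad s →
    ‖S.orb b b (Lp.length + (2 * M + 1) + Lq.length) -
      S.orb b' b' (Lp.length + (2 * M + 1) + Lq.length)‖ = S.rad (S.ie + x - s) * ‖b - b'‖

namespace Sys.State

variable {S : Sys K} (st : S.State)

/-- the exponent of `ρ / r` -/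
def mu : ℚ := S.gam - S.ie - st.x - st.E₀

/-- the exponent `τ` -/
def ta : ℚ := S.tau st.M

/-- the full list -/
def L : List Step := st.Lp ++ KL st.M ++ st.Lq

/-- the time of contact -/
def m₀ : ℕ := st.Lp.length

/-- the length -/
def n : ℕ := st.Lp.length + (2 * st.M + 1) + st.Lq.length

end Sys.State

end Pool.Agent.FIC
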