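import Pool.Agent.FIC.Back

/-!
# T-blocks

`te k = 1 + (-1)^k / N^(k+1)`; `N + 1 - N te (k+1) = te k`, `N + 1 - N te 0 = 0`,
`te (k+1) = 1 + (1 - te k) / N`; `gain (T e) = (N + 1 - N e) - e`.  `TB k` has length `k + 1`.

* `TB_run`: induction on `k` with `forw_T`; `ok (T e) E` iff `e < E`, and along the block `E - e` is
  constant: `E + gain (T (te (k+1))) - te k = E - te (k+1)`.
* `TB_back`: induction on `k` with `back_T`: for `k = 0` `e' = 0`; for `k + 1` first apply the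
  induction hypothesis to get `z'` with `‖z' - t‖ = rad (te k)`, then `back_T` with `e' = te k`.
* `TB_glow`: partial gains are `te j - te k` (`j < k`) and `- te k`; all `≤ 1/N + 1/N^2 ≤ 1/4`.
* `LQ_back`: induction on `k`: `LQ i (k+1) = TB i ++ C :: LQ i k`: by induction there is `z'` with
  `‖z' - t‖ = rad (te i) < 1`, so `‖z' - d‖ = 1`; `back_C` gives `z''` with `‖z'' - d‖ = rad (1/p)`,
  `‖z'' - t‖ = 1`; `TB_back`.  The radius at the step `C` is `E - te i ≥ ie` for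
  `E = ie + 1 - 1/N^(i+1)`, `te i = 1 - 1/N^(i+1)` (`i` odd), and the rest starts at
  `E - te i + 1 ≥ E`(use `Run.mono`).
* `LQ_glow`: `GLow 1` for `LQ i k`, if `(k + 1) / N^(i+1) ≤ 1/4`: the partial gains are
  `j (1 - te i) + (≤ 1/4)` resp. `j (1 - te i) - te i + 1`, ... each `≤ 1/4 + 1/4 + ...`; precisely
  after `j` blocks and `C`: `j / N^(i+1)`; after `j` blocks: `j / N^(i+1) - 1`... Use induction on `k`
  with the statement: `GLow (1/4 + (k+1)/N^(i+1)) (LQ i k)`.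
-/

open Polynomial

noncomputable section

namespace Pool.Agent.FIC

variable {K : Type*} [NontriviallyNormedField K] [IsUltrametricDist K]

namespace Sys

variable (S : Sys K)

theorem te_succ (k : ℕ) : S.te (k + 1) = 1 + (1 - S.te k) / S.N := by
  have hN : (S.N : ℚ) ≠ 0 := by
    have := S.nine_le_N
    intro h
    rw [h] at this
    norm_num at this
  unfold te
  rw [pow_succ (-1 : ℚ) k, pow_succ (S.N : ℚ) (k + 1)]
  field_simp
  ring

theorem te_range (k : ℕ) : 1 - 1 / (S.N : ℚ) ^ 2 ≤ S.te k ∧ S.te k ≤ 1 + 1 / S.N := by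
  have h9 := S.nine_le_N
  have hN : (0 : ℚ) < S.N := by linarith
  have hN1 : (1 : ℚ) ≤ S.N := by linarith
  have hle : (1 : ℚ) / (S.N : ℚ) ^ 2 ≤ 1 / S.N := by
    apply one_div_le_one_div_of_le hN
    calc (S.N : ℚ) = (S.N : ℚ) ^ 1 := (pow_one _).symm
      _ ≤ (S.N : ℚ) ^ 2 := pow_le_pow_right₀ hN1 (by norm_num)
  have h2 : (0 : ℚ) < 1 / (S.N : ℚ) ^ 2 := by positivity
  rcases k with _ | k
  · have h0 : S.te 0 = 1 + 1 / S.N := by simp [te]
    rw [h0]
    exact ⟨by linarith, le_refl _⟩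
  · have h1 : (1 : ℚ) / (S.N : ℚ) ^ (k + 1 + 1) ≤ 1 / (S.N : ℚ) ^ 2 := by
      apply one_div_le_one_div_of_le (by positivity)
      exact pow_le_pow_right₀ hN1 (by omega)
    have h3 : (0 : ℚ) < 1 / (S.N : ℚ) ^ (k + 1 + 1) := by positivity
    rcases neg_one_pow_eq_or ℚ (k + 1) with h | h
    · have h0 : S.te (k + 1) = 1 + 1 / (S.N : ℚ) ^ (k + 1 + 1) := by rw [te, h]
      rw [h0]
      exact ⟨by linarith, by linarith⟩
    · have h0 : S.te (k + 1) = 1 - 1 / (S.N : ℚ) ^ (k + 1 + 1) := by rw [te, h]; ring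
      rw [h0]
      exact ⟨by linarith, by linarith⟩

theorem te_odd {i : ℕ} (h : Odd i) : S.te i = 1 - 1 / (S.N : ℚ) ^ (i + 1) := by
  rw [te, h.neg_one_pow]
  ring

theorem te_even {i : ℕ} (h : Even i) : S.te i = 1 + 1 / (S.N : ℚ) ^ (i + 1) := by
  rw [te, h.neg_one_pow]

/-- the recursion without division -/
theorem te_rec (k : ℕ) : S.te k = 1 + S.N * (1 - S.te (k + 1)) := by
  have hN : (S.N : ℚ) ≠ 0 := by
    have := S.nine_le_N
    intro h
    rw [h] at this
    norm_num at this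
  rw [te_succ]
  field_simp
  ring

theorem gain_T_te (k : ℕ) : S.gain (.T (S.te (k + 1))) = S.te k - S.te (k + 1) := by
  have h : S.gain (.T (S.te (k + 1))) = (S.N + 1) * (1 - S.te (k + 1)) := rfl
  rw [h, S.te_rec k]
  ring

theorem te_zero : S.te 0 = 1 + 1 / S.N := by simp [te]

theorem gain_T_zero : S.gain (.T (S.te 0)) = - S.te 0 := by
  have hN : (S.N : ℚ) ≠ 0 := by
    have := S.nine_le_N
    intro h
    rw [h] at this
    norm_num at this
  have h : S.gain (.T (S.te 0)) = (S.N + 1) * (1 - S.te 0) := rfl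
  rw [h, te_zero]
  field_simp
  ring

theorem TB_length (k : ℕ) : (S.TB k).length = k + 1 := by
  induction k with
  | zero => rfl
  | succ k ih => rw [TB, List.length_cons, ih]

theorem TB_gains (k : ℕ) : S.gains (S.TB k) = - S.te k := by
  induction k with
  | zero => rw [TB, gains_cons, gains_nil, add_zero, gain_T_zero]
  | succ k ih => rw [TB, gains_cons, ih, gain_T_te]; ring

theorem TB_glow_aux (k : ℕ) : ∀ g₀ : ℚ, 1 + 1 / S.N - S.te k ≤ g₀ → S.GLow g₀ (S.TB k) := by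
  have h9 := S.nine_le_N
  have hN : (0 : ℚ) < S.N := by linarith
  have h1 : (0 : ℚ) < 1 / S.N := by positivity
  induction k with
  | zero =>
    intro g₀ hg
    rw [te_zero] at hg
    refine ⟨?_, trivial⟩
    rw [gain_T_zero, te_zero]
    linarith
  | succ k ih =>
    intro g₀ hg
    refine ⟨?_, ih _ ?_⟩
    · rw [gain_T_te]
      have := (S.te_range k).2
      linarith
    · rw [gain_T_te]
      linarith

theorem TB_glow (k : ℕ) : S.GLow (1 / 4) (S.TB k) := by
  apply TB_glow_aux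
  have h9 := S.nine_le_N
  have h1 : (1 : ℚ) / S.N ≤ 1 / 9 := one_div_le_one_div_of_le (by norm_num) h9
  have h2 : (1 : ℚ) / (S.N : ℚ) ^ 2 ≤ 1 / 81 := by
    apply one_div_le_one_div_of_le (by norm_num)
    calc (81 : ℚ) = 9 ^ 2 := by norm_num
      _ ≤ (S.N : ℚ) ^ 2 := pow_le_pow_left₀ (by norm_num) h9 2
  have := (S.te_range k).1
  linarith

theorem LQ_gains {i : ℕ} (h : Odd i) (k : ℕ) :
    S.gains (S.LQ i k) = ((k : ℚ) + 1) / (S.N : ℚ) ^ (i + 1) - 1 := by
  have hC : S.gain .C = 1 := rfl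
  induction k with
  | zero => rw [LQ, TB_gains, S.te_odd h]; simp
  | succ k ih =>
    rw [LQ, gains_append, gains_cons, ih, TB_gains, S.te_odd h, hC]
    push_cast
    ring

theorem LQ_glow {i : ℕ} (h : Odd i) (k : ℕ) :
    S.GLow (1 / 4 + ((k : ℚ) + 1) / (S.N : ℚ) ^ (i + 1)) (S.LQ i k) := by
  have h9 := S.nine_le_N
  have hN : (0 : ℚ) < S.N := by linarith
  have hC : S.gain .C = 1 := rfl
  have hpos : (0 : ℚ) < 1 / (S.N : ℚ) ^ (i + 1) := by positivity
  induction k with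
  | zero =>
    rw [LQ]
    refine (S.TB_glow i).mono ?_
    have : (((0 : ℕ) : ℚ) + 1) / (S.N : ℚ) ^ (i + 1) = 1 / (S.N : ℚ) ^ (i + 1) := by simp
    rw [this]
    linarith
  | succ k ih =>
    have e1 : (((k + 1 : ℕ) : ℚ) + 1) / (S.N : ℚ) ^ (i + 1)
        = 1 / (S.N : ℚ) ^ (i + 1) + ((k : ℚ) + 1) / (S.N : ℚ) ^ (i + 1) := by
      push_cast
      ring
    have hk0 : (0 : ℚ) < ((k : ℚ) + 1) / (S.N : ℚ) ^ (i + 1) := by positivity
    have hk1 : 1 / (S.N : ℚ) ^ (i + 1) ≤ ((k : ℚ) + 1) / (S.N : ℚ) ^ (i + 1) := by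
      apply div_le_div_of_nonneg_right _ (by positivity)
      have : (0 : ℚ) ≤ k := by positivity
      linarith
    rw [LQ, glow_append, e1]
    refine ⟨(S.TB_glow i).mono (by linarith), ?_, ?_⟩
    · rw [hC, TB_gains, S.te_odd h]
      linarith
    · refine ih.mono ?_
      rw [hC, TB_gains, S.te_odd h]
      linarith

theorem TB_run {b z : K} {k : ℕ} {E : ℚ} (hb : ‖b‖ ≤ S.rad 5) (hz : ‖z - S.t‖ = S.rad (S.te k))
    (hE : S.te k < E) : S.Run b z E (S.TB k) := by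
  induction k generalizing z E with
  | zero => exact ⟨⟨hz, S.te_range 0⟩, hE, trivial⟩
  | succ k ih =>
    have hzone : S.zone (.T (S.te (k + 1))) z := ⟨hz, S.te_range (k + 1)⟩
    refine ⟨hzone, hE, ih ?_ ?_⟩
    · rw [S.forw_T hb hzone]
      congr 1
      rw [S.te_rec k]
      ring
    · rw [gain_T_te]
      linarith

variable [IsAlgClosed K]

theorem TB_back {b τ : K} (hb : ‖b‖ ≤ S.rad 5) (hτ : ‖τ - S.t‖ = 1) (k : ℕ) :
    ∃ z, ‖z - S.t‖ = S.rad (S.te k) ∧ S.orb b z (k + 1) = τ := by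
  induction k with
  | zero =>
    obtain ⟨z, hz, hg⟩ := S.back_T (e' := 0) hb (Or.inl rfl) (by rw [rad_zero]; exact hτ)
    refine ⟨z, ?_, ?_⟩
    · rw [hz, te_zero, sub_zero]
    · rw [zero_add, orb_one]
      exact hg
  | succ k ih =>
    obtain ⟨z', hz', hg'⟩ := ih
    obtain ⟨z, hz, hg⟩ := S.back_T (e' := S.te k) hb (Or.inr (S.te_range k)) hz'
    refine ⟨z, ?_, ?_⟩
    · rw [hz, te_succ]
    · rw [orb_succ', hg]
      exact hg'

omit [IsAlgClosed K] in
/-- distance to another centre -/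
theorem tblock_norm_sub {x y z : K} (h : ‖x - y‖ < 1) (h' : ‖y - z‖ = 1) : ‖x - z‖ = 1 := by
  have e : x - z = (x - y) + (y - z) := by ring
  have hne : ‖x - y‖ ≠ ‖y - z‖ := by rw [h']; exact h.ne
  rw [e, IsUltrametricDist.norm_add_eq_max_of_norm_ne_norm hne, h', max_eq_right h.le]

theorem LQ_back {b : K} (hb : ‖b‖ ≤ S.rad 5) {i : ℕ} (hi : Odd i) (k : ℕ) :
    ∃ z, ‖z - S.t‖ = S.rad (S.te i) ∧
      S.Run b z (S.ie + 1 - 1 / (S.N : ℚ) ^ (i + 1)) (S.LQ i k) ∧
      S.orb b z (S.LQ i k).length = S.w := by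
  have h9 := S.nine_le_N
  have hN : (0 : ℚ) < S.N := by linarith
  have hpos : (0 : ℚ) < 1 / (S.N : ℚ) ^ (i + 1) := by positivity
  have hie := S.ie_pos
  have hC : S.gain .C = 1 := rfl
  have hte0 : 0 < S.te i := by
    have h1 := (S.te_range i).1
    have h2 : (1 : ℚ) / (S.N : ℚ) ^ 2 ≤ 1 / 81 := by
      apply one_div_le_one_div_of_le (by norm_num)
      calc (81 : ℚ) = 9 ^ 2 := by norm_num
        _ ≤ (S.N : ℚ) ^ 2 := pow_le_pow_left₀ (by norm_num) h9 2
    linarith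
  have hE : S.te i < S.ie + 1 - 1 / (S.N : ℚ) ^ (i + 1) := by
    rw [S.te_odd hi]
    linarith
  induction k with
  | zero =>
    obtain ⟨z, hz, ho⟩ := S.TB_back hb (τ := S.w) (by rw [norm_sub_rev]; exact S.htw) i
    refine ⟨z, hz, ?_, ?_⟩
    · rw [LQ]
      exact S.TB_run hb hz hE
    · rw [LQ, TB_length]
      exact ho
  | succ k ih =>
    obtain ⟨z', hz', hr', ho'⟩ := ih
    have hz1 : ‖z' - S.t‖ < 1 := by rw [hz']; exact S.rad_lt_one.2 hte0
    have hz'd : ‖z' - S.d‖ = 1 := tblock_norm_sub hz1 S.htd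
    obtain ⟨z'', hz'', hg'', -, -⟩ := S.back_C hb hz'd.le
    have h1 : ‖z'' - S.d‖ < 1 := lt_of_le_of_lt hz'' (S.rad_lt_one.2 S.inv_p_pos)
    have hz''t : ‖z'' - S.t‖ = 1 := tblock_norm_sub h1 (by rw [norm_sub_rev]; exact S.htd)
    obtain ⟨z, hz, ho⟩ := S.TB_back hb hz''t i
    refine ⟨z, hz, ?_, ?_⟩
    · rw [LQ, run_append, TB_length, ho]
      refine ⟨S.TB_run hb hz hE, hz'', ?_, ?_⟩
      · change S.ie ≤ _
        rw [TB_gains, S.te_odd hi]
        linarith
      · rw [hg'']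
        refine hr'.mono ?_
        rw [hC, TB_gains, S.te_odd hi]
        linarith
    · rw [LQ, List.length_append, List.length_cons, TB_length, orb_add, ho, orb_succ', hg'']
      exact ho'

end Sys

end Pool.Agent.FIC
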